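import Mathlib

/-!
Harmonic sum identities for the critical beta-splitting tree.
-/

namespace Pool.Agent.R982.CBS

open Finset Filter Topology

/-- Harmonic numbers. -/
noncomputable def H (N : ℕ) : ℝ := ∑ i ∈ range N, 1 / ((i : ℝ) + 1)

/-- Second order harmonic numbers. -/
noncomputable def H2 (N : ℕ) : ℝ := ∑ i ∈ range N, 1 / ((i : ℝ) + 1) ^ 2

lemma H_zero : H 0 = 0 := by simp [H]
lemma H_succ (N : ℕ) : H (N + 1) = H N + 1 / ((N : ℝ) + 1) := by simp [H, sum_range_succ]
lemma H2_zero : H2 0 = 0 := by simp [H2]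
lemma H2_succ (N : ℕ) : H2 (N + 1) = H2 N + 1 / ((N : ℝ) + 1) ^ 2 := by simp [H2, sum_range_succ]

lemma H_mono {M N : ℕ} (h : M ≤ N) : H M ≤ H N := by
  unfold H
  refine sum_le_sum_of_subset_of_nonneg (range_mono h) fun i _ _ => by positivity

lemma H_one_le {N : ℕ} (h : 1 ≤ N) : 1 ≤ H N := by
  have h1 : H 1 = 1 := by rw [H_succ, H_zero]; norm_num
  rw [← h1]; exact H_mono h

lemma H_pos {N : ℕ} (h : 1 ≤ N) : 0 < H N := lt_of_lt_of_le one_pos (H_one_le h)

lemma H_nonneg (N : ℕ) : 0 ≤ H N := by rw [← H_zero]; exact H_mono (Nat.zero_le _)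

lemma H2_mono {M N : ℕ} (h : M ≤ N) : H2 M ≤ H2 N := by
  unfold H2
  refine sum_le_sum_of_subset_of_nonneg (range_mono h) fun i _ _ => by positivity

lemma H_eq_harmonic (N : ℕ) : (harmonic N : ℝ) = H N := by
  unfold H harmonic
  push_cast
  refine sum_congr rfl fun i _ => by rw [one_div]

/-- Reflection: `∑_{i<N} 1/(N-i) = H N`. -/
lemma H_reflect (N : ℕ) : ∑ i ∈ range N, 1 / ((N : ℝ) - i) = H N := by
  unfold H
  rw [← sum_range_reflect]
  refine sum_congr rfl fun i hi => ?_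
  have hi' := mem_range.mp hi
  rw [Nat.cast_sub (by omega), Nat.cast_sub (by omega)]
  push_cast
  congr 1
  ring

/-- The first identity. -/
lemma S_identity (N : ℕ) :
    ∑ i ∈ range N, 1 / ((i : ℝ) + 1) * (H N - H (N - 1 - i)) = H2 N := by
  induction N with
  | zero => simp [H2_zero]
  | succ N ih =>
    rw [sum_range_succ, H2_succ, ← ih]
    have h1 : ∑ i ∈ range N, 1 / ((i : ℝ) + 1) * (H (N + 1) - H (N + 1 - 1 - i))
        = ∑ i ∈ range N, 1 / ((i : ℝ) + 1) * (H N - H (N - 1 - i))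
          - 1 / ((N : ℝ) + 1) * ∑ i ∈ range N, 1 / ((N : ℝ) - i) := by
      rw [mul_sum, ← sum_sub_distrib]
      refine sum_congr rfl fun i hi => ?_
      have hi' := mem_range.mp hi
      have h2 : N + 1 - 1 - i = (N - 1 - i) + 1 := by omega
      rw [h2, H_succ N, H_succ (N - 1 - i)]
      have h3 : ((N - 1 - i : ℕ) : ℝ) + 1 = (N : ℝ) - i := by
        have : N - 1 - i + 1 = N - i := by omega
        have h4 : ((N - 1 - i + 1 : ℕ) : ℝ) = ((N - i : ℕ) : ℝ) := by rw [this]
        rw [Nat.cast_sub hi'.le] at h4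
        push_cast at h4
        exact h4
      rw [h3]
      have h5 : (0 : ℝ) < (N : ℝ) - i := by
        have : (i : ℝ) < N := by exact_mod_cast hi'
        linarith
      field_simp
      ring
    rw [h1, H_reflect]
    have h2 : N + 1 - 1 - N = 0 := by omega
    rw [h2, H_zero, sub_zero, H_succ]
    field_simp
    ring

lemma sum_H_div (N : ℕ) : ∑ l ∈ range N, H l / ((l : ℝ) + 1) = (H N ^ 2 - H2 N) / 2 := by
  induction N with
  | zero => simp [H_zero, H2_zero]
  | succ N ih =>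
    rw [sum_range_succ, ih, H_succ, H2_succ]
    field_simp
    ring

lemma U_identity (N : ℕ) :
    ∑ i ∈ range N, (H N - H (N - 1 - i)) / ((N : ℝ) - i) = (H N ^ 2 + H2 N) / 2 := by
  have h1 : ∑ i ∈ range N, (H N - H (N - 1 - i)) / ((N : ℝ) - i)
      = ∑ l ∈ range N, (H N - H l) / ((l : ℝ) + 1) := by
    rw [← sum_range_reflect]
    refine sum_congr rfl fun i hi => ?_
    have hi' := mem_range.mp hi
    have h2 : N - 1 - (N - 1 - i) = i := by omega
    rw [h2, Nat.cast_sub (by omega), Nat.cast_sub (by omega)]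
    push_cast
    congr 1
    ring
  rw [h1]
  have h2 : ∑ l ∈ range N, (H N - H l) / ((l : ℝ) + 1)
      = H N * ∑ l ∈ range N, 1 / ((l : ℝ) + 1) - ∑ l ∈ range N, H l / ((l : ℝ) + 1) := by
    rw [mul_sum, ← sum_sub_distrib]
    refine sum_congr rfl fun i _ => ?_
    ring
  rw [h2, sum_H_div]
  change H N * H N - _ = _
  ring

lemma V_identity (N : ℕ) : ∑ i ∈ range N, ((i : ℝ) + 1) / ((N : ℝ) - i) ^ 2
    = (N + 1) * H2 N - H N := by
  have h1 : ∑ i ∈ range N, ((i : ℝ) + 1) / ((N : ℝ) - i) ^ 2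
      = ∑ l ∈ range N, ((N : ℝ) - l) / ((l : ℝ) + 1) ^ 2 := by
    rw [← sum_range_reflect]
    refine sum_congr rfl fun i hi => ?_
    have hi' := mem_range.mp hi
    rw [Nat.cast_sub (by omega), Nat.cast_sub (by omega)]
    push_cast
    congr 1
    · ring
    · ring
  rw [h1]
  unfold H2 H
  rw [mul_sum, ← sum_sub_distrib]
  refine sum_congr rfl fun i _ => ?_
  field_simp
  ring

/-- The second identity. -/
lemma T_identity (N : ℕ) :
    ∑ i ∈ range N, 1 / ((i : ℝ) + 1) * (H N - H (N - 1 - i)) ^ 2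
      = ∑ m ∈ range N, H (m + 1) / ((m : ℝ) + 1) ^ 2 := by
  induction N with
  | zero => simp
  | succ N ih =>
    rw [sum_range_succ, sum_range_succ _ N, ← ih]
    have h1 : ∑ i ∈ range N, 1 / ((i : ℝ) + 1) * (H (N + 1) - H (N + 1 - 1 - i)) ^ 2
        = ∑ i ∈ range N, 1 / ((i : ℝ) + 1) * (H N - H (N - 1 - i)) ^ 2
          - 2 / ((N : ℝ) + 1) * ∑ i ∈ range N, (H N - H (N - 1 - i)) / ((N : ℝ) - i)
          + 1 / ((N : ℝ) + 1) ^ 2 * ∑ i ∈ range N, ((i : ℝ) + 1) / ((N : ℝ) - i) ^ 2 := by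
      rw [mul_sum, mul_sum, ← sum_sub_distrib, ← sum_add_distrib]
      refine sum_congr rfl fun i hi => ?_
      have hi' := mem_range.mp hi
      have h2 : N + 1 - 1 - i = (N - 1 - i) + 1 := by omega
      rw [h2, H_succ N, H_succ (N - 1 - i)]
      have h3 : ((N - 1 - i : ℕ) : ℝ) + 1 = (N : ℝ) - i := by
        have : N - 1 - i + 1 = N - i := by omega
        have h4 : ((N - 1 - i + 1 : ℕ) : ℝ) = ((N - i : ℕ) : ℝ) := by rw [this]
        rw [Nat.cast_sub hi'.le] at h4
        push_cast at h4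
        exact h4
      rw [h3]
      have h5 : (0 : ℝ) < (N : ℝ) - i := by
        have : (i : ℝ) < N := by exact_mod_cast hi'
        linarith
      generalize H N = a
      generalize H (N - 1 - i) = b
      have hi0 : (0 : ℝ) < (i : ℝ) + 1 := by positivity
      have hN0 : (0 : ℝ) < (N : ℝ) + 1 := by positivity
      have h6 : a + 1 / ((N : ℝ) + 1) - (b + 1 / ((N : ℝ) - i))
          = (a - b) - ((i : ℝ) + 1) / (((N : ℝ) + 1) * ((N : ℝ) - i)) := by
        field_simp
        ring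
      rw [h6]
      generalize a - b = D
      field_simp
      ring
    rw [h1, U_identity, V_identity]
    have h2 : N + 1 - 1 - N = 0 := by omega
    rw [h2, H_zero, sub_zero, H_succ]
    field_simp
    ring

lemma T_bound (N : ℕ) : ∑ m ∈ range N, H (m + 1) / ((m : ℝ) + 1) ^ 2 ≤ 3 := by
  have h : ∀ N : ℕ, ∑ m ∈ range (N + 1), H (m + 1) / ((m : ℝ) + 1) ^ 2
      ≤ 3 - (H (N + 1) + 1) / ((N : ℝ) + 1) := by
    intro N
    induction N with
    | zero => simp [H_succ, H_zero]; norm_num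
    | succ N ih =>
      rw [sum_range_succ]
      have hH := H_nonneg (N + 2)
      have hN : (0 : ℝ) ≤ N := Nat.cast_nonneg _
      have h1 : H (N + 1) = H (N + 2) - 1 / ((N : ℝ) + 2) := by
        rw [H_succ (N + 1)]
        push_cast
        ring
      have h2 : 3 - (H (N + 1) + 1) / ((N : ℝ) + 1) + H (N + 1 + 1) / (((N + 1 : ℕ) : ℝ) + 1) ^ 2
          = 3 - (H (N + 1 + 1) + 1) / (((N + 1 : ℕ) : ℝ) + 1)
            - H (N + 1 + 1) / (((N : ℝ) + 1) * ((N : ℝ) + 2) ^ 2) := by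
        rw [h1]
        push_cast
        generalize H (N + 1 + 1) = y
        have e1 : (N : ℝ) + 1 + 1 = N + 2 := by ring
        rw [e1]
        have e2 : (N : ℝ) + 1 ≠ 0 := by positivity
        have e3 : (N : ℝ) + 2 ≠ 0 := by positivity
        field_simp
        ring
      have h3 : 0 ≤ H (N + 1 + 1) / (((N : ℝ) + 1) * ((N : ℝ) + 2) ^ 2) := by
        have : 0 ≤ H (N + 1 + 1) := hH
        positivity
      calc _ ≤ 3 - (H (N + 1) + 1) / ((N : ℝ) + 1) + H (N + 1 + 1) / (((N + 1 : ℕ) : ℝ) + 1) ^ 2 := by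
            linarith
        _ ≤ _ := by rw [h2]; linarith
  cases N with
  | zero => simp
  | succ N =>
    refine (h N).trans ?_
    have : 0 ≤ (H (N + 1) + 1) / ((N : ℝ) + 1) := by
      have := H_nonneg (N + 1)
      positivity
    linarith

/-- The identity for the greedy path. -/
lemma s_identity (N : ℕ) :
    ∑ i ∈ range N, 1 / ((i : ℝ) + 1) * (H N - H (max i (N - 1 - i)))
      = H2 N - H2 (N / 2) / 2 := by
  have hdiff : ∀ K ≤ N, H N - H K = ∑ j ∈ range N, if K ≤ j then 1 / ((j : ℝ) + 1) else 0 := by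
    intro K hK
    unfold H
    rw [← sum_filter]
    have : (range N).filter (fun j => K ≤ j) = (range N) \ (range K) := by
      ext j
      simp only [mem_filter, mem_range, Finset.mem_sdiff, not_lt]
    rw [this, sum_sdiff_eq_sub (range_mono hK)]
  have h1 : ∑ i ∈ range N, 1 / ((i : ℝ) + 1) * (H N - H (max i (N - 1 - i)))
      = ∑ i ∈ range N, ∑ j ∈ range N,
        if i ≤ j ∧ N ≤ i + j + 1 then 1 / ((i : ℝ) + 1) * (1 / ((j : ℝ) + 1)) else 0 := by
    refine sum_congr rfl fun i hi => ?_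
    have hi' := mem_range.mp hi
    rw [hdiff _ (max_le (by omega) (by omega)), mul_sum]
    refine sum_congr rfl fun j hj => ?_
    have hiff : (max i (N - 1 - i) ≤ j) ↔ (i ≤ j ∧ N ≤ i + j + 1) := by
      rw [max_le_iff]
      constructor
      · rintro ⟨a, b⟩; exact ⟨a, by omega⟩
      · rintro ⟨a, b⟩; exact ⟨a, by omega⟩
    by_cases h : i ≤ j ∧ N ≤ i + j + 1
    · rw [if_pos (hiff.mpr h), if_pos h]
    · rw [if_neg (fun h' => h (hiff.mp h')), if_neg h, mul_zero]
  have h2 : ∑ i ∈ range N, 1 / ((i : ℝ) + 1) * (H N - H (max i (N - 1 - i)))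
      = ∑ i ∈ range N, ∑ j ∈ range N,
        if j ≤ i ∧ N ≤ i + j + 1 then 1 / ((i : ℝ) + 1) * (1 / ((j : ℝ) + 1)) else 0 := by
    rw [h1, sum_comm]
    refine sum_congr rfl fun i _ => sum_congr rfl fun j _ => ?_
    by_cases h : j ≤ i ∧ N ≤ i + j + 1
    · rw [if_pos h, if_pos ⟨h.1, by omega⟩]; ring
    · rw [if_neg h, if_neg]
      rintro ⟨a, b⟩
      exact h ⟨a, by omega⟩
  have h3 : H2 N = ∑ i ∈ range N, ∑ j ∈ range N,
      if N ≤ i + j + 1 then 1 / ((i : ℝ) + 1) * (1 / ((j : ℝ) + 1)) else 0 := by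
    rw [← S_identity]
    refine sum_congr rfl fun i hi => ?_
    have hi' := mem_range.mp hi
    rw [hdiff _ (by omega), mul_sum]
    refine sum_congr rfl fun j hj => ?_
    by_cases h : N ≤ i + j + 1
    · rw [if_pos (by omega), if_pos h]
    · rw [if_neg (by omega), if_neg h, mul_zero]
  have h4 : ∑ i ∈ range N, ∑ j ∈ range N,
        (if i = j ∧ N ≤ i + j + 1 then 1 / ((i : ℝ) + 1) * (1 / ((j : ℝ) + 1)) else 0)
      = H2 N - H2 (N / 2) := by
    have h5 : ∑ i ∈ range N, ∑ j ∈ range N,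
        (if i = j ∧ N ≤ i + j + 1 then 1 / ((i : ℝ) + 1) * (1 / ((j : ℝ) + 1)) else 0)
        = ∑ i ∈ range N, if N / 2 ≤ i then 1 / ((i : ℝ) + 1) ^ 2 else 0 := by
      refine sum_congr rfl fun i hi => ?_
      rw [sum_eq_single_of_mem i hi]
      · by_cases h : N / 2 ≤ i
        · rw [if_pos ⟨rfl, by omega⟩, if_pos h]; field_simp
        · rw [if_neg h, if_neg]
          rintro ⟨_, b⟩
          omega
      · intro j _ hj
        rw [if_neg]
        rintro ⟨a, _⟩
        exact hj a.symm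
    rw [h5, ← sum_filter]
    have h6 : (range N).filter (fun j => N / 2 ≤ j) = (range N) \ (range (N / 2)) := by
      ext j
      simp only [mem_filter, mem_range, Finset.mem_sdiff, not_lt]
    rw [h6, sum_sdiff_eq_sub (range_mono (Nat.div_le_self _ _))]
    rfl
  have h5 : ∑ i ∈ range N, 1 / ((i : ℝ) + 1) * (H N - H (max i (N - 1 - i)))
      + ∑ i ∈ range N, 1 / ((i : ℝ) + 1) * (H N - H (max i (N - 1 - i)))
      = H2 N + (H2 N - H2 (N / 2)) := by
    nth_rewrite 1 [h1]
    rw [h2, ← h4]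
    nth_rewrite 1 [h3]
    rw [← sum_add_distrib, ← sum_add_distrib]
    refine sum_congr rfl fun i _ => ?_
    rw [← sum_add_distrib, ← sum_add_distrib]
    refine sum_congr rfl fun j _ => ?_
    by_cases hN : N ≤ i + j + 1
    · rcases lt_trichotomy i j with h | h | h
      · have a1 : i ≤ j := h.le
        have a2 : ¬ j ≤ i := not_le.mpr h
        have a3 : ¬ i = j := h.ne
        simp [hN, a1, a2, a3]
      · subst h
        simp [hN]
      · have a1 : j ≤ i := h.le
        have a2 : ¬ i ≤ j := not_le.mpr h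
        have a3 : ¬ i = j := h.ne'
        simp [hN, a1, a2, a3]
    · simp [hN]
  linarith

lemma H2_tendsto : Tendsto H2 atTop (𝓝 (Real.pi ^ 2 / 6)) := by
  have h := hasSum_zeta_two
  have h1 : HasSum (fun n : ℕ => (1 : ℝ) / ((n : ℝ) + 1) ^ 2) (Real.pi ^ 2 / 6) := by
    have h2 := (hasSum_nat_add_iff' 1).mpr h
    simpa using h2
  exact h1.tendsto_sum_nat

lemma H2_le_two (N : ℕ) : H2 N ≤ 2 := by
  have h : ∀ N : ℕ, H2 (N + 1) ≤ 2 - 1 / ((N : ℝ) + 1) := by
    intro N
    induction N with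
    | zero => rw [H2_succ, H2_zero]; norm_num
    | succ N ih =>
      rw [H2_succ]
      have h1 : 1 / ((((N + 1 : ℕ) : ℝ)) + 1) ^ 2 ≤ 1 / ((N : ℝ) + 1) - 1 / (((N + 1 : ℕ) : ℝ) + 1) := by
        push_cast
        rw [div_sub_div _ _ (by positivity) (by positivity), div_le_div_iff₀ (by positivity)
          (by positivity)]
        nlinarith [(Nat.cast_nonneg N : (0 : ℝ) ≤ N)]
      linarith
  cases N with
  | zero => rw [H2_zero]; norm_num
  | succ N =>
    refine (h N).trans ?_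
    have : 0 ≤ 1 / ((N : ℝ) + 1) := by positivity
    linarith

lemma one_le_H2 {N : ℕ} (h : 1 ≤ N) : 1 ≤ H2 N := by
  have h1 : H2 1 = 1 := by rw [H2_succ, H2_zero]; norm_num
  rw [← h1]; exact H2_mono h

end Pool.Agent.R982.CBS
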