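import Mathlib
import Pool.Agent.R982.CBSSums

/-!
Asymptotics of the expected number of steps of a chain with logarithmic drift.
-/

namespace Pool.Agent.R982.CBS

open Finset Filter Topology

lemma H_tendsto_atTop : Tendsto H atTop atTop := by
  have h := Real.tendsto_sum_range_one_div_nat_succ_atTop
  refine h.congr fun n => ?_
  unfold H
  rfl

/-- Chain data. -/
structure Chain (a : ℕ → ℝ) (w : ℕ → ℕ → ℝ) (k : ℕ → ℕ → ℕ) (σ τ : ℕ → ℝ) : Prop where
  a0 : a 0 = 0
  rec' : ∀ N, 1 ≤ N → a N = 1 + ∑ i ∈ range N, w N i * a (k N i)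
  w_nonneg : ∀ N i, i < N → 0 ≤ w N i
  k_lt : ∀ N i, i < N → k N i < N
  w_sum : ∀ N, 1 ≤ N → ∑ i ∈ range N, w N i = 1
  drift : ∀ N, 1 ≤ N → ∑ i ∈ range N, w N i * (H N - H (k N i)) = σ N / H N
  second : ∀ N, 1 ≤ N → ∑ i ∈ range N, w N i * (H N - H (k N i)) ^ 2 = τ N / H N

variable {a : ℕ → ℝ} {w : ℕ → ℕ → ℝ} {k : ℕ → ℕ → ℕ} {σ τ : ℕ → ℝ}

lemma Chain.sum_F (hc : Chain a w k σ τ) (c C : ℝ) (N : ℕ) (hN : 1 ≤ N) :
    ∑ i ∈ range N, w N i * (c * H (k N i) ^ 2 + C * H (k N i))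
      = c * H N ^ 2 + C * H N - (2 * c * σ N - c * τ N / H N + C * σ N / H N) := by
  have hH := H_pos hN
  have h1 : ∑ i ∈ range N, w N i * (c * H (k N i) ^ 2 + C * H (k N i))
      = (c * H N ^ 2 + C * H N) * ∑ i ∈ range N, w N i
        - (2 * c * H N + C) * ∑ i ∈ range N, w N i * (H N - H (k N i))
        + c * ∑ i ∈ range N, w N i * (H N - H (k N i)) ^ 2 := by
    rw [mul_sum, mul_sum, mul_sum, ← sum_sub_distrib, ← sum_add_distrib]
    refine sum_congr rfl fun i _ => ?_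
    ring
  rw [h1, hc.w_sum N hN, hc.drift N hN, hc.second N hN]
  field_simp
  ring

lemma Chain.upper (hc : Chain a w k σ τ) (c C : ℝ)
    (h : ∀ N, 1 ≤ N → 1 ≤ 2 * c * σ N - c * τ N / H N + C * σ N / H N) :
    ∀ N, a N ≤ c * H N ^ 2 + C * H N := by
  intro N
  induction N using Nat.strong_induction_on with
  | _ N ih =>
    rcases Nat.eq_zero_or_pos N with h0 | hN
    · subst h0
      rw [hc.a0, H_zero]
      norm_num
    · rw [hc.rec' N hN]
      have h1 : ∑ i ∈ range N, w N i * a (k N i)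
          ≤ ∑ i ∈ range N, w N i * (c * H (k N i) ^ 2 + C * H (k N i)) := by
        refine sum_le_sum fun i hi => ?_
        have hi' := mem_range.mp hi
        exact mul_le_mul_of_nonneg_left (ih _ (hc.k_lt N i hi')) (hc.w_nonneg N i hi')
      rw [hc.sum_F c C N hN] at h1
      linarith [h N hN]

lemma Chain.lower (hc : Chain a w k σ τ) (c C : ℝ)
    (h : ∀ N, 1 ≤ N → 2 * c * σ N - c * τ N / H N + C * σ N / H N ≤ 1) :
    ∀ N, c * H N ^ 2 + C * H N ≤ a N := by
  intro N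
  induction N using Nat.strong_induction_on with
  | _ N ih =>
    rcases Nat.eq_zero_or_pos N with h0 | hN
    · subst h0
      rw [hc.a0, H_zero]
      norm_num
    · rw [hc.rec' N hN]
      have h1 : ∑ i ∈ range N, w N i * (c * H (k N i) ^ 2 + C * H (k N i))
          ≤ ∑ i ∈ range N, w N i * a (k N i) := by
        refine sum_le_sum fun i hi => ?_
        have hi' := mem_range.mp hi
        exact mul_le_mul_of_nonneg_left (ih _ (hc.k_lt N i hi')) (hc.w_nonneg N i hi')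
      rw [hc.sum_F c C N hN] at h1
      linarith [h N hN]

theorem Chain.asymp (hc : Chain a w k σ τ) {s m0 M0 K : ℝ} (hs : 0 < s) (hm0 : 0 < m0)
    (hσ0 : ∀ N, 1 ≤ N → m0 ≤ σ N) (hσ1 : ∀ N, 1 ≤ N → σ N ≤ M0)
    (hτ0 : ∀ N, 1 ≤ N → 0 ≤ τ N) (hτ1 : ∀ N, 1 ≤ N → τ N ≤ K)
    (hσ : Tendsto σ atTop (𝓝 s)) :
    Tendsto (fun N => a N / H N ^ 2) atTop (𝓝 (1 / (2 * s))) := by
  have hK : 0 ≤ K := (hτ0 1 le_rfl).trans (hτ1 1 le_rfl)
  have hM0 : 0 < M0 := lt_of_lt_of_le hm0 ((hσ0 1 le_rfl).trans (hσ1 1 le_rfl))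
  have hup : ∀ c, 1 / (2 * s) < c → ∃ C : ℝ, ∀ N, a N ≤ c * H N ^ 2 + C * H N := by
    intro c hcs
    have hc0 : 0 < c := lt_trans (by positivity) hcs
    have h1 : 1 / (2 * c) < s := by
      rw [div_lt_iff₀ (by positivity)] at hcs ⊢
      linarith
    obtain ⟨N0, hN0⟩ := eventually_atTop.mp (hσ.eventually (eventually_gt_nhds h1))
    refine ⟨(c * K + H N0) / m0, hc.upper c _ fun N hN => ?_⟩
    have hH := H_pos hN
    have hCσ : c * K + H N0 ≤ (c * K + H N0) / m0 * σ N := by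
      rw [div_mul_eq_mul_div, le_div_iff₀ hm0]
      exact mul_le_mul_of_nonneg_left (hσ0 N hN) (by have := H_nonneg N0; positivity)
    have hcτ : c * τ N ≤ c * K := mul_le_mul_of_nonneg_left (hτ1 N hN) hc0.le
    have h2 : H N0 / H N ≤ - (c * τ N / H N) + (c * K + H N0) / m0 * σ N / H N := by
      rw [← neg_div, ← add_div]
      gcongr
      linarith
    by_cases hcase : N0 ≤ N
    · have h3 := hN0 N hcase
      have h4 : 1 ≤ 2 * c * σ N := by
        rw [div_lt_iff₀ (by positivity)] at h3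
        linarith
      have h5 : 0 ≤ H N0 / H N := div_nonneg (H_nonneg _) hH.le
      linarith
    · have h3 : 1 ≤ H N0 / H N := by
        rw [le_div_iff₀ hH, one_mul]
        exact H_mono (by omega)
      have h4 : 0 ≤ 2 * c * σ N := by
        have := (hm0.le.trans (hσ0 N hN))
        positivity
      linarith
  have hlow : ∀ c, 0 ≤ c → c < 1 / (2 * s) → ∃ C : ℝ, ∀ N, c * H N ^ 2 + C * H N ≤ a N := by
    intro c hc0 hcs
    have h1 : ∀ᶠ N in atTop, 2 * c * σ N < 1 := by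
      have h2 : Tendsto (fun N => 2 * c * σ N) atTop (𝓝 (2 * c * s)) := hσ.const_mul _
      refine h2.eventually (eventually_lt_nhds ?_)
      rw [lt_div_iff₀ (by positivity)] at hcs
      linarith
    obtain ⟨N0, hN0⟩ := eventually_atTop.mp h1
    refine ⟨-(2 * c * M0 * H N0 / m0), hc.lower c _ fun N hN => ?_⟩
    have hH := H_pos hN
    have hσN := hσ0 N hN
    have hσpos : 0 < σ N := lt_of_lt_of_le hm0 hσN
    have hτN : 0 ≤ c * τ N / H N := div_nonneg (mul_nonneg hc0 (hτ0 N hN)) hH.le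
    have hA : 0 ≤ 2 * c * M0 * H N0 := by have := H_nonneg N0; positivity
    by_cases hcase : N0 ≤ N
    · have h3 := hN0 N hcase
      have h4 : -(2 * c * M0 * H N0 / m0) * σ N / H N ≤ 0 := by
        apply div_nonpos_of_nonpos_of_nonneg _ hH.le
        have : 0 ≤ 2 * c * M0 * H N0 / m0 * σ N := by positivity
        linarith
      linarith
    · have h3 : H N ≤ H N0 := H_mono (by omega)
      have h4 : 2 * c * M0 ≤ 2 * c * M0 * H N0 / m0 * σ N / H N := by
        rw [le_div_iff₀ hH, div_mul_eq_mul_div, le_div_iff₀ hm0]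
        have e1 : 2 * c * M0 * H N * m0 ≤ 2 * c * M0 * H N0 * m0 := by gcongr
        have e2 : 2 * c * M0 * H N0 * m0 ≤ 2 * c * M0 * H N0 * σ N := by gcongr
        linarith
      have h5 : 2 * c * σ N ≤ 2 * c * M0 := by
        have := hσ1 N hN
        gcongr
      have h6 : -(2 * c * M0 * H N0 / m0) * σ N / H N
          = -(2 * c * M0 * H N0 / m0 * σ N / H N) := by ring
      rw [h6]
      linarith
  rw [Metric.tendsto_atTop]
  intro ε hε
  -- upper side
  obtain ⟨C1, hC1⟩ := hup (1 / (2 * s) + ε / 2) (by linarith)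
  have hcl : max 0 (1 / (2 * s) - ε / 2) < 1 / (2 * s) := by
    rw [max_lt_iff]
    exact ⟨by positivity, by linarith⟩
  obtain ⟨C2, hC2⟩ := hlow (max 0 (1 / (2 * s) - ε / 2)) (le_max_left _ _) hcl
  obtain ⟨N1, hN1⟩ := eventually_atTop.mp
    (H_tendsto_atTop.eventually (eventually_gt_atTop (max (2 * |C1| / ε) (2 * |C2| / ε))))
  refine ⟨max N1 1, fun N hN => ?_⟩
  have hN1' := hN1 N (le_trans (le_max_left _ _) hN)
  have hNpos : 1 ≤ N := le_trans (le_max_right _ _) hN
  have hH := H_pos hNpos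
  rw [max_lt_iff, div_lt_iff₀ hε, div_lt_iff₀ hε] at hN1'
  rw [Real.dist_eq, abs_lt]
  have hH2 : 0 < H N ^ 2 := by positivity
  constructor
  · have h1 := hC2 N
    have h2 : max 0 (1 / (2 * s) - ε / 2) + C2 / H N ≤ a N / H N ^ 2 := by
      rw [le_div_iff₀ hH2]
      refine le_trans (le_of_eq ?_) h1
      field_simp
    have h3 : -(ε / 2) < C2 / H N := by
      rw [lt_div_iff₀ hH]
      have := neg_abs_le C2
      nlinarith
    have h4 := le_max_right 0 (1 / (2 * s) - ε / 2)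
    linarith
  · have h1 := hC1 N
    have h2 : a N / H N ^ 2 ≤ 1 / (2 * s) + ε / 2 + C1 / H N := by
      rw [div_le_iff₀ hH2]
      refine h1.trans (le_of_eq ?_)
      field_simp
    have h3 : C1 / H N < ε / 2 := by
      rw [div_lt_iff₀ hH]
      have := le_abs_self C1
      nlinarith
    linarith

end Pool.Agent.R982.CBS
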