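import Mathlib

/-!
The discrete-time critical beta-splitting tree.
-/

namespace Pool.Agent.R982.CBS

open BinaryTree Finset

/-- The split probability `q(m,i) = m / (2 h_{m-1} i (m-i))`, with `h_{m-1} = 1 + 1/2 + ... +
1/(m-1)`. -/
noncomputable def q (m i : ℕ) : ℝ :=
  (m : ℝ) / (2 * (harmonic (m - 1) : ℝ) * ((i : ℝ) * ((m : ℝ) - i)))

/-- The probability that the random tree started from a clade of size `m` equals a given binary
tree with `m` leaves: the product over the splits of the split probabilities. A tree is `nil` (a
leaf, that is a clade of size one) or a node with a left and a right subtree; the size of a clade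
is its number of leaves. -/
noncomputable def treeProb : BinaryTree Unit → ℝ
  | .nil => 1
  | .node _ l r => q (l.numLeaves + r.numLeaves) l.numLeaves * (treeProb l * treeProb r)

/-- The list of the depths of all leaves. -/
def leafDepths : BinaryTree Unit → List ℕ
  | .nil => [0]
  | .node _ l r => (leafDepths l ++ leafDepths r).map (fun d => d + 1)

/-- The length of the greedy path: at each split move into the larger sub-clade (the left one in
case of equality) until a leaf is reached. -/
def greedyLength : BinaryTree Unit → ℕ
  | .nil => 0
  | .node _ l r => 1 + if r.numLeaves ≤ l.numLeaves then greedyLength l else greedyLength r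

/-- Expectation of `f` over the random tree `DTCS(n)`: the sum over all binary trees with `n`
leaves (that is with `n - 1` internal nodes). -/
noncomputable def expect (n : ℕ) (f : BinaryTree Unit → ℝ) : ℝ :=
  ∑ t ∈ treesOfNumNodesEq (n - 1), treeProb t * f t

/-- The expected depth `E[L_n]` of a uniformly random leaf. -/
noncomputable def meanLeafDepth (n : ℕ) : ℝ :=
  expect n (fun t => ((leafDepths t).sum : ℝ) / (leafDepths t).length)

/-- The expected length `E[L⁺_n]` of the greedy path. -/
noncomputable def meanGreedy (n : ℕ) : ℝ := expect n (fun t => (greedyLength t : ℝ))

end Pool.Agent.R982.CBS
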