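import Mathlib
import Pool.Agent.R982.CBSDefs
import Pool.Agent.R982.CBSAsym

/-!
Recursions for the critical beta-splitting tree.
-/

namespace Pool.Agent.R982.CBS

open BinaryTree Finset Filter Topology

lemma numLeaves_of_mem {N : ℕ} {t : BinaryTree Unit} (h : t ∈ treesOfNumNodesEq N) :
    t.numLeaves = N + 1 := by
  rw [numLeaves_eq_numNodes_succ, mem_treesOfNumNodesEq.mp h]

lemma length_leafDepths (t : BinaryTree Unit) : (leafDepths t).length = t.numLeaves := by
  induction t with
  | nil => rfl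
  | node _ l r ihl ihr => simp [leafDepths, ihl, ihr, numLeaves]

lemma sum_leafDepths (a : Unit) (l r : BinaryTree Unit) : (leafDepths (.node a l r)).sum
    = (leafDepths l).sum + (leafDepths r).sum + (l.numLeaves + r.numLeaves) := by
  have h : ∀ L : List ℕ, (L.map (fun d => d + 1)).sum = L.sum + L.length := by
    intro L
    induction L with
    | nil => rfl
    | cons x L ih => simp only [List.map_cons, List.sum_cons, List.length_cons, ih]; omega
  rw [leafDepths, h, List.sum_append, List.length_append, length_leafDepths, length_leafDepths]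

/-- Splitting weights. -/
noncomputable def W (N i : ℕ) : ℝ := 1 / (2 * H N) * (1 / ((i : ℝ) + 1) + 1 / ((N : ℝ) - i))

lemma q_eq_W {N i : ℕ} (hi : i < N) : q (N + 1) (i + 1) = W N i := by
  have hH := H_pos (by omega : 1 ≤ N)
  have h5 : (0 : ℝ) < (N : ℝ) - i := by
    have : (i : ℝ) < N := by exact_mod_cast hi
    linarith
  rw [q, W, Nat.add_sub_cancel, H_eq_harmonic]
  push_cast
  have h6 : (N : ℝ) + 1 - (i + 1) = N - i := by ring
  rw [h6]
  field_simp
  ring

lemma sum_succ (N : ℕ) (hN : 1 ≤ N) (F : BinaryTree Unit → ℝ) :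
    ∑ t ∈ treesOfNumNodesEq N, treeProb t * F t
      = ∑ i ∈ range N, W N i * ∑ l ∈ treesOfNumNodesEq i, ∑ r ∈ treesOfNumNodesEq (N - 1 - i),
          treeProb l * treeProb r * F (.node () l r) := by
  obtain ⟨M, rfl⟩ : ∃ M, N = M + 1 := ⟨N - 1, by omega⟩
  rw [treesOfNumNodesEq_succ, sum_biUnion]
  · rw [Finset.Nat.sum_antidiagonal_eq_sum_range_succ_mk]
    refine sum_congr rfl fun i hi => ?_
    have hi' := mem_range.mp hi
    rw [Nat.add_sub_cancel]
    rw [sum_map, sum_product, mul_sum]
    refine sum_congr rfl fun l hl => ?_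
    rw [mul_sum]
    refine sum_congr rfl fun r hr => ?_
    have h1 := numLeaves_of_mem hl
    have h2 := numLeaves_of_mem hr
    change treeProb (.node () l r) * F (.node () l r) = _
    rw [treeProb, h1, h2]
    have h3 : i + 1 + (M - i + 1) = M + 1 + 1 := by omega
    rw [h3, q_eq_W (by omega)]
    ring
  · intro x _ y _ hxy
    rw [Function.onFun, Finset.disjoint_left]
    intro t ht ht'
    obtain ⟨⟨l, r⟩, h1, rfl⟩ := mem_map.mp ht
    obtain ⟨⟨l', r'⟩, h1', h2⟩ := mem_map.mp ht'
    have h3 := mem_product.mp h1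
    have h3' := mem_product.mp h1'
    have h2' : BinaryTree.node () l' r' = BinaryTree.node () l r := h2
    injection h2' with _ h4 h5
    subst h4 h5
    apply hxy
    ext
    · rw [← mem_treesOfNumNodesEq.mp h3.1, ← mem_treesOfNumNodesEq.mp h3'.1]
    · rw [← mem_treesOfNumNodesEq.mp h3.2, ← mem_treesOfNumNodesEq.mp h3'.2]

lemma W_sum (N : ℕ) (hN : 1 ≤ N) : ∑ i ∈ range N, W N i = 1 := by
  unfold W
  rw [← mul_sum, sum_add_distrib, H_reflect]
  have hH := H_pos hN
  change 1 / (2 * H N) * (H N + H N) = 1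
  field_simp
  ring

lemma W_nonneg {N i : ℕ} (hi : i < N) : 0 ≤ W N i := by
  have hH := H_pos (by omega : 1 ≤ N)
  have h5 : (0 : ℝ) < (N : ℝ) - i := by
    have : (i : ℝ) < N := by exact_mod_cast hi
    linarith
  unfold W
  positivity

lemma W_symm {N i : ℕ} (hi : i < N) : W N (N - 1 - i) = W N i := by
  unfold W
  rw [Nat.cast_sub (by omega), Nat.cast_sub (by omega)]
  push_cast
  have h1 : (N : ℝ) - 1 - i + 1 = N - i := by ring
  have h2 : (N : ℝ) - ((N : ℝ) - 1 - i) = i + 1 := by ring
  rw [h1, h2]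
  ring

/-- The probabilities sum to one. -/
theorem total_mass (N : ℕ) : ∑ t ∈ treesOfNumNodesEq N, treeProb t = 1 := by
  induction N using Nat.strong_induction_on with
  | _ N ih =>
    rcases Nat.eq_zero_or_pos N with h0 | hN
    · subst h0
      simp [treeProb]
    · have h := sum_succ N hN (fun _ => 1)
      simp only [mul_one] at h
      rw [h, ← W_sum N hN]
      refine sum_congr rfl fun i hi => ?_
      have hi' := mem_range.mp hi
      have h1 : ∑ l ∈ treesOfNumNodesEq i, ∑ r ∈ treesOfNumNodesEq (N - 1 - i),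
          treeProb l * treeProb r = 1 := by
        rw [← sum_mul_sum, ih i hi', ih (N - 1 - i) (by omega), one_mul]
      rw [h1, mul_one]

lemma sum_left {i j : ℕ} (F : BinaryTree Unit → ℝ) :
    ∑ l ∈ treesOfNumNodesEq i, ∑ r ∈ treesOfNumNodesEq j, treeProb l * treeProb r * F l
      = ∑ l ∈ treesOfNumNodesEq i, treeProb l * F l := by
  refine sum_congr rfl fun l _ => ?_
  have : ∑ r ∈ treesOfNumNodesEq j, treeProb l * treeProb r * F l
      = (treeProb l * F l) * ∑ r ∈ treesOfNumNodesEq j, treeProb r := by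
    rw [mul_sum]
    exact sum_congr rfl fun r _ => by ring
  rw [this, total_mass, mul_one]

lemma sum_right {i j : ℕ} (F : BinaryTree Unit → ℝ) :
    ∑ l ∈ treesOfNumNodesEq i, ∑ r ∈ treesOfNumNodesEq j, treeProb l * treeProb r * F r
      = ∑ r ∈ treesOfNumNodesEq j, treeProb r * F r := by
  rw [sum_comm]
  refine sum_congr rfl fun r _ => ?_
  have : ∑ l ∈ treesOfNumNodesEq i, treeProb l * treeProb r * F r
      = (treeProb r * F r) * ∑ l ∈ treesOfNumNodesEq i, treeProb l := by
    rw [mul_sum]
    exact sum_congr rfl fun r _ => by ring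
  rw [this, total_mass, mul_one]

lemma sum_one {i j : ℕ} :
    ∑ l ∈ treesOfNumNodesEq i, ∑ r ∈ treesOfNumNodesEq j, treeProb l * treeProb r = 1 := by
  rw [← sum_mul_sum, total_mass, total_mass, one_mul]

/-- Expected greedy length from a clade of size `N+1`. -/
noncomputable def G (N : ℕ) : ℝ := ∑ t ∈ treesOfNumNodesEq N, treeProb t * (greedyLength t : ℝ)

lemma G_rec (N : ℕ) (hN : 1 ≤ N) :
    G N = 1 + ∑ i ∈ range N, W N i * G (max i (N - 1 - i)) := by
  have hone : 1 + ∑ i ∈ range N, W N i * G (max i (N - 1 - i))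
      = ∑ i ∈ range N, W N i + ∑ i ∈ range N, W N i * G (max i (N - 1 - i)) := by
    rw [W_sum N hN]
  rw [hone, G, sum_succ N hN, ← sum_add_distrib]
  refine sum_congr rfl fun i hi => ?_
  have hi' := mem_range.mp hi
  have h1 : ∑ l ∈ treesOfNumNodesEq i, ∑ r ∈ treesOfNumNodesEq (N - 1 - i),
      treeProb l * treeProb r * ((greedyLength (.node () l r) : ℕ) : ℝ)
      = 1 + G (max i (N - 1 - i)) := by
    by_cases h : N - 1 - i ≤ i
    · rw [max_eq_left h, G, ← sum_left (j := N - 1 - i), ← sum_one (i := i) (j := N - 1 - i),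
        ← sum_add_distrib]
      refine sum_congr rfl fun l hl => ?_
      rw [← sum_add_distrib]
      refine sum_congr rfl fun r hr => ?_
      rw [greedyLength, numLeaves_of_mem hl, numLeaves_of_mem hr, if_pos (by omega)]
      push_cast
      ring
    · rw [max_eq_right (by omega), G, ← sum_right (i := i) (j := N - 1 - i),
        ← sum_one (i := i) (j := N - 1 - i), ← sum_add_distrib]
      refine sum_congr rfl fun l hl => ?_
      rw [← sum_add_distrib]
      refine sum_congr rfl fun r hr => ?_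
      rw [greedyLength, numLeaves_of_mem hl, numLeaves_of_mem hr, if_neg (by omega)]
      push_cast
      ring
  rw [h1]
  ring

/-- Expected sum of leaf depths from a clade of size `N+1`. -/
noncomputable def DS (N : ℕ) : ℝ :=
  ∑ t ∈ treesOfNumNodesEq N, treeProb t * ((leafDepths t).sum : ℝ)

lemma DS_rec (N : ℕ) (hN : 1 ≤ N) :
    DS N = ((N : ℝ) + 1) + 2 * ∑ i ∈ range N, W N i * DS i := by
  have h0 : DS N = ∑ i ∈ range N, W N i * (DS i + DS (N - 1 - i) + ((N : ℝ) + 1)) := by
    rw [DS, sum_succ N hN]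
    refine sum_congr rfl fun i hi => ?_
    have hi' := mem_range.mp hi
    congr 1
    have h1 : ((N : ℝ) + 1) = ((N : ℝ) + 1) * ∑ l ∈ treesOfNumNodesEq i,
        ∑ r ∈ treesOfNumNodesEq (N - 1 - i), treeProb l * treeProb r := by
      rw [sum_one, mul_one]
    rw [h1, DS, DS, ← sum_left (j := N - 1 - i), ← sum_right (i := i) (j := N - 1 - i),
      mul_sum, ← sum_add_distrib, ← sum_add_distrib]
    refine sum_congr rfl fun l hl => ?_
    rw [mul_sum, ← sum_add_distrib, ← sum_add_distrib]
    refine sum_congr rfl fun r hr => ?_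
    rw [sum_leafDepths, numLeaves_of_mem hl, numLeaves_of_mem hr]
    have h2 : i + 1 + (N - 1 - i + 1) = N + 1 := by omega
    rw [h2]
    push_cast
    ring
  have h1 : ∑ i ∈ range N, W N i * DS (N - 1 - i) = ∑ i ∈ range N, W N i * DS i := by
    rw [← sum_range_reflect]
    refine sum_congr rfl fun i hi => ?_
    have hi' := mem_range.mp hi
    have h2 : N - 1 - (N - 1 - i) = i := by omega
    rw [h2, W_symm hi']
  have h2 : ∑ i ∈ range N, W N i * (DS i + DS (N - 1 - i) + ((N : ℝ) + 1))
      = ∑ i ∈ range N, W N i * DS i + ∑ i ∈ range N, W N i * DS (N - 1 - i)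
        + (∑ i ∈ range N, W N i) * ((N : ℝ) + 1) := by
    rw [sum_mul, ← sum_add_distrib, ← sum_add_distrib]
    exact sum_congr rfl fun i _ => by ring
  rw [h0, h2, h1, W_sum N hN]
  ring

/-- Expected depth of a random leaf from a clade of size `N+1`. -/
noncomputable def B (N : ℕ) : ℝ := DS N / ((N : ℝ) + 1)

lemma B_rec (N : ℕ) (hN : 1 ≤ N) :
    B N = 1 + ∑ i ∈ range N, 1 / (H N * ((i : ℝ) + 1)) * B (N - 1 - i) := by
  have hH := H_pos hN
  have hNp : (0 : ℝ) < (N : ℝ) + 1 := by positivity
  rw [B, DS_rec N hN, add_div, div_self hNp.ne']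
  congr 1
  rw [← sum_range_reflect, mul_sum, sum_div]
  refine sum_congr rfl fun i hi => ?_
  have hi' := mem_range.mp hi
  rw [W_symm hi', B, W, Nat.cast_sub (by omega), Nat.cast_sub (by omega)]
  push_cast
  have h5 : (0 : ℝ) < (N : ℝ) - i := by
    have : (i : ℝ) < N := by exact_mod_cast hi'
    linarith
  have h1 : (N : ℝ) - 1 - i + 1 = N - i := by ring
  rw [h1]
  field_simp
  ring

lemma chain_G : Chain G W (fun N i => max i (N - 1 - i))
    (fun N => H2 N - H2 (N / 2) / 2)
    (fun N => ∑ i ∈ range N, 1 / ((i : ℝ) + 1) * (H N - H (max i (N - 1 - i))) ^ 2) where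
  a0 := by simp [G, greedyLength]
  rec' := G_rec
  w_nonneg := fun N i hi => W_nonneg hi
  k_lt := fun N i hi => by
    rw [max_lt_iff]
    exact ⟨hi, by omega⟩
  w_sum := W_sum
  drift := by
    intro N hN
    have hH := H_pos hN
    rw [← s_identity]
    have h1 : ∑ i ∈ range N, 1 / ((N : ℝ) - i) * (H N - H (max i (N - 1 - i)))
        = ∑ i ∈ range N, 1 / ((i : ℝ) + 1) * (H N - H (max i (N - 1 - i))) := by
      rw [← sum_range_reflect]
      refine sum_congr rfl fun i hi => ?_
      have hi' := mem_range.mp hi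
      have h2 : N - 1 - (N - 1 - i) = i := by omega
      rw [h2, max_comm, Nat.cast_sub (by omega), Nat.cast_sub (by omega)]
      push_cast
      congr 2
      ring
    have h2 : ∑ i ∈ range N, W N i * (H N - H (max i (N - 1 - i)))
        = 1 / (2 * H N) * (∑ i ∈ range N, 1 / ((i : ℝ) + 1) * (H N - H (max i (N - 1 - i)))
          + ∑ i ∈ range N, 1 / ((N : ℝ) - i) * (H N - H (max i (N - 1 - i)))) := by
      rw [← sum_add_distrib, mul_sum]
      refine sum_congr rfl fun i _ => ?_
      unfold W
      ring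
    rw [h2, h1]
    field_simp
    ring
  second := by
    intro N hN
    have hH := H_pos hN
    have h1 : ∑ i ∈ range N, 1 / ((N : ℝ) - i) * (H N - H (max i (N - 1 - i))) ^ 2
        = ∑ i ∈ range N, 1 / ((i : ℝ) + 1) * (H N - H (max i (N - 1 - i))) ^ 2 := by
      rw [← sum_range_reflect]
      refine sum_congr rfl fun i hi => ?_
      have hi' := mem_range.mp hi
      have h2 : N - 1 - (N - 1 - i) = i := by omega
      rw [h2, max_comm, Nat.cast_sub (by omega), Nat.cast_sub (by omega)]
      push_cast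
      congr 2
      ring
    have h2 : ∑ i ∈ range N, W N i * (H N - H (max i (N - 1 - i))) ^ 2
        = 1 / (2 * H N) * (∑ i ∈ range N, 1 / ((i : ℝ) + 1) * (H N - H (max i (N - 1 - i))) ^ 2
          + ∑ i ∈ range N, 1 / ((N : ℝ) - i) * (H N - H (max i (N - 1 - i))) ^ 2) := by
      rw [← sum_add_distrib, mul_sum]
      refine sum_congr rfl fun i _ => ?_
      unfold W
      ring
    rw [h2, h1]
    field_simp
    ring

lemma chain_B : Chain B (fun N i => 1 / (H N * ((i : ℝ) + 1))) (fun N i => N - 1 - i) H2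
    (fun N => ∑ i ∈ range N, 1 / ((i : ℝ) + 1) * (H N - H (N - 1 - i)) ^ 2) where
  a0 := by simp [B, DS, leafDepths]
  rec' := B_rec
  w_nonneg := fun N i hi => by
    have hH := H_pos (by omega : 1 ≤ N)
    positivity
  k_lt := fun N i hi => by omega
  w_sum := by
    intro N hN
    have hH := H_pos hN
    have h1 : ∑ i ∈ range N, 1 / (H N * ((i : ℝ) + 1)) = 1 / H N * H N := by
      nth_rewrite 3 [H]
      rw [mul_sum]
      refine sum_congr rfl fun i _ => by field_simp
    rw [h1]
    field_simp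
  drift := by
    intro N hN
    have hH := H_pos hN
    rw [← S_identity, sum_div]
    refine sum_congr rfl fun i _ => by field_simp
  second := by
    intro N hN
    have hH := H_pos hN
    rw [sum_div]
    refine sum_congr rfl fun i _ => by field_simp

lemma T_le (N : ℕ) : ∑ i ∈ range N, 1 / ((i : ℝ) + 1) * (H N - H (N - 1 - i)) ^ 2 ≤ 3 := by
  rw [T_identity]; exact T_bound N

theorem B_asymp : Tendsto (fun N => B N / H N ^ 2) atTop (𝓝 (1 / (2 * (Real.pi ^ 2 / 6)))) := by
  refine chain_B.asymp (m0 := 1) (M0 := 2) (K := 3) (by positivity) one_pos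
    (fun N hN => one_le_H2 hN) (fun N _ => H2_le_two N)
    (fun N _ => sum_nonneg fun i _ => by positivity) (fun N _ => T_le N) H2_tendsto

theorem G_asymp : Tendsto (fun N => G N / H N ^ 2) atTop (𝓝 (1 / (2 * (Real.pi ^ 2 / 12)))) := by
  refine chain_G.asymp (m0 := 1 / 2) (M0 := 2) (K := 3) (by positivity) (by norm_num)
    (fun N hN => ?_) (fun N _ => ?_) (fun N _ => sum_nonneg fun i _ => by positivity)
    (fun N _ => ?_) ?_
  · have h1 := H2_mono (Nat.div_le_self N 2)
    have h2 := one_le_H2 hN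
    linarith
  · have h1 := H2_le_two N
    have h2 : 0 ≤ H2 (N / 2) := by rw [← H2_zero]; exact H2_mono (Nat.zero_le _)
    linarith
  · refine le_trans (sum_le_sum fun i hi => ?_) (T_le N)
    have hi' := mem_range.mp hi
    have h1 : H (N - 1 - i) ≤ H (max i (N - 1 - i)) := H_mono (le_max_right _ _)
    have h2 : H (max i (N - 1 - i)) ≤ H N := H_mono (max_le (by omega) (by omega))
    have h3 : (H N - H (max i (N - 1 - i))) ^ 2 ≤ (H N - H (N - 1 - i)) ^ 2 :=
      pow_le_pow_left₀ (by linarith) (by linarith) 2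
    gcongr
  · have h1 : Tendsto (fun N : ℕ => H2 (N / 2)) atTop (𝓝 (Real.pi ^ 2 / 6)) :=
      H2_tendsto.comp (Nat.tendsto_div_const_atTop (by norm_num))
    have h2 := H2_tendsto.sub (h1.div_const 2)
    convert h2 using 2
    ring

end Pool.Agent.R982.CBS
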