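import Mathlib

/-!
Clue, clue profile and noise correlation of functions of independent bits. A bit is a `Bool`, with
`true` standing for `1` and `false` for `-1`; `p` is the probability of `true`.
-/

namespace Pool.Agent.R982.Clue

variable {V : Type*} [Fintype V] [DecidableEq V]

/-- Weight of a bit. -/
noncomputable def bitWeight (p : ℝ) (b : Bool) : ℝ := if b = true then p else 1 - p

/-- Probability of the configuration `ω` under the product measure. -/
noncomputable def prob (p : ℝ) (ω : V → Bool) : ℝ := ∏ i, bitWeight p (ω i)

/-- Expectation. -/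
noncomputable def mean (p : ℝ) (F : (V → Bool) → ℝ) : ℝ := ∑ ω, prob p ω * F ω

/-- Variance. -/
noncomputable def variance (p : ℝ) (F : (V → Bool) → ℝ) : ℝ :=
  mean p (fun ω => (F ω - mean p F) ^ 2)

/-- Conditional expectation given the coordinates in `U`: average over the other coordinates. -/
noncomputable def condMean (p : ℝ) (U : Finset V) (F : (V → Bool) → ℝ) (ω : V → Bool) : ℝ :=
  mean p (fun ω' => F (fun i => if i ∈ U then ω i else ω' i))

/-- The clue of `U`. -/
noncomputable def clue (p : ℝ) (F : (V → Bool) → ℝ) (U : Finset V) : ℝ :=
  variance p (condMean p U F) / variance p F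

/-- The expected clue of the random set containing each element independently with
probability `δ`. -/
noncomputable def meanClue (p : ℝ) (F : (V → Bool) → ℝ) (δ : ℝ) : ℝ :=
  ∑ U : Finset V, δ ^ U.card * (1 - δ) ^ (Fintype.card V - U.card) * clue p F U

/-- The clue profile. -/
noncomputable def clueProfile (p : ℝ) (F : (V → Bool) → ℝ) (s : ℝ) : ℝ :=
  sInf {u : ℝ | ∃ U : Finset V, (U.card : ℝ) / Fintype.card V ≤ u ∧ s ≤ clue p F U}

/-- `E[F(ω) F(ω^ε)]`, where each coordinate belongs to the set `R` of resampled coordinates
independently with probability `ε`, and the resampled values are those of the independent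
configuration `ω'`. -/
noncomputable def noiseCorr (p : ℝ) (F : (V → Bool) → ℝ) (ε : ℝ) : ℝ :=
  ∑ R : Finset V, ε ^ R.card * (1 - ε) ^ (Fintype.card V - R.card) *
    mean p (fun ω => mean p (fun ω' => F ω * F (fun i => if i ∈ R then ω' i else ω i)))

end Pool.Agent.R982.Clue
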