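import Mathlib
import Pool.Agent.R982.ClueDefs

/-!
Second moments of conditional expectations as sums over pairs of configurations.
-/

namespace Pool.Agent.R982.Clue

open Finset

variable {V : Type*} [Fintype V] [DecidableEq V]

lemma pushforward {S T : Type*} [Fintype S] [Fintype T] [DecidableEq T] [DecidableEq S]
    (w : V → S → ℝ) (φ : V → S → T) (G : (V → T) → ℝ) :
    ∑ x : V → S, (∏ i, w i (x i)) * G (fun i => φ i (x i))
      = ∑ y : V → T, (∏ i, ∑ s, if φ i s = y i then w i s else 0) * G y := by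
  have h1 : ∀ y : V → T, (∏ i, ∑ s, if φ i s = y i then w i s else 0) * G y
      = ∑ x : V → S, if (fun i => φ i (x i)) = y then (∏ i, w i (x i)) * G y else 0 := by
    intro y
    rw [Finset.prod_univ_sum, Finset.sum_mul]
    rw [Fintype.piFinset_univ]
    refine Finset.sum_congr rfl fun x _ => ?_
    by_cases h : (fun i => φ i (x i)) = y
    · rw [if_pos h]
      congr 1
      refine Finset.prod_congr rfl fun i _ => ?_
      rw [if_pos (congrFun h i)]
    · rw [if_neg h]
      have : ∃ i, ¬ φ i (x i) = y i := by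
        by_contra hcon
        push Not at hcon
        exact h (funext hcon)
      obtain ⟨i, hi⟩ := this
      rw [Finset.prod_eq_zero (Finset.mem_univ i) (if_neg hi), zero_mul]
  simp only [h1]
  rw [Finset.sum_comm]
  refine Finset.sum_congr rfl fun x _ => ?_
  rw [Finset.sum_ite_eq]
  simp

lemma bw_half (b : Bool) : bitWeight (1 / 2) b = 1 / 2 := by
  unfold bitWeight
  split_ifs <;> norm_num

/-- Law of a correlated pair of fair bits. -/
noncomputable def nu (t : ℝ) (z : Bool × Bool) : ℝ :=
  t * (if z.1 = z.2 then 1 / 2 else 0) + (1 - t) * (1 / 4)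

/-- Pair sum. -/
noncomputable def PS (t : V → ℝ) (F G : (V → Bool) → ℝ) : ℝ :=
  ∑ y : V → Bool × Bool, (∏ i, nu (t i) (y i)) * (F (fun i => (y i).1) * G (fun i => (y i).2))

lemma mean_eq (F : (V → Bool) → ℝ) : mean (1 / 2) F = ∑ ω : V → Bool, (∏ _i : V, (1 / 2 : ℝ)) * F ω := by
  unfold mean prob
  refine Finset.sum_congr rfl fun ω _ => ?_
  congr 1
  exact Finset.prod_congr rfl fun i _ => bw_half _

lemma sum_prod_arrow {S T : Type*} [Fintype S] [Fintype T] (G : (V → S) → (V → T) → ℝ) :
    ∑ a : V → S, ∑ b : V → T, G a b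
      = ∑ x : V → S × T, G (fun i => (x i).1) (fun i => (x i).2) := by
  rw [← Fintype.sum_prod_type']
  exact (Equiv.sum_comp (Equiv.arrowProdEquivProdArrow V (fun _ => S) (fun _ => T))
    (fun p => G p.1 p.2)).symm

lemma mean_mean_eq (G : (V → Bool) → (V → Bool) → ℝ) :
    mean (1 / 2) (fun ω => mean (1 / 2) (fun ω' => G ω ω'))
      = ∑ x : V → Bool × Bool, (∏ _i : V, (1 / 4 : ℝ)) * G (fun i => (x i).1) (fun i => (x i).2) := by
  rw [mean_eq]
  simp only [mean_eq]
  have h : ∀ ω : V → Bool, (∏ _i : V, (1 / 2 : ℝ)) * ∑ ω', (∏ _i : V, (1 / 2 : ℝ)) * G ω ω'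
      = ∑ ω', (∏ _i : V, (1 / 4 : ℝ)) * G ω ω' := by
    intro ω
    rw [Finset.mul_sum]
    refine Finset.sum_congr rfl fun ω' _ => ?_
    rw [← mul_assoc, ← Finset.prod_mul_distrib]
    norm_num
  simp only [h]
  exact sum_prod_arrow (fun a b => (∏ _i : V, (1 / 4 : ℝ)) * G a b)

/-- Tower property. -/
lemma mean_condMean (U : Finset V) (F : (V → Bool) → ℝ) :
    mean (1 / 2) (condMean (1 / 2) U F) = mean (1 / 2) F := by
  unfold condMean
  rw [mean_mean_eq (fun ω ω' => F (fun i => if i ∈ U then ω i else ω' i)), mean_eq]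
  have h := pushforward (V := V) (S := Bool × Bool) (T := Bool) (fun _ _ => (1 / 4 : ℝ))
    (fun i s => if i ∈ U then s.1 else s.2) F
  rw [h]
  refine Finset.sum_congr rfl fun y _ => ?_
  congr 1
  refine Finset.prod_congr rfl fun i _ => ?_
  by_cases hi : i ∈ U
  · simp only [hi, if_true]
    cases hy : y i <;> simp [Fintype.sum_prod_type, hy] <;> norm_num
  · simp only [hi, if_false]
    cases hy : y i <;> simp [Fintype.sum_prod_type, hy] <;> norm_num

lemma mean_condMean_sq (U : Finset V) (F : (V → Bool) → ℝ) :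
    mean (1 / 2) (fun ω => condMean (1 / 2) U F ω ^ 2)
      = PS (fun i => if i ∈ U then 1 else 0) F F := by
  have h1 : ∀ ω, condMean (1 / 2) U F ω ^ 2
      = mean (1 / 2) (fun ω' => mean (1 / 2) (fun ω'' =>
        F (fun i => if i ∈ U then ω i else ω' i) * F (fun i => if i ∈ U then ω i else ω'' i))) := by
    intro ω
    rw [sq]
    nth_rewrite 1 [condMean]
    rw [mean_eq, Finset.sum_mul, mean_eq]
    refine Finset.sum_congr rfl fun ω' _ => ?_
    rw [condMean, mean_eq, mean_eq, mul_assoc, Finset.mul_sum]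
    congr 1
    refine Finset.sum_congr rfl fun ω'' _ => ?_
    ring
  simp only [h1]
  rw [mean_eq]
  have h2 : ∀ ω : V → Bool, (∏ _i : V, (1 / 2 : ℝ)) * mean (1 / 2) (fun ω' => mean (1 / 2) (fun ω'' =>
        F (fun i => if i ∈ U then ω i else ω' i) * F (fun i => if i ∈ U then ω i else ω'' i)))
      = ∑ x : V → Bool × Bool, (∏ _i : V, (1 / 8 : ℝ)) *
        (F (fun i => if i ∈ U then ω i else (x i).1) * F (fun i => if i ∈ U then ω i else (x i).2)) := by
    intro ω
    rw [mean_mean_eq (fun ω' ω'' =>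
      F (fun i => if i ∈ U then ω i else ω' i) * F (fun i => if i ∈ U then ω i else ω'' i)),
      Finset.mul_sum]
    refine Finset.sum_congr rfl fun x _ => ?_
    rw [← mul_assoc, ← Finset.prod_mul_distrib]
    norm_num
  simp only [h2]
  rw [sum_prod_arrow (S := Bool) (T := Bool × Bool) (fun ω x => (∏ _i : V, (1 / 8 : ℝ)) *
    (F (fun i => if i ∈ U then ω i else (x i).1) * F (fun i => if i ∈ U then ω i else (x i).2)))]
  have h := pushforward (V := V) (S := Bool × Bool × Bool) (T := Bool × Bool)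
    (fun _ _ => (1 / 8 : ℝ))
    (fun i s => (if i ∈ U then s.1 else s.2.1, if i ∈ U then s.1 else s.2.2))
    (fun y => F (fun i => (y i).1) * F (fun i => (y i).2))
  simp only at h
  rw [h, PS]
  refine Finset.sum_congr rfl fun y _ => ?_
  congr 1
  refine Finset.prod_congr rfl fun i _ => ?_
  by_cases hi : i ∈ U
  · simp only [hi, if_true, nu]
    rcases hy : y i with ⟨a, b⟩
    cases a <;> cases b <;> simp [Fintype.sum_prod_type, Prod.ext_iff] <;> norm_num
  · simp only [hi, if_false, nu]
    rcases hy : y i with ⟨a, b⟩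
    cases a <;> cases b <;> simp [Fintype.sum_prod_type, Prod.ext_iff] <;> norm_num

lemma resample_eq (R : Finset V) (F : (V → Bool) → ℝ) :
    mean (1 / 2) (fun ω => mean (1 / 2) (fun ω' => F ω * F (fun i => if i ∈ R then ω' i else ω i)))
      = PS (fun i => if i ∈ R then 0 else 1) F F := by
  rw [mean_mean_eq (fun ω ω' => F ω * F (fun i => if i ∈ R then ω' i else ω i))]
  have h := pushforward (V := V) (S := Bool × Bool) (T := Bool × Bool)
    (fun _ _ => (1 / 4 : ℝ))
    (fun i s => (s.1, if i ∈ R then s.2 else s.1))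
    (fun y => F (fun i => (y i).1) * F (fun i => (y i).2))
  simp only at h
  rw [h, PS]
  refine Finset.sum_congr rfl fun y _ => ?_
  congr 1
  refine Finset.prod_congr rfl fun i _ => ?_
  by_cases hi : i ∈ R
  · simp only [hi, if_true, nu]
    rcases hy : y i with ⟨a, b⟩
    cases a <;> cases b <;> simp [Fintype.sum_prod_type, Prod.ext_iff] <;> norm_num
  · simp only [hi, if_false, nu]
    rcases hy : y i with ⟨a, b⟩
    cases a <;> cases b <;> simp [Fintype.sum_prod_type, Prod.ext_iff] <;> norm_num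

lemma nu_mix (t : ℝ) (z : Bool × Bool) : t * nu 1 z + (1 - t) * nu 0 z = nu t z := by
  unfold nu
  ring

/-- Averaging over a Bernoulli set. -/
lemma average_PS (t : ℝ) (F G : (V → Bool) → ℝ) :
    ∑ U : Finset V, t ^ U.card * (1 - t) ^ (Fintype.card V - U.card) *
      PS (fun i => if i ∈ U then 1 else 0) F G = PS (fun _ => t) F G := by
  unfold PS
  simp only [Finset.mul_sum]
  rw [Finset.sum_comm]
  refine Finset.sum_congr rfl fun y _ => ?_
  have h1 : ∀ U : Finset V, t ^ U.card * (1 - t) ^ (Fintype.card V - U.card) *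
      ((∏ i, nu (if i ∈ U then 1 else 0) (y i)) * (F (fun i => (y i).1) * G (fun i => (y i).2)))
      = ((∏ i ∈ U, t * nu 1 (y i)) * ∏ i ∈ Finset.univ \ U, (1 - t) * nu 0 (y i))
        * (F (fun i => (y i).1) * G (fun i => (y i).2)) := by
    intro U
    have h2 : (∏ i, nu (if i ∈ U then 1 else 0) (y i))
        = (∏ i ∈ U, nu 1 (y i)) * ∏ i ∈ Finset.univ \ U, nu 0 (y i) := by
      rw [← Finset.prod_sdiff (Finset.subset_univ U), mul_comm]
      congr 1
      · exact Finset.prod_congr rfl fun i hi => by rw [if_pos hi]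
      · exact Finset.prod_congr rfl fun i hi => by rw [if_neg (Finset.mem_sdiff.mp hi).2]
    rw [h2, Finset.prod_mul_distrib, Finset.prod_mul_distrib, Finset.prod_const, Finset.prod_const,
      Finset.card_sdiff_of_subset (Finset.subset_univ U), Finset.card_univ]
    ring
  simp only [h1]
  rw [← Finset.sum_mul]
  congr 1
  have h3 := Finset.prod_add (fun i => t * nu 1 (y i)) (fun i => (1 - t) * nu 0 (y i))
    (Finset.univ : Finset V)
  rw [Finset.powerset_univ] at h3
  rw [← h3]
  exact Finset.prod_congr rfl fun i _ => nu_mix t (y i)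

lemma average_resample (ε : ℝ) (F : (V → Bool) → ℝ) :
    noiseCorr (1 / 2) F ε = PS (fun _ => 1 - ε) F F := by
  unfold noiseCorr
  simp only [resample_eq]
  have h := average_PS (1 - ε) F F
  rw [← h]
  refine Finset.sum_bij' (fun R _ => Rᶜ) (fun U _ => Uᶜ) (fun _ _ => Finset.mem_univ _)
    (fun _ _ => Finset.mem_univ _) (fun _ _ => compl_compl _) (fun _ _ => compl_compl _) ?_
  intro R _
  have h1 : Fintype.card V - Rᶜ.card = R.card := by
    rw [Finset.card_compl]
    have := Finset.card_le_univ R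
    omega
  have h2 : (fun i => if i ∈ R then (0 : ℝ) else 1) = fun i => if i ∈ Rᶜ then 1 else 0 := by
    funext i
    by_cases hi : i ∈ R <;> simp [hi]
  rw [h1, Finset.card_compl, h2]
  ring

/-- The first marginal. -/
lemma PS_one_right (t : V → ℝ) (F : (V → Bool) → ℝ) : PS t F (fun _ => 1) = mean (1 / 2) F := by
  rw [PS, mean_eq]
  have h := pushforward (V := V) (S := Bool × Bool) (T := Bool) (fun i s => nu (t i) s)
    (fun _ s => s.1) F
  simp only [mul_one]
  rw [h]
  refine Finset.sum_congr rfl fun y _ => ?_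
  congr 1
  refine Finset.prod_congr rfl fun i _ => ?_
  cases hy : y i <;> simp [Fintype.sum_prod_type, nu] <;> ring

lemma PS_one_left (t : V → ℝ) (F : (V → Bool) → ℝ) : PS t (fun _ => 1) F = mean (1 / 2) F := by
  rw [PS, mean_eq]
  have h := pushforward (V := V) (S := Bool × Bool) (T := Bool) (fun i s => nu (t i) s)
    (fun _ s => s.2) F
  simp only [one_mul]
  rw [h]
  refine Finset.sum_congr rfl fun y _ => ?_
  congr 1
  refine Finset.prod_congr rfl fun i _ => ?_
  cases hy : y i <;> simp [Fintype.sum_prod_type, nu] <;> ring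

lemma mean_one : mean (V := V) (1 / 2) (fun _ => 1) = 1 := by
  rw [mean_eq]
  simp

end Pool.Agent.R982.Clue
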