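import Mathlib
import Pool.Agent.R982.CluePair

/-!
Functions of disjoint blocks: exact formulas.
-/

namespace Pool.Agent.R982.Clue

open Finset

set_option linter.unusedSectionVars false

variable {B : Type*} [Fintype B] [DecidableEq B] (s : B → ℕ)

/-- Coordinates: blocks `b` of size `s b`. -/
abbrev Coord (s : B → ℕ) := (b : B) × Fin (s b)

/-- Indicator that all bits of a block equal one. -/
noncomputable def X {m : ℕ} (η : Fin m → Bool) : ℝ := ∏ i, if η i = true then (1 : ℝ) else 0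

/-- Indicator that no block is all ones. -/
noncomputable def A (ω : Coord s → Bool) : ℝ := ∏ b, (1 - X (fun i => ω ⟨b, i⟩))

open scoped Classical in
/-- Tribes function with blocks `b` of size `s b`: `1` iff some block is all ones, else `-1`. -/
noncomputable def tribes (ω : Coord s → Bool) : ℝ :=
  if ∃ b, ∀ i : Fin (s b), ω ⟨b, i⟩ = true then 1 else -1

lemma X_eq {m : ℕ} (η : Fin m → Bool) : X η = 1 ∨ X η = 0 := by
  unfold X
  by_cases h : ∀ i, η i = true
  · left
    exact Finset.prod_eq_one fun i _ => if_pos (h i)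
  · right
    push Not at h
    obtain ⟨i, hi⟩ := h
    exact Finset.prod_eq_zero (Finset.mem_univ i) (if_neg hi)

lemma X_eq_one {m : ℕ} {η : Fin m → Bool} (h : ∀ i, η i = true) : X η = 1 :=
  Finset.prod_eq_one fun i _ => if_pos (h i)

lemma X_eq_zero {m : ℕ} {η : Fin m → Bool} (h : ¬ ∀ i, η i = true) : X η = 0 := by
  push Not at h
  obtain ⟨i, hi⟩ := h
  exact Finset.prod_eq_zero (Finset.mem_univ i) (if_neg hi)

lemma tribes_eq (ω : Coord s → Bool) : tribes s ω = 1 - 2 * A s ω := by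
  unfold tribes A
  by_cases h : ∃ b, ∀ i : Fin (s b), ω ⟨b, i⟩ = true
  · rw [if_pos h]
    obtain ⟨b, hb⟩ := h
    rw [Finset.prod_eq_zero (Finset.mem_univ b)]
    · ring
    · rw [X_eq_one hb]; ring
  · rw [if_neg h, Finset.prod_eq_one]
    · ring
    · intro b _
      rw [X_eq_zero (fun hb => h ⟨b, hb⟩)]
      ring

lemma A_sq (ω : Coord s → Bool) : A s ω * A s ω = A s ω := by
  unfold A
  rw [← Finset.prod_mul_distrib]
  refine Finset.prod_congr rfl fun b _ => ?_
  rcases X_eq (fun i => ω ⟨b, i⟩) with h | h <;> rw [h] <;> ring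

lemma factor {T : Type*} [Fintype T] (w : Coord s → T → ℝ) (g : (b : B) → (Fin (s b) → T) → ℝ) :
    ∑ y : Coord s → T, (∏ v, w v (y v)) * ∏ b, g b (fun i => y ⟨b, i⟩)
      = ∏ b, ∑ η : Fin (s b) → T, (∏ i, w ⟨b, i⟩ (η i)) * g b η := by
  classical
  rw [Finset.prod_univ_sum, Fintype.piFinset_univ]
  rw [← Equiv.sum_comp (Equiv.piCurry (fun (b : B) (_ : Fin (s b)) => T))]
  refine Finset.sum_congr rfl fun y _ => ?_
  rw [Fintype.prod_sigma, ← Finset.prod_mul_distrib]
  rfl

lemma sum_pow' {T : Type*} [Fintype T] (m : ℕ) (h : T → ℝ) :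
    ∑ η : Fin m → T, ∏ i, h (η i) = (∑ z, h z) ^ m := by
  classical
  have := Finset.prod_univ_sum (fun _ : Fin m => (Finset.univ : Finset T)) (fun _ z => h z)
  rw [Fintype.piFinset_univ] at this
  rw [← this, Finset.prod_const, Finset.card_univ, Fintype.card_fin]

lemma block_pair (m : ℕ) (t : ℝ) :
    ∑ η : Fin m → Bool × Bool, (∏ i, nu t (η i)) *
      ((1 - X (fun i => (η i).1)) * (1 - X (fun i => (η i).2)))
      = 1 - 2 * (1 / 2) ^ m + ((1 + t) / 4) ^ m := by
  have h1 : ∀ η : Fin m → Bool × Bool, (∏ i, nu t (η i)) *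
      ((1 - X (fun i => (η i).1)) * (1 - X (fun i => (η i).2)))
      = (∏ i, nu t (η i)) - (∏ i, nu t (η i) * (if (η i).1 = true then (1 : ℝ) else 0))
        - (∏ i, nu t (η i) * (if (η i).2 = true then (1 : ℝ) else 0))
        + (∏ i, nu t (η i) * ((if (η i).1 = true then (1 : ℝ) else 0)
          * (if (η i).2 = true then (1 : ℝ) else 0))) := by
    intro η
    unfold X
    simp only [Finset.prod_mul_distrib]
    ring
  simp only [h1]
  rw [Finset.sum_add_distrib, Finset.sum_sub_distrib, Finset.sum_sub_distrib,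
    sum_pow' m (fun z => nu t z),
    sum_pow' m (fun z => nu t z * (if z.1 = true then (1 : ℝ) else 0)),
    sum_pow' m (fun z => nu t z * (if z.2 = true then (1 : ℝ) else 0)),
    sum_pow' m (fun z => nu t z * ((if z.1 = true then (1 : ℝ) else 0)
          * (if z.2 = true then (1 : ℝ) else 0)))]
  have e1 : ∑ z : Bool × Bool, nu t z = 1 := by
    simp [Fintype.sum_prod_type, nu]; ring
  have e2 : ∑ z : Bool × Bool, nu t z * (if z.1 = true then (1 : ℝ) else 0) = 1 / 2 := by
    simp [Fintype.sum_prod_type, nu]; ring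
  have e3 : ∑ z : Bool × Bool, nu t z * (if z.2 = true then (1 : ℝ) else 0) = 1 / 2 := by
    simp [Fintype.sum_prod_type, nu]; ring
  have e4 : ∑ z : Bool × Bool, nu t z * ((if z.1 = true then (1 : ℝ) else 0)
          * (if z.2 = true then (1 : ℝ) else 0)) = (1 + t) / 4 := by
    simp [Fintype.sum_prod_type, nu]; ring
  rw [e1, e2, e3, e4]
  ring

lemma PS_A (τ : B → ℝ) : PS (fun v : Coord s => τ v.1) (A s) (A s)
    = ∏ b, (1 - 2 * (1 / 2) ^ s b + ((1 + τ b) / 4) ^ s b) := by
  have h := factor s (T := Bool × Bool) (fun v z => nu (τ v.1) z)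
    (fun b η => (1 - X (fun i => (η i).1)) * (1 - X (fun i => (η i).2)))
  rw [PS]
  have h2 : ∀ y : Coord s → Bool × Bool,
      A s (fun i => (y i).1) * A s (fun i => (y i).2)
        = ∏ b, (1 - X (fun i => (y ⟨b, i⟩).1)) * (1 - X (fun i => (y ⟨b, i⟩).2)) := by
    intro y
    unfold A
    rw [← Finset.prod_mul_distrib]
  simp only [h2]
  rw [h]
  exact Finset.prod_congr rfl fun b _ => block_pair (s b) (τ b)

lemma mean_A : mean (1 / 2) (A s) = ∏ b, (1 - (1 / 2) ^ s b) := by
  rw [mean_eq]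
  have h := factor s (T := Bool) (fun _ _ => (1 / 2 : ℝ)) (fun _ η => 1 - X η)
  unfold A
  rw [h]
  refine Finset.prod_congr rfl fun b _ => ?_
  have h1 : ∀ η : Fin (s b) → Bool, (∏ _i : Fin (s b), (1 / 2 : ℝ)) * (1 - X η)
      = (∏ _i : Fin (s b), (1 / 2 : ℝ))
        - ∏ i : Fin (s b), (1 / 2 : ℝ) * (if η i = true then 1 else 0) := by
    intro η
    unfold X
    rw [Finset.prod_mul_distrib]
    ring
  simp only [h1]
  rw [Finset.sum_sub_distrib, sum_pow' (s b) (fun _ : Bool => (1 / 2 : ℝ)),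
    sum_pow' (s b) (fun z : Bool => (1 / 2 : ℝ) * (if z = true then 1 else 0))]
  simp

/-! Affine functions of `A`. -/

lemma mean_affine {V : Type*} [Fintype V] [DecidableEq V] (F : (V → Bool) → ℝ) (c d : ℝ) :
    mean (1 / 2) (fun ω => c + d * F ω) = c + d * mean (1 / 2) F := by
  have h := mean_one (V := V)
  rw [mean_eq] at h
  simp only [mul_one] at h
  rw [mean_eq, mean_eq, Finset.mul_sum]
  have h1 : ∀ ω : V → Bool, (∏ _i : V, (1 / 2 : ℝ)) * (c + d * F ω)
      = c * (∏ _i : V, (1 / 2 : ℝ)) + d * ((∏ _i : V, (1 / 2 : ℝ)) * F ω) := fun ω => by ring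
  simp only [h1]
  rw [Finset.sum_add_distrib, ← Finset.mul_sum, h, mul_one]

lemma variance_eq {V : Type*} [Fintype V] [DecidableEq V] (F : (V → Bool) → ℝ) :
    variance (1 / 2) F = mean (1 / 2) (fun ω => F ω ^ 2) - mean (1 / 2) F ^ 2 := by
  rw [variance]
  set m := mean (1 / 2) F with hm
  have h := mean_one (V := V)
  rw [mean_eq] at h
  simp only [mul_one] at h
  rw [mean_eq, mean_eq]
  have h1 : ∀ ω : V → Bool, (∏ _i : V, (1 / 2 : ℝ)) * (F ω - m) ^ 2
      = (∏ _i : V, (1 / 2 : ℝ)) * F ω ^ 2 - 2 * m * ((∏ _i : V, (1 / 2 : ℝ)) * F ω)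
        + m ^ 2 * (∏ _i : V, (1 / 2 : ℝ)) := fun ω => by ring
  simp only [h1]
  have e2 : ∑ ω : V → Bool, 2 * m * ((∏ _i : V, (1 / 2 : ℝ)) * F ω)
      = 2 * m * m := by
    rw [← Finset.mul_sum, ← mean_eq, ← hm]
  have e3 : ∑ _ω : V → Bool, m ^ 2 * (∏ _i : V, (1 / 2 : ℝ)) = m ^ 2 := by
    rw [← Finset.mul_sum, h, mul_one]
  rw [Finset.sum_add_distrib, Finset.sum_sub_distrib, e2, e3]
  ring

lemma PS_affine {V : Type*} [Fintype V] [DecidableEq V] (t : V → ℝ) (F : (V → Bool) → ℝ) :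
    PS t (fun ω => 1 - 2 * F ω) (fun ω => 1 - 2 * F ω)
      = 1 - 4 * mean (1 / 2) F + 4 * PS t F F := by
  have h1 := PS_one_right t F
  have h2 := PS_one_left t F
  have h3 := PS_one_left t (fun _ => 1)
  rw [mean_one] at h3
  have h4 : PS t (fun ω => 1 - 2 * F ω) (fun ω => 1 - 2 * F ω)
      = PS t (fun _ => 1) (fun _ => 1) - 2 * PS t F (fun _ => 1) - 2 * PS t (fun _ => 1) F
        + 4 * PS t F F := by
    unfold PS
    rw [Finset.mul_sum, Finset.mul_sum, Finset.mul_sum, ← Finset.sum_sub_distrib,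
      ← Finset.sum_sub_distrib, ← Finset.sum_add_distrib]
    exact Finset.sum_congr rfl fun y _ => by ring
  rw [h4, h3, h1, h2]
  ring

lemma tribes_fun : tribes s = fun ω => 1 - 2 * A s ω := funext (tribes_eq s)

lemma mean_tribes : mean (1 / 2) (tribes s) = 1 - 2 * mean (1 / 2) (A s) := by
  have h := mean_affine (A s) 1 (-2)
  rw [tribes_fun]
  have h2 : (fun ω => 1 - 2 * A s ω) = fun ω => 1 + -2 * A s ω := by funext ω; ring
  rw [h2, h]
  ring

lemma variance_tribes : variance (1 / 2) (tribes s)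
    = 4 * (mean (1 / 2) (A s) - mean (1 / 2) (A s) ^ 2) := by
  rw [variance_eq, mean_tribes]
  have h1 : (fun ω => tribes s ω ^ 2) = fun _ => 1 := by
    funext ω
    rw [tribes_eq]
    have := A_sq s ω
    nlinarith
  rw [h1, mean_one]
  ring

lemma variance_condMean_tribes (U : Finset (Coord s)) :
    variance (1 / 2) (condMean (1 / 2) U (tribes s))
      = 4 * (PS (fun i => if i ∈ U then 1 else 0) (A s) (A s) - mean (1 / 2) (A s) ^ 2) := by
  rw [variance_eq, mean_condMean, mean_condMean_sq, mean_tribes, tribes_fun, PS_affine]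
  ring

lemma clue_tribes (U : Finset (Coord s)) : clue (1 / 2) (tribes s) U
    = (PS (fun i => if i ∈ U then 1 else 0) (A s) (A s) - mean (1 / 2) (A s) ^ 2)
      / (mean (1 / 2) (A s) - mean (1 / 2) (A s) ^ 2) := by
  rw [clue, variance_condMean_tribes, variance_tribes, mul_div_mul_left _ _ (by norm_num)]

lemma meanClue_tribes (δ : ℝ) : meanClue (1 / 2) (tribes s) δ
    = (PS (fun _ => δ) (A s) (A s) - mean (1 / 2) (A s) ^ 2)
      / (mean (1 / 2) (A s) - mean (1 / 2) (A s) ^ 2) := by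
  unfold meanClue
  simp only [clue_tribes]
  have h1 : ∀ U : Finset (Coord s), δ ^ U.card * (1 - δ) ^ (Fintype.card (Coord s) - U.card) *
      ((PS (fun i => if i ∈ U then 1 else 0) (A s) (A s) - mean (1 / 2) (A s) ^ 2)
      / (mean (1 / 2) (A s) - mean (1 / 2) (A s) ^ 2))
      = (δ ^ U.card * (1 - δ) ^ (Fintype.card (Coord s) - U.card) *
          PS (fun i => if i ∈ U then 1 else 0) (A s) (A s)
        - mean (1 / 2) (A s) ^ 2 * (δ ^ U.card * (1 - δ) ^ (Fintype.card (Coord s) - U.card)))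
      / (mean (1 / 2) (A s) - mean (1 / 2) (A s) ^ 2) := fun U => by ring
  simp only [h1]
  rw [← Finset.sum_div, Finset.sum_sub_distrib, average_PS, ← Finset.mul_sum]
  have h2 := Finset.sum_pow_mul_eq_add_pow δ (1 - δ) (Finset.univ : Finset (Coord s))
  rw [Finset.powerset_univ, Finset.card_univ] at h2
  rw [h2]
  norm_num

lemma noise_tribes (ε : ℝ) : noiseCorr (1 / 2) (tribes s) ε - mean (1 / 2) (tribes s) ^ 2
    = 4 * (PS (fun _ => 1 - ε) (A s) (A s) - mean (1 / 2) (A s) ^ 2) := by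
  rw [average_resample, mean_tribes, tribes_fun, PS_affine]
  ring

lemma clue_empty {V : Type*} [Fintype V] [DecidableEq V] (F : (V → Bool) → ℝ) :
    clue (1 / 2) F ∅ = 0 := by
  have h1 : condMean (1 / 2) ∅ F = fun _ => mean (1 / 2) F := by
    funext ω
    simp [condMean]
  rw [clue, h1, variance_eq]
  have h2 : ∀ c : ℝ, mean (V := V) (1 / 2) (fun _ => c) = c := by
    intro c
    have := mean_affine (V := V) (fun _ => 0) c 0
    simpa using this
  rw [h2, h2]
  simp

end Pool.Agent.R982.Clue
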