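import Mathlib

/-!
# Weights of cycle types for the Ewens distribution

`W α s` is the weight `∏ (α/m)^{c_m} / c_m!` of a multiset `s` of cycle lengths, and
`WS α n f = ∑ f s * W α s` over all multisets of positive integers with sum `n`.
The main identity is the size-biased recursion `WS_rec`.
-/

open Finset

namespace Pool.Agent.R982.Ewens

/-- the finset of multisets of positive integers with sum `n` -/
noncomputable def P (n : ℕ) : Finset (Multiset ℕ) := by
  classical
  exact (Finset.univ : Finset (Nat.Partition n)).image (fun l => l.parts)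

theorem mem_P {n : ℕ} {s : Multiset ℕ} : s ∈ P n ↔ s.sum = n ∧ ∀ m ∈ s, 0 < m := by
  classical
  unfold P
  rw [Finset.mem_image]
  constructor
  · rintro ⟨l, _, rfl⟩
    exact ⟨l.parts_sum, fun m hm => l.parts_pos hm⟩
  · rintro ⟨h1, h2⟩
    exact ⟨⟨s, fun {m} hm => h2 m hm, h1⟩, Finset.mem_univ _, rfl⟩

theorem P_zero : P 0 = {0} := by
  ext s
  rw [mem_P, Finset.mem_singleton]
  constructor
  · rintro ⟨h1, h2⟩
    by_contra hne
    obtain ⟨a, ha⟩ := Multiset.exists_mem_of_ne_zero hne
    have := Multiset.sum_eq_zero_iff.mp h1 a ha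
    have := h2 a ha
    omega
  · rintro rfl
    simp

/-- the weight of a multiset of cycle lengths -/
noncomputable def W (α : ℝ) (s : Multiset ℕ) : ℝ :=
  ∏ m ∈ s.toFinset, (α / m) ^ (s.count m) / ((s.count m).factorial : ℝ)

theorem W_eq (α : ℝ) (s : Multiset ℕ) (F : Finset ℕ) (hF : s.toFinset ⊆ F) :
    W α s = ∏ m ∈ F, (α / m) ^ (s.count m) / ((s.count m).factorial : ℝ) := by
  unfold W
  refine Finset.prod_subset hF ?_
  intro x _ hx
  rw [Multiset.mem_toFinset] at hx
  rw [Multiset.count_eq_zero_of_notMem hx]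
  simp

theorem W_zero (α : ℝ) : W α 0 = 1 := by simp [W]

theorem W_nonneg {α : ℝ} (hα : 0 ≤ α) (s : Multiset ℕ) : 0 ≤ W α s := by
  unfold W
  refine Finset.prod_nonneg ?_
  intro m _
  positivity

theorem W_cons (α : ℝ) (m : ℕ) (hm : 0 < m) (t : Multiset ℕ) :
    (m : ℝ) * ((m ::ₘ t).count m : ℝ) * W α (m ::ₘ t) = α * W α t := by
  classical
  have hm' : (m : ℝ) ≠ 0 := by positivity
  set F := insert m t.toFinset with hF
  have h1 : (m ::ₘ t).toFinset ⊆ F := by
    rw [Multiset.toFinset_cons]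
  have h2 : t.toFinset ⊆ F := Finset.subset_insert _ _
  rw [W_eq α _ F h1, W_eq α _ F h2]
  have hmF : m ∈ F := Finset.mem_insert_self _ _
  rw [← Finset.mul_prod_erase F _ hmF, ← Finset.mul_prod_erase F _ hmF]
  have h3 : ∏ x ∈ F.erase m, (α / (x : ℝ)) ^ ((m ::ₘ t).count x) /
      (((m ::ₘ t).count x).factorial : ℝ) =
      ∏ x ∈ F.erase m, (α / (x : ℝ)) ^ (t.count x) / ((t.count x).factorial : ℝ) := by
    refine Finset.prod_congr rfl ?_
    intro x hx
    rw [Multiset.count_cons_of_ne (Finset.ne_of_mem_erase hx)]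
  rw [h3, Multiset.count_cons_self]
  set R := ∏ x ∈ F.erase m, (α / (x : ℝ)) ^ (t.count x) / ((t.count x).factorial : ℝ)
  rw [Nat.factorial_succ]
  have hf : ((t.count m).factorial : ℝ) ≠ 0 := by positivity
  have hc : ((t.count m : ℝ) + 1) ≠ 0 := by positivity
  push_cast
  rw [pow_succ]
  field_simp

/-- weighted sums over partitions -/
noncomputable def WS (α : ℝ) (n : ℕ) (f : Multiset ℕ → ℝ) : ℝ := ∑ s ∈ P n, f s * W α s

theorem WS_rec (α : ℝ) (n : ℕ) (f : Multiset ℕ → ℝ) :
    (n : ℝ) * WS α n f = α * ∑ m ∈ Icc 1 n, WS α (n - m) (fun s => f (m ::ₘ s)) := by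
  classical
  have hsum : ∀ s ∈ P n, (n : ℝ) = ∑ m ∈ Icc 1 n, (m : ℝ) * (s.count m : ℝ) := by
    intro s hs
    rw [mem_P] at hs
    have h1 : s.sum = ∑ m ∈ s.toFinset, s.count m • m := Finset.sum_multiset_count s
    have h2 : ∑ m ∈ s.toFinset, s.count m • m = ∑ m ∈ Icc 1 n, s.count m • m := by
      refine Finset.sum_subset ?_ ?_
      · intro x hx
        rw [Multiset.mem_toFinset] at hx
        rw [Finset.mem_Icc]
        refine ⟨hs.2 x hx, ?_⟩
        rw [← hs.1]
        exact Multiset.single_le_sum (fun _ _ => Nat.zero_le _) x hx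
      · intro x _ hx
        rw [Multiset.mem_toFinset] at hx
        rw [Multiset.count_eq_zero_of_notMem hx]
        simp
    have h3 : n = ∑ m ∈ Icc 1 n, s.count m • m := by rw [← h2, ← h1, hs.1]
    have h4 : (n : ℝ) = ((∑ m ∈ Icc 1 n, s.count m • m : ℕ) : ℝ) := by exact_mod_cast h3
    rw [h4]
    push_cast
    refine Finset.sum_congr rfl ?_
    intro x _
    simp only [smul_eq_mul]
    push_cast
    ring
  have h1 : (n : ℝ) * WS α n f = ∑ m ∈ Icc 1 n, ∑ s ∈ P n,
      f s * ((m : ℝ) * (s.count m : ℝ) * W α s) := by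
    unfold WS
    rw [Finset.mul_sum, Finset.sum_comm]
    refine Finset.sum_congr rfl ?_
    intro s hs
    rw [← Finset.mul_sum]
    rw [← Finset.sum_mul, ← hsum s hs]
    ring
  rw [h1, Finset.mul_sum]
  refine Finset.sum_congr rfl ?_
  intro m hm
  rw [Finset.mem_Icc] at hm
  have h2 : ∑ s ∈ P n, f s * ((m : ℝ) * (s.count m : ℝ) * W α s) =
      ∑ s ∈ (P n).filter (fun s => m ∈ s), f s * ((m : ℝ) * (s.count m : ℝ) * W α s) := by
    symm
    refine Finset.sum_subset (Finset.filter_subset _ _) ?_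
    intro s hs hs2
    rw [Finset.mem_filter, not_and] at hs2
    rw [Multiset.count_eq_zero_of_notMem (hs2 hs)]
    simp
  rw [h2]
  unfold WS
  rw [Finset.mul_sum]
  symm
  refine Finset.sum_nbij' (fun t => m ::ₘ t) (fun s => s.erase m) ?_ ?_ ?_ ?_ ?_
  · intro t ht
    rw [mem_P] at ht
    rw [Finset.mem_filter, mem_P]
    refine ⟨⟨?_, ?_⟩, Multiset.mem_cons_self _ _⟩
    · rw [Multiset.sum_cons, ht.1]; omega
    · intro a ha
      rw [Multiset.mem_cons] at ha
      rcases ha with rfl | ha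
      · omega
      · exact ht.2 a ha
  · intro s hs
    rw [Finset.mem_filter, mem_P] at hs
    rw [mem_P]
    refine ⟨?_, ?_⟩
    · have := Multiset.sum_erase hs.2
      omega
    · intro a ha
      exact hs.1.2 a (Multiset.mem_of_mem_erase ha)
  · intro t _
    exact Multiset.erase_cons_head _ _
  · intro s hs
    rw [Finset.mem_filter] at hs
    exact Multiset.cons_erase hs.2
  · intro t _
    rw [W_cons α m (by omega) t]
    ring

theorem WS_mono {α : ℝ} (hα : 0 ≤ α) (n : ℕ) {f g : Multiset ℕ → ℝ}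
    (h : ∀ s ∈ P n, f s ≤ g s) : WS α n f ≤ WS α n g := by
  unfold WS
  exact Finset.sum_le_sum fun s hs => mul_le_mul_of_nonneg_right (h s hs) (W_nonneg hα s)

theorem WS_nonneg {α : ℝ} (hα : 0 ≤ α) (n : ℕ) {f : Multiset ℕ → ℝ}
    (h : ∀ s ∈ P n, 0 ≤ f s) : 0 ≤ WS α n f := by
  unfold WS
  exact Finset.sum_nonneg fun s hs => mul_nonneg (h s hs) (W_nonneg hα s)

theorem WS_congr (α : ℝ) (n : ℕ) {f g : Multiset ℕ → ℝ}
    (h : ∀ s ∈ P n, f s = g s) : WS α n f = WS α n g := by
  unfold WS
  exact Finset.sum_congr rfl fun s hs => by rw [h s hs]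

/-- total weight -/
noncomputable def w (α : ℝ) (n : ℕ) : ℝ := WS α n (fun _ => 1)

theorem w_zero (α : ℝ) : w α 0 = 1 := by
  simp [w, WS, P_zero, W_zero]

theorem w_rec (α : ℝ) (n : ℕ) : (n : ℝ) * w α n = α * ∑ s ∈ range n, w α s := by
  unfold w
  rw [WS_rec]
  congr 1
  refine Finset.sum_nbij' (fun m => n - m) (fun s => n - s) ?_ ?_ ?_ ?_ ?_
  · intro m hm; rw [Finset.mem_Icc] at hm; rw [Finset.mem_range]; omega
  · intro m hm; rw [Finset.mem_range] at hm; rw [Finset.mem_Icc]; omega
  · intro m hm; rw [Finset.mem_Icc] at hm; omega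
  · intro m hm; rw [Finset.mem_range] at hm; omega
  · intro m _; rfl

theorem w_succ (α : ℝ) (n : ℕ) : ((n : ℝ) + 1) * w α (n + 1) = (α + n) * w α n := by
  have h1 := w_rec α (n + 1)
  rw [Finset.sum_range_succ, mul_add, ← w_rec] at h1
  push_cast at h1
  linarith

theorem w_eq_prod (α : ℝ) (n : ℕ) :
    w α n = (∏ i ∈ range n, (α + i)) / (n.factorial : ℝ) := by
  induction n with
  | zero => simp [w_zero]
  | succ n ih =>
    have h := w_succ α n
    rw [ih] at h
    rw [Finset.prod_range_succ, Nat.factorial_succ]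
    have h1 : (n : ℝ) + 1 ≠ 0 := by positivity
    have h2 : (n.factorial : ℝ) ≠ 0 := by positivity
    push_cast
    field_simp
    field_simp at h
    linarith

theorem w_pos {α : ℝ} (hα : 0 < α) (n : ℕ) : 0 < w α n := by
  rw [w_eq_prod]
  refine div_pos (Finset.prod_pos fun i _ => by positivity) (by positivity)

/-- signed total weight -/
noncomputable def D (α : ℝ) (n : ℕ) : ℝ := WS α n (fun s => (-1) ^ (n + Multiset.card s))

theorem D_zero (α : ℝ) : D α 0 = 1 := by
  simp [D, WS, P_zero, W_zero]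

theorem D_rec (α : ℝ) (n : ℕ) :
    (n : ℝ) * D α n = α * ∑ s ∈ range n, (-1) ^ (n + s + 1) * D α s := by
  unfold D
  rw [WS_rec]
  congr 1
  refine Finset.sum_nbij' (fun m => n - m) (fun s => n - s) ?_ ?_ ?_ ?_ ?_
  · intro m hm; rw [Finset.mem_Icc] at hm; rw [Finset.mem_range]; omega
  · intro m hm; rw [Finset.mem_range] at hm; rw [Finset.mem_Icc]; omega
  · intro m hm; rw [Finset.mem_Icc] at hm; omega
  · intro m hm; rw [Finset.mem_range] at hm; omega
  · intro m hm
    rw [Finset.mem_Icc] at hm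
    unfold WS
    rw [Finset.mul_sum]
    refine Finset.sum_congr rfl ?_
    intro s _
    beta_reduce
    rw [Multiset.card_cons, ← mul_assoc, ← pow_add]
    congr 1
    have : n + (n - m) + 1 + (n - m + Multiset.card s) = (n + (Multiset.card s + 1)) + 2 * (n - m) := by
      omega
    rw [this, pow_add (-1 : ℝ) (n + (Multiset.card s + 1)), pow_mul]
    simp

theorem D_succ (α : ℝ) (n : ℕ) : ((n : ℝ) + 1) * D α (n + 1) = (α - n) * D α n := by
  have h1 := D_rec α (n + 1)
  have h2 := D_rec α n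
  rw [Finset.sum_range_succ] at h1
  have h3 : ∑ s ∈ range n, (-1 : ℝ) ^ (n + 1 + s + 1) * D α s =
      - ∑ s ∈ range n, (-1 : ℝ) ^ (n + s + 1) * D α s := by
    rw [← Finset.sum_neg_distrib]
    refine Finset.sum_congr rfl ?_
    intro s _
    have : n + 1 + s + 1 = (n + s + 1) + 1 := by ring
    rw [this, pow_succ]
    ring
  rw [h3] at h1
  have h4 : (-1 : ℝ) ^ (n + 1 + n + 1) = 1 := by
    have : n + 1 + n + 1 = 2 * (n + 1) := by ring
    rw [this, pow_mul]; simp
  rw [h4] at h1
  push_cast at h1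
  linear_combination h1 + h2

theorem abs_D_le {α : ℝ} (hα : 1 < α) (n : ℕ) (hn : 2 ≤ n) :
    |D α n| ≤ (α - 1) / (α + 1) * w α n := by
  have hα0 : 0 < α := by linarith
  have step : ∀ n : ℕ, ((n : ℝ) + 1) * |D α (n + 1)| ≤ |α - n| * |D α n| := by
    intro n
    have h := D_succ α n
    have h2 : |((n : ℝ) + 1) * D α (n + 1)| = |(α - n) * D α n| := by rw [h]
    rw [abs_mul, abs_mul, abs_of_pos (by positivity : (0 : ℝ) < (n : ℝ) + 1)] at h2
    exact h2.le
  induction n, hn using Nat.le_induction with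
  | base =>
    have h0 := D_zero α
    have h1 : D α 1 = α := by
      have := D_succ α 0
      rw [h0] at this; norm_num at this; exact this
    have h2 : 2 * D α 2 = (α - 1) * α := by
      have := D_succ α 1
      rw [h1] at this; norm_num at this; exact this
    have w1 : w α 1 = α := by
      have := w_succ α 0
      rw [w_zero] at this; norm_num at this; exact this
    have w2 : 2 * w α 2 = (α + 1) * α := by
      have := w_succ α 1
      rw [w1] at this; norm_num at this; exact this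
    have h3 : D α 2 = (α - 1) * α / 2 := by linarith
    have h4 : w α 2 = (α + 1) * α / 2 := by linarith
    rw [h3, h4, abs_of_nonneg (by
      have : 0 < α - 1 := by linarith
      positivity)]
    have : α + 1 ≠ 0 := by linarith
    field_simp
    exact le_refl _
  | succ n hn ih =>
    have h1 := step n
    have h2 := w_succ α n
    have hn0 : (0 : ℝ) ≤ n := by positivity
    have h3 : |α - n| ≤ α + n := by
      rw [abs_le]; constructor <;> linarith
    have hw := w_pos hα0 n
    have hc : 0 ≤ (α - 1) / (α + 1) := div_nonneg (by linarith) (by linarith)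
    have h4 : ((n : ℝ) + 1) * |D α (n + 1)| ≤ (α + n) * ((α - 1) / (α + 1) * w α n) :=
      h1.trans (mul_le_mul h3 ih (abs_nonneg _) (by positivity))
    have h5 : (α + n) * ((α - 1) / (α + 1) * w α n) =
        ((n : ℝ) + 1) * ((α - 1) / (α + 1) * w α (n + 1)) := by
      linear_combination -((α - 1) / (α + 1)) * h2
    rw [h5] at h4
    exact le_of_mul_le_mul_left h4 (by positivity)

/-- monotonicity and growth of the total weight -/
theorem w_mono_succ {α : ℝ} (hα : 1 ≤ α) (n : ℕ) : w α n ≤ w α (n + 1) := by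
  have h := w_succ α n
  have hw := w_pos (by linarith : (0 : ℝ) < α) n
  have : ((n : ℝ) + 1) * w α n ≤ ((n : ℝ) + 1) * w α (n + 1) := by
    rw [h]; nlinarith
  exact le_of_mul_le_mul_left this (by positivity)

theorem w_mono {α : ℝ} (hα : 1 ≤ α) : Monotone (w α) :=
  monotone_nat_of_le_succ (w_mono_succ hα)

theorem w_ratio {α : ℝ} (hα : 1 ≤ α) {x y : ℕ} (hx : 1 ≤ x) (hxy : x ≤ y) :
    w α y ≤ w α x * ((y : ℝ) / x) ^ (α - 1) := by
  have hx0 : (0 : ℝ) < x := by exact_mod_cast hx
  induction y, hxy using Nat.le_induction with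
  | base =>
    rw [div_self hx0.ne', Real.one_rpow, mul_one]
  | succ y hy ih =>
    have hy0 : (0 : ℝ) < y := lt_of_lt_of_le hx0 (by exact_mod_cast hy)
    have h := w_succ α y
    have hw := w_pos (by linarith : (0 : ℝ) < α) y
    have h1 : w α (y + 1) = (1 + (α - 1) / ((y : ℝ) + 1)) * w α y := by
      have : (y : ℝ) + 1 ≠ 0 := by positivity
      field_simp
      linarith
    have h2 : 1 + (α - 1) / ((y : ℝ) + 1) ≤ (((y : ℝ) + 1) / y) ^ (α - 1) := by
      have h3 : 1 + (α - 1) / ((y : ℝ) + 1) ≤ Real.exp ((α - 1) / ((y : ℝ) + 1)) := by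
        have := Real.add_one_le_exp ((α - 1) / ((y : ℝ) + 1))
        linarith
      refine h3.trans ?_
      rw [Real.rpow_def_of_pos (by positivity)]
      refine Real.exp_le_exp.mpr ?_
      have h4 : 1 / ((y : ℝ) + 1) ≤ Real.log (((y : ℝ) + 1) / y) := by
        have h5 := Real.log_le_sub_one_of_pos (by positivity : 0 < (y : ℝ) / ((y : ℝ) + 1))
        have h6 : Real.log ((y : ℝ) / ((y : ℝ) + 1)) = - Real.log (((y : ℝ) + 1) / y) := by
          rw [← Real.log_inv, inv_div]
        rw [h6] at h5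
        have h7 : (y : ℝ) / ((y : ℝ) + 1) - 1 = - (1 / ((y : ℝ) + 1)) := by
          field_simp; ring
        rw [h7] at h5
        linarith
      have h8 : (α - 1) / ((y : ℝ) + 1) = (α - 1) * (1 / ((y : ℝ) + 1)) := by ring
      rw [h8, mul_comm]
      exact mul_le_mul_of_nonneg_right h4 (by linarith)
    rw [h1]
    have h9 : (((y + 1 : ℕ) : ℝ) / x) = (((y : ℝ) + 1) / y) * ((y : ℝ) / x) := by
      push_cast
      field_simp
    rw [h9, Real.mul_rpow (by positivity) (by positivity)]
    calc (1 + (α - 1) / ((y : ℝ) + 1)) * w α y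
        ≤ (((y : ℝ) + 1) / y) ^ (α - 1) * (w α x * ((y : ℝ) / x) ^ (α - 1)) :=
          mul_le_mul h2 ih hw.le (by positivity)
      _ = _ := by ring

end Pool.Agent.R982.Ewens
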