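import Mathlib
import Pool.Agent.R982.EwensA

/-!
# Lower bounds for the blocking events
-/

open Finset

namespace Pool.Agent.R982.Ewens

open Classical in
/-- weight of an event -/
noncomputable def V (α : ℝ) (n : ℕ) (E : Multiset ℕ → Prop) : ℝ :=
  WS α n (fun s => if E s then 1 else 0)

theorem V_nonneg {α : ℝ} (hα : 0 ≤ α) (n : ℕ) (E : Multiset ℕ → Prop) : 0 ≤ V α n E := by
  unfold V
  refine WS_nonneg hα n ?_
  intro s _
  split_ifs <;> norm_num

theorem V_of_forall {α : ℝ} {n : ℕ} {E : Multiset ℕ → Prop} (h : ∀ s ∈ P n, E s) :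
    V α n E = w α n := by
  unfold V w
  refine WS_congr α n ?_
  intro s hs
  rw [if_pos (h s hs)]

theorem V_ge {α : ℝ} (hα : 0 ≤ α) (n : ℕ) (E : Multiset ℕ → Prop) (M : Finset ℕ)
    (hM : M ⊆ Icc 1 n) (E' : ℕ → Multiset ℕ → Prop)
    (h : ∀ m ∈ M, ∀ t ∈ P (n - m), E' m t → E (m ::ₘ t)) :
    α * ∑ m ∈ M, V α (n - m) (E' m) ≤ (n : ℝ) * V α n E := by
  classical
  unfold V
  rw [WS_rec]
  refine mul_le_mul_of_nonneg_left ?_ hα
  refine le_trans ?_ (Finset.sum_le_sum_of_subset_of_nonneg hM ?_)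
  · refine Finset.sum_le_sum ?_
    intro m hm
    refine WS_mono hα _ ?_
    intro s hs
    by_cases h1 : E' m s
    · rw [if_pos h1]
      have := h m hm s hs h1
      simp [this]
    · rw [if_neg h1]
      split_ifs <;> norm_num
  · intro m _ _
    refine WS_nonneg hα _ ?_
    intro s _
    split_ifs <;> norm_num

/-- the blocking event for sizes in `[K, 2K)` -/
def EK (K : ℕ) (s : Multiset ℕ) : Prop := (s.filter (· < 2 * K)).sum < K

/-- the blocking event for sizes at least `n / L` -/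
def EB (L n : ℕ) (s : Multiset ℕ) : Prop := ∃ m ∈ s, (n - m) * L < n

theorem sum_w_range {α : ℝ} (hα : 0 < α) (n : ℕ) :
    ∑ s ∈ range n, w α s = n * w α n / α := by
  have h := w_rec α n
  field_simp
  linarith

theorem sum_w_div {α : ℝ} (hα : 1 < α) (n : ℕ) :
    ∑ s ∈ range (n + 1), w α s / (α - 1 + s) = w α n / (α - 1) := by
  have ha : α - 1 ≠ 0 := by linarith
  induction n with
  | zero => simp [w_zero]
  | succ n ih =>
    rw [Finset.sum_range_succ, ih]
    have h := w_succ α n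
    have h1 : (n : ℝ) + 1 ≠ 0 := by positivity
    have h2 : α - 1 + ((n + 1 : ℕ) : ℝ) ≠ 0 := by
      have : (0 : ℝ) ≤ (n + 1 : ℕ) := by positivity
      linarith
    have h3 : α + (n : ℝ) ≠ 0 := by
      have : (0 : ℝ) ≤ n := by positivity
      linarith
    have h4 : α - 1 + ((n + 1 : ℕ) : ℝ) = α + n := by push_cast; ring
    rw [h4]
    have h5 : w α (n + 1) = (α + n) * w α n / ((n : ℝ) + 1) := by
      field_simp; linarith
    rw [h5]
    field_simp
    ring

theorem exists_L {α : ℝ} (hα : 1 < α) :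
    ∃ L : ℕ, 4 ≤ L ∧ 1 - 1 / (2 * α) ≤ (1 - 2 / (L : ℝ)) ^ (α - 1) := by
  have h1 : Filter.Tendsto (fun L : ℕ => (1 - 2 / (L : ℝ)) ^ (α - 1)) Filter.atTop
      (nhds ((1 - 0 : ℝ) ^ (α - 1))) := by
    refine Filter.Tendsto.rpow_const ?_ (Or.inl (by norm_num))
    refine Filter.Tendsto.sub tendsto_const_nhds ?_
    exact tendsto_const_div_atTop_nhds_zero_nat 2
  have h2 : (1 : ℝ) - 1 / (2 * α) < (1 - 0 : ℝ) ^ (α - 1) := by
    rw [sub_zero, Real.one_rpow]
    have : 0 < 1 / (2 * α) := by positivity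
    linarith
  have h3 := (h1.eventually (lt_mem_nhds h2)).and (Filter.eventually_ge_atTop 4)
  obtain ⟨L, hL⟩ := h3.exists
  exact ⟨L, hL.2, hL.1.le⟩

theorem EK_bound {α : ℝ} (hα : 1 < α) :
    ∃ L : ℕ, 4 ≤ L ∧ ∃ c : ℝ, 0 < c ∧ ∀ K n : ℕ, 1 ≤ K → L * K ≤ n →
      c * w α n ≤ V α n (EK K) := by
  obtain ⟨L, hL4, hL⟩ := exists_L hα
  have hα0 : (0 : ℝ) < α := by linarith
  have ha : (0 : ℝ) < α - 1 := by linarith
  have hLr : (4 : ℝ) ≤ L := by exact_mod_cast hL4
  have hL0 : (0 : ℝ) < L := by linarith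
  refine ⟨L, hL4, 1 / ((L + 4 * α ^ 2) * (L : ℝ) ^ (α - 1)), by positivity, ?_⟩
  set c : ℝ := 1 / ((L + 4 * α ^ 2) * (L : ℝ) ^ (α - 1)) with hc
  have hc0 : 0 < c := by positivity
  intro K n hK hn
  have hKr : (1 : ℝ) ≤ K := by exact_mod_cast hK
  have hK0 : (0 : ℝ) < K := by linarith
  -- stronger claim
  suffices H : ∀ n : ℕ, L * K ≤ n →
      c * ((1 + 4 * (α - 1) * α * K / (α - 1 + n)) * w α n) ≤ V α n (EK K) by
    refine le_trans ?_ (H n hn)
    refine mul_le_mul_of_nonneg_left ?_ hc0.le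
    have hw := w_pos hα0 n
    have : 0 ≤ 4 * (α - 1) * α * K / (α - 1 + n) := by positivity
    nlinarith
  intro n
  induction n using Nat.strong_induction_on with
  | _ n ih =>
  intro hn
  have hLK : 4 * K ≤ L * K := Nat.mul_le_mul_right K hL4
  have hn4 : 4 * K ≤ n := hLK.trans hn
  have hn1 : 1 ≤ n := by omega
  have hn0 : (0 : ℝ) < n := by exact_mod_cast hn1
  -- the function G
  set G : ℕ → ℝ := fun s => (1 + 4 * (α - 1) * α * K / (α - 1 + s)) * w α s with hG
  have hG0 : ∀ s, 0 ≤ G s := by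
    intro s
    have := w_pos hα0 s
    simp only [hG]
    positivity
  have hGsum : ∀ x : ℕ, ∑ s ∈ range (x + 1), G s =
      ((x : ℝ) + 1) * w α (x + 1) / α + 4 * α * K * w α x := by
    intro x
    have e1 : ∑ s ∈ range (x + 1), G s = ∑ s ∈ range (x + 1), w α s +
        (4 * (α - 1) * α * K) * ∑ s ∈ range (x + 1), w α s / (α - 1 + s) := by
      rw [Finset.mul_sum, ← Finset.sum_add_distrib]
      refine Finset.sum_congr rfl ?_
      intro s _
      simp only [hG]
      ring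
    rw [e1, sum_w_range hα0, sum_w_div hα]
    push_cast
    field_simp
  -- step 1: recursion
  have s1 : α * ∑ m ∈ Icc (2 * K) n, V α (n - m) (EK K) ≤ (n : ℝ) * V α n (EK K) := by
    refine V_ge hα0.le n (EK K) (Icc (2 * K) n) ?_ (fun _ => EK K) ?_
    · intro m hm
      rw [Finset.mem_Icc] at hm ⊢
      omega
    · intro m hm t _ ht
      rw [Finset.mem_Icc] at hm
      unfold EK at ht ⊢
      rw [Multiset.filter_cons_of_neg _ (by omega)]
      exact ht
  have s2 : ∑ m ∈ Icc (2 * K) n, V α (n - m) (EK K) =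
      ∑ s ∈ range (n - 2 * K + 1), V α s (EK K) := by
    refine Finset.sum_nbij' (fun m => n - m) (fun s => n - s) ?_ ?_ ?_ ?_ ?_
    · intro m hm; rw [Finset.mem_Icc] at hm; rw [Finset.mem_range]; omega
    · intro m hm; rw [Finset.mem_range] at hm; rw [Finset.mem_Icc]; omega
    · intro m hm; rw [Finset.mem_Icc] at hm; omega
    · intro m hm; rw [Finset.mem_range] at hm; omega
    · intro m _; rfl
  have s3 : ∑ s ∈ range K, w α s + ∑ s ∈ Ico (L * K) (n - 2 * K + 1), c * G s ≤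
      ∑ s ∈ range (n - 2 * K + 1), V α s (EK K) := by
    have d : Disjoint (range K) (Ico (L * K) (n - 2 * K + 1)) := by
      rw [Finset.disjoint_left]
      intro x hx hx2
      rw [Finset.mem_range] at hx
      rw [Finset.mem_Ico] at hx2
      omega
    have e1 : ∑ s ∈ range K, w α s ≤ ∑ s ∈ range K, V α s (EK K) := by
      refine Finset.sum_le_sum ?_
      intro s hs
      rw [Finset.mem_range] at hs
      rw [V_of_forall]
      intro t ht
      rw [mem_P] at ht
      unfold EK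
      have : (t.filter (· < 2 * K)).sum ≤ t.sum := by
        have h := congrArg Multiset.sum (Multiset.filter_add_not (· < 2 * K) t)
        rw [Multiset.sum_add] at h
        omega
      omega
    have e2 : ∑ s ∈ Ico (L * K) (n - 2 * K + 1), c * G s ≤
        ∑ s ∈ Ico (L * K) (n - 2 * K + 1), V α s (EK K) := by
      refine Finset.sum_le_sum ?_
      intro s hs
      rw [Finset.mem_Ico] at hs
      exact ih s (by omega) hs.1
    refine (add_le_add e1 e2).trans ?_
    rw [← Finset.sum_union d]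
    refine Finset.sum_le_sum_of_subset_of_nonneg ?_ ?_
    · intro x hx
      rw [Finset.mem_union, Finset.mem_range, Finset.mem_Ico] at hx
      rw [Finset.mem_range]
      omega
    · intro x _ _
      exact V_nonneg hα0.le _ _
  have s4 : ∑ s ∈ range (n - 2 * K + 1), c * G s - ∑ s ∈ range (L * K), c * G s ≤
      ∑ s ∈ Ico (L * K) (n - 2 * K + 1), c * G s := by
    rcases le_or_gt (L * K) (n - 2 * K + 1) with h | h
    · rw [Finset.sum_Ico_eq_sub _ h]
    · rw [Finset.Ico_eq_empty (by omega), Finset.sum_empty, sub_nonpos]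
      refine Finset.sum_le_sum_of_subset_of_nonneg ?_ ?_
      · intro x hx
        rw [Finset.mem_range] at hx ⊢
        omega
      · intro x _ _
        exact mul_nonneg hc0.le (hG0 x)
  -- values
  obtain ⟨x, hx⟩ : ∃ x, L * K = x + 1 := ⟨L * K - 1, by omega⟩
  have v1 : ∑ s ∈ range (L * K), c * G s ≤ K * w α K / α := by
    rw [← Finset.mul_sum, hx, hGsum]
    have hr : w α (x + 1) ≤ w α K * (L : ℝ) ^ (α - 1) := by
      have := w_ratio hα.le hK (show K ≤ L * K by nlinarith)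
      rw [← hx]
      refine this.trans (le_of_eq ?_)
      congr 2
      push_cast
      field_simp
    have hm : w α x ≤ w α (x + 1) := w_mono_succ hα.le x
    have hx' : ((x : ℝ) + 1) = L * K := by exact_mod_cast hx.symm
    rw [hx']
    have hwp := w_pos hα0 (x + 1)
    have h5 : (L : ℝ) * K * w α (x + 1) / α + 4 * α * K * w α x ≤
        K * ((L + 4 * α ^ 2) * w α (x + 1)) / α := by
      rw [le_div_iff₀ hα0, add_mul, div_mul_cancel₀ _ hα0.ne']
      nlinarith [mul_le_mul_of_nonneg_left hm (by positivity : 0 ≤ 4 * α ^ 2 * K)]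
    calc c * ((L : ℝ) * K * w α (x + 1) / α + 4 * α * K * w α x)
        ≤ c * (K * ((L + 4 * α ^ 2) * w α (x + 1)) / α) :=
          mul_le_mul_of_nonneg_left h5 hc0.le
      _ ≤ c * (K * ((L + 4 * α ^ 2) * (w α K * (L : ℝ) ^ (α - 1))) / α) := by
          refine mul_le_mul_of_nonneg_left ?_ hc0.le
          refine div_le_div_of_nonneg_right ?_ hα0.le
          refine mul_le_mul_of_nonneg_left ?_ hK0.le
          exact mul_le_mul_of_nonneg_left hr (by positivity)
      _ = K * w α K / α := by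
          rw [hc]
          have : (L : ℝ) ^ (α - 1) ≠ 0 := by positivity
          field_simp
  have v2 : ∑ s ∈ range K, w α s = K * w α K / α := sum_w_range hα0 K
  have v3 : ∑ s ∈ range (n - 2 * K + 1), c * G s =
      c * (∑ s ∈ range (n - 2 * K + 1), w α s + 4 * α * K * w α (n - 2 * K)) := by
    rw [← Finset.mul_sum, hGsum, sum_w_range hα0]
    push_cast
    ring
  have v4 : ∑ s ∈ range n, w α s ≤ ∑ s ∈ range (n - 2 * K + 1), w α s + 2 * K * w α (n - 1) := by
    have e1 : ∑ s ∈ range n, w α s = ∑ s ∈ range (n - 2 * K + 1), w α s +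
        ∑ s ∈ Ico (n - 2 * K + 1) n, w α s := by
      rw [Finset.sum_range_add_sum_Ico _ (by omega)]
    rw [e1]
    have e2 : ∑ s ∈ Ico (n - 2 * K + 1) n, w α s ≤
        ∑ _s ∈ Ico (n - 2 * K + 1) n, w α (n - 1) := by
      refine Finset.sum_le_sum ?_
      intro s hs
      rw [Finset.mem_Ico] at hs
      exact w_mono hα.le (by omega)
    rw [Finset.sum_const, Nat.card_Ico, nsmul_eq_mul] at e2
    have e3 : ((n - (n - 2 * K + 1) : ℕ) : ℝ) ≤ 2 * K := by
      have : n - (n - 2 * K + 1) ≤ 2 * K := by omega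
      exact_mod_cast this
    have hwp := w_pos hα0 (n - 1)
    nlinarith
  have v5 : (n : ℝ) * w α n / α = ∑ s ∈ range n, w α s := (sum_w_range hα0 n).symm
  have v6 : (n : ℝ) * w α n = (α - 1 + n) * w α (n - 1) := by
    have := w_succ α (n - 1)
    have h1 : n - 1 + 1 = n := by omega
    rw [h1] at this
    have h2 : (((n - 1 : ℕ) : ℝ)) = (n : ℝ) - 1 := by
      rw [Nat.cast_sub hn1]; simp
    rw [h2] at this
    linarith
  have v7 : (1 - 1 / (2 * α)) * w α (n - 1) ≤ w α (n - 2 * K) := by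
    have h1 := w_ratio hα.le (show 1 ≤ n - 2 * K by omega) (show n - 2 * K ≤ n - 1 by omega)
    have hd : (0 : ℝ) < ((n - 2 * K : ℕ) : ℝ) := by
      have : 0 < n - 2 * K := by omega
      exact_mod_cast this
    have h2 : (((n - 1 : ℕ) : ℝ) / ((n - 2 * K : ℕ) : ℝ)) ≤ (1 - 2 / (L : ℝ))⁻¹ := by
      have hpos : 0 < 1 - 2 / (L : ℝ) := by
        have : 2 / (L : ℝ) ≤ 1 / 2 := by
          rw [div_le_div_iff₀ hL0 (by norm_num)]; linarith
        linarith
      rw [inv_eq_one_div, div_le_div_iff₀ hd hpos]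
      have e1 : (((n - 1 : ℕ) : ℝ)) ≤ n := by exact_mod_cast Nat.sub_le _ _
      have e2 : (((n - 2 * K : ℕ) : ℝ)) = (n : ℝ) - 2 * K := by
        rw [Nat.cast_sub (by omega)]; push_cast; ring
      rw [e2]
      have e3 : (L : ℝ) * K ≤ n := by exact_mod_cast hn
      have e4 : (n : ℝ) * (1 - 2 / (L : ℝ)) ≤ (n : ℝ) - 2 * K := by
        have : (2 : ℝ) * K ≤ n * (2 / L) := by
          rw [mul_div_assoc', le_div_iff₀ hL0]
          nlinarith
        nlinarith
      have e5 : (((n - 1 : ℕ) : ℝ)) * (1 - 2 / (L : ℝ)) ≤ (n : ℝ) * (1 - 2 / (L : ℝ)) :=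
        mul_le_mul_of_nonneg_right e1 hpos.le
      linarith
    have hpos : 0 < 1 - 2 / (L : ℝ) := by
      have : 2 / (L : ℝ) ≤ 1 / 2 := by
        rw [div_le_div_iff₀ hL0 (by norm_num)]; linarith
      linarith
    have h3 : (((n - 1 : ℕ) : ℝ) / ((n - 2 * K : ℕ) : ℝ)) ^ (α - 1) ≤
        ((1 - 2 / (L : ℝ)) ^ (α - 1))⁻¹ := by
      rw [← Real.inv_rpow hpos.le]
      exact Real.rpow_le_rpow (by positivity) h2 ha.le
    have h4 : 0 < 1 - 1 / (2 * α) := by
      have : 1 / (2 * α) ≤ 1 / 2 := by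
        apply one_div_le_one_div_of_le <;> linarith
      linarith
    have h5 : ((1 - 2 / (L : ℝ)) ^ (α - 1))⁻¹ ≤ (1 - 1 / (2 * α))⁻¹ :=
      inv_anti₀ h4 hL
    have hwp := w_pos hα0 (n - 2 * K)
    have h6 : w α (n - 1) ≤ w α (n - 2 * K) * (1 - 1 / (2 * α))⁻¹ :=
      h1.trans (mul_le_mul_of_nonneg_left (h3.trans h5) hwp.le)
    rw [← div_eq_mul_inv, le_div_iff₀ h4] at h6
    linarith
  -- conclusion
  have key : (n : ℝ) * (c * ((1 + 4 * (α - 1) * α * K / (α - 1 + n)) * w α n)) ≤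
      (n : ℝ) * V α n (EK K) := by
    have hden : α - 1 + (n : ℝ) ≠ 0 := by positivity
    have k1 : (n : ℝ) * (c * ((1 + 4 * (α - 1) * α * K / (α - 1 + n)) * w α n)) =
        c * (α * (∑ s ∈ range n, w α s) + 4 * (α - 1) * α * K * w α (n - 1)) := by
      rw [← v5]
      have : (n : ℝ) * (c * ((1 + 4 * (α - 1) * α * K / (α - 1 + n)) * w α n)) =
        c * ((n : ℝ) * w α n + 4 * (α - 1) * α * K / (α - 1 + n) * ((n : ℝ) * w α n)) := by ring
      rw [this, v6]
      field_simp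
    rw [k1]
    refine le_trans ?_ s1
    rw [s2]
    have k2 : K * w α K / α + (c * (∑ s ∈ range (n - 2 * K + 1), w α s +
        4 * α * K * w α (n - 2 * K)) - K * w α K / α) ≤
        ∑ s ∈ range (n - 2 * K + 1), V α s (EK K) := by
      rw [v2] at s3
      rw [v3] at s4
      linarith
    have k3 : c * (α * (∑ s ∈ range n, w α s) + 4 * (α - 1) * α * K * w α (n - 1)) ≤
        α * (c * (∑ s ∈ range (n - 2 * K + 1), w α s + 4 * α * K * w α (n - 2 * K))) := by
      have e1 : α * (∑ s ∈ range n, w α s) + 4 * (α - 1) * α * K * w α (n - 1) ≤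
          α * (∑ s ∈ range (n - 2 * K + 1), w α s + 4 * α * K * w α (n - 2 * K)) := by
        have e2 := mul_le_mul_of_nonneg_left v4 hα0.le
        have e3 := mul_le_mul_of_nonneg_left v7 (by positivity : 0 ≤ 4 * α ^ 2 * K)
        have e4 : 4 * α ^ 2 * K * ((1 - 1 / (2 * α)) * w α (n - 1)) =
            4 * α ^ 2 * K * w α (n - 1) - 2 * α * K * w α (n - 1) := by
          field_simp
          ring
        rw [e4] at e3
        linarith
      have := mul_le_mul_of_nonneg_left e1 hc0.le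
      linarith
    have k4 := mul_le_mul_of_nonneg_left k2 hα0.le
    linarith
  exact le_of_mul_le_mul_left key hn0

theorem EB_bound {α : ℝ} (hα : 1 ≤ α) (L : ℕ) (hL : 1 ≤ L) :
    ∃ c : ℝ, 0 < c ∧ ∀ n : ℕ, 1 ≤ n → c * w α n ≤ V α n (EB L n) := by
  have hα0 : (0 : ℝ) < α := by linarith
  have hL0 : (0 : ℝ) < L := by exact_mod_cast hL
  refine ⟨(1 / L) * (1 / (L : ℝ)) ^ (α - 1), by positivity, ?_⟩
  intro n hn
  have hn0 : (0 : ℝ) < n := by exact_mod_cast hn
  -- K0 = ceil (n / L)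
  set K0 : ℕ := (n + L - 1) / L with hK0
  have hK1 : 1 ≤ K0 := by
    rw [hK0, Nat.le_div_iff_mul_le (by omega)]; omega
  have hKn : K0 ≤ n := by
    rw [hK0]
    apply Nat.div_le_of_le_mul
    obtain ⟨n', rfl⟩ : ∃ n', n = n' + 1 := ⟨n - 1, by omega⟩
    obtain ⟨L', rfl⟩ : ∃ L', L = L' + 1 := ⟨L - 1, by omega⟩
    have : (L' + 1) * (n' + 1) = L' * n' + L' + n' + 1 := by ring
    rw [this]
    have := Nat.zero_le (L' * n')
    omega
  have hKL : n ≤ L * K0 := by
    have := Nat.lt_mul_div_succ (n + L - 1) (show 0 < L by omega)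
    rw [← hK0] at this
    have h2 : L * (K0 + 1) = L * K0 + L := by ring
    omega
  have hlt : ∀ s, s < K0 → s * L < n := by
    intro s hs
    have h1 : s + 1 ≤ K0 := hs
    rw [hK0, Nat.le_div_iff_mul_le (by omega)] at h1
    have h2 : (s + 1) * L = s * L + L := by ring
    omega
  have s1 : α * ∑ m ∈ Icc (n - K0 + 1) n, V α (n - m) (fun _ => True) ≤
      (n : ℝ) * V α n (EB L n) := by
    refine V_ge hα0.le n (EB L n) _ ?_ (fun _ _ => True) ?_
    · intro m hm
      rw [Finset.mem_Icc] at hm ⊢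
      omega
    · intro m hm t _ _
      rw [Finset.mem_Icc] at hm
      exact ⟨m, Multiset.mem_cons_self _ _, hlt _ (by omega)⟩
  have s2 : ∑ m ∈ Icc (n - K0 + 1) n, V α (n - m) (fun _ => True) =
      ∑ s ∈ range K0, w α s := by
    refine Finset.sum_nbij' (fun m => n - m) (fun s => n - s) ?_ ?_ ?_ ?_ ?_
    · intro m hm; rw [Finset.mem_Icc] at hm; rw [Finset.mem_range]; omega
    · intro m hm; rw [Finset.mem_range] at hm; rw [Finset.mem_Icc]; omega
    · intro m hm; rw [Finset.mem_Icc] at hm; omega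
    · intro m hm; rw [Finset.mem_range] at hm; omega
    · intro m _; exact V_of_forall (fun _ _ => trivial)
  rw [s2, sum_w_range hα0] at s1
  have s3 : (K0 : ℝ) * w α K0 ≤ n * V α n (EB L n) := by
    have : α * (K0 * w α K0 / α) = K0 * w α K0 := by field_simp
    linarith
  have s4 := w_ratio hα hK1 hKn
  have hK0r : (0 : ℝ) < K0 := by exact_mod_cast hK1
  have hKLr : (n : ℝ) ≤ L * K0 := by exact_mod_cast hKL
  have s5 : ((n : ℝ) / K0) ^ (α - 1) ≤ (L : ℝ) ^ (α - 1) := by
    refine Real.rpow_le_rpow (by positivity) ?_ (by linarith)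
    rw [div_le_iff₀ hK0r]; exact hKLr
  have s6 : w α n ≤ w α K0 * (L : ℝ) ^ (α - 1) :=
    s4.trans (mul_le_mul_of_nonneg_left s5 (w_pos hα0 _).le)
  have s7 : (1 / (L : ℝ)) ^ (α - 1) * w α n ≤ w α K0 := by
    rw [one_div, Real.inv_rpow hL0.le, inv_mul_le_iff₀ (by positivity)]
    linarith
  have s8 : (n : ℝ) / L * ((1 / (L : ℝ)) ^ (α - 1) * w α n) ≤ K0 * w α K0 := by
    refine mul_le_mul ?_ s7 ?_ hK0r.le
    · rw [div_le_iff₀ hL0]; linarith
    · have := w_pos hα0 n
      positivity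
  have s9 : (n : ℝ) * ((1 / L) * (1 / (L : ℝ)) ^ (α - 1) * w α n) ≤ n * V α n (EB L n) := by
    refine le_trans (le_of_eq ?_) (s8.trans s3)
    ring
  exact le_of_mul_le_mul_left s9 hn0

end Pool.Agent.R982.Ewens
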