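import Mathlib
import Pool.Agent.R982.EwensB

/-!
# Lower bounds for the prime-cycle event and for the odd event
-/

open Finset

namespace Pool.Agent.R982.Ewens

/-- the event producing a prime cycle -/
def EX (n : ℕ) (s : Multiset ℕ) : Prop :=
  ∃ p ∈ s, p.Prime ∧ n < 3 * p ∧ 20 * p < 9 * n ∧ ∃ q ∈ s, n < 2 * q ∧ 50 * q ≤ 26 * n

/-- odd permutations -/
def EO (n : ℕ) (s : Multiset ℕ) : Prop := Odd (n + Multiset.card s)

theorem EX_bound {α : ℝ} (hα : 1 ≤ α) :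
    ∃ c : ℝ, 0 < c ∧ ∀ n : ℕ, 100 ≤ n → ∀ PR : Finset ℕ,
      (∀ p ∈ PR, p.Prime ∧ n < 3 * p ∧ 20 * p < 9 * n) →
      c * ((PR.card : ℝ) / n) * w α n ≤ V α n (EX n) := by
  have hα0 : (0 : ℝ) < α := by linarith
  refine ⟨α * (α * (1 / 100) * (1 / 100 : ℝ) ^ (α - 1)), by positivity, ?_⟩
  intro n hn PR hPR
  have hn0 : (0 : ℝ) < n := by
    have : 0 < n := by omega
    exact_mod_cast this
  have s1 : α * ∑ p ∈ PR, V α (n - p) (fun t => ∃ q ∈ t, n < 2 * q ∧ 50 * q ≤ 26 * n) ≤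
      (n : ℝ) * V α n (EX n) := by
    refine V_ge hα0.le n (EX n) PR ?_
      (fun _ t => ∃ q ∈ t, n < 2 * q ∧ 50 * q ≤ 26 * n) ?_
    · intro p hp
      obtain ⟨h1, h2, h3⟩ := hPR p hp
      rw [Finset.mem_Icc]
      omega
    · intro p hp t _ ht
      obtain ⟨h1, h2, h3⟩ := hPR p hp
      obtain ⟨q, hq, hq2⟩ := ht
      exact ⟨p, Multiset.mem_cons_self _ _, h1, h2, h3, q, Multiset.mem_cons_of_mem hq, hq2⟩
  have hw0 := w_pos hα0 n
  have hx : (1 / 100 : ℝ) ^ (α - 1) * w α n ≤ w α (n / 50) := by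
    have h1 := w_ratio hα (show 1 ≤ n / 50 by omega) (show n / 50 ≤ n by omega)
    have hd : (0 : ℝ) < ((n / 50 : ℕ) : ℝ) := by
      have : 0 < n / 50 := by omega
      exact_mod_cast this
    have h2 : ((n : ℝ) / ((n / 50 : ℕ) : ℝ)) ^ (α - 1) ≤ (100 : ℝ) ^ (α - 1) := by
      refine Real.rpow_le_rpow (by positivity) ?_ (by linarith)
      rw [div_le_iff₀ hd]
      have : n ≤ 100 * (n / 50) := by omega
      exact_mod_cast this
    have h3 : w α n ≤ w α (n / 50) * (100 : ℝ) ^ (α - 1) :=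
      h1.trans (mul_le_mul_of_nonneg_left h2 (w_pos hα0 _).le)
    rw [one_div, Real.inv_rpow (by norm_num), inv_mul_le_iff₀ (by positivity)]
    linarith
  have s2 : ∀ p ∈ PR, α * (1 / 100) * (1 / 100 : ℝ) ^ (α - 1) * w α n ≤
      V α (n - p) (fun t => ∃ q ∈ t, n < 2 * q ∧ 50 * q ≤ 26 * n) := by
    intro p hp
    obtain ⟨h1, h2, h3⟩ := hPR p hp
    have t1 : α * ∑ q ∈ Icc (n / 2 + 1) (26 * n / 50), V α (n - p - q) (fun _ => True) ≤
        ((n - p : ℕ) : ℝ) * V α (n - p) (fun t => ∃ q ∈ t, n < 2 * q ∧ 50 * q ≤ 26 * n) := by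
      refine V_ge hα0.le (n - p) _ _ ?_ (fun _ _ => True) ?_
      · intro q hq
        rw [Finset.mem_Icc] at hq ⊢
        omega
      · intro q hq t _ _
        rw [Finset.mem_Icc] at hq
        exact ⟨q, Multiset.mem_cons_self _ _, by omega, by omega⟩
    have t2 : (n : ℝ) / 100 * w α (n / 50) ≤
        ∑ q ∈ Icc (n / 2 + 1) (26 * n / 50), V α (n - p - q) (fun _ => True) := by
      have e1 : ∑ _q ∈ Icc (n / 2 + 1) (26 * n / 50), w α (n / 50) ≤
          ∑ q ∈ Icc (n / 2 + 1) (26 * n / 50), V α (n - p - q) (fun _ => True) := by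
        refine Finset.sum_le_sum ?_
        intro q hq
        rw [Finset.mem_Icc] at hq
        rw [V_of_forall (fun _ _ => trivial)]
        exact w_mono hα (by omega)
      refine le_trans ?_ e1
      rw [Finset.sum_const, Nat.card_Icc, nsmul_eq_mul]
      refine mul_le_mul_of_nonneg_right ?_ (w_pos hα0 _).le
      rw [div_le_iff₀ (by norm_num)]
      have : n ≤ (26 * n / 50 + 1 - (n / 2 + 1)) * 100 := by omega
      exact_mod_cast this
    have t3 : ((n - p : ℕ) : ℝ) * V α (n - p) (fun t => ∃ q ∈ t, n < 2 * q ∧ 50 * q ≤ 26 * n) ≤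
        (n : ℝ) * V α (n - p) (fun t => ∃ q ∈ t, n < 2 * q ∧ 50 * q ≤ 26 * n) := by
      refine mul_le_mul_of_nonneg_right ?_ (V_nonneg hα0.le _ _)
      exact_mod_cast Nat.sub_le _ _
    have t4 := mul_le_mul_of_nonneg_left t2 hα0.le
    have t5 := mul_le_mul_of_nonneg_left hx (by positivity : 0 ≤ α * ((n : ℝ) / 100))
    have t6 : (n : ℝ) * (α * (1 / 100) * (1 / 100 : ℝ) ^ (α - 1) * w α n) ≤
        (n : ℝ) * V α (n - p) (fun t => ∃ q ∈ t, n < 2 * q ∧ 50 * q ≤ 26 * n) := by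
      linarith
    exact le_of_mul_le_mul_left t6 hn0
  have s3 : (PR.card : ℝ) * (α * (1 / 100) * (1 / 100 : ℝ) ^ (α - 1) * w α n) ≤
      ∑ p ∈ PR, V α (n - p) (fun t => ∃ q ∈ t, n < 2 * q ∧ 50 * q ≤ 26 * n) := by
    rw [← nsmul_eq_mul, ← Finset.sum_const]
    exact Finset.sum_le_sum s2
  have s4 := mul_le_mul_of_nonneg_left s3 hα0.le
  have s5 : (n : ℝ) * (α * (α * (1 / 100) * (1 / 100 : ℝ) ^ (α - 1)) * ((PR.card : ℝ) / n) *
      w α n) ≤ n * V α n (EX n) := by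
    refine le_trans (le_of_eq ?_) (s4.trans s1)
    field_simp
  exact le_of_mul_le_mul_left s5 hn0

theorem EO_bound {α : ℝ} (hα : 1 < α) (n : ℕ) (hn : 2 ≤ n) :
    1 / (α + 1) * w α n ≤ V α n (EO n) := by
  have h1 : 2 * V α n (EO n) = w α n - D α n := by
    unfold V w D WS
    rw [Finset.mul_sum, ← Finset.sum_sub_distrib]
    refine Finset.sum_congr rfl ?_
    intro s _
    unfold EO
    beta_reduce
    by_cases h : Odd (n + Multiset.card s)
    · rw [if_pos h, Odd.neg_one_pow h]; ring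
    · rw [if_neg h, Even.neg_one_pow (Nat.not_odd_iff_even.mp h)]; ring
  have h2 := abs_D_le hα n hn
  have h3 := le_abs_self (D α n)
  have h4 : (α - 1) / (α + 1) = 1 - 2 * (1 / (α + 1)) := by
    have : α + 1 ≠ 0 := by linarith
    field_simp; ring
  rw [h4] at h2
  linarith

end Pool.Agent.R982.Ewens
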