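import Mathlib
import Pool.Agent.R982.EwensA

/-!
# Sums over permutations through cycle types
-/

open Finset Equiv

namespace Pool.Agent.R982.Ewens

theorem partition_parts_mem_P {n : ℕ} (σ : Perm (Fin n)) : σ.partition.parts ∈ P n := by
  rw [mem_P]
  refine ⟨?_, fun m hm => σ.partition.parts_pos hm⟩
  rw [σ.partition.parts_sum, Fintype.card_fin]

theorem filter_lt_two {s : Multiset ℕ} (hs : ∀ m ∈ s, 0 < m) :
    s.filter (fun m => ¬ 2 ≤ m) = Multiset.replicate (s.count 1) 1 := by
  have h1 : s.filter (fun m => ¬ 2 ≤ m) = s.filter (fun m => 1 = m) := by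
    refine Multiset.filter_congr ?_
    intro x hx
    have := hs x hx
    omega
  rw [h1, Multiset.filter_eq]

theorem W_formula (α : ℝ) (s : Multiset ℕ) (hs : ∀ m ∈ s, 0 < m) :
    W α s * ((s.prod : ℝ) * ∏ k ∈ s.toFinset, ((s.count k).factorial : ℝ)) =
      α ^ Multiset.card s := by
  have h1 : ((s.prod : ℕ) : ℝ) = ∏ k ∈ s.toFinset, (k : ℝ) ^ s.count k := by
    rw [Finset.prod_multiset_count]
    push_cast
    rfl
  have h2 : α ^ Multiset.card s = ∏ k ∈ s.toFinset, α ^ s.count k := by
    rw [Finset.prod_pow_eq_pow_sum, Multiset.toFinset_sum_count_eq]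
  rw [h1, h2]
  unfold W
  rw [← Finset.prod_mul_distrib, ← Finset.prod_mul_distrib]
  refine Finset.prod_congr rfl ?_
  intro k hk
  rw [Multiset.mem_toFinset] at hk
  have hk0 : (k : ℝ) ≠ 0 := by
    have := hs k hk
    positivity
  have hf : ((s.count k).factorial : ℝ) ≠ 0 := by positivity
  rw [div_pow]
  field_simp

theorem card_parts {n : ℕ} (s : Multiset ℕ) (hs : s ∈ P n) :
    (((univ : Finset (Perm (Fin n))).filter (fun σ => σ.partition.parts = s)).card : ℝ) *
      ((s.prod : ℝ) * ∏ k ∈ s.toFinset, ((s.count k).factorial : ℝ)) = (n.factorial : ℝ) := by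
  classical
  rw [mem_P] at hs
  obtain ⟨hsum, hpos⟩ := hs
  set m := s.filter (fun m => 2 ≤ m) with hm
  have hdec : s = m + Multiset.replicate (s.count 1) 1 := by
    rw [← filter_lt_two hpos, hm, Multiset.filter_add_not]
  have hmsum : m.sum + s.count 1 = n := by
    have := congrArg Multiset.sum hdec
    rw [Multiset.sum_add, Multiset.sum_replicate, hsum] at this
    simp only [smul_eq_mul, mul_one] at this
    omega
  have hset : (univ : Finset (Perm (Fin n))).filter (fun σ => σ.partition.parts = s) =
      (univ : Finset (Perm (Fin n))).filter (fun σ => σ.cycleType = m) := by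
    ext σ
    simp only [Finset.mem_filter, Finset.mem_univ, true_and]
    constructor
    · intro h
      rw [← Perm.filter_parts_partition_eq_cycleType, h, hm]
    · intro h
      rw [Perm.parts_partition, h]
      rw [← Perm.sum_cycleType, h]
      conv_rhs => rw [hdec]
      congr 2
      rw [Fintype.card_fin]
      omega
  rw [hset]
  have h := Perm.card_of_cycleType_mul_eq (Fin n) m
  rw [if_pos ⟨by rw [Fintype.card_fin]; omega, fun a ha => (Multiset.mem_filter.mp ha).2⟩,
    Fintype.card_fin] at h
  have hprod : s.prod = m.prod := by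
    conv_lhs => rw [hdec]
    rw [Multiset.prod_add, Multiset.prod_replicate, one_pow, mul_one]
  have h1m : 1 ∉ m.toFinset := by
    rw [Multiset.mem_toFinset, hm, Multiset.mem_filter]
    omega
  have hfac : ∏ k ∈ s.toFinset, (s.count k).factorial =
      (n - m.sum).factorial * ∏ k ∈ m.toFinset, (m.count k).factorial := by
    have e1 : s.toFinset ⊆ insert 1 m.toFinset := by
      intro x hx
      rw [Multiset.mem_toFinset] at hx
      rw [Finset.mem_insert, Multiset.mem_toFinset, hm, Multiset.mem_filter]
      have := hpos x hx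
      by_cases h1 : x = 1
      · exact Or.inl h1
      · exact Or.inr ⟨hx, by omega⟩
    have e2 : ∏ k ∈ s.toFinset, (s.count k).factorial =
        ∏ k ∈ insert 1 m.toFinset, (s.count k).factorial := by
      refine Finset.prod_subset e1 ?_
      intro x _ hx
      rw [Multiset.mem_toFinset] at hx
      rw [Multiset.count_eq_zero_of_notMem hx, Nat.factorial_zero]
    rw [e2, Finset.prod_insert h1m]
    have e3 : s.count 1 = n - m.sum := by omega
    rw [e3]
    congr 1
    refine Finset.prod_congr rfl ?_
    intro x hx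
    rw [Multiset.mem_toFinset, hm, Multiset.mem_filter] at hx
    rw [hm, Multiset.count_filter_of_pos hx.2]
  have hfin : ((univ : Finset (Perm (Fin n))).filter (fun σ => σ.cycleType = m)).card *
      (s.prod * ∏ k ∈ s.toFinset, (s.count k).factorial) = n.factorial := by
    rw [hprod, hfac, ← h]
    ring
  exact_mod_cast hfin

theorem perm_sum (α : ℝ) (n : ℕ) (f : Multiset ℕ → ℝ) :
    ∑ σ : Perm (Fin n), α ^ Multiset.card σ.partition.parts * f σ.partition.parts =
      (n.factorial : ℝ) * WS α n f := by
  classical
  rw [← Finset.sum_fiberwise_of_maps_to (s := (univ : Finset (Perm (Fin n)))) (t := P n)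
    (g := fun σ => σ.partition.parts) (fun σ _ => partition_parts_mem_P σ)]
  unfold WS
  rw [Finset.mul_sum]
  refine Finset.sum_congr rfl ?_
  intro s hs
  have h1 : ∑ σ ∈ (univ : Finset (Perm (Fin n))).filter (fun σ => σ.partition.parts = s),
      α ^ Multiset.card σ.partition.parts * f σ.partition.parts =
      ∑ _σ ∈ (univ : Finset (Perm (Fin n))).filter (fun σ => σ.partition.parts = s),
      α ^ Multiset.card s * f s := by
    refine Finset.sum_congr rfl ?_
    intro σ hσ
    rw [(Finset.mem_filter.mp hσ).2]
  rw [h1, Finset.sum_const, nsmul_eq_mul]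
  have h2 := card_parts s hs
  have hpos := (mem_P.mp hs).2
  have h3 := W_formula α s hpos
  have hne : (s.prod : ℝ) * ∏ k ∈ s.toFinset, ((s.count k).factorial : ℝ) ≠ 0 := by
    refine mul_ne_zero ?_ ?_
    · have : s.prod ≠ 0 := by
        refine Multiset.prod_ne_zero ?_
        intro h0
        exact absurd (hpos 0 h0) (lt_irrefl _)
      exact_mod_cast this
    · refine Finset.prod_ne_zero_iff.mpr ?_
      intro k _
      positivity
  rw [← h2, ← h3]
  ring

end Pool.Agent.R982.Ewens
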