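import Mathlib
import Pool.Agent.R982.EwensC
import Pool.Agent.R982.EwensD

/-!
# Group theory: from cycle types to generation of the symmetric group
-/

open Finset Equiv MulAction
open scoped Pointwise

namespace Pool.Agent.R982.Ewens

/-- the partition of a conjugate -/
theorem parts_conj {n : ℕ} (σ τ : Perm (Fin n)) :
    (τ * σ * τ⁻¹).partition.parts = σ.partition.parts := by
  have : (τ * σ * τ⁻¹).partition = σ.partition := by
    rw [← Perm.partition_eq_of_isConj]
    exact (isConj_iff.mpr ⟨τ, rfl⟩).symm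
  rw [this]

/-- an invariant set splits the cycle type -/
theorem parts_split {n : ℕ} (σ : Perm (Fin n)) (S : Finset (Fin n))
    (hS : ∀ x, x ∈ S ↔ σ x ∈ S) :
    ∃ l1 l2 : Multiset ℕ, σ.partition.parts = l1 + l2 ∧ l1.sum = S.card ∧
      l2.sum + S.card = n := by
  classical
  have h1 : ∀ x, (σ x ∈ S) ↔ (x ∈ S) := fun x => (hS x).symm
  have h2 : ∀ x, (σ x ∉ S) ↔ (x ∉ S) := fun x => not_congr (h1 x)
  set σ1 : Perm {x // x ∈ S} := σ.subtypePerm h1
  set σ2 : Perm {x // x ∉ S} := σ.subtypePerm h2
  have hmul : σ = Perm.ofSubtype σ1 * Perm.ofSubtype σ2 := by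
    ext x
    by_cases hx : x ∈ S
    · rw [Perm.mul_apply, Perm.ofSubtype_apply_of_not_mem σ2 (by simpa using hx),
        Perm.ofSubtype_apply_of_mem σ1 hx]
      simp [σ1]
    · rw [Perm.mul_apply, Perm.ofSubtype_apply_of_mem σ2 hx]
      have h3 : σ x ∉ S := fun h => hx ((hS x).mpr h)
      simp only [σ2, Perm.subtypePerm_apply]
      rw [Perm.ofSubtype_apply_of_not_mem σ1 h3]
  have hdis : Perm.Disjoint (Perm.ofSubtype σ1) (Perm.ofSubtype σ2) := by
    intro x
    by_cases hx : x ∈ S
    · right
      exact Perm.ofSubtype_apply_of_not_mem σ2 (by simpa using hx)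
    · left
      exact Perm.ofSubtype_apply_of_not_mem σ1 hx
  have hct : σ.cycleType = σ1.cycleType + σ2.cycleType := by
    conv_lhs => rw [hmul]
    rw [hdis.cycleType_mul, Perm.cycleType_ofSubtype, Perm.cycleType_ofSubtype]
  have hc1 : Fintype.card {x // x ∈ S} = S.card := Fintype.card_coe S
  have hc2 : Fintype.card {x // x ∉ S} + S.card = n := by
    have := Fintype.card_subtype_compl (fun x => x ∈ S)
    rw [this, Fintype.card_fin, hc1]
    have := Finset.card_le_univ S
    rw [Fintype.card_fin] at this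
    omega
  refine ⟨σ1.partition.parts, σ2.partition.parts, ?_, ?_, ?_⟩
  · rw [Perm.parts_partition, Perm.parts_partition, Perm.parts_partition, hct,
      ← Perm.sum_cycleType, ← Perm.sum_cycleType, ← Perm.sum_cycleType, hct, Multiset.sum_add]
    have e1 := Perm.sum_cycleType_le σ1
    have e2 := Perm.sum_cycleType_le σ2
    have e3 : Fintype.card (Fin n) - (σ1.cycleType.sum + σ2.cycleType.sum) =
        (Fintype.card {x // x ∈ S} - σ1.cycleType.sum) +
        (Fintype.card {x // x ∉ S} - σ2.cycleType.sum) := by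
      rw [Fintype.card_fin]
      omega
    rw [e3, Multiset.replicate_add]
    abel
  · rw [σ1.partition.parts_sum, hc1]
  · rw [σ2.partition.parts_sum, hc2]

/-- blocking of sizes in `[K, 2K)` -/
theorem EK_block {K k : ℕ} {l l1 l2 : Multiset ℕ} (hl : l = l1 + l2) (h1 : l1.sum = k)
    (hK : K ≤ k) (hK2 : k < 2 * K) (h : EK K l) : False := by
  unfold EK at h
  rw [hl, Multiset.filter_add, Multiset.sum_add] at h
  have h2 : l1.filter (· < 2 * K) = l1 := by
    rw [Multiset.filter_eq_self]
    intro a ha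
    have := Multiset.single_le_sum (fun _ _ => Nat.zero_le _) a ha
    omega
  rw [h2] at h
  omega

theorem EB_block {n L k : ℕ} {l l1 l2 : Multiset ℕ} (hl : l = l1 + l2) (h1 : l1.sum = k)
    (h2 : l2.sum + k = n) (hk : n ≤ k * L) (hk2 : n ≤ (n - k) * L) (h : EB L n l) : False := by
  obtain ⟨m, hm, hm2⟩ := h
  rw [hl, Multiset.mem_add] at hm
  rcases hm with hm | hm
  · have := Multiset.single_le_sum (fun _ _ => Nat.zero_le _) m hm
    have h3 : (n - k) * L ≤ (n - m) * L := Nat.mul_le_mul_right L (by omega)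
    omega
  · have := Multiset.single_le_sum (fun _ _ => Nat.zero_le _) m hm
    have h3 : k * L ≤ (n - m) * L := Nat.mul_le_mul_right L (by omega)
    omega

/-- transitivity -/
theorem transitive_of_block {n L : ℕ} (hn : 1 ≤ n) (H : Subgroup (Perm (Fin n)))
    (T : Set (Perm (Fin n))) (hH : H = Subgroup.closure T)
    (hK : ∀ j, L * 2 ^ j ≤ n → ∃ g ∈ T, EK (2 ^ j) g.partition.parts)
    (hB : ∃ g ∈ T, EB L n g.partition.parts) (hL : 2 ≤ L) :
    IsPretransitive H (Fin n) := by
  classical
  -- no invariant set of size k, 1 ≤ k ≤ n/2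
  have key : ∀ S : Finset (Fin n), (∀ g ∈ T, ∀ x, x ∈ S ↔ g x ∈ S) → 1 ≤ S.card →
      2 * S.card ≤ n → False := by
    intro S hS h1 h2
    rcases Nat.lt_or_ge (S.card * L) n with h | h
    · set j := Nat.log 2 S.card with hj
      have e1 : 2 ^ j ≤ S.card := Nat.pow_log_le_self 2 (by omega)
      have e2 : S.card < 2 * 2 ^ j := by
        have := Nat.lt_pow_succ_log_self (b := 2) (by norm_num) S.card
        rw [pow_succ, mul_comm] at this
        exact this
      have e3 : L * 2 ^ j ≤ n := by
        have := Nat.mul_le_mul_left L e1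
        rw [mul_comm L S.card] at this
        omega
      obtain ⟨g, hg, hE⟩ := hK j e3
      obtain ⟨l1, l2, hl, hs1, hs2⟩ := parts_split g S (hS g hg)
      exact EK_block hl hs1 e1 e2 hE
    · obtain ⟨g, hg, hE⟩ := hB
      obtain ⟨l1, l2, hl, hs1, hs2⟩ := parts_split g S (hS g hg)
      have : S.card * L ≤ (n - S.card) * L := Nat.mul_le_mul_right L (by omega)
      exact EB_block hl hs1 hs2 h (by omega) hE
  have orb : ∀ x : Fin n, (orbit H x) = Set.univ := by
    intro x
    set S : Finset (Fin n) := (orbit H x).toFinset with hSdef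
    have hS : ∀ g ∈ T, ∀ y, y ∈ S ↔ g y ∈ S := by
      intro g hg y
      have hgH : g ∈ H := by rw [hH]; exact Subgroup.subset_closure hg
      rw [hSdef, Set.mem_toFinset, Set.mem_toFinset]
      have h2 : g y = (⟨g, hgH⟩ : H) • y := rfl
      rw [h2]
      constructor
      · rintro ⟨h, rfl⟩
        exact ⟨(⟨g, hgH⟩ : H) * h, mul_smul _ _ _⟩
      · rintro ⟨h, hh⟩
        refine ⟨(⟨g, hgH⟩ : H)⁻¹ * h, ?_⟩
        have hh' : h • x = (⟨g, hgH⟩ : H) • y := hh
        change ((⟨g, hgH⟩ : H)⁻¹ * h) • x = y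
        rw [mul_smul, hh', inv_smul_smul]
    have hx : x ∈ S := by rw [hSdef, Set.mem_toFinset]; exact mem_orbit_self x
    by_contra hne
    have hSne : S ≠ univ := by
      intro h
      apply hne
      rw [← Set.coe_toFinset (orbit H x), ← hSdef, h, Finset.coe_univ]
    have hcard : S.card < n := by
      have := Finset.card_lt_card (Finset.ssubset_univ_iff.mpr hSne)
      rwa [Finset.card_univ, Fintype.card_fin] at this
    have hpos : 1 ≤ S.card := Finset.card_pos.mpr ⟨x, hx⟩
    rcases Nat.lt_or_ge n (2 * S.card) with h | h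
    · have hc : Sᶜ.card = n - S.card := by
        rw [Finset.card_compl, Fintype.card_fin]
      refine key Sᶜ ?_ (by omega) (by omega)
      intro g hg y
      rw [Finset.mem_compl, Finset.mem_compl, hS g hg y]
    · exact key S hS hpos h
  refine ⟨fun x y => ?_⟩
  have : y ∈ orbit H x := by rw [orb x]; trivial
  exact this

end Pool.Agent.R982.Ewens
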