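import Mathlib
import Pool.Agent.R982.EwensE

/-!
# Prime cycles, primitivity, three-cycles
-/

open Finset Equiv MulAction
open scoped Pointwise

namespace Pool.Agent.R982.Ewens

theorem mem_cycleType_of_mem_parts {n m : ℕ} {σ : Perm (Fin n)} (h : m ∈ σ.partition.parts)
    (hm : m ≠ 1) : m ∈ σ.cycleType := by
  rw [Perm.parts_partition, Multiset.mem_add] at h
  rcases h with h | h
  · exact h
  · exact absurd (Multiset.eq_of_mem_replicate h) hm

theorem cycle_of_EX {n : ℕ} (σ : Perm (Fin n)) (h : EX n σ.partition.parts) :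
    ∃ c ∈ Subgroup.zpowers σ, c.IsCycle ∧ c.support.card.Prime ∧ n < 3 * c.support.card ∧
      20 * c.support.card < 9 * n := by
  obtain ⟨p, hp, hpp, h1, h2, q, hq, h3, h4⟩ := h
  have hpc : p ∈ σ.cycleType := mem_cycleType_of_mem_parts hp hpp.one_lt.ne'
  have hq1 : q ≠ 1 := by
    have := hpp.two_le
    omega
  have hqc : q ∈ σ.cycleType := mem_cycleType_of_mem_parts hq hq1
  rw [Perm.mem_cycleType_iff] at hpc
  obtain ⟨c, τ, hσ, hd, hc, hcp⟩ := hpc
  have hct : σ.cycleType = {p} + τ.cycleType := by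
    rw [hσ, hd.cycleType_mul, hc.cycleType, hcp]
  have hqp : q ≠ p := by omega
  have hqt : q ∈ τ.cycleType := by
    rw [hct, Multiset.mem_add, Multiset.mem_singleton] at hqc
    rcases hqc with h | h
    · exact absurd h hqp
    · exact h
  have hsum : p + τ.cycleType.sum ≤ n := by
    have := Perm.sum_cycleType_le σ
    rw [hct, Multiset.sum_add, Multiset.sum_singleton, Fintype.card_fin] at this
    exact this
  have hcop : Nat.Coprime (orderOf τ) p := by
    rw [Nat.coprime_comm, Nat.Prime.coprime_iff_not_dvd hpp]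
    intro hdvd
    have h5 : orderOf τ ∣ τ.cycleType.prod := by
      rw [← Perm.lcm_cycleType]
      rw [Multiset.lcm_dvd]
      intro b hb
      exact Multiset.dvd_prod hb
    obtain ⟨r, hr, hpr⟩ := (hpp.prime).exists_mem_multiset_dvd (hdvd.trans h5)
    have hr2 := Perm.two_le_of_mem_cycleType hr
    by_cases hrq : r = q
    · rw [hrq] at hpr
      obtain ⟨k, hk⟩ := hpr
      rcases Nat.lt_or_ge k 2 with hk2 | hk2
      · interval_cases k <;> omega
      · have : p * 2 ≤ p * k := Nat.mul_le_mul_left p hk2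
        omega
    · have h6 : τ.cycleType.sum = r + (τ.cycleType.erase r).sum := by
        conv_lhs => rw [← Multiset.cons_erase hr]
        rw [Multiset.sum_cons]
      have h7 : q ∈ τ.cycleType.erase r :=
        (Multiset.mem_erase_of_ne (Ne.symm hrq)).mpr hqt
      have h8 := Multiset.single_le_sum (fun _ _ => Nat.zero_le _) q h7
      have h9 : p ≤ r := Nat.le_of_dvd (by omega) hpr
      omega
  rw [← hcp, ← hc.orderOf] at hcop
  obtain ⟨m, hm⟩ := exists_pow_eq_self_of_coprime hcop
  refine ⟨c, ?_, hc, ?_, ?_, ?_⟩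
  · rw [← hm]
    have : c ^ orderOf τ = σ ^ orderOf τ := by
      rw [hσ, hd.commute.mul_pow, pow_orderOf_eq_one, mul_one]
    rw [this]
    exact Subgroup.pow_mem _ (Subgroup.pow_mem _ (Subgroup.mem_zpowers σ) _) _
  · rw [hcp]; exact hpp
  · rw [hcp]; exact h1
  · rw [hcp]; exact h2

theorem preprimitive_of_cycle {n : ℕ} (hodd : Odd n) (H : Subgroup (Perm (Fin n)))
    [hT : IsPretransitive H (Fin n)] {c : Perm (Fin n)} (hc : c ∈ H) (hcyc : c.IsCycle)
    (hp : c.support.card.Prime) (h3 : n < 3 * c.support.card) :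
    IsPreprimitive H (Fin n) := by
  classical
  refine ⟨fun {B} hB => ?_⟩
  by_cases hsub : B.Subsingleton
  · exact Or.inl hsub
  right
  rw [Set.not_subsingleton_iff] at hsub
  obtain ⟨x0, hx0, y0, hy0, hxy⟩ := hsub
  obtain ⟨a, ha⟩ : ∃ a, c a ≠ a := by
    obtain ⟨a, ha, _⟩ := hcyc
    exact ⟨a, ha⟩
  obtain ⟨h, hh⟩ := exists_smul_eq H x0 a
  have hB' : IsBlock H (h • B) := hB.translate h
  have haB : a ∈ h • B := by
    rw [← hh]; exact Set.smul_mem_smul_set hx0
  have hyB : h • y0 ∈ h • B := Set.smul_mem_smul_set hy0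
  have hya : h • y0 ≠ a := by
    rw [← hh]
    intro h'
    exact hxy (MulAction.injective h h').symm
  set γ : H := ⟨c, hc⟩ with hγ
  have hγs : ∀ z, γ • z = c z := fun z => rfl
  have hγp : ∀ (i : ℕ) z, (γ ^ i) • z = (c ^ i) z := by
    intro i z
    have : ((γ ^ i : H) : Perm (Fin n)) = c ^ i := by simp [hγ]
    change ((γ ^ i : H) : Perm (Fin n)) z = _
    rw [this]
  have claim : c.support.card ≤ (h • B).ncard := by
    have fixed : γ • (h • B) = h • B := by
      by_contra hne
      have hdisj : Disjoint (γ • (h • B)) (h • B) := by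
        rcases (isBlock_iff_smul_eq_or_disjoint.mp hB') γ with h1 | h1
        · exact absurd h1 hne
        · exact h1
      rw [Set.disjoint_left] at hdisj
      have hys : c (h • y0) ≠ h • y0 := by
        intro hfix
        refine hdisj ?_ hyB
        rw [← hfix, ← hγs]
        exact Set.smul_mem_smul_set hyB
      obtain ⟨i, hi⟩ := hcyc.exists_pow_eq ha hys
      have hfi : (γ ^ i) • (h • B) = h • B := by
        rcases (isBlock_iff_smul_eq_or_disjoint.mp hB') (γ ^ i) with h1 | h1
        · exact h1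
        · exfalso
          rw [Set.disjoint_left] at h1
          refine h1 ?_ hyB
          rw [← hi, ← hγp]
          exact Set.smul_mem_smul_set haB
      have hcop : Nat.Coprime i (orderOf c) := by
        rw [hcyc.orderOf, Nat.coprime_comm, Nat.Prime.coprime_iff_not_dvd hp]
        intro hdvd
        rw [← hcyc.orderOf] at hdvd
        have : c ^ i = 1 := orderOf_dvd_iff_pow_eq_one.mp hdvd
        rw [this] at hi
        exact hya hi.symm
      obtain ⟨m, hm⟩ := exists_pow_eq_self_of_coprime hcop
      apply hne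
      have hγm : γ = (γ ^ i) ^ m := by
        apply Subtype.ext
        simp [hγ, hm]
      have hmem : γ ^ i ∈ stabilizer H (h • B) := hfi
      have hmem2 : (γ ^ i) ^ m ∈ stabilizer H (h • B) := Subgroup.pow_mem _ hmem m
      rw [← hγm] at hmem2
      exact hmem2
    have hsub : (c.support : Set (Fin n)) ⊆ h • B := by
      intro y hy
      rw [Finset.mem_coe, Perm.mem_support] at hy
      obtain ⟨i, hi⟩ := hcyc.exists_pow_eq ha hy
      have hmem : γ ∈ stabilizer H (h • B) := fixed
      have hmem2 : γ ^ i ∈ stabilizer H (h • B) := Subgroup.pow_mem _ hmem i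
      have h5 : (γ ^ i) • (h • B) = h • B := hmem2
      rw [← hi, ← hγp, ← h5]
      exact Set.smul_mem_smul_set haB
    rw [← Set.ncard_coe_finset]
    exact Set.ncard_le_ncard hsub (Set.toFinite _)
  have hcardB : (h • B).ncard = B.ncard := Set.ncard_smul_set h B
  rw [hcardB] at claim
  have hdvd := hB.ncard_dvd_card ⟨x0, hx0⟩
  rw [Nat.card_eq_fintype_card, Fintype.card_fin] at hdvd
  refine hB.eq_univ_of_card_lt ?_
  rw [Nat.card_eq_fintype_card, Fintype.card_fin]
  obtain ⟨k, hk⟩ := hdvd
  have hk3 : k < 3 := by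
    by_contra hge
    push Not at hge
    have : B.ncard * 3 ≤ B.ncard * k := Nat.mul_le_mul_left _ hge
    omega
  obtain ⟨r, hr⟩ := hodd
  interval_cases k
  · omega
  · have := hp.two_le
    omega
  · omega

end Pool.Agent.R982.Ewens
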