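import Mathlib
import Pool.Agent.R982.EwensF

/-!
# Three-cycles and generation of the symmetric group
-/

open Finset Equiv MulAction
open scoped Pointwise

namespace Pool.Agent.R982.Ewens

theorem p_ais {X : Type*} (c : Perm X) (x : X) : c (c⁻¹ x) = x := by simp

theorem p_ias {X : Type*} (c : Perm X) (x : X) : c⁻¹ (c x) = x := by simp

/-- the commutator of two permutations whose supports meet in one point is a three-cycle -/
theorem commutator_three_cycle {X : Type*} [Fintype X] [DecidableEq X] {c h : Perm X} {a : X}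
    (hca : c a ≠ a) (hha : h a ≠ a) (hdis : ∀ x, x ≠ a → c x = x ∨ h x = x) :
    (c * h * c⁻¹ * h⁻¹).IsThreeCycle := by
  have hb : c a ≠ a := hca
  have hcb : c (c a) ≠ c a := fun h' => hca (c.injective h')
  have hhd : h (h a) ≠ h a := fun h' => hha (h.injective h')
  have hhb : h (c a) = c a := (hdis (c a) hb).resolve_left hcb
  have hcd : c (h a) = h a := (hdis (h a) hha).resolve_right hhd
  have hbd : c a ≠ h a := by
    intro h'
    rw [h'] at hhb
    exact hhd hhb
  have e : c * h * c⁻¹ * h⁻¹ = swap (c a) a * swap (c a) (h a) := by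
    ext x
    simp only [Perm.mul_apply]
    by_cases h1 : x = a
    · subst h1
      rw [swap_apply_of_ne_of_ne hb.symm hha.symm, swap_apply_right]
      have h2 : h⁻¹ x ≠ x := by
        intro h'; exact hha (by conv_lhs => rw [← h']; simp)
      have h3 : h (h⁻¹ x) ≠ h⁻¹ x := by rw [p_ais]; exact h2.symm
      have h4 : c (h⁻¹ x) = h⁻¹ x := (hdis _ h2).resolve_right h3
      have h5 : c⁻¹ (h⁻¹ x) = h⁻¹ x := by rw [Perm.inv_eq_iff_eq]; exact h4.symm
      rw [h5, p_ais]
    · by_cases h2 : x = c a
      · rw [h2, swap_apply_left, swap_apply_of_ne_of_ne hbd.symm hha]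
        have h3 : h⁻¹ (c a) = c a := by rw [Perm.inv_eq_iff_eq]; exact hhb.symm
        rw [h3, p_ias, hcd]
      · by_cases h3 : x = h a
        · rw [h3, swap_apply_right, swap_apply_left, p_ias]
          have h4 : c⁻¹ a ≠ a := by
            intro h'; exact hca (by conv_lhs => rw [← h']; simp)
          have h5 : c (c⁻¹ a) ≠ c⁻¹ a := by rw [p_ais]; exact h4.symm
          have h6 : h (c⁻¹ a) = c⁻¹ a := (hdis _ h4).resolve_left h5
          rw [h6, p_ais]
        · rw [swap_apply_of_ne_of_ne h2 h3, swap_apply_of_ne_of_ne h2 h1]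
          by_cases h4 : h x = x
          · have h5 : h⁻¹ x = x := by rw [Perm.inv_eq_iff_eq]; exact h4.symm
            rw [h5]
            by_cases h6 : c x = x
            · have h7 : c⁻¹ x = x := by rw [Perm.inv_eq_iff_eq]; exact h6.symm
              rw [h7, h4, h6]
            · have h7 : c⁻¹ x ≠ a := by
                intro h'; exact h2 (by rw [← h', p_ais])
              have h8 : c (c⁻¹ x) ≠ c⁻¹ x := by
                rw [p_ais]
                intro h'
                apply h6
                conv_lhs => rw [h']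
                rw [p_ais]
              have h9 : h (c⁻¹ x) = c⁻¹ x := (hdis _ h7).resolve_left h8
              rw [h9, p_ais]
          · have h5 : h⁻¹ x ≠ a := by
              intro h'; exact h3 (by rw [← h', p_ais])
            have h6 : h (h⁻¹ x) ≠ h⁻¹ x := by
              rw [p_ais]
              intro h'
              apply h4
              conv_lhs => rw [h']
              rw [p_ais]
            have h7 : c (h⁻¹ x) = h⁻¹ x := (hdis _ h5).resolve_right h6
            have h8 : c⁻¹ (h⁻¹ x) = h⁻¹ x := by rw [Perm.inv_eq_iff_eq]; exact h7.symm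
            rw [h8, p_ais]
            exact (hdis x h1).resolve_right h4
  rw [e]
  exact Perm.isThreeCycle_swap_mul_swap_same hb hbd hha.symm

theorem exists_three_cycle {n : ℕ} (H : Subgroup (Perm (Fin n)))
    (hH : IsPreprimitive H (Fin n)) {c : Perm (Fin n)} (hc : c ∈ H) (hcyc : c.IsCycle)
    (hp : c.support.card.Prime) (h2 : 2 * c.support.card ≤ n) :
    ∃ t ∈ H, t.IsThreeCycle := by
  classical
  have hp2 := hp.two_le
  obtain ⟨m, hm⟩ : ∃ m, n = m + 1 + c.support.card := ⟨n - 1 - c.support.card, by omega⟩
  have hsc : Set.ncard ((c.support)ᶜ : Set (Fin n)) = m + 1 := by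
    have := Set.ncard_add_ncard_compl (c.support : Set (Fin n))
    rw [Set.ncard_coe_finset, Nat.card_eq_fintype_card, Fintype.card_fin] at this
    omega
  have hmp : IsMultiplyPreprimitive H (Fin n) (m + 2) := by
    apply hH.isMultiplyPreprimitive hsc
    · rw [Nat.card_eq_fintype_card, Fintype.card_fin]; omega
    have := Perm.isPretransitive_of_isCycle_mem hcyc hc
    apply IsPreprimitive.of_prime_card
    convert! hp
    rw [Nat.card_eq_fintype_card, Fintype.card_subtype]
    apply congr_arg
    ext x
    simp [SubMulAction.mem_ofFixingSubgroup_iff]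
  have hmt : IsMultiplyPretransitive H (Fin n) (m + 2) :=
    IsMultiplyPreprimitive.isMultiplyPretransitive _ _ _
  have hmt2 : IsMultiplyPretransitive H (Fin n) c.support.card :=
    isMultiplyPretransitive_of_le (n := m + 2) (by omega)
      (by rw [Nat.card_eq_fintype_card, Fintype.card_fin]; omega)
  obtain ⟨a, ha⟩ : ∃ a, c a ≠ a := by
    obtain ⟨a, ha, _⟩ := hcyc
    exact ⟨a, ha⟩
  have has : a ∈ c.support := Perm.mem_support.mpr ha
  -- the embeddings
  have hcard : Fintype.card c.support ≤ Fintype.card ((c.support)ᶜ : Finset (Fin n)) := by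
    rw [Fintype.card_coe, Fintype.card_coe, Finset.card_compl, Fintype.card_fin]
    omega
  obtain ⟨f⟩ := Function.Embedding.nonempty_of_card_le hcard
  let x : Fin c.support.card ↪ Fin n :=
    (c.support.equivFin.symm.toEmbedding).trans (Function.Embedding.subtype _)
  have hf : ∀ z, ((f z : Fin n)) ∉ c.support := fun z => Finset.mem_compl.mp (f z).2
  let y : Fin c.support.card ↪ Fin n :=
    ⟨fun i => if ((c.support.equivFin.symm i : c.support) : Fin n) = a then a
        else ((f (c.support.equivFin.symm i)) : Fin n), by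
      intro i j hij
      simp only at hij
      split_ifs at hij with h1 h2 h2
      · exact c.support.equivFin.symm.injective (Subtype.ext (h1.trans h2.symm))
      · exact absurd (hij ▸ has) (hf _)
      · exact absurd (hij ▸ has) (hf _)
      · exact c.support.equivFin.symm.injective (f.injective (Subtype.ext hij))⟩
  have hyv : ∀ i, y i = if ((c.support.equivFin.symm i : c.support) : Fin n) = a then a
      else ((f (c.support.equivFin.symm i)) : Fin n) := fun i => rfl
  obtain ⟨g, hg⟩ := isMultiplyPretransitive_iff.mp hmt2 x y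
  have hgi : ∀ z ∈ c.support, (g : Perm (Fin n)) z = if z = a then a else
      (g : Perm (Fin n)) z := by
    intro z hz
    split_ifs with h1
    · have h3 := DFunLike.congr_fun hg (c.support.equivFin ⟨a, has⟩)
      have h4 : (g • x) (c.support.equivFin ⟨a, has⟩) = (g : Perm (Fin n)) a := by
        change (g : Perm (Fin n)) (x _) = _
        simp [x]
      rw [h4] at h3
      rw [h1, h3, hyv]
      simp
    · rfl
  have hga : (g : Perm (Fin n)) a = a := by
    have := hgi a has
    simpa using this
  have hgo : ∀ z ∈ c.support, z ≠ a → (g : Perm (Fin n)) z ∉ c.support := by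
    intro z hz hza
    have h3 := DFunLike.congr_fun hg (c.support.equivFin ⟨z, hz⟩)
    have h4 : (g • x) (c.support.equivFin ⟨z, hz⟩) = (g : Perm (Fin n)) z := by
      change (g : Perm (Fin n)) (x _) = _
      simp [x]
    rw [h4] at h3
    rw [h3]
    have h5 : y (c.support.equivFin ⟨z, hz⟩) = (f ⟨z, hz⟩ : Fin n) := by
      rw [hyv]
      simp [hza]
    rw [h5]
    exact hf _
  -- the conjugate
  set h : Perm (Fin n) := (g : Perm (Fin n)) * c * (g : Perm (Fin n))⁻¹ with hh
  have hgH : (g : Perm (Fin n)) ∈ H := g.2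
  have hhH : h ∈ H := H.mul_mem (H.mul_mem hgH hc) (H.inv_mem hgH)
  refine ⟨c * h * c⁻¹ * h⁻¹,
    H.mul_mem (H.mul_mem (H.mul_mem hc hhH) (H.inv_mem hc)) (H.inv_mem hhH), ?_⟩
  have hgia : (g : Perm (Fin n))⁻¹ a = a := by rw [Perm.inv_eq_iff_eq]; exact hga.symm
  refine commutator_three_cycle (a := a) ha ?_ ?_
  · rw [hh, Perm.mul_apply, Perm.mul_apply, hgia]
    intro h'
    apply ha
    apply (g : Perm (Fin n)).injective
    rw [h', hga]
  · intro z hz
    by_cases hcz : c z = z
    · exact Or.inl hcz
    right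
    rw [hh, Perm.mul_apply, Perm.mul_apply]
    have h6 : c ((g : Perm (Fin n))⁻¹ z) = (g : Perm (Fin n))⁻¹ z := by
      by_contra hne
      have h7 : (g : Perm (Fin n))⁻¹ z ∈ c.support := Perm.mem_support.mpr hne
      have h8 : (g : Perm (Fin n))⁻¹ z ≠ a := by
        intro h'
        rw [Perm.inv_eq_iff_eq, hga] at h'
        exact hz h'
      have h9 := hgo _ h7 h8
      rw [p_ais, Perm.mem_support] at h9
      exact h9 hcz
    rw [h6, p_ais]

theorem sign_of_EO {n : ℕ} (σ : Perm (Fin n)) (h : EO n σ.partition.parts) :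
    Perm.sign σ = -1 := by
  unfold EO at h
  rw [Perm.parts_partition, Multiset.card_add, Multiset.card_replicate, Fintype.card_fin] at h
  rw [Perm.sign_of_cycleType]
  apply Odd.neg_one_pow
  have h1 := Perm.sum_cycleType σ
  have h2 := Perm.sum_cycleType_le σ
  rw [Fintype.card_fin] at h2
  rw [h1] at h2 ⊢
  obtain ⟨k, hk⟩ := h
  refine ⟨k - (n - σ.support.card), ?_⟩
  omega

theorem generate {n L : ℕ} (hodd : Odd n) (T : Set (Perm (Fin n))) (hL : 2 ≤ L)
    (hK : ∀ j, L * 2 ^ j ≤ n → ∃ g ∈ T, EK (2 ^ j) g.partition.parts)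
    (hB : ∃ g ∈ T, EB L n g.partition.parts)
    (hX : ∃ g ∈ T, EX n g.partition.parts)
    (hO : ∃ g ∈ T, EO n g.partition.parts) :
    Subgroup.closure T = ⊤ := by
  classical
  set H := Subgroup.closure T with hH
  have hn : 1 ≤ n := hodd.pos
  have ht : IsPretransitive H (Fin n) := transitive_of_block hn H T hH hK hB hL
  obtain ⟨σ, hσ, hX⟩ := hX
  obtain ⟨c, hc, hcyc, hp, h3, h20⟩ := cycle_of_EX σ hX
  have hcH : c ∈ H := by
    have : Subgroup.zpowers σ ≤ H := by
      rw [Subgroup.zpowers_le]
      exact Subgroup.subset_closure hσ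
    exact this hc
  have hprim := preprimitive_of_cycle hodd H hcH hcyc hp h3
  obtain ⟨t, htH, h3c⟩ := exists_three_cycle H hprim hcH hcyc hp (by omega)
  have halt := Perm.alternatingGroup_le_of_isPreprimitive_of_isThreeCycle_mem hprim h3c htH
  obtain ⟨o, ho, hO⟩ := hO
  have hsign := sign_of_EO o hO
  have hoH : o ∈ H := Subgroup.subset_closure ho
  rw [eq_top_iff]
  intro g _
  rcases Int.units_eq_one_or (Perm.sign g) with h | h
  · exact halt (Perm.mem_alternatingGroup.mpr h)
  · have h1 : g * o ∈ H := halt (Perm.mem_alternatingGroup.mpr (by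
      rw [Perm.sign_mul, h, hsign]; norm_num))
    have h2 : g = (g * o) * o⁻¹ := by group
    rw [h2]
    exact H.mul_mem h1 (H.inv_mem hoH)

end Pool.Agent.R982.Ewens
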