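import Mathlib

/-!
# Many primes in a window, for infinitely many n
-/

open Finset Filter Chebyshev

namespace Pool.Agent.R982.Ewens

theorem theta_half : ∀ᶠ y : ℕ in atTop, (y : ℝ) / 2 ≤ θ (y : ℝ) := by
  have h1 : Tendsto (fun y : ℕ => Real.log (y : ℝ) / (y : ℝ) ^ ((1 : ℝ) / 2)) atTop (nhds 0) := by
    have h := (isLittleO_log_rpow_atTop (r := 1 / 2) (by norm_num)).tendsto_div_nhds_zero
    exact h.comp tendsto_natCast_atTop_atTop
  have h2 : ∀ᶠ y : ℕ in atTop, Real.log (y : ℝ) / (y : ℝ) ^ ((1 : ℝ) / 2) < 1 / 100 :=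
    h1.eventually (gt_mem_nhds (by norm_num))
  filter_upwards [h2, eventually_ge_atTop 10000] with y hy hy2
  have hy2' : (10000 : ℝ) ≤ y := by exact_mod_cast hy2
  have hy0 : (0 : ℝ) < y := by linarith
  have hs : (y : ℝ) ^ ((1 : ℝ) / 2) = √y := (Real.sqrt_eq_rpow (y : ℝ)).symm
  rw [hs] at hy
  have hsp : 0 < √(y : ℝ) := Real.sqrt_pos.mpr hy0
  rw [div_lt_iff₀ hsp] at hy
  have hss : √(y : ℝ) * √(y : ℝ) = y := Real.mul_self_sqrt hy0.le
  have h3 := theta_ge y
  have h4 : Real.log ((y : ℝ) + 1) ≤ Real.log y + 1 := by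
    have h5 : (y : ℝ) + 1 ≤ y * Real.exp 1 := by
      have := Real.add_one_le_exp (1 : ℝ)
      nlinarith
    calc Real.log ((y : ℝ) + 1) ≤ Real.log (y * Real.exp 1) :=
          Real.log_le_log (by linarith) h5
      _ = Real.log y + 1 := by
          rw [Real.log_mul hy0.ne' (Real.exp_ne_zero 1), Real.log_exp]
  have hlog2 := Real.log_two_gt_d9
  have hsq100 : (100 : ℝ) ≤ √(y : ℝ) := by
    rw [show (100 : ℝ) = √(10000 : ℝ) by
      rw [show (10000 : ℝ) = 100 ^ 2 by norm_num, Real.sqrt_sq (by norm_num)]]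
    exact Real.sqrt_le_sqrt hy2'
  have h6 : √(y : ℝ) * Real.log y ≤ y / 100 := by
    have := mul_le_mul_of_nonneg_left hy.le hsp.le
    nlinarith
  have h7 : Real.log (y : ℝ) ≤ y / 100 := by
    nlinarith
  nlinarith

theorem exists_window (y0 : ℝ) : ∃ y : ℝ, y0 ≤ y ∧ y / 32 ≤ θ y - θ (7 * y / 8) := by
  by_contra hcon
  push Not at hcon
  -- we may enlarge y0
  set y1 : ℝ := max y0 1 with hy1
  have hy1' : 1 ≤ y1 := le_max_right _ _
  have hcon' : ∀ y, y1 ≤ y → θ y - θ (7 * y / 8) < y / 32 := fun y hy =>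
    hcon y ((le_max_left _ _).trans hy)
  have key : ∀ k : ℕ, ∀ y : ℝ, 0 ≤ y → y ≤ y1 * (8 / 7) ^ k → θ y ≤ y / 4 + θ y1 := by
    intro k
    induction k with
    | zero =>
      intro y hy0 hy
      rw [pow_zero, mul_one] at hy
      have := theta_mono hy
      linarith
    | succ k ih =>
      intro y hy0 hy
      rcases le_or_gt y1 y with h | h
      · have h1 := hcon' y h
        have h2 := ih (7 * y / 8) (by linarith) (by
          rw [pow_succ] at hy
          nlinarith)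
        linarith
      · have := theta_mono h.le
        linarith
  have hall : ∀ y : ℝ, 0 ≤ y → θ y ≤ y / 4 + θ y1 := by
    intro y hy
    have h1 : Tendsto (fun k : ℕ => y1 * (8 / 7 : ℝ) ^ k) atTop atTop :=
      Tendsto.const_mul_atTop (by linarith) (tendsto_pow_atTop_atTop_of_one_lt (by norm_num))
    obtain ⟨k, hk⟩ := (h1.eventually_ge_atTop y).exists
    exact key k y hy hk
  have h2 := theta_half.and (tendsto_natCast_atTop_atTop.eventually_gt_atTop (4 * θ y1))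
  obtain ⟨y, hy1, hy2⟩ := h2.exists
  have h3 := hall (y : ℝ) (by positivity)
  linarith

theorem exists_primes (N0 : ℕ) : ∃ n : ℕ, N0 ≤ n ∧ Odd n ∧ ∃ PR : Finset ℕ,
    (∀ p ∈ PR, p.Prime ∧ n < 3 * p ∧ 20 * p < 9 * n) ∧
    1 / 96 * ((n : ℝ) / Real.log n) ≤ (PR.card : ℝ) := by
  obtain ⟨y, hy, hθ⟩ := exists_window (max (N0 : ℝ) 100)
  have hyN : (N0 : ℝ) ≤ y := (le_max_left _ _).trans hy
  have hy100 : (100 : ℝ) ≤ y := (le_max_right _ _).trans hy
  have hy0 : (0 : ℝ) < y := by linarith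
  set m : ℕ := ⌊5 / 4 * y⌋₊ with hm
  have hm1 : (m : ℝ) ≤ 5 / 4 * y := Nat.floor_le (by positivity)
  have hm2 : 5 / 4 * y < m + 1 := Nat.lt_floor_add_one _
  refine ⟨2 * m + 1, ?_, ⟨m, rfl⟩, (Ioc ⌊7 * y / 8⌋₊ ⌊y⌋₊).filter Nat.Prime, ?_, ?_⟩
  · have : (N0 : ℝ) ≤ ((2 * m + 1 : ℕ) : ℝ) := by
      push_cast; linarith
    exact_mod_cast this
  · intro p hp
    rw [Finset.mem_filter, Finset.mem_Ioc] at hp
    obtain ⟨⟨h1, h2⟩, h3⟩ := hp
    have h4 : 7 * y / 8 < p := by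
      rw [Nat.floor_lt (by positivity)] at h1
      exact h1
    have h5 : (p : ℝ) ≤ y := (Nat.le_floor_iff hy0.le).mp h2
    refine ⟨h3, ?_, ?_⟩
    · have : ((2 * m + 1 : ℕ) : ℝ) < ((3 * p : ℕ) : ℝ) := by
        push_cast; linarith
      exact_mod_cast this
    · have : ((20 * p : ℕ) : ℝ) < ((9 * (2 * m + 1) : ℕ) : ℝ) := by
        push_cast; linarith
      exact_mod_cast this
  · have h1 : θ y - θ (7 * y / 8) ≤
        (((Ioc ⌊7 * y / 8⌋₊ ⌊y⌋₊).filter Nat.Prime).card : ℝ) * Real.log y := by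
      have hfl : ⌊7 * y / 8⌋₊ ≤ ⌊y⌋₊ := Nat.floor_le_floor (by linarith)
      have e1 : θ y = θ (7 * y / 8) +
          ∑ p ∈ (Ioc ⌊7 * y / 8⌋₊ ⌊y⌋₊).filter Nat.Prime, Real.log p := by
        unfold theta
        rw [← Finset.sum_union]
        · congr 1
          rw [← Finset.filter_union, Finset.Ioc_union_Ioc_eq_Ioc (Nat.zero_le _) hfl]
        · rw [Finset.disjoint_left]
          intro x hx hx2
          rw [Finset.mem_filter, Finset.mem_Ioc] at hx hx2
          omega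
      rw [e1, add_sub_cancel_left, ← nsmul_eq_mul, ← Finset.sum_const]
      refine Finset.sum_le_sum ?_
      intro p hp
      rw [Finset.mem_filter, Finset.mem_Ioc] at hp
      refine Real.log_le_log ?_ ((Nat.le_floor_iff hy0.le).mp hp.1.2)
      exact_mod_cast hp.2.pos
    have hlogy : 0 < Real.log y := Real.log_pos (by linarith)
    have hn3 : (((2 * m + 1 : ℕ) : ℝ)) ≤ 3 * y := by push_cast; linarith
    have hny : y ≤ (((2 * m + 1 : ℕ) : ℝ)) := by push_cast; linarith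
    have h2 : y / 32 / Real.log y ≤
        (((Ioc ⌊7 * y / 8⌋₊ ⌊y⌋₊).filter Nat.Prime).card : ℝ) := by
      rw [div_le_iff₀ hlogy]; linarith
    refine le_trans ?_ h2
    have h3 : Real.log y ≤ Real.log (((2 * m + 1 : ℕ) : ℝ)) := Real.log_le_log hy0 hny
    have h4 : (((2 * m + 1 : ℕ) : ℝ)) / Real.log (((2 * m + 1 : ℕ) : ℝ)) ≤
        3 * y / Real.log y := by
      exact div_le_div₀ (by positivity) hn3 hlogy h3
    calc 1 / 96 * ((((2 * m + 1 : ℕ) : ℝ)) / Real.log (((2 * m + 1 : ℕ) : ℝ)))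
        ≤ 1 / 96 * (3 * y / Real.log y) := by
          exact mul_le_mul_of_nonneg_left h4 (by norm_num)
      _ = y / 32 / Real.log y := by ring

end Pool.Agent.R982.Ewens
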