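import Mathlib
import Pool.Agent.R982.EwensG
import Pool.Agent.R982.EwensP

/-!
# The Ewens distribution and invariable generation
-/

open Finset Equiv Filter

namespace Pool.Agent.R982.Ewens

/-- number of cycles of a permutation, fixed points included: the number of nontrivial cycles
plus the number of fixed points -/
def numCycles {n : ℕ} (σ : Perm (Fin n)) : ℕ :=
  Multiset.card σ.cycleType + (Finset.univ.filter (fun x => σ x = x)).card

/-- the Ewens probability of a permutation -/
noncomputable def ewens (α : ℝ) (n : ℕ) (σ : Perm (Fin n)) : ℝ :=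
  α ^ numCycles σ / ∏ i ∈ range n, (α + i)

/-- `σ 0, ..., σ (N-1)` invariably generate the symmetric group -/
def InvGen {n N : ℕ} (σ : Fin N → Perm (Fin n)) : Prop :=
  ∀ τ : Fin N → Perm (Fin n),
    Subgroup.closure (Set.range fun i => τ i * σ i * (τ i)⁻¹) = ⊤

open Classical in
/-- the probability that `N` independent Ewens permutations invariably generate -/
noncomputable def pInv (α : ℝ) (n N : ℕ) : ℝ :=
  ∑ σ : Fin N → Perm (Fin n), if InvGen σ then ∏ i, ewens α n (σ i) else 0

theorem numCycles_eq {n : ℕ} (σ : Perm (Fin n)) :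
    numCycles σ = Multiset.card σ.partition.parts := by
  unfold numCycles
  rw [Perm.parts_partition, Multiset.card_add, Multiset.card_replicate, Fintype.card_fin]
  congr 1
  have h1 : (Finset.univ.filter (fun x => σ x = x)) = (σ.support)ᶜ := by
    ext x
    simp
  rw [h1, Finset.card_compl, Fintype.card_fin]

theorem ewens_nonneg {α : ℝ} (hα : 0 < α) (n : ℕ) (σ : Perm (Fin n)) : 0 ≤ ewens α n σ := by
  unfold ewens
  refine div_nonneg (by positivity) (Finset.prod_nonneg fun i _ => by positivity)

theorem ewens_sum {α : ℝ} (hα : 0 < α) (n : ℕ) (f : Multiset ℕ → ℝ) :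
    ∑ σ : Perm (Fin n), ewens α n σ * f σ.partition.parts = WS α n f / w α n := by
  have h1 : ∑ σ : Perm (Fin n), ewens α n σ * f σ.partition.parts =
      (∑ σ : Perm (Fin n), α ^ Multiset.card σ.partition.parts * f σ.partition.parts) /
        ∏ i ∈ range n, (α + i) := by
    rw [Finset.sum_div]
    refine Finset.sum_congr rfl ?_
    intro σ _
    unfold ewens
    rw [numCycles_eq]
    ring
  rw [h1, perm_sum, w_eq_prod]
  have h2 : (∏ i ∈ range n, (α + i)) ≠ 0 :=
    Finset.prod_ne_zero_iff.mpr fun i _ => by positivity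
  have h3 : (n.factorial : ℝ) ≠ 0 := by positivity
  field_simp

theorem ewens_total {α : ℝ} (hα : 0 < α) (n : ℕ) : ∑ σ : Perm (Fin n), ewens α n σ = 1 := by
  have h := ewens_sum hα n (fun _ => 1)
  simp only [mul_one] at h
  rw [h]
  exact div_self (w_pos hα n).ne'

open Classical in
/-- probability that a single permutation misses the event `E` -/
theorem ewens_miss {α : ℝ} (hα : 0 < α) (n : ℕ) (E : Multiset ℕ → Prop) :
    ∑ σ ∈ (univ : Finset (Perm (Fin n))).filter (fun σ => ¬ E σ.partition.parts),
      ewens α n σ = 1 - V α n E / w α n := by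
  have h1 : ∑ σ : Perm (Fin n), ewens α n σ * (if E σ.partition.parts then (1 : ℝ) else 0) =
      V α n E / w α n := ewens_sum hα n (fun s => if E s then 1 else 0)
  have h2 : 1 - V α n E / w α n = ∑ σ : Perm (Fin n), (ewens α n σ -
      ewens α n σ * (if E σ.partition.parts then (1 : ℝ) else 0)) := by
    rw [Finset.sum_sub_distrib, h1, ewens_total hα n]
  rw [h2, Finset.sum_filter]
  refine Finset.sum_congr rfl ?_
  intro σ _
  by_cases h : E σ.partition.parts
  · simp [h]
  · simp [h]

open Classical in
/-- probability that all permutations miss the event `E` -/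
theorem all_miss {α : ℝ} (hα : 0 < α) (n N : ℕ) (E : Multiset ℕ → Prop) :
    ∑ σ : Fin N → Perm (Fin n), (if ∀ i, ¬ E (σ i).partition.parts then
      ∏ i, ewens α n (σ i) else 0) = (1 - V α n E / w α n) ^ N := by
  rw [← ewens_miss hα n E]
  have h := Finset.prod_univ_sum (fun _ : Fin N =>
    (univ : Finset (Perm (Fin n))).filter (fun σ => ¬ E σ.partition.parts))
    (fun _ σ => ewens α n σ)
  rw [Finset.prod_const, Finset.card_fin] at h
  rw [h, ← Finset.sum_filter]
  refine Finset.sum_congr ?_ (fun _ _ => rfl)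
  ext σ
  simp [Fintype.mem_piFinset]

open Classical in
theorem pInv_ge {α : ℝ} (hα : 0 < α) {n N L : ℕ} (hodd : Odd n) (hL : 2 ≤ L) (J : Finset ℕ)
    (hJ : ∀ j, L * 2 ^ j ≤ n → j ∈ J) :
    1 - (∑ j ∈ J, (1 - V α n (EK (2 ^ j)) / w α n) ^ N + (1 - V α n (EB L n) / w α n) ^ N +
      (1 - V α n (EX n) / w α n) ^ N + (1 - V α n (EO n) / w α n) ^ N) ≤ pInv α n N := by
  have htot : ∑ σ : Fin N → Perm (Fin n), ∏ i, ewens α n (σ i) = 1 := by
    have h := Finset.prod_univ_sum (fun _ : Fin N => (univ : Finset (Perm (Fin n))))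
      (fun _ σ => ewens α n σ)
    rw [Finset.prod_const, ewens_total hα, one_pow, Fintype.piFinset_univ] at h
    exact h.symm
  simp_rw [← all_miss hα n N]
  rw [← htot]
  unfold pInv
  rw [Finset.sum_comm, ← Finset.sum_add_distrib, ← Finset.sum_add_distrib,
    ← Finset.sum_add_distrib, ← Finset.sum_sub_distrib]
  refine Finset.sum_le_sum ?_
  intro σ _
  set q := ∏ i, ewens α n (σ i) with hq
  have hq0 : 0 ≤ q := Finset.prod_nonneg fun i _ => ewens_nonneg hα n (σ i)
  have nn : ∀ (P : Prop) [Decidable P], 0 ≤ (if P then q else 0) := by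
    intro P _; split_ifs
    · exact hq0
    · exact le_refl _
  have nnS : 0 ≤ ∑ j ∈ J, (if ∀ i, ¬ EK (2 ^ j) (σ i).partition.parts then q else 0) :=
    Finset.sum_nonneg fun j _ => nn _
  by_cases hg : InvGen σ
  · rw [if_pos hg]
    have h1 := nn (∀ i, ¬ EB L n (σ i).partition.parts)
    have h2 := nn (∀ i, ¬ EX n (σ i).partition.parts)
    have h3 := nn (∀ i, ¬ EO n (σ i).partition.parts)
    linarith
  · rw [if_neg hg]
    -- some event is missed
    by_contra hcon
    push Not at hcon
    apply hg
    intro τ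
    have hall : ∀ E : Multiset ℕ → Prop, ¬ (∀ i, ¬ E (σ i).partition.parts) →
        ∃ g ∈ (Set.range fun i => τ i * σ i * (τ i)⁻¹), E g.partition.parts := by
      intro E hE
      push Not at hE
      obtain ⟨i, hi⟩ := hE
      refine ⟨τ i * σ i * (τ i)⁻¹, ⟨i, rfl⟩, ?_⟩
      rw [parts_conj]
      exact hi
    have g1 := nn (∀ i, ¬ EB L n (σ i).partition.parts)
    have g2 := nn (∀ i, ¬ EX n (σ i).partition.parts)
    have g3 := nn (∀ i, ¬ EO n (σ i).partition.parts)
    refine generate hodd _ hL ?_ ?_ ?_ ?_
    · intro j hj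
      apply hall
      intro hmiss
      have h4 : q ≤ ∑ j ∈ J, (if ∀ i, ¬ EK (2 ^ j) (σ i).partition.parts then q else 0) := by
        have := Finset.single_le_sum (f := fun j =>
          (if ∀ i, ¬ EK (2 ^ j) (σ i).partition.parts then q else 0))
          (fun j _ => nn _) (hJ j hj)
        simp only [if_pos hmiss] at this
        exact this
      linarith
    · apply hall
      intro hmiss
      rw [if_pos hmiss] at hcon
      linarith
    · apply hall
      intro hmiss
      rw [if_pos hmiss] at hcon
      linarith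
    · apply hall
      intro hmiss
      rw [if_pos hmiss] at hcon
      linarith

end Pool.Agent.R982.Ewens
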