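import Mathlib
import Pool.Agent.R982.Grid24Data

/-!
Bit-mask computations for the two by four grid.
-/

namespace Pool.Agent.R982.Grid24

/-- Bit mask of the indices below `k` satisfying `f`. -/
def ofB (f : ℕ → Bool) : ℕ → ℕ
  | 0 => 0
  | k + 1 => ofB f k ||| (bif f k then 1 <<< k else 0)

lemma testBit_ofB (f : ℕ → Bool) (k i : ℕ) : (ofB f k).testBit i = (decide (i < k) && f i) := by
  induction k with
  | zero => simp [ofB]
  | succ k ih =>
    rw [ofB, Nat.testBit_or, ih]
    cases hk : f k
    · simp only [cond_false, Nat.zero_testBit, Bool.or_false]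
      by_cases h : i < k
      · have : i < k + 1 := by omega
        simp [h, this]
      · by_cases h2 : i = k
        · subst h2; simp [hk]
        · have : ¬ i < k + 1 := by omega
          simp [h, this]
    · simp only [cond_true, Nat.one_shiftLeft, Nat.testBit_two_pow]
      by_cases h : i < k
      · have h1 : i < k + 1 := by omega
        simp [h, h1]
        intro h3
        omega
      · by_cases h2 : i = k
        · subst h2; simp [hk]
        · have h3 : ¬ i < k + 1 := by omega
          have h4 : ¬ k = i := fun h => h2 h.symm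
          simp [h, h3, h4]

/-- Number of set bits below `k`. -/
def pc (m : ℕ) : ℕ → ℕ
  | 0 => 0
  | k + 1 => pc m k + (bif m.testBit k then 1 else 0)

/-- Conjunction of `f 0, ..., f (k-1)`. -/
def allB (f : ℕ → Bool) : ℕ → Bool
  | 0 => true
  | k + 1 => f k && allB f k

lemma allB_iff (f : ℕ → Bool) (k : ℕ) : allB f k = true ↔ ∀ i < k, f i = true := by
  induction k with
  | zero => simp [allB]
  | succ k ih =>
    rw [allB, Bool.and_eq_true, ih]
    constructor
    · rintro ⟨h1, h2⟩ i hi
      rcases Nat.lt_succ_iff_lt_or_eq.mp hi with h | h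
      · exact h2 i h
      · rw [h]; exact h1
    · intro h
      exact ⟨h k (by omega), fun i hi => h i (by omega)⟩

/-- First endpoint of the `i`-th edge. -/
def eU (i : ℕ) : ℕ := (898139784 >>> (3 * i)) &&& 7

/-- Second endpoint of the `i`-th edge. -/
def eV (i : ℕ) : ℕ := (1051533228 >>> (3 * i)) &&& 7

/-- Mask of the edges crossing the vertex set with mask `a`. -/
def cross (a : ℕ) : ℕ := ofB (fun i => Bool.xor (a.testBit (eU i)) (a.testBit (eV i))) 10

/-- The minimal cuts. -/
def cuts : List ℕ := [15, 17, 30, 35, 44, 50, 71, 72, 86, 100, 129, 142, 144, 162, 198, 259, 268,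
  274, 288, 324, 386, 519, 520, 534, 548, 576, 646, 772]

/-- Vertex sets realising the minimal cuts. -/
def cutW : List ℕ := [15, 1, 14, 3, 12, 2, 7, 8, 6, 4, 16, 31, 17, 19, 23, 48, 63, 49, 51, 55, 32,
  112, 127, 113, 115, 119, 96, 64]

/-- Cuts of the vertex sets of size four. -/
def halves : List ℕ := [15, 159, 188, 198, 234, 288, 303, 341, 346, 374, 377, 412, 447, 453, 489,
  534, 565, 591, 611, 677, 682, 720, 735, 755, 764, 794, 825, 835, 879, 934, 937, 979, 988, 1008,
  1023]

/-- Vertex sets of size four realising the cuts in `halves`. -/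
def halfW : List ℕ := [15, 30, 29, 23, 27, 51, 60, 54, 57, 53, 58, 46, 45, 39, 43, 113, 114, 120,
  116, 99, 108, 102, 105, 101, 106, 78, 77, 71, 75, 83, 92, 86, 89, 85, 90]

/-- Connectivity test of the edge set with mask `s`. -/
def connB (s : ℕ) : Bool := cuts.all (fun c => !(Nat.beq (s &&& c) 0))

/-- Spanning tree test. -/
def treeB (s : ℕ) : Bool := Nat.beq (pc s 10) 7 && connB s

/-- Splittability test. -/
def splitB (s : ℕ) : Bool := halves.any (fun c => Nat.beq (pc (s &&& c) 10) 1)

/-- The twelve tree masks. -/
def nsMasks : List ℕ := treeData.map (fun d => d.1)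

lemma cuts_eq : cuts = cutW.map cross := by decide +kernel

lemma cutW_ok : cutW.all (fun a => Nat.ble 1 a && Nat.ble a 254) = true := by decide +kernel

lemma halves_eq : halves = halfW.map cross := by decide +kernel

lemma halfW_ok : halfW.all (fun a => Nat.beq (pc a 8) 4 && Nat.ble a 255) = true := by
  decide +kernel

lemma cuts_cover : allB (fun a => Nat.beq a 0 || Nat.beq a 255 ||
    cuts.any (fun c => Nat.beq (c &&& cross a) c)) 256 = true := by decide +kernel

lemma halves_cover : allB (fun a => !(Nat.beq (pc a 8) 4) || halves.contains (cross a)) 256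
    = true := by decide +kernel

lemma tree_count : (List.range 1024).countP (fun s => treeB s) = 56 := by decide +kernel

lemma split_count : (List.range 1024).countP (fun s => treeB s && splitB s) = 44 := by
  decide +kernel

lemma ns_complete : allB (fun s => !(treeB s) || splitB s || nsMasks.contains s) 1024 = true := by
  decide +kernel

/-- Entry of a table. -/
def ent (tab m : ℕ) : ℕ := (tab >>> (20 * m)) &&& 1048575

/-- Constraint mask. -/
def succOf (st k : ℕ) : ℕ := (st >>> (10 * k)) &&& 1023

/-- The sum over possible largest elements of the subset with mask `m`. -/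
def rowSum (st tab m : ℕ) : ℕ → ℕ
  | 0 => 0
  | k + 1 => rowSum st tab m k +
      (bif m.testBit k && Nat.beq (m &&& succOf st k) 0 then ent tab (m ^^^ (1 <<< k)) else 0)

lemma tables_ok : treeData.all (fun d => allB (fun m => Nat.ble
    (rowSum d.2.1 d.2.2 (m + 1) 10) (ent d.2.2 (m + 1))) 1023) = true := by
  decide +kernel

lemma tables_top : treeData.all (fun d => Nat.beq (ent d.2.2 1023) 64320 &&
    Nat.beq (ent d.2.2 0) 1) = true := by
  decide +kernel

lemma succ_ok : treeData.all (fun d => allB (fun x => allB (fun y =>
    !((succOf d.2.1 x).testBit y) || (d.1.testBit x && !(d.1.testBit y) &&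
      treeB (d.1 ^^^ (1 <<< x) ^^^ (1 <<< y)))) 10) 10) = true := by
  decide +kernel

end Pool.Agent.R982.Grid24
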