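import Mathlib
import Pool.Agent.R982.Grid24

/-!
Spanning trees of the two by four grid and their splittability, via bit masks.
-/

namespace Pool.Agent.R982.Grid24

open SimpleGraph

lemma nbeq {a b : ℕ} : Nat.beq a b = true ↔ a = b :=
  ⟨Nat.eq_of_beq_eq_true, by rintro rfl; exact Nat.beq_refl a⟩

/-- The cut criterion for connectedness. -/
lemma connected_iff_cut {V : Type*} [Nonempty V] (G : SimpleGraph V) :
    G.Connected ↔ ∀ A : Set V, A.Nonempty → A ≠ Set.univ → ∃ u v, u ∈ A ∧ v ∉ A ∧ G.Adj u v := by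
  constructor
  · intro h A hA hne
    obtain ⟨a, ha⟩ := hA
    obtain ⟨b, hb⟩ := (Set.ne_univ_iff_exists_notMem A).mp hne
    obtain ⟨p⟩ := h.preconnected a b
    obtain ⟨d, _, hd1, hd2⟩ := p.exists_boundary_dart A ha hb
    exact ⟨d.fst, d.snd, hd1, hd2, d.adj⟩
  · intro h
    rw [connected_iff_exists_forall_reachable]
    obtain ⟨a⟩ := (inferInstance : Nonempty V)
    refine ⟨a, fun w => ?_⟩
    by_contra hw
    obtain ⟨u, v, hu, hv, huv⟩ := h {x | G.Reachable a x} ⟨a, Reachable.refl a⟩
      (fun h => hw (by have : w ∈ (Set.univ : Set V) := trivial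
                       rw [← h] at this
                       exact this))
    exact hv (Reachable.trans hu huv.reachable)

/-- Reachability cannot cross a cut without edges. -/
lemma reachable_stays {V : Type*} (G : SimpleGraph V) (A : Set V)
    (hA : ∀ u v, G.Adj u v → u ∈ A → v ∈ A) {x y : V} (hx : x ∈ A) (h : G.Reachable x y) :
    y ∈ A := by
  obtain ⟨p⟩ := h
  by_contra hy
  obtain ⟨d, _, hd1, hd2⟩ := p.exists_boundary_dart A hx hy
  exact hd2 (hA _ _ d.adj hd1)

/-- If `T` is connected and `e` is its only edge crossing `A`, then the component of a point of `A`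
in `T - e` is exactly `A`. -/
lemma comp_eq_of_cut {V : Type*} [Nonempty V] (T : SimpleGraph V) (hT : T.Connected) (A : Set V)
    (hne : A ≠ Set.univ) (e : Sym2 V)
    (hcross : ∀ u v, T.Adj u v → u ∈ A → v ∉ A → s(u, v) = e) {x : V} (hx : x ∈ A) :
    {y | (T.deleteEdges {e}).Reachable x y} = A := by
  have hcut := (connected_iff_cut T).mp hT
  set T' := T.deleteEdges {e} with hT'
  have hadj : ∀ u v, T'.Adj u v ↔ T.Adj u v ∧ s(u, v) ≠ e := by
    intro u v
    rw [hT', deleteEdges_adj]
    simp
  have hclosed : ∀ u v, T'.Adj u v → u ∈ A → v ∈ A := by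
    intro u v huv hu
    by_contra hv
    exact ((hadj u v).mp huv).2 (hcross u v ((hadj u v).mp huv).1 hu hv)
  have hclosed' : ∀ u v, T'.Adj u v → v ∈ A → u ∈ A := fun u v huv hv => hclosed v u huv.symm hv
  set B := {y | T'.Reachable x y} with hB
  have hBA : B ⊆ A := fun y hy => reachable_stays T' A hclosed hx hy
  have hBclosed : ∀ u v, T'.Adj u v → u ∈ B → v ∈ B := fun u v huv hu =>
    Reachable.trans hu huv.reachable
  refine Set.Subset.antisymm hBA ?_
  intro y hyA
  by_contra hyB
  have hxB : x ∈ B := Reachable.refl x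
  obtain ⟨p, q, hp, hq, hpq⟩ := hcut (A \ B) ⟨y, hyA, hyB⟩ (by
    intro h
    have : x ∈ A \ B := by rw [h]; trivial
    exact this.2 hxB)
  have e1 : s(p, q) = e := by
    by_contra hne'
    have h1 : T'.Adj p q := (hadj p q).mpr ⟨hpq, hne'⟩
    have hqA := hclosed p q h1 hp.1
    have hqB : q ∈ B := by
      by_contra h
      exact hq ⟨hqA, h⟩
    exact hp.2 (hBclosed q p h1.symm hqB)
  obtain ⟨p', q', hp', hq', hpq'⟩ := hcut B ⟨x, hxB⟩ (by
    intro h
    exact hyB (by rw [h]; trivial))
  have e2 : s(p', q') = e := by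
    by_contra hne'
    exact hq' (hBclosed p' q' ((hadj p' q').mpr ⟨hpq', hne'⟩) hp')
  obtain ⟨a, b, ha, hb, hab⟩ := hcut A ⟨x, hx⟩ hne
  have e3 : s(a, b) = e := hcross a b hab ha hb
  rw [← e2] at e1
  rcases Sym2.eq_iff.mp e1 with ⟨h1, h2⟩ | ⟨h1, h2⟩
  · exact hp.2 (h1 ▸ hp')
  · rw [← e2] at e3
    rcases Sym2.eq_iff.mp e3 with ⟨h3, h4⟩ | ⟨h3, h4⟩
    · exact hb (by rw [h4, ← h1]; exact hp.1)
    · exact hb (by rw [h4]; exact hBA hp')

/-- Vertices of the grid. -/
abbrev V := Fin 2 × Fin 4

/-- Index of a vertex. -/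
def idx (v : V) : ℕ := 4 * v.1 + v.2

/-- Vertex of an index. -/
def vtx (k : ℕ) : V := (Fin.ofNat 2 (k / 4), Fin.ofNat 4 k)

lemma idx_lt (v : V) : idx v < 8 := by
  revert v; decide

lemma vtx_idx : ∀ v : V, vtx (idx v) = v := by decide

lemma idx_vtx : ∀ k < 8, idx (vtx k) = k := by decide

/-- First endpoint of an edge. -/
def vU (i : Fin 10) : V := vtx (eU i)

/-- Second endpoint of an edge. -/
def vV (i : Fin 10) : V := vtx (eV i)

/-- The `i`-th edge. -/
def edge (i : Fin 10) : Sym2 V := s(vU i, vV i)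

lemma eU_lt : ∀ i : Fin 10, eU i < 8 := by decide
lemma eV_lt : ∀ i : Fin 10, eV i < 8 := by decide

lemma edge_inj : Function.Injective edge := by
  have : ∀ i j : Fin 10, edge i = edge j → i = j := by decide
  exact fun i j h => this i j h

lemma vU_ne_vV : ∀ i : Fin 10, vU i ≠ vV i := by decide

lemma edge_adj : ∀ i : Fin 10, (pathGraph 2 □ pathGraph 4).Adj (vU i) (vV i) := by
  intro i
  simp only [boxProd_adj, pathGraph_adj]
  revert i
  decide

lemma edge_complete : ∀ u v : V, (pathGraph 2 □ pathGraph 4).Adj u v → ∃ i, edge i = s(u, v) := by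
  intro u v
  simp only [boxProd_adj, pathGraph_adj]
  revert u v
  decide

/-- The graph of a mask. -/
def graphOf (s : ℕ) : SimpleGraph V where
  Adj u v := ∃ i : Fin 10, s.testBit i = true ∧ edge i = s(u, v)
  symm := ⟨fun u v ⟨i, h1, h2⟩ => ⟨i, h1, by rw [h2, Sym2.eq_swap]⟩⟩
  loopless := ⟨fun u ⟨i, _, h2⟩ => by
    rcases Sym2.eq_iff.mp h2 with ⟨h3, h4⟩ | ⟨h3, h4⟩
    · exact vU_ne_vV i (h3.trans h4.symm)
    · exact vU_ne_vV i (h3.trans h4.symm)⟩

lemma graphOf_adj (s : ℕ) (u v : V) :
    (graphOf s).Adj u v ↔ ∃ i : Fin 10, s.testBit i = true ∧ edge i = s(u, v) := Iff.rfl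

lemma mem_edgeSet_graphOf (s : ℕ) (e : Sym2 V) :
    e ∈ (graphOf s).edgeSet ↔ ∃ i : Fin 10, s.testBit i = true ∧ edge i = e := by
  induction e with
  | _ u v => rfl

lemma edge_mem_graphOf (s : ℕ) (i : Fin 10) : edge i ∈ (graphOf s).edgeSet ↔ s.testBit i = true := by
  rw [mem_edgeSet_graphOf]
  constructor
  · rintro ⟨j, h1, h2⟩
    rw [← edge_inj h2]
    exact h1
  · intro h
    exact ⟨i, h, rfl⟩

lemma graphOf_le (s : ℕ) : graphOf s ≤ pathGraph 2 □ pathGraph 4 := by
  intro u v ⟨i, _, h⟩
  have h1 := edge_adj i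
  rcases Sym2.eq_iff.mp h with ⟨h3, h4⟩ | ⟨h3, h4⟩
  · rw [← h3, ← h4]; exact h1
  · rw [← h3, ← h4]; exact h1.symm

lemma graphOf_inj {s t : ℕ} (hs : s < 1024) (ht : t < 1024) (h : graphOf s = graphOf t) : s = t := by
  apply Nat.eq_of_testBit_eq
  intro i
  by_cases hi : i < 10
  · have h1 := edge_mem_graphOf s ⟨i, hi⟩
    have h2 := edge_mem_graphOf t ⟨i, hi⟩
    rw [h] at h1
    have h3 : (s.testBit i = true) ↔ (t.testBit i = true) := h1.symm.trans h2
    exact Bool.eq_iff_iff.mpr h3
  · have h10 : (2 : ℕ) ^ 10 ≤ 2 ^ i := Nat.pow_le_pow_right (by norm_num) (by omega)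
    rw [Nat.testBit_lt_two_pow (by omega), Nat.testBit_lt_two_pow (by omega)]

lemma exists_mask (T : SimpleGraph V) (hT : T ≤ pathGraph 2 □ pathGraph 4) :
    ∃ s < 1024, graphOf s = T := by
  classical
  let f : ℕ → Bool := fun i => if h : i < 10 then decide (edge ⟨i, h⟩ ∈ T.edgeSet) else false
  refine ⟨ofB f 10, ?_, ?_⟩
  · have : (1024 : ℕ) = 2 ^ 10 := by norm_num
    rw [this]
    apply Nat.lt_pow_two_of_testBit
    intro i hi
    rw [testBit_ofB]
    simp [not_lt.mpr hi]
  · ext u v
    rw [graphOf_adj]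
    constructor
    · rintro ⟨i, h1, h2⟩
      rw [testBit_ofB] at h1
      simp only [Fin.is_lt, decide_true, Bool.true_and, f, dif_pos, decide_eq_true_eq] at h1
      rw [← mem_edgeSet, ← h2]
      exact h1
    · intro h
      obtain ⟨i, hi⟩ := edge_complete u v (hT h)
      refine ⟨i, ?_, hi⟩
      rw [testBit_ofB]
      simp only [Fin.is_lt, decide_true, Bool.true_and, f, dif_pos, decide_eq_true_eq]
      rw [Fin.eta, hi, mem_edgeSet]
      exact h

lemma pc_eq (m : ℕ) : pc m 10 = (Finset.univ.filter (fun i : Fin 10 => m.testBit i = true)).card := by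
  rw [Finset.card_filter]
  simp only [pc, Fin.sum_univ_succ, Finset.univ_eq_empty, Finset.sum_empty, Bool.cond_eq_ite]
  simp only [Fin.val_succ, Fin.val_zero]
  simp
  ring

lemma card_edges (s : ℕ) : Nat.card (graphOf s).edgeSet = pc s 10 := by
  classical
  rw [pc_eq]
  have h1 : (graphOf s).edgeSet
      = ((Finset.univ.filter (fun i : Fin 10 => s.testBit i = true)).image edge : Finset (Sym2 V)) := by
    ext e
    rw [mem_edgeSet_graphOf]
    simp
  rw [h1, Nat.card_coe_set_eq, Set.ncard_coe_finset]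
  exact Finset.card_image_of_injective _ edge_inj

/-- Vertex set of a mask. -/
def setM (a : ℕ) : Set V := {v | a.testBit (idx v) = true}

lemma mem_setM (a : ℕ) (v : V) : v ∈ setM a ↔ a.testBit (idx v) = true := Iff.rfl

lemma exists_setM (A : Set V) : ∃ a < 256, setM a = A := by
  classical
  refine ⟨ofB (fun k => decide (vtx k ∈ A)) 8, ?_, ?_⟩
  · have : (256 : ℕ) = 2 ^ 8 := by norm_num
    rw [this]
    apply Nat.lt_pow_two_of_testBit
    intro i hi
    rw [testBit_ofB]
    simp [not_lt.mpr hi]
  · ext v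
    rw [mem_setM, testBit_ofB, vtx_idx]
    simp [idx_lt v]

lemma setM_zero : setM 0 = ∅ := by
  ext v
  simp [mem_setM]

lemma setM_255 : setM 255 = Set.univ := by
  ext v
  simp only [mem_setM, Set.mem_univ, iff_true]
  revert v
  decide

lemma setM_inj {a b : ℕ} (ha : a < 256) (hb : b < 256) (h : setM a = setM b) : a = b := by
  apply Nat.eq_of_testBit_eq
  intro i
  by_cases hi : i < 8
  · have h1 : vtx i ∈ setM a ↔ vtx i ∈ setM b := by rw [h]
    rw [mem_setM, mem_setM, idx_vtx i hi] at h1
    exact Bool.eq_iff_iff.mpr h1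
  · have h10 : (2 : ℕ) ^ 8 ≤ 2 ^ i := Nat.pow_le_pow_right (by norm_num) (by omega)
    rw [Nat.testBit_lt_two_pow (by omega), Nat.testBit_lt_two_pow (by omega)]

lemma testBit_cross (a i : ℕ) : (cross a).testBit i
    = (decide (i < 10) && Bool.xor (a.testBit (eU i)) (a.testBit (eV i))) := by
  rw [cross, testBit_ofB]

lemma idx_vU (i : Fin 10) : idx (vU i) = eU i := idx_vtx _ (eU_lt i)
lemma idx_vV (i : Fin 10) : idx (vV i) = eV i := idx_vtx _ (eV_lt i)

lemma cross_iff (a : ℕ) (i : Fin 10) : (cross a).testBit i = true ↔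
    ∃ u v, edge i = s(u, v) ∧ u ∈ setM a ∧ v ∉ setM a := by
  rw [testBit_cross]
  simp only [Fin.is_lt, decide_true, Bool.true_and]
  rw [← idx_vU, ← idx_vV]
  constructor
  · intro h
    by_cases h1 : a.testBit (idx (vU i)) = true
    · rw [h1] at h
      refine ⟨vU i, vV i, rfl, h1, ?_⟩
      rw [mem_setM]
      simpa using h
    · have h1' : a.testBit (idx (vU i)) = false := by simpa using h1
      rw [h1'] at h
      refine ⟨vV i, vU i, Sym2.eq_swap, ?_, h1⟩
      rw [mem_setM]
      simpa using h
  · rintro ⟨u, v, he, hu, hv⟩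
    rw [mem_setM] at hu hv
    have hv' : a.testBit (idx v) = false := by simpa using hv
    rcases Sym2.eq_iff.mp he with ⟨h3, h4⟩ | ⟨h3, h4⟩
    · rw [h3, h4, hu, hv']; rfl
    · rw [h3, h4, hu, hv']; rfl

lemma exists_bit_of_ne_zero {m : ℕ} (h : m ≠ 0) : ∃ i, m.testBit i = true := by
  by_contra hcon
  push Not at hcon
  apply h
  apply Nat.eq_of_testBit_eq
  intro i
  simpa using hcon i

lemma connB_iff (s : ℕ) : connB s = true ↔ (graphOf s).Connected := by
  rw [connected_iff_cut, connB, List.all_eq_true]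
  constructor
  · intro h A hne hnu
    obtain ⟨a, ha, rfl⟩ := exists_setM A
    have h0 : a ≠ 0 := by
      rintro rfl
      rw [setM_zero] at hne
      exact Set.not_nonempty_empty hne
    have h255 : a ≠ 255 := by
      rintro rfl
      exact hnu setM_255
    have hc := (allB_iff _ _).mp cuts_cover a ha
    simp only [Bool.or_eq_true, nbeq, h0, h255, false_or, List.any_eq_true] at hc
    obtain ⟨c, hc1, hc2⟩ := hc
    have hs := h c hc1
    have hs' : s &&& c ≠ 0 := by
      intro h
      rw [h] at hs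
      simp at hs
    obtain ⟨i, hi⟩ := exists_bit_of_ne_zero hs'
    rw [Nat.testBit_and, Bool.and_eq_true] at hi
    have hci : (cross a).testBit i = true := by
      have h3 := hi.2
      rw [← hc2, Nat.testBit_and, Bool.and_eq_true] at h3
      exact h3.2
    have hi10 : i < 10 := by
      rw [testBit_cross, Bool.and_eq_true] at hci
      simpa using hci.1
    obtain ⟨u, v, he, hu, hv⟩ := (cross_iff a ⟨i, hi10⟩).mp hci
    exact ⟨u, v, hu, hv, ⟨i, hi10⟩, hi.1, he⟩
  · intro h c hc
    rw [cuts_eq, List.mem_map] at hc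
    obtain ⟨a, ha, rfl⟩ := hc
    have hw := List.all_eq_true.mp cutW_ok a ha
    simp only [Bool.and_eq_true, Nat.ble_eq] at hw
    obtain ⟨u, v, hu, hv, i, hi, he⟩ := h (setM a) (by
        by_contra hne
        rw [Set.not_nonempty_iff_eq_empty, ← setM_zero] at hne
        have := setM_inj (by omega) (by omega) hne
        omega) (by
        intro h
        rw [← setM_255] at h
        have := setM_inj (by omega) (by omega) h
        omega)
    have hx : (cross a).testBit i = true := (cross_iff a i).mpr ⟨u, v, he, hu, hv⟩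
    have hne : s &&& cross a ≠ 0 := by
      intro h0
      have : (s &&& cross a).testBit i = true := by rw [Nat.testBit_and, hi, hx]; rfl
      rw [h0] at this
      simp at this
    rw [Bool.not_eq_true', Bool.eq_false_iff]
    intro h1
    exact hne (nbeq.mp h1)

lemma treeB_iff (s : ℕ) : treeB s = true ↔ (graphOf s).IsTree := by
  rw [isTree_iff_connected_and_card, card_edges, treeB, Bool.and_eq_true, nbeq,
    connB_iff]
  have hV : Nat.card V = 8 := by simp
  rw [hV]
  constructor
  · rintro ⟨h1, h2⟩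
    exact ⟨h2, by omega⟩
  · rintro ⟨h1, h2⟩
    exact ⟨by omega, h1⟩

lemma card_setM : ∀ a < 256, (Finset.univ.filter (fun v : V => a.testBit (idx v) = true)).card
    = pc a 8 := by
  decide +kernel

lemma ncard_setM (a : ℕ) (ha : a < 256) : (setM a).ncard = pc a 8 := by
  rw [← card_setM a ha]
  have : setM a = (Finset.univ.filter (fun v : V => a.testBit (idx v) = true) : Finset V) := by
    ext v
    simp [mem_setM]
  rw [this, Set.ncard_coe_finset]

lemma splitB_iff (s : ℕ) (hs : treeB s = true) : splitB s = true ↔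
    ∃ e ∈ (graphOf s).edgeSet, ∀ c : ((graphOf s).deleteEdges {e}).ConnectedComponent,
      2 * c.supp.ncard = Fintype.card V := by
  have hT := (treeB_iff s).mp hs
  have hV : Fintype.card V = 8 := by simp
  rw [splitB, List.any_eq_true, hV]
  constructor
  · rintro ⟨c, hc, h1⟩
    rw [nbeq, pc_eq, Finset.card_eq_one] at h1
    obtain ⟨i, hi⟩ := h1
    rw [halves_eq, List.mem_map] at hc
    obtain ⟨a, ha, rfl⟩ := hc
    have hw := List.all_eq_true.mp halfW_ok a ha
    simp only [Bool.and_eq_true, Nat.ble_eq, nbeq] at hw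
    have hi' : (s &&& cross a).testBit i = true := by
      have : i ∈ ({i} : Finset (Fin 10)) := Finset.mem_singleton_self i
      rw [← hi] at this
      exact (Finset.mem_filter.mp this).2
    rw [Nat.testBit_and, Bool.and_eq_true] at hi'
    have hcard := ncard_setM a (by omega)
    have hcardc : (setM a)ᶜ.ncard = 4 := by
      rw [Set.ncard_compl, hcard]
      simp only [Nat.card_eq_fintype_card, hV]
      omega
    have hcross : ∀ u v, (graphOf s).Adj u v → u ∈ setM a → v ∉ setM a → s(u, v) = edge i := by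
      rintro u v ⟨j, hj1, hj2⟩ hu hv
      have h2 := (cross_iff a j).mpr ⟨u, v, hj2, hu, hv⟩
      have h3 : j ∈ (Finset.univ.filter (fun i : Fin 10 => (s &&& cross a).testBit i = true)) := by
        rw [Finset.mem_filter, Nat.testBit_and, hj1, h2]
        exact ⟨Finset.mem_univ _, rfl⟩
      rw [hi, Finset.mem_singleton] at h3
      rw [← hj2, h3]
    refine ⟨edge i, (edge_mem_graphOf s i).mpr hi'.1, ?_⟩
    intro c
    induction c using ConnectedComponent.ind with
    | _ x =>
      have hsupp : (((graphOf s).deleteEdges {edge i}).connectedComponentMk x).supp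
          = {y | ((graphOf s).deleteEdges {edge i}).Reachable x y} := by
        ext y
        rw [ConnectedComponent.mem_supp_iff, ConnectedComponent.eq]
        exact ⟨fun h => h.symm, fun h => h.symm⟩
      rw [hsupp]
      by_cases hx : x ∈ setM a
      · rw [comp_eq_of_cut (graphOf s) hT.connected (setM a) ?_ (edge i) hcross hx, hcard, hw.1]
        intro h
        rw [h] at hcard
        rw [Set.ncard_univ, Nat.card_eq_fintype_card, hV] at hcard
        omega
      · rw [comp_eq_of_cut (graphOf s) hT.connected (setM a)ᶜ ?_ (edge i) ?_ hx, hcardc]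
        · intro h
          rw [h] at hcardc
          rw [Set.ncard_univ, Nat.card_eq_fintype_card, hV] at hcardc
          omega
        · intro u v huv hu hv
          rw [Sym2.eq_swap]
          exact hcross v u huv.symm (not_not.mp hv) hu
  · rintro ⟨e, he, hcomp⟩
    induction e with
    | _ u v =>
      have huv : (graphOf s).Adj u v := he
      set T' := (graphOf s).deleteEdges {s(u, v)} with hT'
      obtain ⟨a, ha, hA⟩ := exists_setM (T'.connectedComponentMk u).supp
      have hcard := ncard_setM a ha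
      rw [hA] at hcard
      have h4 := hcomp (T'.connectedComponentMk u)
      rw [hcard] at h4
      have hpc : pc a 8 = 4 := by omega
      have hh := (allB_iff _ _).mp halves_cover a ha
      simp only [Bool.or_eq_true, Bool.not_eq_true', hpc] at hh
      have hh' : cross a ∈ halves := by
        rcases hh with h | h
        · exact absurd h (by decide)
        · simpa using h
      refine ⟨cross a, hh', ?_⟩
      have hclosed : ∀ x y, (graphOf s).Adj x y → x ∈ setM a → y ∉ setM a → s(x, y) = s(u, v) := by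
        intro x y hxy hx hy
        by_contra hne
        have h1 : T'.Adj x y := by
          rw [hT', deleteEdges_adj]
          exact ⟨hxy, by simpa using hne⟩
        apply hy
        rw [hA, ConnectedComponent.mem_supp_iff] at hx ⊢
        rw [← hx]
        exact ConnectedComponent.sound h1.symm.reachable
      obtain ⟨j, hj1, hj2⟩ := huv
      have hAne : (setM a).Nonempty := ⟨u, by rw [hA]; rfl⟩
      have hAnu : setM a ≠ Set.univ := by
        intro h
        rw [h] at hA
        rw [← hA, Set.ncard_univ, Nat.card_eq_fintype_card, hV] at hcard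
        omega
      obtain ⟨x, y, hx, hy, hxy⟩ := (connected_iff_cut _).mp hT.connected (setM a) hAne hAnu
      have hexy := hclosed x y hxy hx hy
      have hcj : (cross a).testBit j = true := (cross_iff a j).mpr ⟨x, y, hj2.trans hexy.symm, hx, hy⟩
      rw [nbeq, pc_eq, Finset.card_eq_one]
      refine ⟨j, ?_⟩
      ext k
      rw [Finset.mem_filter, Finset.mem_singleton, Nat.testBit_and, Bool.and_eq_true]
      constructor
      · rintro ⟨_, hk1, hk2⟩
        obtain ⟨p, q, hpq, hp, hq⟩ := (cross_iff a k).mp hk2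
        have := hclosed p q ⟨k, hk1, hpq⟩ hp hq
        exact edge_inj (hpq.trans (this.trans hj2.symm))
      · rintro rfl
        exact ⟨Finset.mem_univ _, hj1, hcj⟩

end Pool.Agent.R982.Grid24
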