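import Mathlib

/-!
Counting the permutations compatible with a relation by a subset recursion.
-/

namespace Pool.Agent.R982.LinExt

open Finset

variable {n : ℕ}

/-- The orderings (largest first) of a set `S` compatible with `R`. -/
def ords (R : Fin n → Fin n → Prop) [DecidableRel R] : ℕ → Finset (Fin n) → Finset (List (Fin n))
  | 0, _ => {[]}
  | k + 1, S => (S.filter (fun x => ∀ y ∈ S, ¬ R x y)).biUnion
      (fun x => (ords R k (S.erase x)).image (List.cons x))

lemma card_ords_le (R : Fin n → Fin n → Prop) [DecidableRel R] (c : Finset (Fin n) → ℕ)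
    (h0 : 1 ≤ c ∅)
    (hrec : ∀ S : Finset (Fin n), S ≠ ∅ →
      ∑ x ∈ S.filter (fun x => ∀ y ∈ S, ¬ R x y), c (S.erase x) ≤ c S) :
    ∀ (k : ℕ) (S : Finset (Fin n)), S.card = k → (ords R k S).card ≤ c S := by
  intro k
  induction k with
  | zero =>
    intro S hS
    rw [Finset.card_eq_zero] at hS
    subst hS
    simpa [ords] using h0
  | succ k ih =>
    intro S hS
    have hne : S ≠ ∅ := by
      intro h
      rw [h] at hS
      simp at hS
    rw [ords]
    refine Finset.card_biUnion_le.trans (le_trans (Finset.sum_le_sum fun x hx => ?_) (hrec S hne))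
    refine Finset.card_image_le.trans (ih _ ?_)
    rw [Finset.card_erase_of_mem (Finset.mem_filter.mp hx).1, hS]
    rfl

lemma mem_ords (R : Fin n → Fin n → Prop) [DecidableRel R] (hirr : ∀ a, ¬ R a a) :
    ∀ l : List (Fin n), l.Nodup → l.Pairwise (fun a b => ¬ R a b) →
      l ∈ ords R l.length l.toFinset := by
  intro l
  induction l with
  | nil => intro _ _; simp [ords]
  | cons x l ih =>
    intro hnd hp
    rw [List.nodup_cons] at hnd
    rw [List.pairwise_cons] at hp
    rw [List.length_cons, ords, Finset.mem_biUnion]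
    refine ⟨x, ?_, ?_⟩
    · rw [Finset.mem_filter]
      refine ⟨by simp, fun y hy => ?_⟩
      rw [List.mem_toFinset, List.mem_cons] at hy
      rcases hy with rfl | hy
      · exact hirr y
      · exact hp.1 y hy
    · rw [Finset.mem_image]
      refine ⟨l, ?_, rfl⟩
      have : (x :: l).toFinset.erase x = l.toFinset := by
        rw [List.toFinset_cons, Finset.erase_insert]
        rw [List.mem_toFinset]
        exact hnd.1
      rw [this]
      exact ih hnd.2 hp.2

theorem card_perm_le (R : Fin n → Fin n → Prop) [DecidableRel R] (hirr : ∀ a, ¬ R a a)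
    (c : Finset (Fin n) → ℕ) (h0 : 1 ≤ c ∅)
    (hrec : ∀ S : Finset (Fin n), S ≠ ∅ →
      ∑ x ∈ S.filter (fun x => ∀ y ∈ S, ¬ R x y), c (S.erase x) ≤ c S) :
    Nat.card {σ : Equiv.Perm (Fin n) // ∀ a b, R a b → σ.symm a < σ.symm b} ≤ c Finset.univ := by
  classical
  have hlist : ∀ σ : {σ : Equiv.Perm (Fin n) // ∀ a b, R a b → σ.symm a < σ.symm b},
      List.ofFn (fun i => σ.1 (Fin.rev i)) ∈ ords R n Finset.univ := by
    intro σ
    have h1 : (List.ofFn (fun i => σ.1 (Fin.rev i))).toFinset = Finset.univ := by
      ext x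
      simp only [List.mem_toFinset, List.mem_ofFn, Finset.mem_univ, iff_true]
      exact ⟨Fin.rev (σ.1.symm x), by simp⟩
    have h2 : (List.ofFn (fun i => σ.1 (Fin.rev i))).length = n := List.length_ofFn
    have h3 := mem_ords R hirr (List.ofFn (fun i => σ.1 (Fin.rev i)))
      (List.nodup_ofFn.mpr (σ.1.injective.comp Fin.rev_injective)) ?_
    · rw [h1, h2] at h3
      exact h3
    · rw [List.pairwise_ofFn]
      intro i j hij hR
      have := σ.2 _ _ hR
      simp only [Equiv.symm_apply_apply, Fin.rev_lt_rev] at this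
      exact absurd hij (not_lt.mpr this.le)
  have hinj : Function.Injective
      (fun σ : {σ : Equiv.Perm (Fin n) // ∀ a b, R a b → σ.symm a < σ.symm b} =>
        (⟨List.ofFn (fun i => σ.1 (Fin.rev i)), hlist σ⟩ : {l // l ∈ ords R n Finset.univ})) := by
    intro σ τ h
    have h1 := congrArg Subtype.val h
    simp only at h1
    have h2 := List.ofFn_injective h1
    apply Subtype.ext
    ext i
    have := congrFun h2 (Fin.rev i)
    simp only [Fin.rev_rev] at this
    rw [this]
  have h1 := Nat.card_le_card_of_injective _ hinj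
  refine h1.trans ?_
  rw [Nat.card_eq_fintype_card, Fintype.card_coe]
  exact card_ords_le R c h0 hrec n Finset.univ (by simp)

end Pool.Agent.R982.LinExt
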