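import Mathlib

/-!
Order cells of the unit cube: if `w` has independent uniform coordinates on `[0,1]` indexed by
`Fin n`, then the probability that `w a ≤ w b` for all related pairs `a, b` is at most the number of
compatible permutations divided by `n!`.
-/

namespace Pool.Agent.R982.OrderCells

open MeasureTheory Set

/-- The law of a family of independent random variables, uniform on `[0,1]`. -/
noncomputable def cube (ι : Type*) [Fintype ι] : Measure (ι → ℝ) :=
  Measure.pi (fun _ : ι => (volume : Measure ℝ).restrict (Icc 0 1))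

instance instProbUnif : IsProbabilityMeasure ((volume : Measure ℝ).restrict (Icc 0 1)) := by
  constructor
  simp

instance instProbCube (ι : Type*) [Fintype ι] : IsProbabilityMeasure (cube ι) := by
  unfold cube
  infer_instance

lemma relabel {ι κ : Type*} [Fintype ι] [Fintype κ] (e : ι ≃ κ) :
    MeasurePreserving (fun w : κ → ℝ => w ∘ e) (cube κ) (cube ι) := by
  have h := (measurePreserving_piCongrLeft (α := fun _ : κ => ℝ)
    (fun _ : κ => (volume : Measure ℝ).restrict (Icc 0 1)) e).symm
  have h2 : ((MeasurableEquiv.piCongrLeft (fun _ : κ => ℝ) e).symm : (κ → ℝ) → (ι → ℝ))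
      = fun w => w ∘ e := by
    funext w
    rfl
  unfold cube
  rw [← h2]
  exact h

lemma tie_null {n : ℕ} (i j : Fin n) (hij : i ≠ j) : cube (Fin n) {w | w i = w j} = 0 := by
  have hle : cube (Fin n) ≤ volume := by
    unfold cube
    rw [← Measure.restrict_pi_pi]
    exact Measure.restrict_le_self
  refine le_antisymm ((hle _).trans ?_) bot_le
  let L : (Fin n → ℝ) →ₗ[ℝ] ℝ :=
    (LinearMap.proj (R := ℝ) (φ := fun _ : Fin n => ℝ) i) - (LinearMap.proj (R := ℝ) (φ := fun _ : Fin n => ℝ) j)
  have h1 : {w : Fin n → ℝ | w i = w j} = (LinearMap.ker L : Set (Fin n → ℝ)) := by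
    ext w
    simp [L, sub_eq_zero]
  rw [h1]
  refine le_of_eq (Measure.addHaar_submodule volume (LinearMap.ker L) ?_)
  intro htop
  have h2 : Pi.single i (1 : ℝ) ∈ LinearMap.ker L := by rw [htop]; trivial
  simp [L, hij.symm, Pi.single_apply] at h2

/-- The cell of a permutation: the weights listed in the order of `σ` increase strictly. -/
def cell {n : ℕ} (σ : Equiv.Perm (Fin n)) : Set (Fin n → ℝ) := {w | StrictMono (w ∘ σ)}

lemma measurableSet_cell {n : ℕ} (σ : Equiv.Perm (Fin n)) : MeasurableSet (cell σ) := by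
  have : cell σ = ⋂ i : Fin n, ⋂ j : Fin n, {w : Fin n → ℝ | i < j → w (σ i) < w (σ j)} := by
    ext w
    simp only [cell, mem_ofPred_eq, mem_iInter, StrictMono, Function.comp]
  rw [this]
  refine MeasurableSet.iInter fun i => MeasurableSet.iInter fun j => ?_
  by_cases h : i < j
  · simp only [h, true_implies]
    exact measurableSet_lt (measurable_pi_apply _) (measurable_pi_apply _)
  · simp [h]

lemma cell_measure_eq {n : ℕ} (σ : Equiv.Perm (Fin n)) :
    cube (Fin n) (cell σ) = cube (Fin n) (cell 1) := by
  have h := (relabel σ).measure_preimage (measurableSet_cell (1 : Equiv.Perm (Fin n))).nullMeasurableSet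
  rw [← h]
  congr 1

lemma cell_unique {n : ℕ} {σ τ : Equiv.Perm (Fin n)} {w : Fin n → ℝ} (h1 : w ∈ cell σ)
    (h2 : w ∈ cell τ) : σ = τ := by
  have hr : Set.range (w ∘ σ) = Set.range (w ∘ τ) := by
    rw [Set.range_comp, Set.range_comp, σ.surjective.range_eq, τ.surjective.range_eq]
  have h3 : w ∘ σ = w ∘ τ := (StrictMono.range_inj h1 h2).mp hr
  have hw : Function.Injective w := by
    intro a b hab
    have h4 := h1.injective (a₁ := σ.symm a) (a₂ := σ.symm b) (by simpa using hab)
    exact σ.symm.injective h4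
  ext i
  have := hw (congrFun h3 i)
  exact congrArg Fin.val this

lemma cell_measure_le {n : ℕ} (σ : Equiv.Perm (Fin n)) :
    cube (Fin n) (cell σ) ≤ 1 / (n.factorial : ENNReal) := by
  have h1 : ∑ τ : Equiv.Perm (Fin n), cube (Fin n) (cell τ) ≤ 1 := by
    have hd : Pairwise (Function.onFun Disjoint (fun τ : Equiv.Perm (Fin n) => cell τ)) := by
      intro τ τ' hne
      rw [Function.onFun, Set.disjoint_left]
      intro w hw hw'
      exact hne (cell_unique hw hw')
    have h2 := measure_biUnion_finset (μ := cube (Fin n)) (s := Finset.univ)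
      (f := fun τ : Equiv.Perm (Fin n) => cell τ) (fun τ _ τ' _ hne => hd hne)
      (fun τ _ => measurableSet_cell τ)
    rw [← h2]
    exact prob_le_one
  have h2 : ∑ τ : Equiv.Perm (Fin n), cube (Fin n) (cell τ)
      = (n.factorial : ENNReal) * cube (Fin n) (cell σ) := by
    rw [Finset.sum_congr rfl (fun τ _ => (cell_measure_eq τ).trans (cell_measure_eq σ).symm)]
    rw [Finset.sum_const, Finset.card_univ, Fintype.card_perm, Fintype.card_fin, nsmul_eq_mul]
  rw [h2] at h1
  rw [ENNReal.le_div_iff_mul_le (Or.inl (by exact_mod_cast n.factorial_ne_zero))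
    (Or.inl (ENNReal.natCast_ne_top _)), mul_comm]
  exact h1

theorem measure_le {n : ℕ} (R : Fin n → Fin n → Prop) (N : ℕ)
    (hN : Nat.card {σ : Equiv.Perm (Fin n) // ∀ a b, R a b → σ.symm a < σ.symm b} ≤ N)
    (hirr : ∀ a, ¬ R a a) :
    cube (Fin n) {w | ∀ a b, R a b → w a ≤ w b} ≤ (N : ENNReal) / (n.factorial : ENNReal) := by
  classical
  have hsub : {w : Fin n → ℝ | ∀ a b, R a b → w a ≤ w b}
      ⊆ (⋃ p ∈ (Finset.univ.filter (fun p : Fin n × Fin n => p.1 ≠ p.2)), {w | w p.1 = w p.2}) ∪
        ⋃ σ ∈ (Finset.univ.filter (fun σ : Equiv.Perm (Fin n) =>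
          ∀ a b, R a b → σ.symm a < σ.symm b)), cell σ := by
    intro w hw
    by_cases hinj : Function.Injective w
    · right
      have hs : StrictMono (w ∘ Tuple.sort w) :=
        (Tuple.monotone_sort w).strictMono_of_injective (hinj.comp (Tuple.sort w).injective)
      refine Set.mem_iUnion₂.mpr ⟨Tuple.sort w, ?_, hs⟩
      rw [Finset.mem_filter]
      refine ⟨Finset.mem_univ _, fun a b hab => ?_⟩
      rw [← hs.lt_iff_lt]
      simp only [Function.comp, Equiv.apply_symm_apply]
      refine lt_of_le_of_ne (hw a b hab) ?_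
      intro h
      have := hinj h
      subst this
      exact hirr a hab
    · left
      rw [Function.Injective] at hinj
      push Not at hinj
      obtain ⟨a, b, hab, hne⟩ := hinj
      exact Set.mem_iUnion₂.mpr ⟨(a, b), by simpa using hne, hab⟩
  refine (measure_mono hsub).trans ((measure_union_le _ _).trans ?_)
  have hz : cube (Fin n) (⋃ p ∈ (Finset.univ.filter (fun p : Fin n × Fin n => p.1 ≠ p.2)),
      {w | w p.1 = w p.2}) = 0 := by
    refine le_antisymm ((measure_biUnion_finset_le _ _).trans (le_of_eq ?_)) bot_le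
    refine Finset.sum_eq_zero fun p hp => ?_
    exact tie_null p.1 p.2 (Finset.mem_filter.mp hp).2
  rw [hz, zero_add]
  refine (measure_biUnion_finset_le _ _).trans ?_
  refine (Finset.sum_le_card_nsmul _ _ _ (fun σ _ => cell_measure_le σ)).trans ?_
  rw [nsmul_eq_mul, mul_one_div]
  gcongr
  refine le_trans (le_of_eq ?_) hN
  rw [Nat.card_eq_fintype_card, Fintype.card_subtype]

end Pool.Agent.R982.OrderCells
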