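import Mathlib
import Pool.Agent.R982.LinExt
import Pool.Agent.R982.OrderCells
import Pool.Agent.R982.Grid24Graph

/-!
The number of compatible orderings for each of the twelve non-splittable trees.
-/

namespace Pool.Agent.R982.Grid24

open Pool.Agent.R982.LinExt Pool.Agent.R982.OrderCells

/-- Mask of a set of edge indices. -/
def maskS (S : Finset (Fin 10)) : ℕ :=
  ofB (fun k => if h : k < 10 then decide (⟨k, h⟩ ∈ S) else false) 10

lemma testBit_maskS (S : Finset (Fin 10)) (i : Fin 10) :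
    (maskS S).testBit i = decide (i ∈ S) := by
  rw [maskS, testBit_ofB]
  simp

lemma testBit_maskS_ge (S : Finset (Fin 10)) (i : ℕ) (hi : 10 ≤ i) :
    (maskS S).testBit i = false := by
  rw [maskS, testBit_ofB]
  simp [not_lt.mpr hi]

lemma maskS_lt (S : Finset (Fin 10)) : maskS S < 1024 := by
  have : (1024 : ℕ) = 2 ^ 10 := by norm_num
  rw [this]
  apply Nat.lt_pow_two_of_testBit
  intro i hi
  exact testBit_maskS_ge S i hi

lemma maskS_empty : maskS ∅ = 0 := by
  apply Nat.eq_of_testBit_eq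
  intro i
  by_cases hi : i < 10
  · have := testBit_maskS ∅ ⟨i, hi⟩
    simpa using this
  · rw [testBit_maskS_ge _ _ (not_lt.mp hi)]
    simp

lemma maskS_ne_zero {S : Finset (Fin 10)} (hS : S ≠ ∅) : maskS S ≠ 0 := by
  obtain ⟨x, hx⟩ := Finset.nonempty_of_ne_empty hS
  intro h
  have := testBit_maskS S x
  rw [h] at this
  simp [hx] at this

lemma maskS_univ : maskS Finset.univ = 1023 := by decide +kernel

lemma maskS_erase {S : Finset (Fin 10)} {x : Fin 10} (hx : x ∈ S) :
    maskS (S.erase x) = maskS S ^^^ (1 <<< (x : ℕ)) := by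
  apply Nat.eq_of_testBit_eq
  intro i
  rw [Nat.testBit_xor, Nat.one_shiftLeft, Nat.testBit_two_pow]
  by_cases hi : i < 10
  · have h1 := testBit_maskS S ⟨i, hi⟩
    have h2 := testBit_maskS (S.erase x) ⟨i, hi⟩
    simp only at h1 h2
    rw [h1, h2]
    by_cases hxi : (x : ℕ) = i
    · have : (⟨i, hi⟩ : Fin 10) = x := by ext; exact hxi.symm
      rw [this]
      simp [hx, hxi]
    · have : (⟨i, hi⟩ : Fin 10) ≠ x := by
        intro h
        exact hxi (by rw [← h])
      simp [Finset.mem_erase, this, hxi]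
  · rw [testBit_maskS_ge _ _ (not_lt.mp hi), testBit_maskS_ge _ _ (not_lt.mp hi)]
    have : ¬ (x : ℕ) = i := by omega
    simp [this]

lemma rowSum_eq (st tab m k : ℕ) : rowSum st tab m k = ∑ i ∈ Finset.range k,
    (bif m.testBit i && Nat.beq (m &&& succOf st i) 0 then ent tab (m ^^^ (1 <<< i)) else 0) := by
  induction k with
  | zero => simp [rowSum]
  | succ k ih => rw [rowSum, ih, Finset.sum_range_succ]

/-- The relation of a constraint table. -/
def Rel (st : ℕ) (x y : Fin 10) : Prop := (succOf st x).testBit y = true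

instance (st : ℕ) : DecidableRel (Rel st) := fun x y => by unfold Rel; infer_instance

lemma rec_ok (d : ℕ × ℕ × ℕ) (hd : d ∈ treeData) (S : Finset (Fin 10)) (hS : S ≠ ∅) :
    ∑ x ∈ S.filter (fun x => ∀ y ∈ S, ¬ Rel d.2.1 x y), ent d.2.2 (maskS (S.erase x))
      ≤ ent d.2.2 (maskS S) := by
  have h1 := List.all_eq_true.mp tables_ok d hd
  have hm0 := maskS_ne_zero hS
  have hm1 := maskS_lt S
  obtain ⟨m, hm⟩ := Nat.exists_eq_succ_of_ne_zero hm0
  have h2 := (allB_iff _ _).mp h1 m (by omega)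
  rw [Nat.ble_eq] at h2
  have h3 : m + 1 = maskS S := hm.symm
  rw [h3] at h2
  refine le_trans ?_ h2
  rw [rowSum_eq, Finset.sum_range]
  rw [Finset.sum_filter]
  have h4 : ∑ x ∈ S, (if ∀ y ∈ S, ¬ Rel d.2.1 x y then ent d.2.2 (maskS (S.erase x)) else 0)
      = ∑ x : Fin 10, if x ∈ S then
        (if ∀ y ∈ S, ¬ Rel d.2.1 x y then ent d.2.2 (maskS (S.erase x)) else 0) else 0 := by
    rw [Finset.sum_ite_mem]
    simp
  rw [h4]
  refine Finset.sum_le_sum fun x _ => ?_
  by_cases hx : x ∈ S
  · rw [if_pos hx]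
    by_cases hR : ∀ y ∈ S, ¬ Rel d.2.1 x y
    · rw [if_pos hR, maskS_erase hx, testBit_maskS]
      have hz : maskS S &&& succOf d.2.1 x = 0 := by
        apply Nat.eq_of_testBit_eq
        intro i
        rw [Nat.testBit_and, Nat.zero_testBit]
        by_cases hi : i < 10
        · have h5 := testBit_maskS S ⟨i, hi⟩
          simp only at h5
          rw [h5]
          by_cases hiS : (⟨i, hi⟩ : Fin 10) ∈ S
          · have h6 := hR _ hiS
            rw [Rel, Bool.not_eq_true] at h6
            simp only at h6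
            rw [h6]
            simp
          · simp [hiS]
        · rw [testBit_maskS_ge _ _ (not_lt.mp hi)]
          rfl
      rw [hz]
      simp [hx]
    · rw [if_neg hR]
      exact Nat.zero_le _
  · rw [if_neg hx]
    exact Nat.zero_le _

lemma rel_spec (d : ℕ × ℕ × ℕ) (hd : d ∈ treeData) (x y : Fin 10) (h : Rel d.2.1 x y) :
    d.1.testBit x = true ∧ d.1.testBit y = false ∧
      treeB (d.1 ^^^ (1 <<< (x : ℕ)) ^^^ (1 <<< (y : ℕ))) = true := by
  have h1 := List.all_eq_true.mp succ_ok d hd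
  have h2 := (allB_iff _ _).mp ((allB_iff _ _).mp h1 x x.2) y y.2
  rw [Rel] at h
  rw [h] at h2
  simp only [Bool.not_true, Bool.false_or, Bool.and_eq_true, Bool.not_eq_true'] at h2
  exact ⟨h2.1.1, h2.1.2, h2.2⟩

lemma card_le (d : ℕ × ℕ × ℕ) (hd : d ∈ treeData) :
    Nat.card {σ : Equiv.Perm (Fin 10) // ∀ a b, Rel d.2.1 a b → σ.symm a < σ.symm b} ≤ 64320 := by
  have ht := List.all_eq_true.mp tables_top d hd
  rw [Bool.and_eq_true, nbeq, nbeq] at ht
  have h := card_perm_le (Rel d.2.1) (fun a ha => by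
      have := rel_spec d hd a a ha
      rw [this.1] at this
      exact absurd this.2.1 (by decide))
    (fun S => ent d.2.2 (maskS S)) (by rw [maskS_empty]; exact ht.2.ge) (rec_ok d hd)
  rw [maskS_univ, ht.1] at h
  exact h

lemma prob_le (d : ℕ × ℕ × ℕ) (hd : d ∈ treeData) :
    cube (Fin 10) {w | ∀ a b, Rel d.2.1 a b → w a ≤ w b} ≤ (64320 : ℕ) / (Nat.factorial 10 : ENNReal) :=
  measure_le (Rel d.2.1) 64320 (card_le d hd) (fun a ha => by
      have := rel_spec d hd a a ha
      rw [this.1] at this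
      exact absurd this.2.1 (by decide))

end Pool.Agent.R982.Grid24
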