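import Mathlib

/-!
Definitions for the k-width of sequences of random intervals.
-/

namespace Pool.Agent.R982.Kary

open MeasureTheory

/-- `A` is a `k`-ary chain of the strict order `lt`: there is a rooted tree with vertex set `A`,
given by its root `r` and the parent `p x` of every vertex `x ≠ r`, such that every vertex is
reached from the root along child steps, every vertex has at most `k` children, and `lt x y` holds
whenever `y` is a descendant of `x`. -/
def IsKaryChain {U : Type*} (lt : U → U → Prop) (k : ℕ) (A : Set U) : Prop :=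
  ∃ (r : U) (p : U → U), r ∈ A ∧ (∀ x ∈ A, x ≠ r → p x ∈ A) ∧
    (∀ x ∈ A, Relation.ReflTransGen (fun u v => v ∈ A ∧ v ≠ r ∧ p v = u) r x) ∧
    (∀ u ∈ A, {v | v ∈ A ∧ v ≠ r ∧ p v = u}.encard ≤ k) ∧
    ∀ x ∈ A, ∀ y ∈ A, Relation.TransGen (fun u v => v ∈ A ∧ v ≠ r ∧ p v = u) x y → lt x y

/-- The `k`-width: the least number of classes in a partition into `k`-ary chains. -/
noncomputable def kWidth {U : Type*} (lt : U → U → Prop) (k : ℕ) : ℕ :=
  sInf {m | ∃ c : U → Fin m, ∀ i : Fin m, IsKaryChain lt k {x | c x = i}}

/-- Left endpoint of the `i`-th interval. -/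
noncomputable def left {n : ℕ} (ω : Fin n → ℝ × ℝ) (i : Fin n) : ℝ := min (ω i).1 (ω i).2

/-- Right endpoint of the `i`-th interval. -/
noncomputable def right {n : ℕ} (ω : Fin n → ℝ × ℝ) (i : Fin n) : ℝ := max (ω i).1 (ω i).2

/-- The strict order of the sequence of intervals: `i < j` and the `i`-th interval lies wholly to
the left of the `j`-th interval. -/
def prec {n : ℕ} (ω : Fin n → ℝ × ℝ) (i j : Fin n) : Prop := i < j ∧ right ω i ≤ left ω j

/-- The law of a sequence of `n` independent pairs of independent uniform points of `(0,1)`. -/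
noncomputable def seqLaw (n : ℕ) : Measure (Fin n → ℝ × ℝ) :=
  Measure.pi (fun _ : Fin n => ((volume : Measure ℝ).restrict (Set.Ioo 0 1)).prod
    ((volume : Measure ℝ).restrict (Set.Ioo 0 1)))

end Pool.Agent.R982.Kary
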