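import Mathlib
import Pool.Agent.R982.KaryDefs

/-!
Combinatorics of the k-width: lower bound by counting, upper bound by parent assignments, and the
nested matching lemma.
-/

namespace Pool.Agent.R982.Kary

open Finset

lemma kWidth_mem {n : ℕ} (lt : Fin n → Fin n → Prop) (k : ℕ) :
    ∃ c : Fin n → Fin (kWidth lt k), ∀ i, IsKaryChain lt k {x | c x = i} := by
  have hne : {m | ∃ c : Fin n → Fin m, ∀ i : Fin m, IsKaryChain lt k {x | c x = i}}.Nonempty := by
    refine ⟨n, fun x => x, fun i => ⟨i, fun x => x, rfl, ?_, ?_, ?_, ?_⟩⟩
    · intro x hx _; exact hx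
    · intro x hx
      have : x = i := hx
      rw [this]
    · intro u _
      have : {v : Fin n | v ∈ {x : Fin n | x = i} ∧ v ≠ i ∧ v = u} = ∅ := by
        ext v
        simp only [Set.mem_ofPred_eq, Set.mem_empty_iff_false, iff_false]
        rintro ⟨h1, h2, _⟩
        exact h2 h1
      rw [this]
      simp
    · intro x _ y _ h
      exfalso
      obtain ⟨z, _, hz⟩ := (Relation.TransGen.tail'_iff).mp h
      exact hz.2.1 hz.1
  exact Nat.sInf_mem hne

/-- Lower bound: all non-root members of `S` have their parents in `P`. -/
lemma card_le_of_kWidth {n : ℕ} (lt : Fin n → Fin n → Prop) (k : ℕ) (S P : Finset (Fin n))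
    (hSP : ∀ i j, lt i j → j ∈ S → i ∈ P) : S.card ≤ kWidth lt k + k * P.card := by
  classical
  obtain ⟨c, hc⟩ := kWidth_mem lt k
  choose r p hr hp _ hk hlt using hc
  -- roots in S
  have h1 : (S.filter (fun x => x = r (c x))).card ≤ kWidth lt k := by
    have : (S.filter (fun x => x = r (c x))).card ≤ (Finset.univ : Finset (Fin (kWidth lt k))).card := by
      refine Finset.card_le_card_of_injOn c (fun x _ => Finset.mem_univ _) ?_
      intro x hx y hy hxy
      have h2 := (Finset.mem_filter.mp (Finset.mem_coe.mp hx)).2
      have h3 := (Finset.mem_filter.mp (Finset.mem_coe.mp hy)).2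
      rw [h2, h3, hxy]
    simpa using this
  have h2 : (S.filter (fun x => ¬ x = r (c x))).card ≤ k * P.card := by
    refine Finset.card_le_mul_card_image_of_maps_to (f := fun x => p (c x) x) ?_ k ?_
    · intro x hx
      obtain ⟨hxS, hxr⟩ := Finset.mem_filter.mp hx
      have h3 : p (c x) x ∈ {y | c y = c x} := hp (c x) x rfl hxr
      exact hSP _ _ (hlt (c x) _ h3 x rfl (Relation.TransGen.single ⟨rfl, hxr, rfl⟩)) hxS
    · intro v hv
      have h3 : ((S.filter (fun x => ¬ x = r (c x))).filter (fun x => p (c x) x = v) : Set (Fin n))
          ⊆ {x | x ∈ {y | c y = c v} ∧ x ≠ r (c v) ∧ p (c v) x = v} := by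
        intro x hx
        rw [Finset.coe_filter] at hx
        obtain ⟨hx1, hx2⟩ := hx
        obtain ⟨_, hxr⟩ := Finset.mem_filter.mp hx1
        have h4 : c (p (c x) x) = c x := hp (c x) x rfl hxr
        rw [hx2] at h4
        refine ⟨h4.symm, ?_, ?_⟩
        · rw [h4]; exact hxr
        · rw [h4]; exact hx2
      have h4 := (Set.encard_le_encard h3).trans (hk (c v) v rfl)
      rw [Set.encard_coe_eq_coe_finsetCard] at h4
      exact_mod_cast h4
  have h3 := Finset.card_filter_add_card_filter_not (s := S) (fun x => x = r (c x))
  nlinarith

/-- Upper bound: a parent assignment with at most `k` children per vertex gives a partition into as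
many `k`-ary chains as there are vertices without parent. -/
lemma kWidth_le {n : ℕ} (lt : Fin n → Fin n → Prop)
    (htrans : ∀ i j l, lt i j → lt j l → lt i l) (hlt : ∀ i j, lt i j → i < j) (k : ℕ)
    (q : Fin n → Option (Fin n)) (hq : ∀ i j, q j = some i → lt i j)
    (hk : ∀ i, (Finset.univ.filter (fun j => q j = some i)).card ≤ k) :
    kWidth lt k ≤ (Finset.univ.filter (fun j => q j = none)).card := by
  classical
  let f : Fin n → Fin n := fun j => (q j).getD j
  have f_root : ∀ j, q j = none → f j = j := fun j h => by simp [f, h]
  have f_some : ∀ i j, q j = some i → f j = i := fun i j h => by simp [f, h]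
  have f_lt : ∀ j, q j ≠ none → f j < j := by
    intro j h
    obtain ⟨i, hi⟩ := Option.ne_none_iff_exists'.mp h
    rw [f_some i j hi]
    exact hlt _ _ (hq i j hi)
  -- after sufficiently many steps a root is reached
  have hreach : ∀ (t : ℕ) (j : Fin n), (j : ℕ) < t → q (f^[t] j) = none := by
    intro t
    induction t with
    | zero => intro j h; omega
    | succ t ih =>
      intro j h
      rw [Function.iterate_succ_apply]
      by_cases hj : q j = none
      · rw [f_root j hj]
        by_cases h2 : (j : ℕ) < t
        · exact ih j h2
        · have : ∀ s : ℕ, f^[s] j = j := by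
            intro s
            induction s with
            | zero => rfl
            | succ s ihs => rw [Function.iterate_succ_apply, f_root j hj, ihs]
          rw [this t]
          exact hj
      · have h3 : (f j : ℕ) < j := f_lt j hj
        exact ih (f j) (by omega)
  let rt : Fin n → Fin n := f^[n]
  have rt_root : ∀ j, q (rt j) = none := fun j => hreach n j j.2
  have rt_f : ∀ j, rt (f j) = rt j := by
    intro j
    change f^[n] (f j) = f^[n] j
    rw [← Function.iterate_succ_apply, Function.iterate_succ_apply']
    exact f_root _ (rt_root j)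
  have rt_of_root : ∀ j, q j = none → rt j = j := by
    intro j hj
    have : ∀ s : ℕ, f^[s] j = j := by
      intro s
      induction s with
      | zero => rfl
      | succ s ihs => rw [Function.iterate_succ_apply, f_root j hj, ihs]
    exact this n
  set R := Finset.univ.filter (fun j => q j = none) with hR
  let e : {x // x ∈ R} ≃ Fin R.card := R.equivFin
  have hrt : ∀ j, rt j ∈ R := fun j => Finset.mem_filter.mpr ⟨Finset.mem_univ _, rt_root j⟩
  refine Nat.sInf_le ⟨fun j => e ⟨rt j, hrt j⟩, fun i => ?_⟩
  -- the class of index i is the tree of the root e.symm i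
  set r : Fin n := (e.symm i).1 with hr
  have hrR : q r = none := (Finset.mem_filter.mp (e.symm i).2).2
  have hclass : ∀ x, x ∈ {x | e ⟨rt x, hrt x⟩ = i} ↔ rt x = r := by
    intro x
    constructor
    · intro h
      have h1 : (⟨rt x, hrt x⟩ : {x // x ∈ R}) = e.symm i := by
        rw [Equiv.eq_symm_apply]; exact h
      rw [hr, ← h1]
    · intro h
      change e ⟨rt x, hrt x⟩ = i
      rw [← Equiv.eq_symm_apply]
      exact Subtype.ext h
  have hstep : ∀ u v, (v ∈ {x | e ⟨rt x, hrt x⟩ = i} ∧ v ≠ r ∧ f v = u) → q v = some u := by
    rintro u v ⟨h1, h2, h3⟩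
    have hv : q v ≠ none := by
      intro h
      rw [hclass] at h1
      rw [rt_of_root v h] at h1
      exact h2 h1
    obtain ⟨w, hw⟩ := Option.ne_none_iff_exists'.mp hv
    rw [hw, ← h3, f_some w v hw]
  refine ⟨r, f, ?_, ?_, ?_, ?_, ?_⟩
  · rw [hclass]; exact rt_of_root r hrR
  · intro x hx _
    rw [hclass] at hx ⊢
    rw [rt_f, hx]
  · intro x
    induction x using WellFoundedLT.induction with
    | _ x ih =>
      intro hx
      by_cases hxr : x = r
      · rw [hxr]
      · have hx' := (hclass x).mp hx
        have hqx : q x ≠ none := by
          intro h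
          rw [rt_of_root x h] at hx'
          exact hxr hx'
        have hfx : f x ∈ {x | e ⟨rt x, hrt x⟩ = i} := by
          rw [hclass, rt_f, hx']
        exact Relation.ReflTransGen.tail (ih (f x) (f_lt x hqx) hfx) ⟨hx, hxr, rfl⟩
  · intro u _
    have h1 : {v | v ∈ {x | e ⟨rt x, hrt x⟩ = i} ∧ v ≠ r ∧ f v = u}
        ⊆ ((Finset.univ.filter (fun j => q j = some u) : Finset (Fin n)) : Set (Fin n)) := by
      intro v hv
      rw [Finset.coe_filter]
      exact ⟨Finset.mem_univ _, hstep u v hv⟩
    refine (Set.encard_le_encard h1).trans ?_
    rw [Set.encard_coe_eq_coe_finsetCard]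
    exact_mod_cast hk u
  · intro x _ y hy h
    clear hy
    induction h with
    | single h => exact hq _ _ (hstep _ _ h)
    | tail _ h ih => exact htrans _ _ _ ih (hq _ _ (hstep _ _ h))

/-- The nested matching lemma. -/
lemma nested_matching {U : Type*} [DecidableEq U] (a b : U → ℝ) (k : ℕ) (P : Finset U) (D : ℕ) :
    ∀ (m : ℕ) (C : Finset U), C.card = m →
      (∀ c ∈ C, (C.filter (fun j => a j ≤ a c)).card
        ≤ D + k * (P.filter (fun i => b i ≤ a c)).card) →
      ∃ q : U → Option U, (∀ j i, q j = some i → j ∈ C ∧ i ∈ P ∧ b i ≤ a j) ∧
        (∀ i, (C.filter (fun j => q j = some i)).card ≤ k) ∧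
        (C.filter (fun j => q j = none)).card ≤ D := by
  intro m
  induction m with
  | zero =>
    intro C hC _
    rw [Finset.card_eq_zero] at hC
    subst hC
    exact ⟨fun _ => none, by simp, by simp, by simp⟩
  | succ m ih =>
    intro C hC hyp
    have hne : C.Nonempty := by
      rw [← Finset.card_pos, hC]; omega
    obtain ⟨c, hc, hmax⟩ := Finset.exists_max_image C a hne
    have hC' : (C.erase c).card = m := by rw [Finset.card_erase_of_mem hc, hC]; rfl
    obtain ⟨q, hq1, hq2, hq3⟩ := ih (C.erase c) hC' (by
      intro c' hc'
      refine le_trans (Finset.card_le_card ?_) (hyp c' (Finset.mem_of_mem_erase hc'))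
      exact Finset.filter_subset_filter _ (Finset.erase_subset _ _))
    have hqc : q c = none := by
      by_contra h
      obtain ⟨i, hi⟩ := Option.ne_none_iff_exists'.mp h
      exact Finset.notMem_erase c C (hq1 c i hi).1
    have hins : insert c (C.erase c) = C := Finset.insert_erase hc
    by_cases hD : ((C.erase c).filter (fun j => q j = none)).card < D
    · refine ⟨q, fun j i h => ⟨Finset.mem_of_mem_erase (hq1 j i h).1, (hq1 j i h).2⟩, ?_, ?_⟩
      · intro i
        rw [← hins, Finset.filter_insert, if_neg (by rw [hqc]; simp)]
        exact hq2 i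
      · rw [← hins, Finset.filter_insert, if_pos hqc]
        refine (Finset.card_insert_le _ _).trans ?_
        omega
    · -- exactly D unassigned; find a parent with room
      have hassigned : ((C.erase c).filter (fun j => q j ≠ none)).card
          = ∑ i ∈ P.filter (fun i => b i ≤ a c), ((C.erase c).filter (fun j => q j = some i)).card := by
        rw [← Finset.card_biUnion]
        · congr 1
          ext j
          simp only [Finset.mem_filter, Finset.mem_biUnion, ne_eq]
          constructor
          · rintro ⟨h1, h2⟩
            obtain ⟨i, hi⟩ := Option.ne_none_iff_exists'.mp h2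
            have h3 := hq1 j i hi
            exact ⟨i, ⟨h3.2.1, h3.2.2.trans (hmax j (Finset.mem_of_mem_erase h1))⟩, h1, hi⟩
          · rintro ⟨i, _, h1, h2⟩
            exact ⟨h1, by rw [h2]; simp⟩
        · intro i _ i' _ hne
          rw [Function.onFun, Finset.disjoint_left]
          intro j hj hj'
          have h1 := (Finset.mem_filter.mp hj).2
          have h2 := (Finset.mem_filter.mp hj').2
          rw [h1] at h2
          exact hne (Option.some.inj h2)
      have hyp' := hyp c hc
      have hall : C.filter (fun j => a j ≤ a c) = C := Finset.filter_true_of_mem hmax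
      rw [hall] at hyp'
      have hsplit := Finset.card_filter_add_card_filter_not (s := C.erase c) (fun j => q j = none)
      have hlt : ∑ i ∈ P.filter (fun i => b i ≤ a c),
          ((C.erase c).filter (fun j => q j = some i)).card
          < ∑ i ∈ P.filter (fun i => b i ≤ a c), k := by
        rw [← hassigned, Finset.sum_const, smul_eq_mul, mul_comm]
        have : ((C.erase c).filter (fun j => q j ≠ none)).card
          = ((C.erase c).filter (fun j => ¬ q j = none)).card := rfl
        rw [this]
        omega
      obtain ⟨i, hi, hik⟩ := Finset.exists_lt_of_sum_lt hlt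
      obtain ⟨hiP, hib⟩ := Finset.mem_filter.mp hi
      refine ⟨fun j => if j = c then some i else q j, ?_, ?_, ?_⟩
      · intro j i' h
        by_cases hj : j = c
        · subst hj
          simp only [if_true] at h
          rw [← Option.some.inj h]
          exact ⟨hc, hiP, hib⟩
        · simp only [if_neg hj] at h
          exact ⟨Finset.mem_of_mem_erase (hq1 j i' h).1, (hq1 j i' h).2⟩
      · intro i'
        rw [← hins, Finset.filter_insert]
        have hsame : (C.erase c).filter (fun j => (if j = c then some i else q j) = some i')
            = (C.erase c).filter (fun j => q j = some i') := by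
          refine Finset.filter_congr fun j hj => ?_
          rw [if_neg (Finset.ne_of_mem_erase hj)]
        rw [hsame]
        by_cases hii : i = i'
        · subst hii
          simp only [if_true]
          refine (Finset.card_insert_le _ _).trans ?_
          omega
        · rw [if_neg]
          · exact hq2 i'
          · simp only [if_true]
            exact fun h => hii (Option.some.inj h)
      · rw [← hins, Finset.filter_insert]
        have hsame : (C.erase c).filter (fun j => (if j = c then some i else q j) = none)
            = (C.erase c).filter (fun j => q j = none) := by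
          refine Finset.filter_congr fun j hj => ?_
          rw [if_neg (Finset.ne_of_mem_erase hj)]
        rw [hsame, if_neg (by simp)]
        exact hq3

end Pool.Agent.R982.Kary
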