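import Mathlib
import Pool.Agent.R982.KaryComb

/-!
Block matching: deterministic upper bound for the k-width.
-/

namespace Pool.Agent.R982.Kary

open Finset

/-- Indices in the block `t` of length `m`. -/
def block (n m t : ℕ) : Finset (Fin n) := Finset.univ.filter (fun j : Fin n => (j : ℕ) / m = t)

lemma mem_block {n m t : ℕ} (j : Fin n) : j ∈ block n m t ↔ (j : ℕ) / m = t := by
  simp [block]

lemma card_block_le (n m t : ℕ) (hm : 0 < m) : (block n m t).card ≤ m := by
  have h1 : (block n m t).card ≤ (Finset.Ico (t * m) ((t + 1) * m)).card := by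
    refine Finset.card_le_card_of_injOn (fun j : Fin n => (j : ℕ)) ?_ ?_
    · intro j hj
      have h2 : (j : ℕ) / m = t := (mem_block j).mp hj
      simp only [Finset.coe_Ico, Set.mem_Ico]
      constructor
      · rw [← h2]; exact Nat.div_mul_le_self _ _
      · rw [← h2]; exact Nat.lt_succ_mul_of_div_lt' hm
    · intro j _ j' _ h
      exact Fin.ext h
  rw [Nat.card_Ico] at h1
  have : (t + 1) * m - t * m = m := by
    rw [← Nat.sub_mul]; simp
  omega
where
  Nat.lt_succ_mul_of_div_lt' {a m : ℕ} (hm : 0 < m) : a < (a / m + 1) * m := by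
    rw [mul_comm]
    exact Nat.lt_mul_div_succ a hm

lemma card_block_eq (n m t : ℕ) (hm : 0 < m) (h : (t + 1) * m ≤ n) : (block n m t).card = m := by
  refine le_antisymm (card_block_le n m t hm) ?_
  have h1 : (Finset.Ico (t * m) ((t + 1) * m)).card ≤ (block n m t).card := by
    have hlt : ∀ x ∈ Finset.Ico (t * m) ((t + 1) * m), x < n := fun x hx =>
      lt_of_lt_of_le (Finset.mem_Ico.mp hx).2 h
    refine Finset.card_le_card_of_injOn (fun x : ℕ => if hx : x < n then (⟨x, hx⟩ : Fin n)
      else ⟨0, by nlinarith⟩) ?_ ?_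
    · intro x hx
      have hx' := Finset.mem_Ico.mp (Finset.mem_coe.mp hx)
      simp only [dif_pos (hlt x hx)]
      rw [Finset.mem_coe, mem_block]
      simp only
      apply Nat.div_eq_of_lt_le
      · exact hx'.1
      · exact hx'.2
    · intro x hx y hy hxy
      simp only [dif_pos (hlt x hx), dif_pos (hlt y hy)] at hxy
      exact congrArg Fin.val hxy
  rw [Nat.card_Ico] at h1
  have : (t + 1) * m - t * m = m := by
    rw [← Nat.sub_mul]; simp
  omega

lemma kWidth_le_blocks {n : ℕ} (ω : Fin n → ℝ × ℝ) (hω : ∀ i, left ω i ≤ right ω i) (k m : ℕ)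
    (hm : 0 < m) (D : ℕ → ℕ)
    (hD : ∀ s < n / m, ∀ c ∈ block n m (s + 1),
      ((block n m (s + 1)).filter (fun j => left ω j ≤ left ω c)).card
        ≤ D s + k * ((block n m s).filter (fun i => right ω i ≤ left ω c)).card) :
    kWidth (prec ω) k ≤ m + ∑ s ∈ Finset.range (n / m), D s := by
  classical
  have hD' : ∀ s, ∀ c ∈ block n m (s + 1),
      ((block n m (s + 1)).filter (fun j => left ω j ≤ left ω c)).card
        ≤ D s + k * ((block n m s).filter (fun i => right ω i ≤ left ω c)).card := by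
    intro s c hc
    by_cases hs : s < n / m
    · exact hD s hs c hc
    · exfalso
      have h1 := (mem_block c).mp hc
      have h2 : (c : ℕ) / m ≤ n / m := Nat.div_le_div_right c.2.le
      omega
  have hQ := fun s => nested_matching (left ω) (right ω) k (block n m s) (D s)
    (block n m (s + 1)).card (block n m (s + 1)) rfl (hD' s)
  choose Q hQ1 hQ2 hQ3 using hQ
  let q : Fin n → Option (Fin n) := fun j => if 1 ≤ (j : ℕ) / m then Q ((j : ℕ) / m - 1) j else none
  have hqs : ∀ i j, q j = some i → j ∈ block n m ((i : ℕ) / m + 1) ∧ Q ((i : ℕ) / m) j = some i ∧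
      right ω i ≤ left ω j := by
    intro i j h
    by_cases h1 : 1 ≤ (j : ℕ) / m
    · simp only [q, if_pos h1] at h
      obtain ⟨h2, h3, h4⟩ := hQ1 _ j i h
      have h5 : (i : ℕ) / m = (j : ℕ) / m - 1 := (mem_block i).mp h3
      rw [h5]
      exact ⟨h2, h, h4⟩
    · simp only [q, if_neg h1] at h
      exact absurd h (by simp)
  refine (kWidth_le (prec ω) ?_ ?_ k q ?_ ?_).trans ?_
  · rintro i j l ⟨h1, h2⟩ ⟨h3, h4⟩
    exact ⟨h1.trans h3, h2.trans ((hω j).trans h4)⟩
  · rintro i j ⟨h1, _⟩
    exact h1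
  · intro i j h
    obtain ⟨h1, _, h3⟩ := hqs i j h
    refine ⟨?_, h3⟩
    have h4 := (mem_block j).mp h1
    rw [Fin.lt_def]
    by_contra hcon
    have : (j : ℕ) / m ≤ (i : ℕ) / m := Nat.div_le_div_right (not_lt.mp hcon)
    omega
  · intro i
    refine le_trans (Finset.card_le_card ?_) (hQ2 ((i : ℕ) / m) i)
    intro j hj
    obtain ⟨h1, h2, _⟩ := hqs i j (Finset.mem_filter.mp hj).2
    exact Finset.mem_filter.mpr ⟨h1, h2⟩
  · have hsub : Finset.univ.filter (fun j => q j = none) ⊆ block n m 0 ∪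
        (Finset.range (n / m)).biUnion
          (fun s => (block n m (s + 1)).filter (fun j => Q s j = none)) := by
      intro j hj
      have hj' := (Finset.mem_filter.mp hj).2
      rw [Finset.mem_union]
      by_cases h1 : 1 ≤ (j : ℕ) / m
      · right
        simp only [q, if_pos h1] at hj'
        rw [Finset.mem_biUnion]
        refine ⟨(j : ℕ) / m - 1, ?_, ?_⟩
        · rw [Finset.mem_range]
          have h2 : (j : ℕ) / m ≤ n / m := Nat.div_le_div_right j.2.le
          omega
        · rw [Finset.mem_filter, mem_block]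
          exact ⟨by omega, hj'⟩
      · left
        rw [mem_block]
        exact Nat.lt_one_iff.mp (not_le.mp h1)
    refine (Finset.card_le_card hsub).trans ((Finset.card_union_le _ _).trans ?_)
    refine add_le_add (card_block_le n m 0 hm) ?_
    exact Finset.card_biUnion_le.trans (Finset.sum_le_sum fun s _ => hQ3 s)

/-- Number of left endpoints of the block `t` that are at most `x`. -/
noncomputable def cntL {n : ℕ} (ω : Fin n → ℝ × ℝ) (m t : ℕ) (x : ℝ) : ℕ :=
  ((block n m t).filter (fun j => left ω j ≤ x)).card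

/-- Number of right endpoints of the block `t` that are at most `x`. -/
noncomputable def cntR {n : ℕ} (ω : Fin n → ℝ × ℝ) (m t : ℕ) (x : ℝ) : ℕ :=
  ((block n m t).filter (fun j => right ω j ≤ x)).card

lemma kWidth_le_grid {n : ℕ} (ω : Fin n → ℝ × ℝ) (hω : ∀ i, left ω i ≤ right ω i)
    (h0 : ∀ i, 0 ≤ left ω i) (h1 : ∀ i, left ω i < 1) (k m M : ℕ)
    (hm : 0 < m) (hM : 0 < M) (X : ℕ → ℝ) (hX0 : ∀ s, 0 ≤ X s)
    (hX : ∀ s < n / m, ∀ l < M, (cntL ω m (s + 1) ((l + 1 : ℝ) / M) : ℝ)
      - k * cntR ω m s ((l : ℝ) / M) ≤ X s) :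
    (kWidth (prec ω) k : ℝ) ≤ m + ∑ s ∈ Finset.range (n / m), X s := by
  classical
  let D : ℕ → ℕ := fun s => (Finset.range M).sup (fun l =>
    cntL ω m (s + 1) ((l + 1 : ℝ) / M) - k * cntR ω m s ((l : ℝ) / M))
  have hMr : (0 : ℝ) < M := by exact_mod_cast hM
  have hD : ∀ s < n / m, ∀ c ∈ block n m (s + 1),
      ((block n m (s + 1)).filter (fun j => left ω j ≤ left ω c)).card
        ≤ D s + k * ((block n m s).filter (fun i => right ω i ≤ left ω c)).card := by
    intro s _ c _
    set l := ⌊(M : ℝ) * left ω c⌋₊ with hl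
    have hl1 : (l : ℝ) ≤ M * left ω c := Nat.floor_le (mul_nonneg hMr.le (h0 c))
    have hl2 : (M : ℝ) * left ω c < l + 1 := Nat.lt_floor_add_one _
    have hlM : l < M := by
      have : (l : ℝ) < M := lt_of_le_of_lt hl1 (by nlinarith [h1 c])
      exact_mod_cast this
    have h2 : cntL ω m (s + 1) ((l + 1 : ℝ) / M) - k * cntR ω m s ((l : ℝ) / M) ≤ D s :=
      Finset.le_sup (f := fun l : ℕ => cntL ω m (s + 1) ((l + 1 : ℝ) / M) -
        k * cntR ω m s ((l : ℝ) / M)) (Finset.mem_range.mpr hlM)
    have h3 : ((block n m (s + 1)).filter (fun j => left ω j ≤ left ω c)).card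
        ≤ cntL ω m (s + 1) ((l + 1 : ℝ) / M) := by
      refine Finset.card_le_card (Finset.monotone_filter_right _ ?_)
      intro j _ hj
      refine le_trans hj ?_
      rw [le_div_iff₀ hMr]
      linarith
    have h4 : cntR ω m s ((l : ℝ) / M)
        ≤ ((block n m s).filter (fun i => right ω i ≤ left ω c)).card := by
      refine Finset.card_le_card (Finset.monotone_filter_right _ ?_)
      intro j _ hj
      refine le_trans hj ?_
      rw [div_le_iff₀ hMr]
      linarith
    have h5 : k * cntR ω m s ((l : ℝ) / M)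
        ≤ k * ((block n m s).filter (fun i => right ω i ≤ left ω c)).card :=
      Nat.mul_le_mul_left k h4
    omega
  have h2 := kWidth_le_blocks ω hω k m hm D hD
  have h3 : ((m + ∑ s ∈ Finset.range (n / m), D s : ℕ) : ℝ)
      ≤ m + ∑ s ∈ Finset.range (n / m), X s := by
    push_cast
    gcongr with s hs
    obtain ⟨l, hl, hl'⟩ := Finset.exists_mem_eq_sup (Finset.range M)
      (Finset.nonempty_range_iff.mpr hM.ne') (fun l : ℕ =>
        cntL ω m (s + 1) ((l + 1 : ℝ) / M) - k * cntR ω m s ((l : ℝ) / M))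
    have hl2 : D s = cntL ω m (s + 1) ((l + 1 : ℝ) / M) - k * cntR ω m s ((l : ℝ) / M) := hl'
    rw [hl2]
    have h4 := hX s (Finset.mem_range.mp hs) l (Finset.mem_range.mp hl)
    by_cases hle : k * cntR ω m s ((l : ℝ) / M) ≤ cntL ω m (s + 1) ((l + 1 : ℝ) / M)
    · rw [Nat.cast_sub hle]
      push_cast
      exact h4
    · have : cntL ω m (s + 1) ((l + 1 : ℝ) / M) - k * cntR ω m s ((l : ℝ) / M) = 0 := by omega
      rw [this]
      simpa using hX0 s
  have h4 : (kWidth (prec ω) k : ℝ) ≤ ((m + ∑ s ∈ Finset.range (n / m), D s : ℕ) : ℝ) := by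
    exact_mod_cast h2
  exact h4.trans h3

end Pool.Agent.R982.Kary
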