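import Mathlib
import Pool.Agent.R982.KaryBlocks

/-!
Probability estimates for sequences of random intervals.
-/

namespace Pool.Agent.R982.Kary

open MeasureTheory ProbabilityTheory

/-- Uniform law on `(0,1)`. -/
noncomputable abbrev unif : Measure ℝ := (volume : Measure ℝ).restrict (Set.Ioo 0 1)

instance instUnif : IsProbabilityMeasure unif := by
  constructor
  simp [unif]

/-- Law of a pair of independent uniform points. -/
noncomputable abbrev pairLaw : Measure (ℝ × ℝ) := unif.prod unif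

lemma seqLaw_eq (n : ℕ) : seqLaw n = Measure.pi (fun _ : Fin n => pairLaw) := rfl

instance (n : ℕ) : IsProbabilityMeasure (seqLaw n) := by
  rw [seqLaw_eq]; infer_instance

lemma unif_eq : unif = (volume : Measure ℝ).restrict (Set.Ioc 0 1) :=
  Measure.restrict_congr_set Ioo_ae_eq_Ioc

lemma unif_Iic {t : ℝ} (h0 : 0 ≤ t) (h1 : t ≤ 1) : unif (Set.Iic t) = ENNReal.ofReal t := by
  rw [unif_eq, Measure.restrict_apply measurableSet_Iic]
  have : Set.Iic t ∩ Set.Ioc 0 1 = Set.Ioc 0 t := by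
    ext x
    simp only [Set.mem_inter_iff, Set.mem_Iic, Set.mem_Ioc]
    constructor
    · rintro ⟨h2, h3, _⟩; exact ⟨h3, h2⟩
    · rintro ⟨h2, h3⟩; exact ⟨h3, h2, h3.trans h1⟩
  rw [this, Real.volume_Ioc, sub_zero]

lemma unif_Ioi {t : ℝ} (h0 : 0 ≤ t) (h1 : t ≤ 1) : unif (Set.Ioi t) = ENNReal.ofReal (1 - t) := by
  rw [unif_eq, Measure.restrict_apply measurableSet_Ioi]
  have : Set.Ioi t ∩ Set.Ioc 0 1 = Set.Ioc t 1 := by
    ext x
    simp only [Set.mem_inter_iff, Set.mem_Ioi, Set.mem_Ioc]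
    constructor
    · rintro ⟨h2, _, h3⟩; exact ⟨h2, h3⟩
    · rintro ⟨h2, h3⟩; exact ⟨h2, h0.trans_lt h2, h3⟩
  rw [this, Real.volume_Ioc]

/-- Indicator of `min ≤ t`. -/
noncomputable def IL (t : ℝ) (x : ℝ × ℝ) : ℝ := if min x.1 x.2 ≤ t then 1 else 0

/-- Indicator of `max ≤ t`. -/
noncomputable def IR (t : ℝ) (x : ℝ × ℝ) : ℝ := if max x.1 x.2 ≤ t then 1 else 0

lemma measurable_IL (t : ℝ) : Measurable (IL t) := by
  unfold IL
  refine Measurable.ite ?_ measurable_const measurable_const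
  exact measurableSet_le (measurable_fst.min measurable_snd) measurable_const

lemma measurable_IR (t : ℝ) : Measurable (IR t) := by
  unfold IR
  refine Measurable.ite ?_ measurable_const measurable_const
  exact measurableSet_le (measurable_fst.max measurable_snd) measurable_const

lemma IL_mem (t : ℝ) (x : ℝ × ℝ) : 0 ≤ IL t x ∧ IL t x ≤ 1 := by
  unfold IL; split_ifs <;> norm_num

lemma IR_mem (t : ℝ) (x : ℝ × ℝ) : 0 ≤ IR t x ∧ IR t x ≤ 1 := by
  unfold IR; split_ifs <;> norm_num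

lemma int_IR {t : ℝ} (h0 : 0 ≤ t) (h1 : t ≤ 1) : ∫ x, IR t x ∂pairLaw = t ^ 2 := by
  have h2 : IR t = Set.indicator (Set.Iic t ×ˢ Set.Iic t) (fun _ => (1 : ℝ)) := by
    funext x
    by_cases h : max x.1 x.2 ≤ t
    · rw [IR, if_pos h, Set.indicator_of_mem]
      exact ⟨(le_max_left _ _).trans h, (le_max_right _ _).trans h⟩
    · rw [IR, if_neg h, Set.indicator_of_notMem]
      rintro ⟨h3, h4⟩
      exact h (max_le h3 h4)
  rw [h2, integral_indicator (measurableSet_Iic.prod measurableSet_Iic), setIntegral_const,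
    measureReal_def, Measure.prod_prod, unif_Iic h0 h1]
  rw [← ENNReal.ofReal_mul h0, ENNReal.toReal_ofReal (mul_nonneg h0 h0)]
  simp [sq]

lemma int_IL {t : ℝ} (h0 : 0 ≤ t) (h1 : t ≤ 1) : ∫ x, IL t x ∂pairLaw = 2 * t - t ^ 2 := by
  have h2 : ∀ x, IL t x = 1 - Set.indicator (Set.Ioi t ×ˢ Set.Ioi t) (fun _ => (1 : ℝ)) x := by
    intro x
    by_cases h : min x.1 x.2 ≤ t
    · rw [IL, if_pos h, Set.indicator_of_notMem]
      · norm_num
      · rintro ⟨h3, h4⟩
        exact absurd h (not_le.mpr (lt_min h3 h4))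
    · rw [IL, if_neg h, Set.indicator_of_mem]
      · norm_num
      · have := lt_min_iff.mp (not_le.mp h)
        exact ⟨this.1, this.2⟩
  simp only [h2]
  rw [integral_sub (integrable_const _) ((integrable_const _).indicator
    (measurableSet_Ioi.prod measurableSet_Ioi)),
    integral_indicator (measurableSet_Ioi.prod measurableSet_Ioi), setIntegral_const,
    measureReal_def, Measure.prod_prod, unif_Ioi h0 h1]
  have h3 : 0 ≤ 1 - t := by linarith
  rw [← ENNReal.ofReal_mul h3, ENNReal.toReal_ofReal (mul_nonneg h3 h3)]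
  simp
  ring

lemma cntL_eq {n : ℕ} (ω : Fin n → ℝ × ℝ) (m t : ℕ) (x : ℝ) :
    (cntL ω m t x : ℝ) = ∑ i : Fin n, if i ∈ block n m t then IL x (ω i) else 0 := by
  classical
  rw [cntL, Finset.card_filter, Finset.sum_ite_mem, Finset.univ_inter]
  push_cast
  rfl

lemma cntR_eq {n : ℕ} (ω : Fin n → ℝ × ℝ) (m t : ℕ) (x : ℝ) :
    (cntR ω m t x : ℝ) = ∑ i : Fin n, if i ∈ block n m t then IR x (ω i) else 0 := by
  classical
  rw [cntR, Finset.card_filter, Finset.sum_ite_mem, Finset.univ_inter]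
  push_cast
  rfl

/-- Centred summands. -/
noncomputable def gfun (n m s k : ℕ) (u v : ℝ) (i : Fin n) (x : ℝ × ℝ) : ℝ :=
  (if i ∈ block n m (s + 1) then IL u x - (2 * u - u ^ 2) else 0)
    - k * (if i ∈ block n m s then IR v x - v ^ 2 else 0)

lemma measurable_gfun (n m s k : ℕ) (u v : ℝ) (i : Fin n) : Measurable (gfun n m s k u v i) := by
  unfold gfun
  split_ifs
  · exact ((measurable_IL u).sub_const _).sub (((measurable_IR v).sub_const _).const_mul _)
  · exact ((measurable_IL u).sub_const _).sub (measurable_const.const_mul _)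
  · exact measurable_const.sub (((measurable_IR v).sub_const _).const_mul _)
  · exact measurable_const

lemma gfun_sq_le (n m s k : ℕ) {u v : ℝ} (hu0 : 0 ≤ u) (hu1 : u ≤ 1) (hv0 : 0 ≤ v) (hv1 : v ≤ 1)
    (i : Fin n) (x : ℝ × ℝ) : gfun n m s k u v i x ^ 2 ≤
      (if i ∈ block n m (s + 1) then 1 else 0) + (if i ∈ block n m s then (k : ℝ) ^ 2 else 0) := by
  unfold gfun
  have hL := IL_mem u x
  have hR := IR_mem v x
  have h1 : (IL u x - (2 * u - u ^ 2)) ^ 2 ≤ 1 := by
    have : 0 ≤ 2 * u - u ^ 2 := by nlinarith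
    have : 2 * u - u ^ 2 ≤ 1 := by nlinarith [sq_nonneg (u - 1)]
    rw [sq_le_one_iff_abs_le_one, abs_le]
    constructor <;> linarith
  have h2 : (IR v x - v ^ 2) ^ 2 ≤ 1 := by
    have : v ^ 2 ≤ 1 := by nlinarith
    rw [sq_le_one_iff_abs_le_one, abs_le]
    constructor <;> nlinarith [sq_nonneg v]
  have hk : (0 : ℝ) ≤ (k : ℝ) ^ 2 := sq_nonneg _
  by_cases ha : i ∈ block n m (s + 1)
  · have hb : i ∉ block n m s := by
      rw [mem_block] at ha ⊢
      omega
    rw [if_pos ha, if_neg hb, if_pos ha, if_neg hb]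
    simpa using h1
  · by_cases hb : i ∈ block n m s
    · rw [if_neg ha, if_pos hb, if_neg ha, if_pos hb]
      nlinarith
    · rw [if_neg ha, if_neg hb, if_neg ha, if_neg hb]
      simp

/-- The centred sum. -/
noncomputable def Z (n m s k : ℕ) (u v : ℝ) (ω : Fin n → ℝ × ℝ) : ℝ :=
  ∑ i : Fin n, gfun n m s k u v i (ω i)

lemma cnt_eq {n : ℕ} (ω : Fin n → ℝ × ℝ) (m s k : ℕ) (u v : ℝ) :
    (cntL ω m (s + 1) u : ℝ) - k * cntR ω m s v
      = (block n m (s + 1)).card * (2 * u - u ^ 2) - k * ((block n m s).card * v ^ 2)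
        + Z n m s k u v ω := by
  classical
  rw [cntL_eq, cntR_eq, Z]
  have h1 : ((block n m (s + 1)).card : ℝ) * (2 * u - u ^ 2)
      = ∑ i : Fin n, if i ∈ block n m (s + 1) then (2 * u - u ^ 2) else 0 := by
    rw [Finset.sum_ite_mem, Finset.univ_inter, Finset.sum_const, nsmul_eq_mul]
  have h2 : ((block n m s).card : ℝ) * v ^ 2
      = ∑ i : Fin n, if i ∈ block n m s then v ^ 2 else 0 := by
    rw [Finset.sum_ite_mem, Finset.univ_inter, Finset.sum_const, nsmul_eq_mul]
  rw [h1, h2, Finset.mul_sum, Finset.mul_sum, ← Finset.sum_sub_distrib, ← Finset.sum_sub_distrib,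
    ← Finset.sum_add_distrib]
  refine Finset.sum_congr rfl fun i _ => ?_
  unfold gfun
  split_ifs <;> ring

lemma memLp_gfun (n m s k : ℕ) {u v : ℝ} (hu0 : 0 ≤ u) (hu1 : u ≤ 1) (hv0 : 0 ≤ v) (hv1 : v ≤ 1)
    (i : Fin n) : MemLp (gfun n m s k u v i) 2 pairLaw := by
  refine MemLp.of_bound (measurable_gfun n m s k u v i).aestronglyMeasurable (1 + (k : ℝ) ^ 2)
    (Filter.Eventually.of_forall fun x => ?_)
  rw [Real.norm_eq_abs]
  have h1 := gfun_sq_le n m s k hu0 hu1 hv0 hv1 i x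
  have h2 : gfun n m s k u v i x ^ 2 ≤ (1 + (k : ℝ) ^ 2) ^ 2 := by
    have hk : (0 : ℝ) ≤ (k : ℝ) ^ 2 := sq_nonneg _
    have h3 : (if i ∈ block n m (s + 1) then (1 : ℝ) else 0)
        + (if i ∈ block n m s then (k : ℝ) ^ 2 else 0) ≤ 1 + (k : ℝ) ^ 2 := by
      split_ifs <;> nlinarith
    nlinarith
  exact abs_le_of_sq_le_sq' h2 (by positivity) |> fun h => abs_le.mpr h

lemma int_gfun (n m s k : ℕ) {u v : ℝ} (hu0 : 0 ≤ u) (hu1 : u ≤ 1) (hv0 : 0 ≤ v) (hv1 : v ≤ 1)
    (i : Fin n) : ∫ x, gfun n m s k u v i x ∂pairLaw = 0 := by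
  have iL : Integrable (IL u) pairLaw := by
    refine Integrable.of_bound (measurable_IL u).aestronglyMeasurable 1
      (Filter.Eventually.of_forall fun x => ?_)
    rw [Real.norm_eq_abs, abs_le]
    constructor <;> linarith [IL_mem u x]
  have iR : Integrable (IR v) pairLaw := by
    refine Integrable.of_bound (measurable_IR v).aestronglyMeasurable 1
      (Filter.Eventually.of_forall fun x => ?_)
    rw [Real.norm_eq_abs, abs_le]
    constructor <;> linarith [IR_mem v x]
  have eL : ∫ x, (IL u x - (2 * u - u ^ 2)) ∂pairLaw = 0 := by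
    rw [integral_sub iL (integrable_const _), int_IL hu0 hu1]
    simp
  have eR : ∫ x, (k : ℝ) * (IR v x - v ^ 2) ∂pairLaw = 0 := by
    rw [integral_const_mul, integral_sub iR (integrable_const _), int_IR hv0 hv1]
    simp
  have i1 : Integrable (fun x => IL u x - (2 * u - u ^ 2)) pairLaw := iL.sub (integrable_const _)
  have i2 : Integrable (fun x => (k : ℝ) * (IR v x - v ^ 2)) pairLaw :=
    (iR.sub (integrable_const _)).const_mul _
  unfold gfun
  split_ifs
  · rw [integral_sub i1 i2, eL, eR, sub_zero]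
  · simpa using eL
  · simp only [zero_sub]
    rw [integral_neg, eR, neg_zero]
  · simp

lemma integral_abs_Z_le (n m s k : ℕ) (hm : 0 < m) {u v : ℝ} (hu0 : 0 ≤ u) (hu1 : u ≤ 1)
    (hv0 : 0 ≤ v) (hv1 : v ≤ 1) :
    Integrable (fun ω => |Z n m s k u v ω|) (seqLaw n) ∧
      ∫ ω, |Z n m s k u v ω| ∂(seqLaw n) ≤ (1 + (k : ℝ) ^ 2) * Real.sqrt m := by
  classical
  have hmem : ∀ i, MemLp (gfun n m s k u v i) 2 pairLaw := fun i =>
    memLp_gfun n m s k hu0 hu1 hv0 hv1 i
  have hZfun : Z n m s k u v = ∑ i, fun ω : Fin n → ℝ × ℝ => gfun n m s k u v i (ω i) := by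
    funext ω
    rw [Z, Finset.sum_apply]
  have hvar := variance_sum_pi (μ := fun _ : Fin n => pairLaw) (X := gfun n m s k u v) hmem
  rw [← hZfun, ← seqLaw_eq] at hvar
  have hcomp : ∀ i : Fin n, MemLp (fun ω : Fin n → ℝ × ℝ => gfun n m s k u v i (ω i)) 2 (seqLaw n) :=
    fun i => (hmem i).comp_measurePreserving (measurePreserving_eval (fun _ : Fin n => pairLaw) i)
  have hZmem : MemLp (Z n m s k u v) 2 (seqLaw n) := by
    rw [hZfun]
    exact memLp_finsetSum' _ fun i _ => hcomp i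
  have hmean : ∫ ω, Z n m s k u v ω ∂(seqLaw n) = 0 := by
    unfold Z
    rw [integral_finsetSum _ (fun i _ => (hcomp i).integrable (by norm_num))]
    refine Finset.sum_eq_zero fun i _ => ?_
    rw [seqLaw_eq, integral_comp_eval (μ := fun _ : Fin n => pairLaw) (i := i)
      (f := gfun n m s k u v i) (measurable_gfun n m s k u v i).aestronglyMeasurable]
    exact int_gfun n m s k hu0 hu1 hv0 hv1 i
  have hsq : ∫ ω, Z n m s k u v ω ^ 2 ∂(seqLaw n) ≤ (1 + (k : ℝ) ^ 2) * m := by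
    have h1 : Var[Z n m s k u v; seqLaw n] = ∫ ω, Z n m s k u v ω ^ 2 ∂(seqLaw n) :=
      variance_of_integral_eq_zero hZmem.aestronglyMeasurable.aemeasurable hmean
    rw [← h1, hvar]
    have h2 : ∀ i : Fin n, Var[gfun n m s k u v i; pairLaw]
        ≤ (if i ∈ block n m (s + 1) then 1 else 0) + (if i ∈ block n m s then (k : ℝ) ^ 2 else 0) := by
      intro i
      refine (variance_le_expectation_sq (hmem i).aestronglyMeasurable).trans ?_
      have h3 : ∫ x, (gfun n m s k u v i ^ 2) x ∂pairLaw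
          ≤ ∫ _x, ((if i ∈ block n m (s + 1) then 1 else 0)
            + (if i ∈ block n m s then (k : ℝ) ^ 2 else 0)) ∂pairLaw := by
        refine integral_mono (hmem i).integrable_sq (integrable_const _) fun x => ?_
        exact gfun_sq_le n m s k hu0 hu1 hv0 hv1 i x
      refine h3.trans (le_of_eq ?_)
      simp
    refine (Finset.sum_le_sum fun i _ => h2 i).trans ?_
    rw [Finset.sum_add_distrib, Finset.sum_ite_mem, Finset.sum_ite_mem, Finset.univ_inter,
      Finset.univ_inter, Finset.sum_const, Finset.sum_const, nsmul_eq_mul, nsmul_eq_mul]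
    have h3 : ((block n m (s + 1)).card : ℝ) ≤ m := by exact_mod_cast card_block_le n m (s + 1) hm
    have h4 : ((block n m s).card : ℝ) ≤ m := by exact_mod_cast card_block_le n m s hm
    nlinarith [sq_nonneg (k : ℝ)]
  have hint : Integrable (fun ω => |Z n m s k u v ω|) (seqLaw n) :=
    (hZmem.integrable (by norm_num)).abs
  refine ⟨hint, ?_⟩
  have hmr : (0 : ℝ) < m := by exact_mod_cast hm
  set r := Real.sqrt m with hr
  have hr0 : 0 < r := Real.sqrt_pos.mpr hmr
  have hr2 : r ^ 2 = m := Real.sq_sqrt hmr.le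
  have hpt : ∀ ω, |Z n m s k u v ω| ≤ Z n m s k u v ω ^ 2 / (2 * r) + r / 2 := by
    intro ω
    have h1 : 0 ≤ (|Z n m s k u v ω| - r) ^ 2 := sq_nonneg _
    rw [sub_sq, sq_abs] at h1
    rw [div_add_div _ _ (by positivity) (by positivity), le_div_iff₀ (by positivity)]
    nlinarith
  have h1 : ∫ ω, |Z n m s k u v ω| ∂(seqLaw n)
      ≤ ∫ ω, (Z n m s k u v ω ^ 2 / (2 * r) + r / 2) ∂(seqLaw n) :=
    integral_mono hint ((hZmem.integrable_sq.div_const _).add (integrable_const _)) hpt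
  refine h1.trans ?_
  rw [integral_add (hZmem.integrable_sq.div_const _) (integrable_const _), integral_div]
  simp only [integral_const, probReal_univ, smul_eq_mul, one_mul]
  have h2 : (∫ ω, Z n m s k u v ω ^ 2 ∂(seqLaw n)) / (2 * r)
      ≤ (1 + (k : ℝ) ^ 2) * m / (2 * r) := by gcongr
  have h3 : (1 + (k : ℝ) ^ 2) * m / (2 * r) = (1 + (k : ℝ) ^ 2) * r / 2 := by
    rw [← hr2]; field_simp
  rw [h3] at h2
  nlinarith [sq_nonneg (k : ℝ), mul_nonneg (sq_nonneg (k : ℝ)) hr0.le]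

end Pool.Agent.R982.Kary
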