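import Mathlib

/-!
# Product-type bounds for independent edge costs
-/

open Finset MeasureTheory

namespace Pool.Agent.R982.Mut

/-- a three-level weight of a cost `x`, with levels `x < x1`, `x1 ≤ x < x2`, `x2 ≤ x` -/
noncomputable def lev (x1 x2 : ℝ) (t : ℝ × ℝ × ℝ) (x : ℝ) : ℝ :=
  if x < x1 then t.1 else if x < x2 then t.2.1 else t.2.2

/-- mean of a three-level weight -/
noncomputable def mean (ν : Measure ℝ) (x1 x2 : ℝ) (t : ℝ × ℝ × ℝ) : ℝ :=
  ν.real (Set.Iio x1) * t.1 + (ν.real (Set.Iio x2) - ν.real (Set.Iio x1)) * t.2.1 +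
    (1 - ν.real (Set.Iio x2)) * t.2.2

theorem lev_eq {x1 x2 : ℝ} (hx : x1 ≤ x2) (t : ℝ × ℝ × ℝ) :
    lev x1 x2 t = fun x => (Set.Iio x1).indicator (fun _ => t.1 - t.2.1) x +
      (Set.Iio x2).indicator (fun _ => t.2.1 - t.2.2) x + t.2.2 := by
  funext x
  unfold lev
  by_cases h1 : x < x1
  · have h2 : x < x2 := lt_of_lt_of_le h1 hx
    rw [if_pos h1, Set.indicator_of_mem (Set.mem_Iio.mpr h1),
      Set.indicator_of_mem (Set.mem_Iio.mpr h2)]
    ring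
  · rw [if_neg h1, Set.indicator_of_notMem (by simpa using h1)]
    by_cases h2 : x < x2
    · rw [if_pos h2, Set.indicator_of_mem (Set.mem_Iio.mpr h2)]
      ring
    · rw [if_neg h2, Set.indicator_of_notMem (by simpa using h2)]
      ring

theorem integrable_lev (ν : Measure ℝ) [IsProbabilityMeasure ν] {x1 x2 : ℝ} (hx : x1 ≤ x2)
    (t : ℝ × ℝ × ℝ) : Integrable (lev x1 x2 t) ν := by
  rw [lev_eq hx]
  refine Integrable.add (Integrable.add ?_ ?_) (integrable_const _)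
  · exact (integrable_const _).indicator measurableSet_Iio
  · exact (integrable_const _).indicator measurableSet_Iio

theorem integral_lev (ν : Measure ℝ) [IsProbabilityMeasure ν] {x1 x2 : ℝ} (hx : x1 ≤ x2)
    (t : ℝ × ℝ × ℝ) : ∫ x, lev x1 x2 t x ∂ν = mean ν x1 x2 t := by
  rw [lev_eq hx]
  have i1 : Integrable (fun x => (Set.Iio x1).indicator (fun _ => t.1 - t.2.1) x) ν :=
    (integrable_const _).indicator measurableSet_Iio
  have i2 : Integrable (fun x => (Set.Iio x2).indicator (fun _ => t.2.1 - t.2.2) x) ν :=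
    (integrable_const _).indicator measurableSet_Iio
  have e1 : ∫ x, ((Set.Iio x1).indicator (fun _ => t.1 - t.2.1) x +
      (Set.Iio x2).indicator (fun _ => t.2.1 - t.2.2) x + t.2.2) ∂ν =
      (∫ x, (Set.Iio x1).indicator (fun _ => t.1 - t.2.1) x ∂ν +
      ∫ x, (Set.Iio x2).indicator (fun _ => t.2.1 - t.2.2) x ∂ν) + ∫ _x, t.2.2 ∂ν := by
    rw [← integral_add i1 i2]
    exact integral_add (i1.add i2) (integrable_const _)
  refine e1.trans ?_
  rw [integral_indicator measurableSet_Iio, integral_indicator measurableSet_Iio]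
  simp only [integral_const, smul_eq_mul, measureReal_restrict_apply MeasurableSet.univ,
    Set.univ_inter, probReal_univ]
  unfold mean
  ring

variable {E : Type*} [Fintype E]

/-- product of three-level weights over all edges -/
noncomputable def F (x1 x2 : ℝ) (A : E → ℝ × ℝ × ℝ) (ω : E → ℝ) : ℝ :=
  ∏ e, lev x1 x2 (A e) (ω e)

theorem markov (ν : Measure ℝ) [IsProbabilityMeasure ν] {x1 x2 : ℝ} (hx : x1 ≤ x2)
    {ι : Type*} (I : Finset ι) (c : ι → ℝ) (A : ι → E → ℝ × ℝ × ℝ) (S : Set (E → ℝ))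
    (hpos : ∀ ω, 0 ≤ ∑ i ∈ I, c i * F x1 x2 (A i) ω)
    (hS : ∀ ω ∈ S, 1 ≤ ∑ i ∈ I, c i * F x1 x2 (A i) ω) :
    (Measure.pi fun _ : E => ν).real S ≤ ∑ i ∈ I, c i * ∏ e, mean ν x1 x2 (A i e) := by
  have hint : ∀ i, Integrable (F x1 x2 (A i)) (Measure.pi fun _ : E => ν) := by
    intro i
    exact Integrable.fintype_prod (fun e => integrable_lev ν hx (A i e))
  have hintG : Integrable (fun ω => ∑ i ∈ I, c i * F x1 x2 (A i) ω)
      (Measure.pi fun _ : E => ν) :=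
    integrable_finsetSum _ fun i _ => (hint i).const_mul _
  have h1 : (Measure.pi fun _ : E => ν).real S ≤ (Measure.pi fun _ : E => ν).real
      {ω | (1 : ℝ) ≤ ∑ i ∈ I, c i * F x1 x2 (A i) ω} :=
    measureReal_mono (fun ω hω => hS ω hω)
  have h2 := mul_meas_ge_le_integral_of_nonneg (μ := Measure.pi fun _ : E => ν)
    (Filter.Eventually.of_forall hpos) hintG 1
  rw [one_mul] at h2
  refine h1.trans (h2.trans (le_of_eq ?_))
  rw [integral_finsetSum _ fun i _ => (hint i).const_mul _]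
  refine Finset.sum_congr rfl ?_
  intro i _
  rw [integral_const_mul]
  congr 1
  unfold F
  rw [integral_fintype_prod_eq_prod]
  exact Finset.prod_congr rfl fun e _ => integral_lev ν hx (A i e)

variable [DecidableEq E]

/-- the weights which are `t1` on `F1`, `t2` on `F2`, `t3` on `F3` and `1` elsewhere -/
noncomputable def cls (F1 F2 F3 : Finset E) (t1 t2 t3 : ℝ × ℝ × ℝ) (e : E) : ℝ × ℝ × ℝ :=
  if e ∈ F1 then t1 else if e ∈ F2 then t2 else if e ∈ F3 then t3 else (1, 1, 1)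

theorem prod_cls {F1 F2 F3 : Finset E} (h12 : Disjoint F1 F2) (h13 : Disjoint F1 F3)
    (h23 : Disjoint F2 F3) (t1 t2 t3 : ℝ × ℝ × ℝ) (φ : E → ℝ × ℝ × ℝ → ℝ)
    (hφ : ∀ e, φ e (1, 1, 1) = 1) :
    ∏ e, φ e (cls F1 F2 F3 t1 t2 t3 e) =
      (∏ e ∈ F1, φ e t1) * (∏ e ∈ F2, φ e t2) * (∏ e ∈ F3, φ e t3) := by
  have h1 : ∏ e, φ e (cls F1 F2 F3 t1 t2 t3 e) =
      ∏ e ∈ (F1 ∪ F2) ∪ F3, φ e (cls F1 F2 F3 t1 t2 t3 e) := by
    symm
    refine Finset.prod_subset (Finset.subset_univ _) ?_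
    intro e _ he
    rw [Finset.mem_union, Finset.mem_union, not_or, not_or] at he
    unfold cls
    rw [if_neg he.1.1, if_neg he.1.2, if_neg he.2, hφ]
  have hd : Disjoint (F1 ∪ F2) F3 := Finset.disjoint_union_left.mpr ⟨h13, h23⟩
  rw [h1, Finset.prod_union hd, Finset.prod_union h12]
  congr 1
  · congr 1
    · refine Finset.prod_congr rfl fun e he => ?_
      unfold cls
      rw [if_pos he]
    · refine Finset.prod_congr rfl fun e he => ?_
      unfold cls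
      rw [if_neg (fun h => (Finset.disjoint_left.mp h12 h he)), if_pos he]
  · refine Finset.prod_congr rfl fun e he => ?_
    unfold cls
    rw [if_neg (fun h => (Finset.disjoint_left.mp h13 h he)),
      if_neg (fun h => (Finset.disjoint_left.mp h23 h he)), if_pos he]

theorem F_cls {F1 F2 F3 : Finset E} (h12 : Disjoint F1 F2) (h13 : Disjoint F1 F3)
    (h23 : Disjoint F2 F3) (t1 t2 t3 : ℝ × ℝ × ℝ) (x1 x2 : ℝ) (ω : E → ℝ) :
    F x1 x2 (cls F1 F2 F3 t1 t2 t3) ω =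
      (∏ e ∈ F1, lev x1 x2 t1 (ω e)) * (∏ e ∈ F2, lev x1 x2 t2 (ω e)) *
        (∏ e ∈ F3, lev x1 x2 t3 (ω e)) := by
  unfold F
  refine prod_cls h12 h13 h23 t1 t2 t3 (fun e t => lev x1 x2 t (ω e)) ?_
  intro e
  simp [lev]

theorem mean_one (ν : Measure ℝ) (x1 x2 : ℝ) : mean ν x1 x2 (1, 1, 1) = 1 := by
  unfold mean; ring

theorem M_cls (ν : Measure ℝ) {F1 F2 F3 : Finset E} (h12 : Disjoint F1 F2)
    (h13 : Disjoint F1 F3) (h23 : Disjoint F2 F3) (t1 t2 t3 : ℝ × ℝ × ℝ) (x1 x2 : ℝ) :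
    ∏ e, mean ν x1 x2 (cls F1 F2 F3 t1 t2 t3 e) =
      mean ν x1 x2 t1 ^ F1.card * mean ν x1 x2 t2 ^ F2.card * mean ν x1 x2 t3 ^ F3.card := by
  have h := prod_cls h12 h13 h23 t1 t2 t3 (fun _ t => mean ν x1 x2 t)
    (fun _ => mean_one ν x1 x2)
  rw [h, Finset.prod_const, Finset.prod_const, Finset.prod_const]

theorem F_nonneg (x1 x2 : ℝ) (A : E → ℝ × ℝ × ℝ)
    (hA : ∀ e, 0 ≤ (A e).1 ∧ 0 ≤ (A e).2.1 ∧ 0 ≤ (A e).2.2) (ω : E → ℝ) :
    0 ≤ F x1 x2 A ω := by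
  unfold F
  refine Finset.prod_nonneg fun e _ => ?_
  unfold lev
  split_ifs
  · exact (hA e).1
  · exact (hA e).2.1
  · exact (hA e).2.2

theorem cls_nonneg (F1 F2 F3 : Finset E) {t1 t2 t3 : ℝ × ℝ × ℝ}
    (h1 : 0 ≤ t1.1 ∧ 0 ≤ t1.2.1 ∧ 0 ≤ t1.2.2) (h2 : 0 ≤ t2.1 ∧ 0 ≤ t2.2.1 ∧ 0 ≤ t2.2.2)
    (h3 : 0 ≤ t3.1 ∧ 0 ≤ t3.2.1 ∧ 0 ≤ t3.2.2) (e : E) :
    0 ≤ (cls F1 F2 F3 t1 t2 t3 e).1 ∧ 0 ≤ (cls F1 F2 F3 t1 t2 t3 e).2.1 ∧
      0 ≤ (cls F1 F2 F3 t1 t2 t3 e).2.2 := by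
  unfold cls
  split_ifs
  · exact h1
  · exact h2
  · exact h3
  · norm_num

/-- number of edges of `T` with cost below `x` -/
noncomputable def cnt (T : Finset E) (x : ℝ) (ω : E → ℝ) : ℕ := (T.filter (fun e => ω e < x)).card

theorem prod_low (T : Finset E) (x1 x2 θ : ℝ) (ω : E → ℝ) :
    ∏ e ∈ T, lev x1 x2 (θ, 1, 1) (ω e) = θ ^ cnt T x1 ω := by
  unfold cnt
  rw [← Finset.prod_const, Finset.prod_filter]
  refine Finset.prod_congr rfl fun e _ => ?_
  unfold lev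
  split_ifs <;> rfl

end Pool.Agent.R982.Mut
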