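import Mathlib
import Pool.Agent.R982.MutA

/-!
# The mutual preference graph and a deterministic criterion for connectivity
-/

open Finset MeasureTheory

namespace Pool.Agent.R982.Mut

/-- number of edges at `i` which are strictly cheaper than the edge `{i, j}` -/
noncomputable def cheaper {n : ℕ} (ω : Sym2 (Fin n) → ℝ) (i j : Fin n) : ℕ :=
  (univ.filter (fun l => l ≠ i ∧ ω s(i, l) < ω s(i, j))).card

/-- the mutual preference graph: `{i, j}` is an edge if it is among the `k` cheapest edges at `i`
(fewer than `k` edges at `i` are strictly cheaper) and among the `k` cheapest edges at `j` -/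
def mutualGraph {n : ℕ} (k : ℕ) (ω : Sym2 (Fin n) → ℝ) : SimpleGraph (Fin n) where
  Adj i j := i ≠ j ∧ cheaper ω i j < k ∧ cheaper ω j i < k
  symm := ⟨fun _ _ h => ⟨h.1.symm, h.2.2, h.2.1⟩⟩
  loopless := ⟨fun _ h => h.1 rfl⟩

/-- degree in the graph of edges with cost below `x` -/
noncomputable def deg {n : ℕ} (x : ℝ) (ω : Sym2 (Fin n) → ℝ) (v : Fin n) : ℕ :=
  (univ.filter (fun w => w ≠ v ∧ ω s(v, w) < x)).card

/-- pairs `(v, w)` where `{v, w}` has cost below `x` and `v` has more than `k` such edges -/
noncomputable def badPairs {n : ℕ} (x : ℝ) (k : ℕ) (ω : Sym2 (Fin n) → ℝ) :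
    Finset (Fin n × Fin n) :=
  univ.filter (fun p => p.2 ≠ p.1 ∧ ω s(p.1, p.2) < x ∧ k < deg x ω p.1)

/-- edges with cost below `x` leaving `S` -/
noncomputable def crossing {n : ℕ} (x : ℝ) (ω : Sym2 (Fin n) → ℝ) (S : Finset (Fin n)) :
    Finset (Fin n × Fin n) :=
  univ.filter (fun p => p.1 ∈ S ∧ p.2 ∉ S ∧ ω s(p.1, p.2) < x)

theorem adj_of_good {n : ℕ} {x : ℝ} {k : ℕ} {ω : Sym2 (Fin n) → ℝ} {v w : Fin n}
    (hvw : w ≠ v) (hx : ω s(v, w) < x) (hw : deg x ω w ≤ k) : cheaper ω w v < k := by
  refine lt_of_lt_of_le ?_ hw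
  unfold cheaper deg
  refine Finset.card_lt_card ?_
  rw [Finset.ssubset_iff_of_subset]
  · refine ⟨v, ?_, ?_⟩
    · rw [Finset.mem_filter]
      refine ⟨Finset.mem_univ _, hvw.symm, ?_⟩
      rwa [Sym2.eq_swap]
    · rw [Finset.mem_filter]
      intro h
      exact lt_irrefl _ h.2.2
  · intro l hl
    rw [Finset.mem_filter] at hl ⊢
    refine ⟨hl.1, hl.2.1, hl.2.2.trans ?_⟩
    rwa [Sym2.eq_swap]

/-- among at least `k` elements, at least `k` have fewer than `k` strictly smaller ones -/
theorem card_rank_lt {X : Type*} [DecidableEq X] (N : Finset X) (f : X → ℝ) {k : ℕ}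
    (hk : k ≤ N.card) :
    k ≤ (N.filter (fun w => (N.filter (fun l => f l < f w)).card < k)).card := by
  set T := N.filter (fun w => (N.filter (fun l => f l < f w)).card < k) with hT
  by_contra hlt'
  have hlt : T.card < k := not_le.mp hlt'
  have hTN : T ⊆ N := Finset.filter_subset _ _
  have hne : (N \ T).Nonempty := by
    rw [← Finset.card_pos, Finset.card_sdiff_of_subset hTN]
    omega
  obtain ⟨w, hw, hmin⟩ := Finset.exists_min_image (N \ T) f hne
  rw [Finset.mem_sdiff] at hw
  apply hw.2
  rw [hT, Finset.mem_filter]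
  refine ⟨hw.1, ?_⟩
  refine lt_of_le_of_lt (Finset.card_le_card ?_) hlt
  intro l hl
  rw [Finset.mem_filter] at hl
  by_contra hlT
  have := hmin l (Finset.mem_sdiff.mpr ⟨hl.1, hlT⟩)
  linarith [hl.2]

theorem conn_of {n : ℕ} (hn : 0 < n) {ω : Sym2 (Fin n) → ℝ} {x : ℝ} {k m d1 s0 : ℕ}
    (h1 : ∀ v, d1 + m ≤ deg x ω v) (hk : d1 + m ≤ k)
    (h2 : ∀ v, (univ.filter (fun w => w ≠ v ∧ ω s(v, w) < x ∧ k < deg x ω w)).card < m)
    (h3 : ∀ S : Finset (Fin n), S.Nonempty → S.card ≤ s0 →
      ∃ v ∈ S, (S.filter (fun w => w ≠ v ∧ ω s(v, w) < x)).card < d1)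
    (h4 : ∀ S : Finset (Fin n), s0 < S.card → 2 * S.card ≤ n →
      2 * (badPairs x k ω).card < (crossing x ω S).card) :
    (mutualGraph k ω).Connected := by
  classical
  -- crossing edges have a bad end point
  have cross : ∀ S : Finset (Fin n), (∀ a ∈ S, ∀ b ∉ S, ¬ (mutualGraph k ω).Adj a b) →
      ∀ a ∈ S, ∀ b ∉ S, ω s(a, b) < x → k < deg x ω a ∨ k < deg x ω b := by
    intro S hS a ha b hb hx
    by_contra hcon
    push Not at hcon
    have hab : b ≠ a := fun h => hb (h ▸ ha)
    apply hS a ha b hb
    refine ⟨hab.symm, ?_, ?_⟩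
    · refine adj_of_good (v := b) (w := a) hab.symm ?_ hcon.1
      rwa [Sym2.eq_swap]
    · exact adj_of_good (v := a) (w := b) hab hx hcon.2
  have key : ∀ S : Finset (Fin n), S.Nonempty → 2 * S.card ≤ n →
      (∀ a ∈ S, ∀ b ∉ S, ¬ (mutualGraph k ω).Adj a b) → False := by
    intro S hne hcard hS
    rcases Nat.lt_or_ge s0 S.card with hs | hs
    · have h5 := h4 S hs hcard
      have h6 : crossing x ω S ⊆ badPairs x k ω ∪ (badPairs x k ω).image Prod.swap := by
        intro p hp
        unfold crossing at hp
        rw [Finset.mem_filter] at hp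
        obtain ⟨_, ha, hb, hx⟩ := hp
        have hab : p.2 ≠ p.1 := fun h => hb (h ▸ ha)
        rw [Finset.mem_union]
        rcases cross S hS p.1 ha p.2 hb hx with h | h
        · left
          unfold badPairs
          rw [Finset.mem_filter]
          exact ⟨Finset.mem_univ _, hab, hx, h⟩
        · right
          rw [Finset.mem_image]
          refine ⟨p.swap, ?_, Prod.swap_swap p⟩
          unfold badPairs
          rw [Finset.mem_filter]
          refine ⟨Finset.mem_univ _, hab.symm, ?_, h⟩
          simp only [Prod.fst_swap, Prod.snd_swap]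
          rwa [Sym2.eq_swap]
      have h7 := (Finset.card_le_card h6).trans (Finset.card_union_le _ _)
      have h8 : ((badPairs x k ω).image Prod.swap).card ≤ (badPairs x k ω).card :=
        Finset.card_image_le
      omega
    · obtain ⟨v, hv, hlt⟩ := h3 S hne hs
      -- bad neighbours of v
      set Bad := univ.filter (fun w => w ≠ v ∧ ω s(v, w) < x ∧ k < deg x ω w) with hBad
      have hBm : Bad.card < m := h2 v
      by_cases hg : deg x ω v ≤ k
      · -- v good
        have hsub : univ.filter (fun w => w ≠ v ∧ ω s(v, w) < x) ⊆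
            S.filter (fun w => w ≠ v ∧ ω s(v, w) < x) ∪ Bad := by
          intro w hw
          rw [Finset.mem_filter] at hw
          rw [Finset.mem_union]
          by_cases hwS : w ∈ S
          · left
            rw [Finset.mem_filter]
            exact ⟨hwS, hw.2⟩
          · right
            rw [hBad, Finset.mem_filter]
            refine ⟨Finset.mem_univ _, hw.2.1, hw.2.2, ?_⟩
            rcases cross S hS v hv w hwS hw.2.2 with h | h
            · omega
            · exact h
        have h5 := (Finset.card_le_card hsub).trans (Finset.card_union_le _ _)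
        have h6 := h1 v
        unfold deg at h6
        omega
      · push Not at hg
        set N := univ.filter (fun w => w ≠ v ∧ ω s(v, w) < x) with hN
        have hNk : k ≤ N.card := hg.le
        have h5 := card_rank_lt N (fun w => ω s(v, w)) hNk
        have hsub : N.filter (fun w => (N.filter (fun l => ω s(v, l) < ω s(v, w))).card < k) ⊆
            S.filter (fun w => w ≠ v ∧ ω s(v, w) < x) ∪ Bad := by
          intro w hw
          rw [Finset.mem_filter] at hw
          obtain ⟨hwN, hwr⟩ := hw
          rw [hN, Finset.mem_filter] at hwN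
          rw [Finset.mem_union]
          by_cases hwS : w ∈ S
          · left
            rw [Finset.mem_filter]
            exact ⟨hwS, hwN.2⟩
          · right
            rw [hBad, Finset.mem_filter]
            refine ⟨Finset.mem_univ _, hwN.2.1, hwN.2.2, ?_⟩
            by_contra hgood
            push Not at hgood
            apply hS v hv w hwS
            refine ⟨hwN.2.1.symm, ?_, adj_of_good hwN.2.1 hwN.2.2 hgood⟩
            refine lt_of_le_of_lt ?_ hwr
            unfold cheaper
            refine Finset.card_le_card ?_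
            intro l hl
            rw [Finset.mem_filter] at hl
            rw [Finset.mem_filter, hN, Finset.mem_filter]
            exact ⟨⟨Finset.mem_univ _, hl.2.1, hl.2.2.trans hwN.2.2⟩, hl.2.2⟩
        have h6 := (Finset.card_le_card hsub).trans (Finset.card_union_le _ _)
        omega
  have : Nonempty (Fin n) := ⟨⟨0, hn⟩⟩
  refine ⟨?_⟩
  intro a b
  by_contra hab
  set S : Finset (Fin n) := univ.filter (fun u => (mutualGraph k ω).Reachable a u) with hSdef
  have haS : a ∈ S := by
    rw [hSdef, Finset.mem_filter]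
    exact ⟨Finset.mem_univ _, SimpleGraph.Reachable.refl a⟩
  have hbS : b ∉ S := by
    rw [hSdef, Finset.mem_filter]
    exact fun h => hab h.2
  have hno : ∀ u ∈ S, ∀ w ∉ S, ¬ (mutualGraph k ω).Adj u w := by
    intro u hu w hw hadj
    rw [hSdef, Finset.mem_filter] at hu hw
    exact hw ⟨Finset.mem_univ _, hu.2.trans hadj.reachable⟩
  rcases Nat.lt_or_ge n (2 * S.card) with h | h
  · refine key Sᶜ ⟨b, Finset.mem_compl.mpr hbS⟩ ?_ ?_
    · rw [Finset.card_compl, Fintype.card_fin]; omega
    · intro u hu w hw hadj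
      rw [Finset.mem_compl] at hu
      have hw' : w ∈ S := by
        by_contra h'
        exact hw (Finset.mem_compl.mpr h')
      exact hno w hw' u hu hadj.symm
  · exact key S ⟨a, haS⟩ h hno

/-- edges between a vertex and a set -/
noncomputable def estar {n : ℕ} (v : Fin n) (T : Finset (Fin n)) : Finset (Sym2 (Fin n)) :=
  T.image (fun w => s(v, w))

theorem estar_inj {n : ℕ} (v : Fin n) (T : Finset (Fin n)) :
    Set.InjOn (fun w => s(v, w)) (T : Set (Fin n)) := by
  intro a _ b _ h
  simp only [Sym2.eq_iff] at h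
  rcases h with h | h
  · exact h.2
  · exact h.2.trans h.1

theorem card_estar {n : ℕ} (v : Fin n) (T : Finset (Fin n)) : (estar v T).card = T.card := by
  unfold estar
  exact Finset.card_image_of_injOn (estar_inj v T)

theorem cnt_estar {n : ℕ} (v : Fin n) (T : Finset (Fin n)) (x : ℝ) (ω : Sym2 (Fin n) → ℝ) :
    cnt (estar v T) x ω = (T.filter (fun w => ω s(v, w) < x)).card := by
  unfold cnt estar
  rw [Finset.filter_image]
  exact Finset.card_image_of_injOn ((estar_inj v T).mono (by
    intro a ha
    exact Finset.mem_coe.mpr (Finset.mem_of_mem_filter a (Finset.mem_coe.mp ha))))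

theorem mem_estar {n : ℕ} {v : Fin n} {T : Finset (Fin n)} {e : Sym2 (Fin n)} :
    e ∈ estar v T ↔ ∃ w ∈ T, s(v, w) = e := by
  unfold estar
  rw [Finset.mem_image]

end Pool.Agent.R982.Mut
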