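import Mathlib
import Pool.Agent.R982.MutB

/-!
# Probability bounds for the upper threshold
-/

open Finset MeasureTheory

namespace Pool.Agent.R982.Mut

variable (ν : Measure ℝ) [IsProbabilityMeasure ν]

theorem mean_low (x : ℝ) (θ : ℝ) : mean ν x x (θ, 1, 1) = 1 + ν.real (Set.Iio x) * (θ - 1) := by
  unfold mean; ring

theorem mean_in (x : ℝ) : mean ν x x (1, 0, 0) = ν.real (Set.Iio x) := by
  unfold mean; ring

theorem p_nonneg (x : ℝ) : 0 ≤ ν.real (Set.Iio x) := measureReal_nonneg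

theorem p_le_one (x : ℝ) : ν.real (Set.Iio x) ≤ 1 := measureReal_le_one

theorem one_add_pow_le {y : ℝ} (hy : 0 ≤ 1 + y) (N : ℕ) : (1 + y) ^ N ≤ Real.exp (y * N) := by
  have h1 : 1 + y ≤ Real.exp y := by
    have := Real.add_one_le_exp y
    linarith
  calc (1 + y) ^ N ≤ (Real.exp y) ^ N := pow_le_pow_left₀ hy h1 N
    _ = Real.exp (y * N) := by
        rw [← Real.exp_nat_mul]; congr 1; ring

/-- nonnegativity of the classes we use -/
theorem cls_nn {E : Type*} [DecidableEq E] (F1 F2 F3 : Finset E) {t1 t2 t3 : ℝ × ℝ × ℝ}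
    (h1 : 0 ≤ t1.1 ∧ 0 ≤ t1.2.1 ∧ 0 ≤ t1.2.2) (h2 : 0 ≤ t2.1 ∧ 0 ≤ t2.2.1 ∧ 0 ≤ t2.2.2)
    (h3 : 0 ≤ t3.1 ∧ 0 ≤ t3.2.1 ∧ 0 ≤ t3.2.2) (e : E) :
    0 ≤ (cls F1 F2 F3 t1 t2 t3 e).1 ∧ 0 ≤ (cls F1 F2 F3 t1 t2 t3 e).2.1 ∧
      0 ≤ (cls F1 F2 F3 t1 t2 t3 e).2.2 := by
  unfold cls
  split_ifs
  · exact h1
  · exact h2
  · exact h3
  · norm_num

/-- one class with a counting weight -/
noncomputable def A1 {E : Type*} [DecidableEq E] (T : Finset E) (θ : ℝ) : E → ℝ × ℝ × ℝ :=
  cls T ∅ ∅ (θ, 1, 1) (1, 1, 1) (1, 1, 1)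

theorem F_A1 {E : Type*} [Fintype E] [DecidableEq E] (T : Finset E) (θ x1 x2 : ℝ)
    (ω : E → ℝ) : F x1 x2 (A1 T θ) ω = θ ^ cnt T x1 ω := by
  unfold A1
  rw [F_cls (Finset.disjoint_empty_right _) (Finset.disjoint_empty_right _)
    (Finset.disjoint_empty_right _), prod_low]
  simp

theorem M_A1 {E : Type*} [Fintype E] [DecidableEq E] (T : Finset E) (θ x : ℝ) :
    ∏ e, mean ν x x (A1 T θ e) = (1 + ν.real (Set.Iio x) * (θ - 1)) ^ T.card := by
  unfold A1
  rw [M_cls ν (Finset.disjoint_empty_right _) (Finset.disjoint_empty_right _)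
    (Finset.disjoint_empty_right _), mean_low]
  simp

theorem A1_nn {E : Type*} [DecidableEq E] (T : Finset E) {θ : ℝ} (hθ : 0 ≤ θ) (e : E) :
    0 ≤ (A1 T θ e).1 ∧ 0 ≤ (A1 T θ e).2.1 ∧ 0 ≤ (A1 T θ e).2.2 := by
  unfold A1
  exact cls_nn _ _ _ ⟨hθ, zero_le_one, zero_le_one⟩ ⟨zero_le_one, zero_le_one, zero_le_one⟩
    ⟨zero_le_one, zero_le_one, zero_le_one⟩ e

/-- edges of `T1` present, counting weight on `T2` -/
noncomputable def A2 {E : Type*} [DecidableEq E] (T1 T2 : Finset E) (θ : ℝ) : E → ℝ × ℝ × ℝ :=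
  cls T1 T2 ∅ (1, 0, 0) (θ, 1, 1) (1, 1, 1)

theorem F_A2 {E : Type*} [Fintype E] [DecidableEq E] {T1 T2 : Finset E} (h : Disjoint T1 T2)
    (θ x : ℝ) (ω : E → ℝ) (hω : ∀ e ∈ T1, ω e < x) :
    F x x (A2 T1 T2 θ) ω = θ ^ cnt T2 x ω := by
  unfold A2
  rw [F_cls h (Finset.disjoint_empty_right _) (Finset.disjoint_empty_right _), prod_low]
  have : ∏ e ∈ T1, lev x x (1, 0, 0) (ω e) = 1 := by
    refine Finset.prod_eq_one fun e he => ?_
    unfold lev
    rw [if_pos (hω e he)]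
  rw [this]
  simp

theorem M_A2 {E : Type*} [Fintype E] [DecidableEq E] {T1 T2 : Finset E} (h : Disjoint T1 T2)
    (θ x : ℝ) : ∏ e, mean ν x x (A2 T1 T2 θ e) =
      ν.real (Set.Iio x) ^ T1.card * (1 + ν.real (Set.Iio x) * (θ - 1)) ^ T2.card := by
  unfold A2
  rw [M_cls ν h (Finset.disjoint_empty_right _) (Finset.disjoint_empty_right _), mean_low,
    mean_in]
  simp

theorem A2_nn {E : Type*} [DecidableEq E] (T1 T2 : Finset E) {θ : ℝ} (hθ : 0 ≤ θ) (e : E) :
    0 ≤ (A2 T1 T2 θ e).1 ∧ 0 ≤ (A2 T1 T2 θ e).2.1 ∧ 0 ≤ (A2 T1 T2 θ e).2.2 := by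
  unfold A2
  exact cls_nn _ _ _ ⟨zero_le_one, le_refl _, le_refl _⟩ ⟨hθ, zero_le_one, zero_le_one⟩
    ⟨zero_le_one, zero_le_one, zero_le_one⟩ e

theorem deg_eq {n : ℕ} (x : ℝ) (ω : Sym2 (Fin n) → ℝ) (v : Fin n) :
    deg x ω v = cnt (estar v (univ.erase v)) x ω := by
  rw [cnt_estar]
  unfold deg
  congr 1
  ext w
  simp [and_comm]

/-- (E1) a vertex of small degree -/
theorem L1 {n : ℕ} (x θ : ℝ) (hθ0 : 0 < θ) (hθ1 : θ ≤ 1) (D : ℕ) :
    (Measure.pi fun _ : Sym2 (Fin n) => ν).real {ω | ∃ v, deg x ω v < D} ≤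
      n * ((θ ^ D)⁻¹ * Real.exp (ν.real (Set.Iio x) * (θ - 1) * (n - 1 : ℕ))) := by
  have hD : 0 < θ ^ D := pow_pos hθ0 D
  have hp0 := p_nonneg ν x
  have hp1 := p_le_one ν x
  have h := markov ν (le_refl x) (univ : Finset (Fin n)) (fun _ => (θ ^ D)⁻¹)
    (fun v => A1 (estar v (univ.erase v)) θ) {ω | ∃ v, deg x ω v < D} ?_ ?_
  · refine h.trans ?_
    rw [← nsmul_eq_mul]
    have hc : (n : ℕ) = (univ : Finset (Fin n)).card := by simp
    conv_rhs => rw [hc]
    rw [← Finset.sum_const]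
    refine Finset.sum_le_sum fun v _ => ?_
    refine mul_le_mul_of_nonneg_left ?_ (inv_nonneg.mpr hD.le)
    rw [M_A1, card_estar, Finset.card_erase_of_mem (Finset.mem_univ v), ← hc]
    exact one_add_pow_le (by nlinarith) _
  · intro ω
    refine Finset.sum_nonneg fun v _ => mul_nonneg (inv_nonneg.mpr hD.le) ?_
    exact F_nonneg x x _ (A1_nn _ hθ0.le) ω
  · rintro ω ⟨v, hv⟩
    refine le_trans ?_ (Finset.single_le_sum (f := fun v => (θ ^ D)⁻¹ *
      F x x (A1 (estar v (univ.erase v)) θ) ω) (fun v _ => mul_nonneg (inv_nonneg.mpr hD.le)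
      (F_nonneg x x _ (A1_nn _ hθ0.le) ω)) (Finset.mem_univ v))
    beta_reduce
    rw [F_A1, ← deg_eq, inv_mul_eq_div, one_le_div hD]
    exact pow_le_pow_of_le_one hθ0.le hθ1 hv.le

theorem disj_A2a {n : ℕ} {v : Fin n} {W : Finset (Fin n)} :
    Disjoint (estar v W) (W.biUnion fun w => estar w (univ \ (insert v W))) := by
  rw [Finset.disjoint_left]
  intro e he he2
  rw [mem_estar] at he
  rw [Finset.mem_biUnion] at he2
  obtain ⟨w, hw, rfl⟩ := he
  obtain ⟨w', hw', he'⟩ := he2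
  rw [mem_estar] at he'
  obtain ⟨u, hu, hu2⟩ := he'
  rw [Finset.mem_sdiff, Finset.mem_insert, not_or] at hu
  rw [Sym2.eq_iff] at hu2
  rcases hu2 with h | h
  · exact hu.2.2 (h.2 ▸ hw)
  · exact hu.2.1 h.2

theorem card_biUnion_stars {n : ℕ} {v : Fin n} {W : Finset (Fin n)} :
    (W.biUnion fun w => estar w (univ \ (insert v W))).card ≤ W.card * n := by
  refine (Finset.card_biUnion_le).trans ?_
  rw [← smul_eq_mul, ← Finset.sum_const]
  refine Finset.sum_le_sum fun w _ => ?_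
  rw [card_estar]
  refine (Finset.card_le_univ _).trans (le_of_eq (Fintype.card_fin n))

theorem cnt_biUnion_stars {n : ℕ} {v : Fin n} {W : Finset (Fin n)} (x : ℝ)
    (ω : Sym2 (Fin n) → ℝ) (k : ℕ) (hk : ∀ w ∈ W, k < deg x ω w) :
    W.card * (k + 1 - W.card) ≤ cnt (W.biUnion fun w => estar w (univ \ (insert v W))) x ω := by
  classical
  unfold cnt
  rw [Finset.filter_biUnion, Finset.card_biUnion]
  · rw [← smul_eq_mul, ← Finset.sum_const]
    refine Finset.sum_le_sum fun w hw => ?_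
    have h1 := cnt_estar w (univ \ (insert v W)) x ω
    unfold cnt at h1
    rw [h1]
    have h2 := hk w hw
    unfold deg at h2
    have h3 : univ.filter (fun u => u ≠ w ∧ ω s(w, u) < x) ⊆
        (univ \ (insert v W)).filter (fun u => ω s(w, u) < x) ∪ (insert v (W.erase w)) := by
      intro u hu
      rw [Finset.mem_filter] at hu
      rw [Finset.mem_union]
      by_cases huW : u ∈ insert v W
      · right
        rw [Finset.mem_insert] at huW ⊢
        rcases huW with h | h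
        · exact Or.inl h
        · exact Or.inr (Finset.mem_erase.mpr ⟨hu.2.1, h⟩)
      · left
        rw [Finset.mem_filter, Finset.mem_sdiff]
        exact ⟨⟨Finset.mem_univ _, huW⟩, hu.2.2⟩
    have h4 := (Finset.card_le_card h3).trans (Finset.card_union_le _ _)
    have h5 := Finset.card_insert_le v (W.erase w)
    rw [Finset.card_erase_of_mem hw] at h5
    have h6 : 0 < W.card := Finset.card_pos.mpr ⟨w, hw⟩
    omega
  · intro w hw w' hw' hne
    rw [Function.onFun, Finset.disjoint_left]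
    intro e he he2
    rw [Finset.mem_filter, mem_estar] at he he2
    obtain ⟨⟨u, hu, rfl⟩, _⟩ := he
    obtain ⟨⟨u', hu', h'⟩, _⟩ := he2
    rw [Finset.mem_sdiff, Finset.mem_insert, not_or] at hu hu'
    rw [Sym2.eq_iff] at h'
    rcases h' with h | h
    · exact hne h.1.symm
    · exact hu'.2.2 (h.2 ▸ hw)

/-- (E2) a vertex with many bad neighbours -/
theorem L2 {n : ℕ} (x θ : ℝ) (hθ : 1 ≤ θ) (m k : ℕ) :
    (Measure.pi fun _ : Sym2 (Fin n) => ν).real {ω | ∃ v : Fin n,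
      m ≤ (univ.filter (fun w => w ≠ v ∧ ω s(v, w) < x ∧ k < deg x ω w)).card} ≤
      (n : ℝ) ^ (m + 1) * ((θ ^ (m * (k + 1 - m)))⁻¹ * (ν.real (Set.Iio x) ^ m *
        Real.exp (ν.real (Set.Iio x) * (θ - 1) * (m * n : ℕ)))) := by
  have hθ0 : 0 < θ := by linarith
  have hD : 0 < θ ^ (m * (k + 1 - m)) := pow_pos hθ0 _
  have hp0 := p_nonneg ν x
  have hp1 := p_le_one ν x
  set I : Finset (Fin n × Finset (Fin n)) := (univ : Finset (Fin n)) ×ˢ
    (powersetCard m (univ : Finset (Fin n))) with hI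
  set A : Fin n × Finset (Fin n) → Sym2 (Fin n) → ℝ × ℝ × ℝ := fun i =>
    A2 (estar i.1 i.2) (i.2.biUnion fun w => estar w (univ \ (insert i.1 i.2))) θ with hA
  have hnn : ∀ i ω, 0 ≤ (θ ^ (m * (k + 1 - m)))⁻¹ * F x x (A i) ω := fun i ω =>
    mul_nonneg (inv_nonneg.mpr hD.le) (F_nonneg x x _ (A2_nn _ _ hθ0.le) ω)
  have h := markov ν (le_refl x) I (fun _ => (θ ^ (m * (k + 1 - m)))⁻¹) A {ω | ∃ v : Fin n,
      m ≤ (univ.filter (fun w => w ≠ v ∧ ω s(v, w) < x ∧ k < deg x ω w)).card} ?_ ?_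
  · refine h.trans ?_
    have h1 : ∀ i ∈ I, (θ ^ (m * (k + 1 - m)))⁻¹ * ∏ e, mean ν x x (A i e) ≤
        (θ ^ (m * (k + 1 - m)))⁻¹ * (ν.real (Set.Iio x) ^ m *
        Real.exp (ν.real (Set.Iio x) * (θ - 1) * (m * n : ℕ))) := by
      intro i hi
      refine mul_le_mul_of_nonneg_left ?_ (inv_nonneg.mpr hD.le)
      rw [hI, Finset.mem_product, Finset.mem_powersetCard] at hi
      have hcard : i.2.card = m := hi.2.2
      simp only [hA]
      rw [M_A2 ν disj_A2a, card_estar, hcard]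
      refine mul_le_mul_of_nonneg_left ?_ (pow_nonneg hp0 m)
      refine (one_add_pow_le (by nlinarith) _).trans ?_
      refine Real.exp_le_exp.mpr ?_
      refine mul_le_mul_of_nonneg_left ?_ (mul_nonneg hp0 (by linarith))
      have := card_biUnion_stars (v := i.1) (W := i.2)
      rw [hcard] at this
      exact_mod_cast this
    refine (Finset.sum_le_sum h1).trans ?_
    rw [Finset.sum_const, nsmul_eq_mul]
    refine mul_le_mul_of_nonneg_right ?_ ?_
    · have h2 : I.card ≤ n ^ (m + 1) := by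
        rw [hI, Finset.card_product, Finset.card_powersetCard, Finset.card_univ,
          Fintype.card_fin, pow_succ, mul_comm]
        exact Nat.mul_le_mul_right n (Nat.choose_le_pow n m)
      exact_mod_cast h2
    · exact mul_nonneg (inv_nonneg.mpr hD.le) (mul_nonneg (pow_nonneg hp0 m)
        (Real.exp_pos _).le)
  · intro ω
    exact Finset.sum_nonneg fun i _ => hnn i ω
  · rintro ω ⟨v, hv⟩
    obtain ⟨W, hWsub, hWcard⟩ := Finset.exists_subset_card_eq hv
    have hi : (v, W) ∈ I := by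
      rw [hI, Finset.mem_product, Finset.mem_powersetCard]
      exact ⟨Finset.mem_univ _, Finset.subset_univ _, hWcard⟩
    refine le_trans ?_ (Finset.single_le_sum (f := fun i => (θ ^ (m * (k + 1 - m)))⁻¹ *
      F x x (A i) ω) (fun i _ => hnn i ω) hi)
    beta_reduce
    simp only [hA]
    have hW : ∀ w ∈ W, w ≠ v ∧ ω s(v, w) < x ∧ k < deg x ω w := by
      intro w hw
      exact (Finset.mem_filter.mp (hWsub hw)).2
    rw [F_A2 disj_A2a θ x ω]
    · rw [inv_mul_eq_div, one_le_div hD]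
      refine pow_le_pow_right₀ hθ ?_
      have := cnt_biUnion_stars (v := v) (W := W) x ω k (fun w hw => (hW w hw).2.2)
      rw [hWcard] at this
      exact this
    · intro e he
      rw [mem_estar] at he
      obtain ⟨w, hw, rfl⟩ := he
      exact (hW w hw).2.1

/-- edges inside a set -/
noncomputable def inside {n : ℕ} (S : Finset (Fin n)) : Finset (Sym2 (Fin n)) :=
  (S ×ˢ S).image (fun q => s(q.1, q.2))

theorem card_inside {n : ℕ} (S : Finset (Fin n)) : (inside S).card ≤ S.card * S.card := by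
  unfold inside
  refine Finset.card_image_le.trans ?_
  rw [Finset.card_product]

theorem cnt_inside {n : ℕ} (S : Finset (Fin n)) (x : ℝ) (ω : Sym2 (Fin n) → ℝ) (d : ℕ)
    (h : ∀ v ∈ S, d ≤ (S.filter (fun w => w ≠ v ∧ ω s(v, w) < x)).card) :
    S.card * d ≤ 2 * cnt (inside S) x ω := by
  classical
  set P : Finset (Fin n × Fin n) := (S ×ˢ S).filter (fun q => q.2 ≠ q.1 ∧ ω s(q.1, q.2) < x)
    with hP
  have h1 : S.card * d ≤ P.card := by
    have e1 : P = S.biUnion (fun v => (S.filter (fun w => w ≠ v ∧ ω s(v, w) < x)).image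
        (fun w => (v, w))) := by
      ext q
      rw [hP, Finset.mem_filter, Finset.mem_product, Finset.mem_biUnion]
      constructor
      · rintro ⟨⟨h1, h2⟩, h3⟩
        exact ⟨q.1, h1, Finset.mem_image.mpr ⟨q.2, Finset.mem_filter.mpr ⟨h2, h3⟩, rfl⟩⟩
      · rintro ⟨v, hv, hq⟩
        rw [Finset.mem_image] at hq
        obtain ⟨w, hw, rfl⟩ := hq
        rw [Finset.mem_filter] at hw
        exact ⟨⟨hv, hw.1⟩, hw.2⟩
    rw [e1, Finset.card_biUnion]
    · rw [← smul_eq_mul, ← Finset.sum_const]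
      refine Finset.sum_le_sum fun v hv => ?_
      rw [Finset.card_image_of_injective _ (fun a b hab => (Prod.mk.inj hab).2)]
      exact h v hv
    · intro v _ v' _ hne
      rw [Function.onFun, Finset.disjoint_left]
      intro q hq hq2
      rw [Finset.mem_image] at hq hq2
      obtain ⟨w, _, rfl⟩ := hq
      obtain ⟨w', _, h'⟩ := hq2
      exact hne (Prod.mk.inj h').1.symm
  have h2 : P.card ≤ 2 * (P.image (fun q => s(q.1, q.2))).card := by
    refine Finset.card_le_mul_card_image P 2 ?_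
    intro e he
    rw [Finset.mem_image] at he
    obtain ⟨q, _, rfl⟩ := he
    have hsub : P.filter (fun r => s(r.1, r.2) = s(q.1, q.2)) ⊆ {q, q.swap} := by
      intro r hr
      rw [Finset.mem_filter] at hr
      rw [Finset.mem_insert, Finset.mem_singleton]
      have := hr.2
      rw [Sym2.eq_iff] at this
      rcases this with h | h
      · left; exact Prod.ext h.1 h.2
      · right; exact Prod.ext h.1 h.2
    exact (Finset.card_le_card hsub).trans Finset.card_le_two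
  have h3 : (P.image (fun q => s(q.1, q.2))).card ≤ cnt (inside S) x ω := by
    unfold cnt inside
    refine Finset.card_le_card ?_
    intro e he
    rw [Finset.mem_image] at he
    obtain ⟨q, hq, rfl⟩ := he
    rw [hP, Finset.mem_filter] at hq
    rw [Finset.mem_filter, Finset.mem_image]
    exact ⟨⟨q, hq.1, rfl⟩, hq.2.2⟩
  omega

end Pool.Agent.R982.Mut
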