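import Mathlib
import Pool.Agent.R982.MutC

/-!
# Probability bounds for the upper threshold, II
-/

open Finset MeasureTheory

namespace Pool.Agent.R982.Mut

variable (ν : Measure ℝ) [IsProbabilityMeasure ν]

/-- (E3) a small dense set -/
theorem L3 {n : ℕ} (x θ : ℝ) (hθ : 1 ≤ θ) (d s0 : ℕ) (b : ℝ)
    (hb : b = n * ((θ ^ d)⁻¹ * Real.exp (ν.real (Set.Iio x) * θ ^ 2 * s0))) (hb1 : b ≤ 1) :
    (Measure.pi fun _ : Sym2 (Fin n) => ν).real {ω | ∃ S : Finset (Fin n), S.Nonempty ∧
      S.card ≤ s0 ∧ ∀ v ∈ S, d ≤ (S.filter (fun w => w ≠ v ∧ ω s(v, w) < x)).card} ≤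
      s0 * b := by
  classical
  have hθ0 : 0 < θ := by linarith
  have hp0 := p_nonneg ν x
  have hp1 := p_le_one ν x
  set b0 : ℝ := (θ ^ d)⁻¹ * Real.exp (ν.real (Set.Iio x) * θ ^ 2 * s0) with hb0
  have hb0pos : 0 < b0 := by positivity
  set I : Finset (Finset (Fin n)) :=
    (univ : Finset (Finset (Fin n))).filter (fun S => S.Nonempty ∧ S.card ≤ s0) with hI
  have hnn : ∀ (S : Finset (Fin n)) ω, 0 ≤ (θ ^ (S.card * d))⁻¹ *
      F x x (A1 (inside S) (θ ^ 2)) ω := fun S ω =>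
    mul_nonneg (by positivity) (F_nonneg x x _ (A1_nn _ (by positivity)) ω)
  have h := markov ν (le_refl x) I (fun S => (θ ^ (S.card * d))⁻¹)
    (fun S => A1 (inside S) (θ ^ 2)) {ω | ∃ S : Finset (Fin n), S.Nonempty ∧
      S.card ≤ s0 ∧ ∀ v ∈ S, d ≤ (S.filter (fun w => w ≠ v ∧ ω s(v, w) < x)).card} ?_ ?_
  · refine h.trans ?_
    have h1 : ∀ S ∈ I, (θ ^ (S.card * d))⁻¹ * ∏ e, mean ν x x (A1 (inside S) (θ ^ 2) e) ≤
        b0 ^ S.card := by
      intro S hS
      rw [hI, Finset.mem_filter] at hS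
      rw [M_A1, hb0, mul_pow, ← inv_pow, ← inv_pow, ← pow_mul, mul_comm d S.card]
      refine mul_le_mul_of_nonneg_left ?_ (by positivity)
      have hθ2 : 0 ≤ θ ^ 2 - 1 := by nlinarith
      refine (one_add_pow_le (by nlinarith [mul_nonneg hp0 hθ2]) _).trans ?_
      rw [← Real.exp_nat_mul]
      refine Real.exp_le_exp.mpr ?_
      have e1 : (((inside S).card : ℕ) : ℝ) ≤ S.card * s0 := by
        have := (card_inside S).trans (Nat.mul_le_mul_left S.card hS.2.2)
        exact_mod_cast this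
      have e2 : ν.real (Set.Iio x) * (θ ^ 2 - 1) ≤ ν.real (Set.Iio x) * θ ^ 2 := by
        nlinarith
      calc ν.real (Set.Iio x) * (θ ^ 2 - 1) * ((inside S).card : ℕ)
          ≤ ν.real (Set.Iio x) * θ ^ 2 * (S.card * s0) :=
            mul_le_mul e2 e1 (by positivity) (by positivity)
        _ = _ := by ring
    refine (Finset.sum_le_sum h1).trans ?_
    have hmaps : ∀ S ∈ I, S.card ∈ Icc 1 s0 := by
      intro S hS
      rw [hI, Finset.mem_filter] at hS
      rw [Finset.mem_Icc]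
      exact ⟨Finset.card_pos.mpr hS.2.1, hS.2.2⟩
    rw [← Finset.sum_fiberwise_of_maps_to hmaps]
    have h2 : ∀ s ∈ Icc 1 s0, ∑ S ∈ I.filter (fun S => S.card = s), b0 ^ S.card ≤ b := by
      intro s hs
      rw [Finset.mem_Icc] at hs
      have e1 : ∑ S ∈ I.filter (fun S => S.card = s), b0 ^ S.card =
          ∑ _S ∈ I.filter (fun S => S.card = s), b0 ^ s := by
        refine Finset.sum_congr rfl fun S hS => ?_
        rw [(Finset.mem_filter.mp hS).2]
      rw [e1, Finset.sum_const, nsmul_eq_mul]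
      have e2 : (I.filter (fun S => S.card = s)).card ≤ n ^ s := by
        have : I.filter (fun S => S.card = s) ⊆ powersetCard s (univ : Finset (Fin n)) := by
          intro S hS
          rw [Finset.mem_powersetCard]
          exact ⟨Finset.subset_univ _, (Finset.mem_filter.mp hS).2⟩
        refine (Finset.card_le_card this).trans ?_
        rw [Finset.card_powersetCard, Finset.card_univ, Fintype.card_fin]
        exact Nat.choose_le_pow n s
      have e3 : (((I.filter (fun S => S.card = s)).card : ℕ) : ℝ) ≤ (n : ℝ) ^ s := by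
        exact_mod_cast e2
      have e4 : (n : ℝ) ^ s * b0 ^ s = b ^ s := by rw [hb, ← mul_pow]
      calc (((I.filter (fun S => S.card = s)).card : ℕ) : ℝ) * b0 ^ s
          ≤ (n : ℝ) ^ s * b0 ^ s := mul_le_mul_of_nonneg_right e3 (by positivity)
        _ = b ^ s := e4
        _ ≤ b := by
            have hbn : 0 ≤ b := by rw [hb]; positivity
            calc b ^ s ≤ b ^ 1 := pow_le_pow_of_le_one hbn hb1 hs.1
              _ = b := pow_one b
    refine (Finset.sum_le_sum h2).trans ?_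
    rw [Finset.sum_const, Nat.card_Icc, nsmul_eq_mul]
    simp
  · intro ω
    exact Finset.sum_nonneg fun S _ => hnn S ω
  · rintro ω ⟨S, hne, hcard, hS⟩
    have hi : S ∈ I := by
      rw [hI, Finset.mem_filter]
      exact ⟨Finset.mem_univ _, hne, hcard⟩
    refine le_trans ?_ (Finset.single_le_sum (f := fun S => (θ ^ (S.card * d))⁻¹ *
      F x x (A1 (inside S) (θ ^ 2)) ω) (fun S _ => hnn S ω) hi)
    rw [F_A1, inv_mul_eq_div, one_le_div (by positivity), ← pow_mul]
    exact pow_le_pow_right₀ hθ (cnt_inside S x ω d hS)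

/-- edges leaving a set -/
noncomputable def bdry {n : ℕ} (S : Finset (Fin n)) : Finset (Sym2 (Fin n)) :=
  (S ×ˢ Sᶜ).image (fun q => s(q.1, q.2))

theorem bdry_inj {n : ℕ} (S : Finset (Fin n)) :
    Set.InjOn (fun q : Fin n × Fin n => s(q.1, q.2)) (S ×ˢ Sᶜ : Finset (Fin n × Fin n)) := by
  intro a ha b hb h
  rw [Finset.mem_coe, Finset.mem_product, Finset.mem_compl] at ha hb
  simp only [Sym2.eq_iff] at h
  rcases h with h | h
  · exact Prod.ext h.1 h.2
  · exact absurd (h.1 ▸ ha.1) hb.2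

theorem card_bdry {n : ℕ} (S : Finset (Fin n)) : (bdry S).card = S.card * (n - S.card) := by
  unfold bdry
  rw [Finset.card_image_of_injOn (bdry_inj S), Finset.card_product, Finset.card_compl,
    Fintype.card_fin]

theorem cnt_bdry {n : ℕ} (S : Finset (Fin n)) (x : ℝ) (ω : Sym2 (Fin n) → ℝ) :
    cnt (bdry S) x ω = (crossing x ω S).card := by
  classical
  unfold cnt bdry
  rw [Finset.filter_image]
  rw [Finset.card_image_of_injOn ((bdry_inj S).mono (by
    intro a ha
    exact Finset.mem_coe.mpr (Finset.mem_of_mem_filter a (Finset.mem_coe.mp ha))))]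
  congr 1
  ext q
  unfold crossing
  simp [and_assoc]

/-- (E4) a large set with few edges leaving it -/
theorem L4 {n : ℕ} (x : ℝ) (t s0 : ℕ) :
    (Measure.pi fun _ : Sym2 (Fin n) => ν).real {ω | ∃ S : Finset (Fin n), s0 < S.card ∧
      2 * S.card ≤ n ∧ (crossing x ω S).card ≤ t} ≤
      2 ^ n * (2 ^ t * Real.exp (-(ν.real (Set.Iio x) * s0 * n / 4))) := by
  classical
  have hp0 := p_nonneg ν x
  have hp1 := p_le_one ν x
  set I : Finset (Finset (Fin n)) :=
    (univ : Finset (Finset (Fin n))).filter (fun S => s0 < S.card ∧ 2 * S.card ≤ n) with hI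
  have hnn : ∀ (S : Finset (Fin n)) ω, 0 ≤ (2 : ℝ) ^ t *
      F x x (A1 (bdry S) (1 / 2)) ω := fun S ω =>
    mul_nonneg (by positivity) (F_nonneg x x _ (A1_nn _ (by norm_num)) ω)
  have h := markov ν (le_refl x) I (fun _ => (2 : ℝ) ^ t)
    (fun S => A1 (bdry S) (1 / 2)) {ω | ∃ S : Finset (Fin n), s0 < S.card ∧
      2 * S.card ≤ n ∧ (crossing x ω S).card ≤ t} ?_ ?_
  · refine h.trans ?_
    have h1 : ∀ S ∈ I, (2 : ℝ) ^ t * ∏ e, mean ν x x (A1 (bdry S) (1 / 2) e) ≤
        2 ^ t * Real.exp (-(ν.real (Set.Iio x) * s0 * n / 4)) := by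
      intro S hS
      rw [hI, Finset.mem_filter] at hS
      refine mul_le_mul_of_nonneg_left ?_ (by positivity)
      rw [M_A1]
      refine (one_add_pow_le (by nlinarith) _).trans ?_
      refine Real.exp_le_exp.mpr ?_
      rw [card_bdry]
      have e1 : (s0 : ℝ) ≤ S.card := by exact_mod_cast hS.2.1.le
      have e2 : (n : ℝ) / 2 ≤ ((n - S.card : ℕ) : ℝ) := by
        rw [Nat.cast_sub (by omega)]
        have : (2 : ℝ) * S.card ≤ n := by exact_mod_cast hS.2.2
        linarith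
      have e3 : (s0 : ℝ) * (n / 2) ≤ (S.card : ℝ) * ((n - S.card : ℕ) : ℝ) :=
        mul_le_mul e1 e2 (by positivity) (by positivity)
      push_cast
      push_cast at e3
      nlinarith [mul_le_mul_of_nonneg_left e3 hp0]
    refine (Finset.sum_le_sum h1).trans ?_
    rw [Finset.sum_const, nsmul_eq_mul]
    refine mul_le_mul_of_nonneg_right ?_ (by positivity)
    have h2 : I.card ≤ 2 ^ n := by
      refine (Finset.card_filter_le _ _).trans ?_
      rw [Finset.card_univ, Fintype.card_finset, Fintype.card_fin]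
    exact_mod_cast h2
  · intro ω
    exact Finset.sum_nonneg fun S _ => hnn S ω
  · rintro ω ⟨S, hs, hcard, hS⟩
    have hi : S ∈ I := by
      rw [hI, Finset.mem_filter]
      exact ⟨Finset.mem_univ _, hs, hcard⟩
    refine le_trans ?_ (Finset.single_le_sum (f := fun S => (2 : ℝ) ^ t *
      F x x (A1 (bdry S) (1 / 2)) ω) (fun S _ => hnn S ω) hi)
    rw [F_A1, cnt_bdry, one_div, inv_pow]
    rw [← div_eq_mul_inv, one_le_div (by positivity)]
    exact pow_le_pow_right₀ (by norm_num) hS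

/-- (E5) many bad pairs -/
theorem L5 {n : ℕ} (x θ : ℝ) (hθ : 1 ≤ θ) (k t : ℕ) (ht : 0 < t) :
    (Measure.pi fun _ : Sym2 (Fin n) => ν).real {ω | t ≤ 2 * (badPairs x k ω).card} ≤
      (n : ℝ) ^ 2 * ((2 / t * (θ ^ k)⁻¹) * (ν.real (Set.Iio x) *
        Real.exp (ν.real (Set.Iio x) * (θ - 1) * n))) := by
  classical
  have hθ0 : 0 < θ := by linarith
  have hD : 0 < θ ^ k := pow_pos hθ0 _
  have ht0 : (0 : ℝ) < t := by exact_mod_cast ht
  have hp0 := p_nonneg ν x
  have hp1 := p_le_one ν x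
  have hc : 0 ≤ 2 / (t : ℝ) * (θ ^ k)⁻¹ := by positivity
  set A : Fin n × Fin n → Sym2 (Fin n) → ℝ × ℝ × ℝ := fun i =>
    A2 (estar i.1 {i.2}) (estar i.1 (univ \ {i.1, i.2})) θ with hA
  have hdisj : ∀ i : Fin n × Fin n, Disjoint (estar i.1 {i.2}) (estar i.1 (univ \ {i.1, i.2})) := by
    intro i
    rw [Finset.disjoint_left]
    intro e he he2
    rw [mem_estar] at he he2
    obtain ⟨w, hw, rfl⟩ := he
    obtain ⟨u, hu, hu2⟩ := he2
    rw [Finset.mem_singleton] at hw
    subst hw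
    rw [Finset.mem_sdiff, Finset.mem_insert, Finset.mem_singleton, not_or] at hu
    rw [Sym2.eq_iff] at hu2
    rcases hu2 with h | h
    · exact hu.2.2 h.2
    · exact hu.2.1 h.2
  have hnn : ∀ (i : Fin n × Fin n) ω, 0 ≤ (2 / (t : ℝ) * (θ ^ k)⁻¹) * F x x (A i) ω :=
    fun i ω => mul_nonneg hc (F_nonneg x x _ (A2_nn _ _ hθ0.le) ω)
  have h := markov ν (le_refl x) (univ : Finset (Fin n × Fin n))
    (fun _ => 2 / (t : ℝ) * (θ ^ k)⁻¹) A {ω | t ≤ 2 * (badPairs x k ω).card} ?_ ?_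
  · refine h.trans ?_
    have h1 : ∀ i ∈ (univ : Finset (Fin n × Fin n)),
        (2 / (t : ℝ) * (θ ^ k)⁻¹) * ∏ e, mean ν x x (A i e) ≤
        (2 / t * (θ ^ k)⁻¹) * (ν.real (Set.Iio x) *
        Real.exp (ν.real (Set.Iio x) * (θ - 1) * n)) := by
      intro i _
      refine mul_le_mul_of_nonneg_left ?_ hc
      simp only [hA]
      rw [M_A2 ν (hdisj i), card_estar, card_estar, Finset.card_singleton, pow_one]
      refine mul_le_mul_of_nonneg_left ?_ hp0
      refine (one_add_pow_le (by nlinarith) _).trans ?_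
      refine Real.exp_le_exp.mpr ?_
      refine mul_le_mul_of_nonneg_left ?_ (mul_nonneg hp0 (by linarith))
      have : (univ \ {i.1, i.2} : Finset (Fin n)).card ≤ n :=
        (Finset.card_le_univ _).trans (le_of_eq (Fintype.card_fin n))
      exact_mod_cast this
    refine (Finset.sum_le_sum h1).trans ?_
    rw [Finset.sum_const, nsmul_eq_mul, Finset.card_univ, Fintype.card_prod, Fintype.card_fin]
    push_cast
    rw [← pow_two]
  · intro ω
    exact Finset.sum_nonneg fun i _ => hnn i ω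
  · intro ω hω
    have hω' : t ≤ 2 * (badPairs x k ω).card := hω
    have h1 : ∀ i ∈ badPairs x k ω, (2 / (t : ℝ)) ≤
        (2 / (t : ℝ) * (θ ^ k)⁻¹) * F x x (A i) ω := by
      intro i hi
      unfold badPairs at hi
      rw [Finset.mem_filter] at hi
      obtain ⟨_, hne, hlt, hdeg⟩ := hi
      simp only [hA]
      rw [F_A2 (hdisj i) θ x ω]
      · rw [mul_assoc]
        refine le_mul_of_one_le_right (by positivity) ?_
        rw [inv_mul_eq_div, one_le_div hD]
        refine pow_le_pow_right₀ hθ ?_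
        rw [cnt_estar]
        unfold deg at hdeg
        have h3 : univ.filter (fun u => u ≠ i.1 ∧ ω s(i.1, u) < x) ⊆
            insert i.2 ((univ \ {i.1, i.2}).filter (fun u => ω s(i.1, u) < x)) := by
          intro u hu
          rw [Finset.mem_filter] at hu
          rw [Finset.mem_insert, Finset.mem_filter, Finset.mem_sdiff, Finset.mem_insert,
            Finset.mem_singleton]
          by_cases h2 : u = i.2
          · exact Or.inl h2
          · refine Or.inr ⟨⟨Finset.mem_univ _, ?_⟩, hu.2.2⟩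
            rintro (h4 | h4)
            · exact hu.2.1 h4
            · exact h2 h4
        have h4 := (Finset.card_le_card h3).trans (Finset.card_insert_le _ _)
        omega
      · intro e he
        rw [mem_estar] at he
        obtain ⟨w, hw, rfl⟩ := he
        rw [Finset.mem_singleton] at hw
        rw [hw]
        exact hlt
    have h2 : (1 : ℝ) ≤ ∑ i ∈ badPairs x k ω, (2 / (t : ℝ)) := by
      rw [Finset.sum_const, nsmul_eq_mul]
      have : (t : ℝ) ≤ 2 * ((badPairs x k ω).card : ℝ) := by exact_mod_cast hω'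
      rw [mul_div_assoc', one_le_div ht0]
      linarith
    refine h2.trans ((Finset.sum_le_sum h1).trans ?_)
    exact Finset.sum_le_sum_of_subset_of_nonneg (Finset.subset_univ _)
      (fun i _ _ => hnn i ω)

/-- the failure probability of connectivity -/
theorem fail_le {n : ℕ} (hn : 0 < n) (x : ℝ) (θ1 θ2 θ3 : ℝ) (h10 : 0 < θ1) (h11 : θ1 ≤ 1)
    (h2 : 1 ≤ θ2) (h3 : 1 ≤ θ3) (k m d1 s0 t : ℕ) (ht : 0 < t) (hk : d1 + m ≤ k) (b : ℝ)
    (hb : b = n * ((θ3 ^ d1)⁻¹ * Real.exp (ν.real (Set.Iio x) * θ3 ^ 2 * s0))) (hb1 : b ≤ 1) :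
    (Measure.pi fun _ : Sym2 (Fin n) => ν).real {ω | ¬ (mutualGraph k ω).Connected} ≤
      n * ((θ1 ^ (d1 + m))⁻¹ * Real.exp (ν.real (Set.Iio x) * (θ1 - 1) * (n - 1 : ℕ))) +
      (n : ℝ) ^ (m + 1) * ((θ2 ^ (m * (k + 1 - m)))⁻¹ * (ν.real (Set.Iio x) ^ m *
        Real.exp (ν.real (Set.Iio x) * (θ2 - 1) * (m * n : ℕ)))) +
      s0 * b +
      2 ^ n * (2 ^ t * Real.exp (-(ν.real (Set.Iio x) * s0 * n / 4))) +
      (n : ℝ) ^ 2 * ((2 / t * (θ2 ^ k)⁻¹) * (ν.real (Set.Iio x) *
        Real.exp (ν.real (Set.Iio x) * (θ2 - 1) * n))) := by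
  set S1 : Set (Sym2 (Fin n) → ℝ) := {ω | ∃ v, deg x ω v < d1 + m} with hS1
  set S2 : Set (Sym2 (Fin n) → ℝ) := {ω | ∃ v : Fin n,
      m ≤ (univ.filter (fun w => w ≠ v ∧ ω s(v, w) < x ∧ k < deg x ω w)).card} with hS2
  set S3 : Set (Sym2 (Fin n) → ℝ) := {ω | ∃ S : Finset (Fin n), S.Nonempty ∧
      S.card ≤ s0 ∧ ∀ v ∈ S, d1 ≤ (S.filter (fun w => w ≠ v ∧ ω s(v, w) < x)).card} with hS3
  set S4 : Set (Sym2 (Fin n) → ℝ) := {ω | ∃ S : Finset (Fin n), s0 < S.card ∧
      2 * S.card ≤ n ∧ (crossing x ω S).card ≤ t} with hS4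
  set S5 : Set (Sym2 (Fin n) → ℝ) := {ω | t ≤ 2 * (badPairs x k ω).card} with hS5
  have hsub : {ω : Sym2 (Fin n) → ℝ | ¬ (mutualGraph k ω).Connected} ⊆
      (((S1 ∪ S2) ∪ S3) ∪ S4) ∪ S5 := by
    intro ω hω
    by_contra hcon
    simp only [Set.mem_union, not_or] at hcon
    obtain ⟨⟨⟨⟨n1, n2⟩, n3⟩, n4⟩, n5⟩ := hcon
    apply hω
    simp only [hS1, hS2, hS3, hS4, hS5, Set.mem_ofPred_eq, not_exists, not_and, not_lt,
      not_le] at n1 n2 n3 n4 n5
    refine conn_of hn (x := x) (m := m) (d1 := d1) (s0 := s0) n1 hk n2 ?_ ?_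
    · intro S hne hcard
      have := n3 S hne hcard
      push Not at this
      exact this
    · intro S hs hcard
      have := n4 S hs hcard
      omega
  have hle := measureReal_mono (μ := Measure.pi fun _ : Sym2 (Fin n) => ν) hsub
  refine hle.trans ?_
  have u1 := measureReal_union_le (μ := Measure.pi fun _ : Sym2 (Fin n) => ν)
    (((S1 ∪ S2) ∪ S3) ∪ S4) S5
  have u2 := measureReal_union_le (μ := Measure.pi fun _ : Sym2 (Fin n) => ν)
    ((S1 ∪ S2) ∪ S3) S4
  have u3 := measureReal_union_le (μ := Measure.pi fun _ : Sym2 (Fin n) => ν) (S1 ∪ S2) S3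
  have u4 := measureReal_union_le (μ := Measure.pi fun _ : Sym2 (Fin n) => ν) S1 S2
  have b1 := L1 ν (n := n) x θ1 h10 h11 (d1 + m)
  have b2 := L2 ν (n := n) x θ2 h2 m k
  have b3 := L3 ν (n := n) x θ3 h3 d1 s0 b hb hb1
  have b4 := L4 ν (n := n) x t s0
  have b5 := L5 ν (n := n) x θ2 h2 k t ht
  linarith

end Pool.Agent.R982.Mut
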