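import Mathlib
import Pool.Agent.R982.MutD

/-!
# Asymptotics for the upper threshold
-/

open Finset MeasureTheory Filter

namespace Pool.Agent.R982.Mut

theorem T1_bound {ε Λ δ p C : ℝ} {n k m d1 : ℕ} (hε0 : 0 < ε) (hε1 : ε < 1 / 4)
    (hΛ0 : 0 < Λ) (hδΛ : δ * Λ = ε) (hεexp : ε = Real.exp (-Λ)) (hk0 : (0 : ℝ) < k)
    (hnpos : 0 < n) (hp0 : 0 < p) (hp1 : p < 1) (hpn : p * n = (1 - ε) * k)
    (hd1b : (d1 : ℝ) < δ * k + 1) (hn_le : (n : ℝ) ≤ Real.exp ((1 - 4 * ε) * k))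
    (hCa : Real.exp ((1 + m) * Λ + 1) ≤ C) :
    n * ((ε ^ (d1 + m))⁻¹ * Real.exp (p * (ε - 1) * (n - 1 : ℕ))) ≤
      C * Real.exp (-(ε * k)) := by
  have e1 : (ε ^ (d1 + m))⁻¹ = Real.exp ((d1 + m : ℕ) * Λ) := by
    conv_lhs => rw [hεexp]
    rw [← Real.exp_nat_mul, ← Real.exp_neg]
    congr 1; ring
  rw [e1]
  have e2 : (n : ℝ) * (Real.exp ((d1 + m : ℕ) * Λ) * Real.exp (p * (ε - 1) * (n - 1 : ℕ))) ≤
      Real.exp ((1 - 4 * ε) * k) *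
        (Real.exp ((d1 + m : ℕ) * Λ) * Real.exp (p * (ε - 1) * (n - 1 : ℕ))) :=
    mul_le_mul_of_nonneg_right hn_le (by positivity)
  refine e2.trans ?_
  rw [← Real.exp_add, ← Real.exp_add]
  have e3 : Real.exp ((1 - 4 * ε) * k + (((d1 + m : ℕ) : ℝ) * Λ + p * (ε - 1) * (n - 1 : ℕ))) ≤
      Real.exp ((1 + m) * Λ + 1) * Real.exp (-(ε * k)) := by
    rw [← Real.exp_add]
    refine Real.exp_le_exp.mpr ?_
    have h1 : (((n - 1 : ℕ) : ℝ)) = n - 1 := by rw [Nat.cast_sub hnpos]; simp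
    rw [h1]
    push_cast
    have h2 : p * (ε - 1) * ((n : ℝ) - 1) = -((1 - ε) ^ 2 * k) + (1 - ε) * p := by
      have : p * (ε - 1) * ((n : ℝ) - 1) = (ε - 1) * (p * n) - (ε - 1) * p := by ring
      rw [this, hpn]; ring
    rw [h2]
    have h3 : ((d1 : ℝ) + m) * Λ ≤ ε * k + (1 + m) * Λ := by
      have : (d1 : ℝ) * Λ ≤ (δ * k + 1) * Λ := mul_le_mul_of_nonneg_right hd1b.le hΛ0.le
      have h4 : (δ * k + 1) * Λ = ε * k + Λ := by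
        have : (δ * k + 1) * Λ = (δ * Λ) * k + Λ := by ring
        rw [this, hδΛ]
      linarith
    have h5 : (1 - ε) * p ≤ 1 := by nlinarith
    have h6 : (1 - 4 * ε) * k + ε * k - (1 - ε) ^ 2 * k ≤ -(ε * k) := by
      have : (1 - 4 * ε) * k + ε * k - (1 - ε) ^ 2 * k = -(ε * k) - ε ^ 2 * k := by ring
      rw [this]
      have := mul_nonneg (sq_nonneg ε) hk0.le
      linarith
    linarith
  exact e3.trans (mul_le_mul_of_nonneg_right hCa (Real.exp_pos _).le)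

theorem T2_bound {ε β θ2 p C : ℝ} {n k m : ℕ} (hε0 : 0 < ε) (hε1 : ε < 1 / 4)
    (hβ0 : 0 < β) (hmβ : 2 ≤ m * β) (hθ2_0 : 0 < θ2)
    (hlogθ2 : Real.log θ2 = β + ε) (hθ2ε : (1 - ε) * (θ2 - 1) = ε) (hk0 : (0 : ℝ) < k)
    (hmk : m ≤ k) (hp0 : 0 < p) (hpn : p * n = (1 - ε) * k)
    (hn_le' : (n : ℝ) ≤ Real.exp k) (hCb : Real.exp (m ^ 2 * (β + ε)) ≤ C) :
    (n : ℝ) ^ (m + 1) * ((θ2 ^ (m * (k + 1 - m)))⁻¹ * (p ^ m *
        Real.exp (p * (θ2 - 1) * (m * n : ℕ)))) ≤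
      C * ((k : ℝ) ^ m * Real.exp (-(k : ℝ))) := by
  have e1 : (n : ℝ) ^ m * p ^ m ≤ (k : ℝ) ^ m := by
    rw [← mul_pow]
    refine pow_le_pow_left₀ (by positivity) ?_ m
    rw [mul_comm, hpn]
    nlinarith
  have e2 : Real.exp (p * (θ2 - 1) * (m * n : ℕ)) = Real.exp (ε * k * m) := by
    congr 1
    push_cast
    have : p * (θ2 - 1) * ((m : ℝ) * n) = (p * n) * (θ2 - 1) * m := by ring
    rw [this, hpn]
    have : (1 - ε) * k * (θ2 - 1) * m = ((1 - ε) * (θ2 - 1)) * k * m := by ring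
    rw [this, hθ2ε]
  have e3 : (θ2 ^ (m * (k + 1 - m)))⁻¹ ≤ Real.exp (-((β + ε) * (m * k - m ^ 2))) := by
    have h1 : θ2 = Real.exp (β + ε) := by rw [← hlogθ2, Real.exp_log hθ2_0]
    rw [h1, ← Real.exp_nat_mul, ← Real.exp_neg]
    refine Real.exp_le_exp.mpr ?_
    have h2 : (m : ℝ) * k - m ^ 2 ≤ ((m * (k + 1 - m) : ℕ) : ℝ) := by
      have hle : m ≤ k + 1 := by omega
      rw [Nat.cast_mul, Nat.cast_sub hle]
      push_cast
      nlinarith [Nat.cast_nonneg (α := ℝ) m]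
    have h3 := mul_le_mul_of_nonneg_right h2 (by linarith : 0 ≤ β + ε)
    linarith
  have f1 : (n : ℝ) ^ (m + 1) * ((θ2 ^ (m * (k + 1 - m)))⁻¹ * (p ^ m *
      Real.exp (p * (θ2 - 1) * (m * n : ℕ))))
      = n * ((n : ℝ) ^ m * p ^ m) * ((θ2 ^ (m * (k + 1 - m)))⁻¹ *
        Real.exp (p * (θ2 - 1) * (m * n : ℕ))) := by rw [pow_succ]; ring
  have f2 : n * ((n : ℝ) ^ m * p ^ m) * ((θ2 ^ (m * (k + 1 - m)))⁻¹ *
        Real.exp (p * (θ2 - 1) * (m * n : ℕ))) ≤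
      Real.exp k * (k : ℝ) ^ m * (Real.exp (-((β + ε) * (m * k - m ^ 2))) *
        Real.exp (ε * k * m)) := by
    rw [e2]
    refine mul_le_mul ?_ ?_ (by positivity) (by positivity)
    · exact mul_le_mul hn_le' e1 (by positivity) (by positivity)
    · exact mul_le_mul_of_nonneg_right e3 (by positivity)
  have f3 : Real.exp k * (k : ℝ) ^ m * (Real.exp (-((β + ε) * (m * k - m ^ 2))) *
        Real.exp (ε * k * m)) = (k : ℝ) ^ m * Real.exp (k - β * m * k + m ^ 2 * (β + ε)) := by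
    rw [mul_comm (Real.exp k), mul_assoc, ← Real.exp_add, ← Real.exp_add]
    congr 2; ring
  have f4 : (k : ℝ) ^ m * Real.exp (k - β * m * k + m ^ 2 * (β + ε)) ≤
      (k : ℝ) ^ m * (Real.exp (-(k : ℝ)) * Real.exp (m ^ 2 * (β + ε))) := by
    refine mul_le_mul_of_nonneg_left ?_ (by positivity)
    rw [← Real.exp_add]
    refine Real.exp_le_exp.mpr ?_
    have := mul_le_mul_of_nonneg_right hmβ hk0.le
    linarith
  have f5 : (k : ℝ) ^ m * (Real.exp (-(k : ℝ)) * Real.exp (m ^ 2 * (β + ε))) ≤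
      (k : ℝ) ^ m * (Real.exp (-(k : ℝ)) * C) := by
    refine mul_le_mul_of_nonneg_left ?_ (by positivity)
    exact mul_le_mul_of_nonneg_left hCb (Real.exp_pos _).le
  have f6 : (k : ℝ) ^ m * (Real.exp (-(k : ℝ)) * C) =
      C * ((k : ℝ) ^ m * Real.exp (-(k : ℝ))) := by ring
  rw [f1]
  exact ((f2.trans (le_of_eq f3)).trans (f4.trans f5)).trans (le_of_eq f6)

theorem T4_bound {ε η θ3 p : ℝ} {n k t s0 : ℕ} (hε1 : ε < 1 / 4) (hε0 : 0 < ε)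
    (hη0 : 0 < η) (hη : η * (32 * θ3 ^ 2) = 1) (hθ3_0 : 0 < θ3) (hk0 : (0 : ℝ) < k)
    (hn0 : (0 : ℝ) < n) (hpn : p * n = (1 - ε) * k) (hkn : (k : ℝ) ≤ n)
    (hs0c : (n : ℝ) / (2 * θ3 ^ 2) ≤ s0) (hta : (t : ℝ) ≤ η * k * n) (hkη' : 2 ≤ η * k) :
    (2 : ℝ) ^ n * (2 ^ t * Real.exp (-(p * s0 * n / 4))) ≤ Real.exp (-(k : ℝ)) := by
  have h2e : (2 : ℝ) ≤ Real.exp 1 := by
    have := Real.add_one_le_exp (1 : ℝ); linarith
  have e1 : ∀ j : ℕ, (2 : ℝ) ^ j ≤ Real.exp j := by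
    intro j
    calc (2 : ℝ) ^ j ≤ (Real.exp 1) ^ j := pow_le_pow_left₀ (by norm_num) h2e j
      _ = Real.exp j := by rw [← Real.exp_nat_mul]; congr 1; ring
  have e2 : 2 * (η * k * n) ≤ p * s0 * n / 4 := by
    have h1 : p * s0 * n / 4 = (p * n) * s0 / 4 := by ring
    rw [h1, hpn]
    have h0 : (n : ℝ) / (2 * θ3 ^ 2) = 16 * η * n := by
      rw [div_eq_iff (by positivity)]
      have : 16 * η * n * (2 * θ3 ^ 2) = (η * (32 * θ3 ^ 2)) * n := by ring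
      rw [this, hη, one_mul]
    rw [h0] at hs0c
    have hnn : 0 ≤ (1 - ε) * (k : ℝ) := mul_nonneg (by linarith) hk0.le
    have h2 := mul_le_mul_of_nonneg_left hs0c hnn
    have h3 : (1 - ε) * k * (16 * η * n) = 16 * (1 - ε) * (η * k * n) := by ring
    rw [h3] at h2
    have h4 : 0 < η * k * n := by positivity
    have h5 : 8 * (η * k * n) ≤ 16 * (1 - ε) * (η * k * n) :=
      mul_le_mul_of_nonneg_right (by linarith) h4.le
    linarith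
  have g1 : (2 : ℝ) ^ n * (2 ^ t * Real.exp (-(p * s0 * n / 4)))
      ≤ Real.exp n * (Real.exp t * Real.exp (-(2 * (η * k * n)))) := by
    refine mul_le_mul (e1 n) ?_ (by positivity) (by positivity)
    refine mul_le_mul (e1 t) ?_ (by positivity) (by positivity)
    exact Real.exp_le_exp.mpr (by linarith)
  refine g1.trans ?_
  have g2 : Real.exp n * (Real.exp t * Real.exp (-(2 * (η * k * n)))) =
      Real.exp (n + t - 2 * (η * k * n)) := by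
    rw [← Real.exp_add, ← Real.exp_add]; congr 1; ring
  rw [g2]
  refine Real.exp_le_exp.mpr ?_
  have : 2 * (n : ℝ) ≤ η * k * n := mul_le_mul_of_nonneg_right hkη' hn0.le
  linarith

theorem T5_bound {ε β θ2 p C η : ℝ} {n k t : ℕ} (hε0 : 0 < ε) (hε1 : ε < 1 / 4)
    (hθ2_0 : 0 < θ2) (hlogθ2 : Real.log θ2 = β + ε) (hθ2ε : (1 - ε) * (θ2 - 1) = ε)
    (hk0 : (0 : ℝ) < k) (hn0 : (0 : ℝ) < n) (hη0 : 0 < η)
    (hpn : p * n = (1 - ε) * k) (ht0r : (0 : ℝ) < t) (htc : η * k * n / 2 ≤ t)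
    (hCc : 4 / η ≤ C) :
    (n : ℝ) ^ 2 * ((2 / t * (θ2 ^ k)⁻¹) * (p * Real.exp (p * (θ2 - 1) * n))) ≤
      C * Real.exp (-(β * k)) := by
  have e1 : (θ2 ^ k)⁻¹ = Real.exp (-((β + ε) * k)) := by
    have h1 : θ2 = Real.exp (β + ε) := by rw [← hlogθ2, Real.exp_log hθ2_0]
    rw [h1, ← Real.exp_nat_mul, ← Real.exp_neg]
    congr 1; ring
  have e2 : Real.exp (p * (θ2 - 1) * n) = Real.exp (ε * k) := by
    congr 1
    have : p * (θ2 - 1) * (n : ℝ) = (p * n) * (θ2 - 1) := by ring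
    rw [this, hpn]
    have : (1 - ε) * k * (θ2 - 1) = ((1 - ε) * (θ2 - 1)) * k := by ring
    rw [this, hθ2ε]
  rw [e1, e2]
  have e3 : (n : ℝ) ^ 2 * ((2 / t * Real.exp (-((β + ε) * k))) * (p * Real.exp (ε * k))) =
      (2 / t * (n * (p * n))) * Real.exp (-(β * k)) := by
    have : Real.exp (-(β * k)) = Real.exp (-((β + ε) * k)) * Real.exp (ε * k) := by
      rw [← Real.exp_add]; congr 1; ring
    rw [this]; ring
  rw [e3]
  refine mul_le_mul_of_nonneg_right (le_trans ?_ hCc) (Real.exp_pos _).le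
  rw [hpn, div_mul_eq_mul_div, div_le_div_iff₀ ht0r hη0]
  have h1 : 2 * (η * k * n) ≤ 4 * (t : ℝ) := by linarith
  have h2 : 0 ≤ ε * (η * k * n) := by positivity
  have h3 : 2 * (n * ((1 - ε) * k)) * η = 2 * (η * k * n) - 2 * (ε * (η * k * n)) := by ring
  rw [h3]; linarith

theorem hb_bound {ε δ θ3 p : ℝ} {n k d1 s0 : ℕ} (hδ0 : 0 < δ) (hθ3 : θ3 = Real.exp (4 / δ))
    (hε0 : 0 < ε) (hk0 : (0 : ℝ) < k) (hn0 : (0 : ℝ) < n)
    (hp0 : 0 < p) (hpn : p * n = (1 - ε) * k) (hd1a : δ * k ≤ d1)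
    (hs0a : (s0 : ℝ) ≤ n / θ3 ^ 2) (hn_le' : (n : ℝ) ≤ Real.exp k) :
    (n : ℝ) * ((θ3 ^ d1)⁻¹ * Real.exp (p * θ3 ^ 2 * s0)) ≤ Real.exp (-(2 * k)) := by
  have hθ3_0 : 0 < θ3 := by rw [hθ3]; exact Real.exp_pos _
  have e1 : (θ3 ^ d1)⁻¹ ≤ Real.exp (-(4 * k)) := by
    rw [hθ3, ← Real.exp_nat_mul, ← Real.exp_neg]
    refine Real.exp_le_exp.mpr ?_
    have : 4 * (k : ℝ) = (δ * k) * (4 / δ) := by field_simp
    have h2 : (δ * k) * (4 / δ) ≤ d1 * (4 / δ) :=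
      mul_le_mul_of_nonneg_right hd1a (by positivity)
    linarith
  have e2 : p * θ3 ^ 2 * s0 ≤ k := by
    have h1 : θ3 ^ 2 * (s0 : ℝ) ≤ n := by
      rw [le_div_iff₀ (by positivity)] at hs0a
      linarith
    have h2 : p * (θ3 ^ 2 * s0) ≤ p * n := mul_le_mul_of_nonneg_left h1 hp0.le
    rw [hpn] at h2
    have h3 : 0 < ε * k := by positivity
    linarith
  have g1 : (n : ℝ) * ((θ3 ^ d1)⁻¹ * Real.exp (p * θ3 ^ 2 * s0)) ≤
      Real.exp k * (Real.exp (-(4 * k)) * Real.exp k) := by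
    refine mul_le_mul hn_le' ?_ (by positivity) (by positivity)
    exact mul_le_mul e1 (Real.exp_le_exp.mpr e2) (by positivity) (by positivity)
  refine g1.trans (le_of_eq ?_)
  rw [← Real.exp_add, ← Real.exp_add]; congr 1; ring

theorem fail_bound {ε : ℝ} (hε0 : 0 < ε) (hε1 : ε < 1 / 4) :
    ∃ (C β : ℝ) (m K0 : ℕ), 0 < C ∧ 0 < β ∧ 0 < K0 ∧
      ∀ (ν : Measure ℝ) [IsProbabilityMeasure ν]
      (_ : ∀ p : ℝ, 0 < p → p < 1 → ∃ x, ν.real (Set.Iio x) = p) (n k : ℕ),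
      K0 ≤ k → k ≤ n → Real.log n ≤ (1 - 4 * ε) * k →
      (Measure.pi fun _ : Sym2 (Fin n) => ν).real {ω | ¬ (mutualGraph k ω).Connected} ≤
        C * Real.exp (-(ε * k)) + C * ((k : ℝ) ^ m * Real.exp (-(k : ℝ))) +
        Real.exp (-(k : ℝ)) + Real.exp (-(k : ℝ)) + C * Real.exp (-(β * k)) := by
  obtain ⟨Λ, hΛ⟩ : ∃ Λ : ℝ, Λ = -Real.log ε := ⟨_, rfl⟩
  have hΛ1 : 1 < Λ := by
    have h1 : Real.log ε < Real.log (1 / 4) := Real.log_lt_log hε0 hε1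
    have h2 : Real.log (1 / 4 : ℝ) = -(2 * Real.log 2) := by
      rw [one_div, Real.log_inv, show (4 : ℝ) = 2 ^ 2 by norm_num, Real.log_pow]
      norm_num
    have h3 := Real.log_two_gt_d9
    rw [h2] at h1
    linarith
  have hΛ0 : 0 < Λ := by linarith
  obtain ⟨δ, hδ⟩ : ∃ δ : ℝ, δ = ε / Λ := ⟨_, rfl⟩
  have hδ0 : 0 < δ := by rw [hδ]; positivity
  have hδ1 : δ < 1 / 4 := by
    rw [hδ, div_lt_iff₀ hΛ0]; nlinarith
  have hδΛ : δ * Λ = ε := by rw [hδ]; field_simp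
  obtain ⟨β, hβ⟩ : ∃ β : ℝ, β = -Real.log (1 - ε) - ε := ⟨_, rfl⟩
  have hβ0 : 0 < β := by
    have h1 : Real.log (1 - ε) < (1 - ε) - 1 :=
      Real.log_lt_sub_one_of_pos (by linarith) (by linarith)
    linarith
  obtain ⟨m, hm⟩ : ∃ m : ℕ, m = ⌈2 / β⌉₊ := ⟨_, rfl⟩
  have hmβ : 2 ≤ m * β := by
    have h1 : 2 / β ≤ m := by rw [hm]; exact Nat.le_ceil _
    rw [div_le_iff₀ hβ0] at h1
    exact h1
  obtain ⟨θ2, hθ2⟩ : ∃ θ2 : ℝ, θ2 = (1 - ε)⁻¹ := ⟨_, rfl⟩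
  have h1ε : 0 < 1 - ε := by linarith
  have hθ2_1 : 1 ≤ θ2 := by
    rw [hθ2]; exact (one_le_inv₀ h1ε).mpr (by linarith)
  have hθ2_0 : 0 < θ2 := by linarith
  have hlogθ2 : Real.log θ2 = β + ε := by rw [hθ2, Real.log_inv]; linarith
  have hθ2ε : (1 - ε) * (θ2 - 1) = ε := by
    rw [hθ2, mul_sub, mul_inv_cancel₀ h1ε.ne']; ring
  obtain ⟨θ3, hθ3⟩ : ∃ θ3 : ℝ, θ3 = Real.exp (4 / δ) := ⟨_, rfl⟩
  have hθ3_1 : 1 ≤ θ3 := by
    rw [hθ3]; exact Real.one_le_exp (by positivity)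
  have hθ3_0 : 0 < θ3 := by linarith
  obtain ⟨η, hη⟩ : ∃ η : ℝ, η = 1 / (32 * θ3 ^ 2) := ⟨_, rfl⟩
  have hη0 : 0 < η := by rw [hη]; positivity
  have hη' : η * (32 * θ3 ^ 2) = 1 := by rw [hη]; field_simp
  obtain ⟨C, hC⟩ : ∃ C : ℝ, C = Real.exp ((1 + m) * Λ + 1) + Real.exp (m ^ 2 * (β + ε)) + 4 / η :=
    ⟨_, rfl⟩
  have hη4 : 0 < 4 / η := by positivity
  have hC1 := Real.exp_pos ((1 + (m : ℝ)) * Λ + 1)
  have hC2 := Real.exp_pos ((m : ℝ) ^ 2 * (β + ε))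
  have hC0 : 0 < C := by rw [hC]; linarith
  have hCa : Real.exp ((1 + m) * Λ + 1) ≤ C := by rw [hC]; linarith
  have hCb : Real.exp (m ^ 2 * (β + ε)) ≤ C := by rw [hC]; linarith
  have hCc : 4 / η ≤ C := by rw [hC]; linarith
  have hεexp : ε = Real.exp (-Λ) := by rw [hΛ, neg_neg, Real.exp_log hε0]
  obtain ⟨K0, hK0⟩ : ∃ K0 : ℕ, K0 = ⌈2 / η⌉₊ + ⌈2 * θ3 ^ 2⌉₊ + (2 * m + 4) := ⟨_, rfl⟩
  refine ⟨C, β, m, K0, hC0, hβ0, by omega, ?_⟩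
  intro ν _ hq n k hK hkn hlog
  -- basic facts
  have hKr : (K0 : ℝ) ≤ k := by exact_mod_cast hK
  have hK0r : (K0 : ℝ) = ((⌈2 / η⌉₊ : ℕ) : ℝ) + ((⌈2 * θ3 ^ 2⌉₊ : ℕ) : ℝ) + (2 * m + 4) := by
    rw [hK0]; push_cast; ring
  have hc1 : 2 / η ≤ ((⌈2 / η⌉₊ : ℕ) : ℝ) := Nat.le_ceil _
  have hc2 : 2 * θ3 ^ 2 ≤ ((⌈2 * θ3 ^ 2⌉₊ : ℕ) : ℝ) := Nat.le_ceil _
  have hm0 : (0 : ℝ) ≤ m := by positivity
  have hηp : 0 < 2 / η := by positivity
  have hθ3p : 0 < 2 * θ3 ^ 2 := by positivity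
  have hkη : 2 / η ≤ k := by linarith
  have hkη' : 2 ≤ η * k := by
    rw [div_le_iff₀ hη0] at hkη; linarith
  have hkθ : 2 * θ3 ^ 2 ≤ k := by linarith
  have hkm : 2 * (m : ℝ) + 4 ≤ k := by linarith
  have hmk : m ≤ k := by
    have : (m : ℝ) ≤ k := by linarith
    exact_mod_cast this
  clear hK0 hK0r hc1 hc2 hKr hK
  have hk0 : (0 : ℝ) < k := by linarith
  have hknr : (k : ℝ) ≤ n := by exact_mod_cast hkn
  have hn0 : (0 : ℝ) < n := by linarith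
  have hnpos : 0 < n := by exact_mod_cast hn0
  have hnη : 2 * θ3 ^ 2 ≤ n := by linarith
  -- the level
  obtain ⟨p, hp⟩ : ∃ p : ℝ, p = (1 - ε) * k / n := ⟨_, rfl⟩
  have hp0 : 0 < p := by rw [hp]; positivity
  have hp1 : p < 1 := by
    rw [hp, div_lt_one hn0]
    have : 0 < ε * k := by positivity
    linarith
  obtain ⟨x, hx⟩ := hq p hp0 hp1
  have hpn : p * n = (1 - ε) * k := by rw [hp]; field_simp
  -- parameters
  obtain ⟨d1, hd1⟩ : ∃ d1 : ℕ, d1 = ⌈δ * k⌉₊ := ⟨_, rfl⟩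
  have hd1a : δ * k ≤ d1 := by rw [hd1]; exact Nat.le_ceil _
  have hd1b : (d1 : ℝ) < δ * k + 1 := by rw [hd1]; exact Nat.ceil_lt_add_one (by positivity)
  have hd1k : d1 + m ≤ k := by
    have : ((d1 + m : ℕ) : ℝ) ≤ k := by
      push_cast
      have : δ * k ≤ 1 / 4 * k := mul_le_mul_of_nonneg_right hδ1.le hk0.le
      linarith
    exact_mod_cast this
  obtain ⟨s0, hs0⟩ : ∃ s0 : ℕ, s0 = ⌊(n : ℝ) / θ3 ^ 2⌋₊ := ⟨_, rfl⟩
  have hs0a : (s0 : ℝ) ≤ n / θ3 ^ 2 := by rw [hs0]; exact Nat.floor_le (by positivity)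
  have hs0b : (n : ℝ) / θ3 ^ 2 < s0 + 1 := by rw [hs0]; exact Nat.lt_floor_add_one _
  have hs0c : (n : ℝ) / (2 * θ3 ^ 2) ≤ s0 := by
    have h1 : (1 : ℝ) ≤ n / (2 * θ3 ^ 2) := by
      rw [le_div_iff₀ (by positivity)]; linarith
    have h2 : (n : ℝ) / θ3 ^ 2 = 2 * (n / (2 * θ3 ^ 2)) := by field_simp
    linarith
  have hs0n : (s0 : ℝ) ≤ n := by
    refine hs0a.trans (div_le_self hn0.le ?_)
    nlinarith
  obtain ⟨t, ht⟩ : ∃ t : ℕ, t = ⌊η * k * n⌋₊ := ⟨_, rfl⟩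
  have hηkn : 2 ≤ η * k * n := by
    have : (1 : ℝ) ≤ n := by exact_mod_cast hnpos
    nlinarith
  have hta : (t : ℝ) ≤ η * k * n := by rw [ht]; exact Nat.floor_le (by positivity)
  have htb : η * k * n < t + 1 := by rw [ht]; exact Nat.lt_floor_add_one _
  have htc : η * k * n / 2 ≤ t := by linarith
  have ht0r : (0 : ℝ) < t := by linarith
  have ht0 : 0 < t := by exact_mod_cast ht0r
  have hlogn : Real.exp (Real.log n) = n := Real.exp_log hn0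
  have hn_le : (n : ℝ) ≤ Real.exp ((1 - 4 * ε) * k) := by
    rw [← hlogn]; exact Real.exp_le_exp.mpr hlog
  have hn_le' : (n : ℝ) ≤ Real.exp k := by
    refine hn_le.trans (Real.exp_le_exp.mpr ?_)
    have : 0 < ε * k := by positivity
    linarith
  -- b
  obtain ⟨b, hb⟩ : ∃ b : ℝ, b = n * ((θ3 ^ d1)⁻¹ * Real.exp (p * θ3 ^ 2 * s0)) := ⟨_, rfl⟩
  have hb0 : 0 ≤ b := by rw [hb]; positivity
  have hb2 : b ≤ Real.exp (-(2 * k)) := by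
    rw [hb]
    exact hb_bound hδ0 hθ3 hε0 hk0 hn0 hp0 hpn hd1a hs0a hn_le'
  have hb1 : b ≤ 1 := hb2.trans (by rw [Real.exp_le_one_iff]; linarith)
  have hmain := fail_le ν hnpos x ε θ2 θ3 hε0 (by linarith) hθ2_1 hθ3_1 k m d1 s0 t ht0 hd1k b
    (by rw [hx]; exact hb) hb1
  rw [hx] at hmain
  refine hmain.trans ?_
  -- term 1
  have T1 := T1_bound (m := m) hε0 hε1 hΛ0 hδΛ hεexp hk0 hnpos hp0 hp1 hpn hd1b hn_le hCa
  have T2 := T2_bound (C := C) hε0 hε1 hβ0 hmβ hθ2_0 hlogθ2 hθ2ε hk0 hmk hp0 hpn hn_le' hCb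
  have T3 : s0 * b ≤ Real.exp (-(k : ℝ)) := by
    have h1 : (s0 : ℝ) * b ≤ Real.exp k * Real.exp (-(2 * k)) :=
      mul_le_mul (hs0n.trans hn_le') hb2 hb0 (by positivity)
    refine h1.trans (le_of_eq ?_)
    rw [← Real.exp_add]; congr 1; ring
  have T4 := T4_bound hε1 hε0 hη0 hη' hθ3_0 hk0 hn0 hpn hknr hs0c hta hkη'
  have T5 := T5_bound (C := C) hε0 hε1 hθ2_0 hlogθ2 hθ2ε hk0 hn0 hη0 hpn ht0r htc hCc
  linarith

end Pool.Agent.R982.Mut
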