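import Mathlib
import Pool.Agent.R982.MutE

/-!
# The lower threshold: isolated vertices
-/

open Finset MeasureTheory Filter

namespace Pool.Agent.R982.Mut

variable (ν : Measure ℝ) [IsProbabilityMeasure ν]

/-- all edges at `i` -/
noncomputable def st {n : ℕ} (i : Fin n) : Finset (Sym2 (Fin n)) := estar i (univ.erase i)

theorem card_st {n : ℕ} (i : Fin n) : (st i).card = n - 1 := by
  unfold st
  rw [card_estar, Finset.card_erase_of_mem (Finset.mem_univ i)]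
  simp

theorem mem_st {n : ℕ} {i : Fin n} {e : Sym2 (Fin n)} : e ∈ st i ↔ ∃ w, w ≠ i ∧ s(i, w) = e := by
  unfold st
  rw [mem_estar]
  simp

theorem st_inter {n : ℕ} {i j : Fin n} (hij : i ≠ j) : st i ∩ st j = {s(i, j)} := by
  ext e
  rw [Finset.mem_inter, mem_st, mem_st, Finset.mem_singleton]
  constructor
  · rintro ⟨⟨a, ha, rfl⟩, ⟨b, hb, hab⟩⟩
    rw [Sym2.eq_iff] at hab
    rcases hab with h | h
    · exact absurd h.1.symm hij
    · rw [h.1]
  · rintro rfl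
    exact ⟨⟨j, hij.symm, rfl⟩, ⟨i, hij, Sym2.eq_swap⟩⟩

theorem card_st_union {n : ℕ} {i j : Fin n} (hij : i ≠ j) : (st i ∪ st j).card = 2 * n - 3 := by
  have h := Finset.card_union_add_card_inter (st i) (st j)
  rw [st_inter hij, card_st, card_st, Finset.card_singleton] at h
  have : 2 ≤ n := by
    have h1 := i.2
    have h2 := j.2
    have h3 : i.1 ≠ j.1 := fun h => hij (Fin.ext h)
    omega
  omega

theorem cnt_union_zero {E : Type*} [DecidableEq E] (S T : Finset E) (x : ℝ) (ω : E → ℝ) :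
    (0 : ℝ) ^ cnt (S ∪ T) x ω = 0 ^ cnt S x ω * 0 ^ cnt T x ω := by
  by_cases h : cnt (S ∪ T) x ω = 0
  · have h1 : cnt S x ω = 0 := by
      unfold cnt at h ⊢
      rw [Finset.card_eq_zero, Finset.filter_eq_empty_iff] at h ⊢
      exact fun e he => h (Finset.mem_union_left _ he)
    have h2 : cnt T x ω = 0 := by
      unfold cnt at h ⊢
      rw [Finset.card_eq_zero, Finset.filter_eq_empty_iff] at h ⊢
      exact fun e he => h (Finset.mem_union_right _ he)
    rw [h, h1, h2]; simp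
  · rw [zero_pow h]
    by_cases h1 : cnt S x ω = 0
    · have h2 : cnt T x ω ≠ 0 := by
        intro h2
        apply h
        unfold cnt at h1 h2 ⊢
        rw [Finset.card_eq_zero, Finset.filter_eq_empty_iff] at h1 h2 ⊢
        intro e he
        rcases Finset.mem_union.mp he with h' | h'
        · exact h1 h'
        · exact h2 h'
      rw [zero_pow h2, mul_zero]
    · rw [zero_pow h1, zero_mul]

theorem mean_low' (x1 x2 θ : ℝ) : mean ν x1 x2 (θ, 1, 1) = 1 + ν.real (Set.Iio x1) * (θ - 1) := by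
  unfold mean; ring

theorem M_A1' {E : Type*} [Fintype E] [DecidableEq E] (T : Finset E) (θ x1 x2 : ℝ) :
    ∏ e, mean ν x1 x2 (A1 T θ e) = (1 + ν.real (Set.Iio x1) * (θ - 1)) ^ T.card := by
  unfold A1
  rw [M_cls ν (Finset.disjoint_empty_right _) (Finset.disjoint_empty_right _)
    (Finset.disjoint_empty_right _), mean_low']
  simp

/-- weights for the event: no edge at `i` below `x1` except possibly ..., the edge `{i, j}` is
between the levels, and a counting weight at `j` -/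
noncomputable def A3 {n : ℕ} (θ : ℝ) (i j : Fin n) : Sym2 (Fin n) → ℝ × ℝ × ℝ :=
  cls ((st i).erase s(i, j)) {s(i, j)} (estar j (univ \ {i, j})) (0, 1, 1) (0, 1, 0) (θ, 1, 1)

theorem A3_d1 {n : ℕ} {i j : Fin n} : Disjoint ((st i).erase s(i, j)) {s(i, j)} := by
  rw [Finset.disjoint_singleton_right]
  exact Finset.notMem_erase _ _

theorem A3_d2 {n : ℕ} {i j : Fin n} (hij : i ≠ j) :
    Disjoint ((st i).erase s(i, j)) (estar j (univ \ {i, j})) := by
  rw [Finset.disjoint_left]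
  intro e he he2
  rw [Finset.mem_erase, mem_st] at he
  obtain ⟨hne, a, ha, rfl⟩ := he
  rw [mem_estar] at he2
  obtain ⟨b, hb, hab⟩ := he2
  rw [Finset.mem_sdiff, Finset.mem_insert, Finset.mem_singleton, not_or] at hb
  rw [Sym2.eq_iff] at hab
  rcases hab with h | h
  · exact hij h.1.symm
  · exact hb.2.1 h.2

theorem A3_d3 {n : ℕ} {i j : Fin n} :
    Disjoint ({s(i, j)} : Finset (Sym2 (Fin n))) (estar j (univ \ {i, j})) := by
  rw [Finset.disjoint_singleton_left, mem_estar]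
  rintro ⟨b, hb, hab⟩
  rw [Finset.mem_sdiff, Finset.mem_insert, Finset.mem_singleton, not_or] at hb
  rw [Sym2.eq_iff] at hab
  rcases hab with h | h
  · exact hb.2.2 h.2
  · exact hb.2.1 h.2

theorem F_A3 {n : ℕ} {i j : Fin n} (hij : i ≠ j) (θ x1 x2 : ℝ) (ω : Sym2 (Fin n) → ℝ)
    (h1 : cnt (st i) x1 ω = 0) (h2 : ω s(i, j) < x2) :
    F x1 x2 (A3 θ i j) ω = θ ^ cnt (estar j (univ \ {i, j})) x1 ω := by
  unfold A3
  rw [F_cls A3_d1 (A3_d2 hij) A3_d3, prod_low, prod_low, Finset.prod_singleton]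
  unfold cnt at h1
  rw [Finset.card_eq_zero, Finset.filter_eq_empty_iff] at h1
  have e1 : cnt ((st i).erase s(i, j)) x1 ω = 0 := by
    unfold cnt
    rw [Finset.card_eq_zero, Finset.filter_eq_empty_iff]
    exact fun e he => h1 (Finset.mem_of_mem_erase he)
  have e2 : ¬ ω s(i, j) < x1 := h1 (mem_st.mpr ⟨j, hij.symm, rfl⟩)
  have e3 : lev x1 x2 (0, 1, 0) (ω s(i, j)) = 1 := by
    unfold lev
    rw [if_neg e2, if_pos h2]
  rw [e1, e3]
  simp

theorem M_A3 {n : ℕ} {i j : Fin n} (hij : i ≠ j) (θ x1 x2 : ℝ) :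
    ∏ e, mean ν x1 x2 (A3 θ i j e) = (1 - ν.real (Set.Iio x1)) ^ (n - 2) *
      (ν.real (Set.Iio x2) - ν.real (Set.Iio x1)) *
      (1 + ν.real (Set.Iio x1) * (θ - 1)) ^ (n - 2) := by
  unfold A3
  rw [M_cls ν A3_d1 (A3_d2 hij) A3_d3, mean_low', mean_low', Finset.card_singleton, pow_one,
    Finset.card_erase_of_mem (mem_st.mpr ⟨j, hij.symm, rfl⟩), card_st, card_estar]
  have hc : (univ \ ({i, j} : Finset (Fin n))).card = n - 2 := by
    rw [Finset.card_sdiff_of_subset (Finset.subset_univ _), Finset.card_pair hij]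
    simp
  rw [hc]
  have e1 : mean ν x1 x2 (0, 1, 0) = ν.real (Set.Iio x2) - ν.real (Set.Iio x1) := by
    unfold mean; ring
  rw [e1]
  have e2 : n - 1 - 1 = n - 2 := by omega
  have e3 : 1 + ν.real (Set.Iio x1) * (0 - 1) = 1 - ν.real (Set.Iio x1) := by ring
  rw [e2, e3]

theorem A3_nn {n : ℕ} {θ : ℝ} (hθ : 0 ≤ θ) (i j : Fin n) (e : Sym2 (Fin n)) :
    0 ≤ (A3 θ i j e).1 ∧ 0 ≤ (A3 θ i j e).2.1 ∧ 0 ≤ (A3 θ i j e).2.2 := by
  unfold A3
  exact cls_nn _ _ _ ⟨le_refl _, zero_le_one, zero_le_one⟩ ⟨le_refl _, zero_le_one, le_refl _⟩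
    ⟨hθ, zero_le_one, zero_le_one⟩ e

/-- weights for the event: few edges at `i` between the levels -/
noncomputable def A4 {n : ℕ} (i : Fin n) : Sym2 (Fin n) → ℝ × ℝ × ℝ :=
  cls (st i) ∅ ∅ (0, 1 / 2, 1) (1, 1, 1) (1, 1, 1)

theorem F_A4 {n : ℕ} {i : Fin n} {x1 x2 : ℝ} (ω : Sym2 (Fin n) → ℝ)
    (h1 : cnt (st i) x1 ω = 0) : F x1 x2 (A4 i) ω = (1 / 2) ^ cnt (st i) x2 ω := by
  unfold A4
  rw [F_cls (Finset.disjoint_empty_right _) (Finset.disjoint_empty_right _)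
    (Finset.disjoint_empty_right _)]
  unfold cnt at h1
  rw [Finset.card_eq_zero, Finset.filter_eq_empty_iff] at h1
  have e1 : ∏ e ∈ st i, lev x1 x2 (0, 1 / 2, 1) (ω e) = (1 / 2) ^ cnt (st i) x2 ω := by
    unfold cnt
    rw [← Finset.prod_const, Finset.prod_filter]
    refine Finset.prod_congr rfl fun e he => ?_
    unfold lev
    rw [if_neg (h1 he)]
  rw [e1]
  simp

theorem M_A4 {n : ℕ} (i : Fin n) (x1 x2 : ℝ) :
    ∏ e, mean ν x1 x2 (A4 i e) =
      (1 - (ν.real (Set.Iio x1) + ν.real (Set.Iio x2)) / 2) ^ (n - 1) := by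
  unfold A4
  rw [M_cls ν (Finset.disjoint_empty_right _) (Finset.disjoint_empty_right _)
    (Finset.disjoint_empty_right _), card_st]
  have e1 : mean ν x1 x2 (0, 1 / 2, 1) =
      1 - (ν.real (Set.Iio x1) + ν.real (Set.Iio x2)) / 2 := by
    unfold mean; ring
  rw [e1]
  simp

theorem A4_nn {n : ℕ} (i : Fin n) (e : Sym2 (Fin n)) :
    0 ≤ (A4 i e).1 ∧ 0 ≤ (A4 i e).2.1 ∧ 0 ≤ (A4 i e).2.2 := by
  unfold A4
  exact cls_nn _ _ _ ⟨le_refl _, by norm_num, zero_le_one⟩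
    ⟨zero_le_one, zero_le_one, zero_le_one⟩ ⟨zero_le_one, zero_le_one, zero_le_one⟩ e

/-- the count at a star in terms of neighbours -/
theorem cnt_st {n : ℕ} (i : Fin n) (x : ℝ) (ω : Sym2 (Fin n) → ℝ) :
    cnt (st i) x ω = (univ.filter (fun w => w ≠ i ∧ ω s(i, w) < x)).card := by
  unfold st
  rw [cnt_estar]
  congr 1
  ext w
  simp

/-- a non isolated vertex without cheap edges comes with a bad event -/
theorem det_vertex {n : ℕ} {k : ℕ} {x1 x2 θ : ℝ} (hx : x1 ≤ x2) (hθ0 : 0 < θ) (hθ1 : θ ≤ 1)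
    (ω : Sym2 (Fin n) → ℝ) (i j : Fin n) (hadj : (mutualGraph k ω).Adj i j) :
    (0 : ℝ) ^ cnt (st i) x1 ω ≤
      ∑ l, (if i = l then 0 else (θ ^ k)⁻¹) * F x1 x2 (A3 θ i l) ω +
        2 ^ k * F x1 x2 (A4 i) ω := by
  have hnn1 : ∀ l, 0 ≤ (if i = l then 0 else (θ ^ k)⁻¹) * F x1 x2 (A3 θ i l) ω := by
    intro l
    refine mul_nonneg ?_ (F_nonneg _ _ _ (A3_nn hθ0.le i l) ω)
    split_ifs
    · exact le_refl _
    · positivity
  have hnn2 : 0 ≤ (2 : ℝ) ^ k * F x1 x2 (A4 i) ω :=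
    mul_nonneg (by positivity) (F_nonneg _ _ _ (A4_nn i) ω)
  have hnn3 : 0 ≤ ∑ l, (if i = l then 0 else (θ ^ k)⁻¹) * F x1 x2 (A3 θ i l) ω :=
    Finset.sum_nonneg fun l _ => hnn1 l
  by_cases h0 : cnt (st i) x1 ω = 0
  · rw [h0, pow_zero]
    by_cases hk : cnt (st i) x2 ω < k
    · have h1 : 1 ≤ (2 : ℝ) ^ k * F x1 x2 (A4 i) ω := by
        rw [F_A4 ω h0]
        have h2 : (1 / 2 : ℝ) ^ k ≤ (1 / 2) ^ cnt (st i) x2 ω :=
          pow_le_pow_of_le_one (by norm_num) (by norm_num) hk.le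
        calc (1 : ℝ) = 2 ^ k * (1 / 2) ^ k := by rw [← mul_pow]; norm_num
          _ ≤ _ := mul_le_mul_of_nonneg_left h2 (by positivity)
      linarith
    · push Not at hk
      obtain ⟨hij, hc1, hc2⟩ := hadj
      have hlt : ω s(i, j) < x2 := by
        by_contra hge
        push Not at hge
        refine absurd hc1 (not_lt.mpr (hk.trans ?_))
        rw [cnt_st]
        unfold cheaper
        refine Finset.card_le_card ?_
        intro l hl
        rw [Finset.mem_filter] at hl ⊢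
        exact ⟨hl.1, hl.2.1, hl.2.2.trans_le hge⟩
      have hge1 : x1 ≤ ω s(i, j) := by
        have h0' := h0
        unfold cnt at h0'
        rw [Finset.card_eq_zero, Finset.filter_eq_empty_iff] at h0'
        exact not_lt.mp (h0' (mem_st.mpr ⟨j, hij.symm, rfl⟩))
      have hcnt : cnt (estar j (univ \ {i, j})) x1 ω ≤ k := by
        refine le_trans ?_ hc2.le
        rw [cnt_estar]
        unfold cheaper
        refine Finset.card_le_card ?_
        intro l hl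
        rw [Finset.mem_filter, Finset.mem_sdiff, Finset.mem_insert, Finset.mem_singleton,
          not_or] at hl
        rw [Finset.mem_filter]
        refine ⟨Finset.mem_univ _, hl.1.2.2, ?_⟩
        refine hl.2.trans_le ?_
        rwa [Sym2.eq_swap]
      have h1 : 1 ≤ (if i = j then 0 else (θ ^ k)⁻¹) * F x1 x2 (A3 θ i j) ω := by
        rw [if_neg hij, F_A3 hij θ x1 x2 ω h0 hlt, inv_mul_eq_div, one_le_div (by positivity)]
        exact pow_le_pow_of_le_one hθ0.le hθ1 hcnt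
      have h2 := Finset.single_le_sum (f := fun l => (if i = l then 0 else (θ ^ k)⁻¹) *
        F x1 x2 (A3 θ i l) ω) (fun l _ => hnn1 l) (Finset.mem_univ j)
      beta_reduce at h2
      linarith
  · rw [zero_pow h0]
    linarith

theorem exists_adj_of_connected {n : ℕ} (hn : 2 ≤ n) {G : SimpleGraph (Fin n)}
    (hG : G.Connected) (i : Fin n) : ∃ j, G.Adj i j := by
  have : ∃ j : Fin n, j ≠ i := by
    by_cases h : i.1 = 0
    · exact ⟨⟨1, by omega⟩, fun h' => by rw [← h'] at h; simp at h⟩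
    · exact ⟨⟨0, by omega⟩, fun h' => h (by rw [← h'])⟩
  obtain ⟨j, hj⟩ := this
  obtain ⟨p⟩ := hG.preconnected i j
  cases p with
  | nil => exact absurd rfl hj
  | cons h _ => exact ⟨_, h⟩

/-- the index type of the test function -/
abbrev Ix (n : ℕ) := (Fin n × Fin n) ⊕ (Fin n ⊕ (Unit ⊕ ((Fin n × Fin n) ⊕ Fin n)))

noncomputable def co (n k : ℕ) (θ N : ℝ) : Ix n → ℝ
  | .inl _ => 4 / N ^ 2
  | .inr (.inl _) => -(8 / N)
  | .inr (.inr (.inl _)) => 4
  | .inr (.inr (.inr (.inl q))) => 2 / N * (if q.1 = q.2 then 0 else (θ ^ k)⁻¹)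
  | .inr (.inr (.inr (.inr _))) => 2 / N * 2 ^ k

noncomputable def Aa (n : ℕ) (θ : ℝ) : Ix n → Sym2 (Fin n) → ℝ × ℝ × ℝ
  | .inl q => A1 (st q.1 ∪ st q.2) 0
  | .inr (.inl i) => A1 (st i) 0
  | .inr (.inr (.inl _)) => A1 ∅ 0
  | .inr (.inr (.inr (.inl q))) => A3 θ q.1 q.2
  | .inr (.inr (.inr (.inr i))) => A4 i

theorem G_eq {n k : ℕ} {θ N x1 x2 : ℝ} (hN : 0 < N) (ω : Sym2 (Fin n) → ℝ) :
    ∑ i : Ix n, co n k θ N i * F x1 x2 (Aa n θ i) ω =
      4 * ((∑ i : Fin n, (0 : ℝ) ^ cnt (st i) x1 ω) - N) ^ 2 / N ^ 2 +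
      2 / N * ∑ i : Fin n, (∑ l, (if i = l then 0 else (θ ^ k)⁻¹) * F x1 x2 (A3 θ i l) ω +
        2 ^ k * F x1 x2 (A4 i) ω) := by
  rw [Fintype.sum_sum_type, Fintype.sum_sum_type, Fintype.sum_sum_type, Fintype.sum_sum_type,
    Fintype.sum_prod_type, Fintype.sum_prod_type]
  simp only [co, Aa, F_A1, cnt_union_zero]
  have e1 : ∑ x : Fin n, ∑ y : Fin n, 4 / N ^ 2 * ((0 : ℝ) ^ cnt (st x) x1 ω *
      0 ^ cnt (st y) x1 ω) = 4 / N ^ 2 * (∑ i : Fin n, (0 : ℝ) ^ cnt (st i) x1 ω) ^ 2 := by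
    rw [sq (∑ i : Fin n, (0 : ℝ) ^ cnt (st i) x1 ω), Finset.sum_mul_sum, Finset.mul_sum]
    refine Finset.sum_congr rfl fun x _ => ?_
    rw [Finset.mul_sum]
  have e2 : ∑ x : Fin n, -(8 / N) * (0 : ℝ) ^ cnt (st x) x1 ω =
      -(8 / N) * ∑ i : Fin n, (0 : ℝ) ^ cnt (st i) x1 ω := by
    rw [Finset.mul_sum]
  have e3 : ∑ _x : Unit, 4 * (0 : ℝ) ^ cnt (∅ : Finset (Sym2 (Fin n))) x1 ω = 4 := by
    simp [cnt]
  have e4 : ∑ x : Fin n, ∑ y : Fin n, 2 / N * (if x = y then 0 else (θ ^ k)⁻¹) *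
      F x1 x2 (A3 θ x y) ω + ∑ x : Fin n, 2 / N * 2 ^ k * F x1 x2 (A4 x) ω =
      2 / N * ∑ i : Fin n, (∑ l, (if i = l then 0 else (θ ^ k)⁻¹) * F x1 x2 (A3 θ i l) ω +
        2 ^ k * F x1 x2 (A4 i) ω) := by
    rw [Finset.mul_sum, ← Finset.sum_add_distrib]
    refine Finset.sum_congr rfl fun x _ => ?_
    rw [mul_add, Finset.mul_sum, mul_assoc]
    congr 1
    refine Finset.sum_congr rfl fun y _ => ?_
    rw [mul_assoc]
  rw [e1, e2, e3, e4]
  field_simp
  ring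

theorem G_mean {n k : ℕ} (hn : 2 ≤ n) {θ N x1 x2 : ℝ} :
    ∑ i : Ix n, co n k θ N i * ∏ e, mean ν x1 x2 (Aa n θ i e) =
      4 / N ^ 2 * (n * (1 - ν.real (Set.Iio x1)) ^ (n - 1) +
        n * (n - 1) * (1 - ν.real (Set.Iio x1)) ^ (2 * n - 3)) -
      8 / N * (n * (1 - ν.real (Set.Iio x1)) ^ (n - 1)) + 4 +
      2 / N * (n * (n - 1) * ((θ ^ k)⁻¹ * ((1 - ν.real (Set.Iio x1)) ^ (n - 2) *
        (ν.real (Set.Iio x2) - ν.real (Set.Iio x1)) *
        (1 + ν.real (Set.Iio x1) * (θ - 1)) ^ (n - 2)))) +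
      2 / N * (n * (2 ^ k *
        (1 - (ν.real (Set.Iio x1) + ν.real (Set.Iio x2)) / 2) ^ (n - 1))) := by
  rw [Fintype.sum_sum_type, Fintype.sum_sum_type, Fintype.sum_sum_type, Fintype.sum_sum_type,
    Fintype.sum_prod_type, Fintype.sum_prod_type]
  simp only [co, Aa, M_A1', M_A4, Finset.card_empty, pow_zero, card_st]
  have e0 : 1 + ν.real (Set.Iio x1) * (0 - 1) = 1 - ν.real (Set.Iio x1) := by ring
  simp only [e0]
  have hdiag : ∀ (a b : ℝ) (x : Fin n), ∑ y : Fin n, (if x = y then a else b) =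
      a + (n - 1) * b := by
    intro a b x
    rw [← Finset.add_sum_erase _ _ (Finset.mem_univ x), if_pos rfl]
    congr 1
    have : ∀ y ∈ univ.erase x, (if x = y then a else b) = b := by
      intro y hy
      rw [if_neg (Finset.ne_of_mem_erase hy).symm]
    rw [Finset.sum_congr rfl this, Finset.sum_const, nsmul_eq_mul,
      Finset.card_erase_of_mem (Finset.mem_univ x), Finset.card_univ, Fintype.card_fin,
      Nat.cast_sub (by omega)]
    simp
  have e1 : ∀ x y : Fin n, 4 / N ^ 2 * (1 - ν.real (Set.Iio x1)) ^ (st x ∪ st y).card =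
      if x = y then 4 / N ^ 2 * (1 - ν.real (Set.Iio x1)) ^ (n - 1)
      else 4 / N ^ 2 * (1 - ν.real (Set.Iio x1)) ^ (2 * n - 3) := by
    intro x y
    split_ifs with h
    · rw [h, Finset.union_self, card_st]
    · rw [card_st_union h]
  have e2 : ∀ x y : Fin n, 2 / N * (if x = y then 0 else (θ ^ k)⁻¹) *
      ∏ e, mean ν x1 x2 (A3 θ x y e) = if x = y then 0 else
      2 / N * ((θ ^ k)⁻¹ * ((1 - ν.real (Set.Iio x1)) ^ (n - 2) *
        (ν.real (Set.Iio x2) - ν.real (Set.Iio x1)) *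
        (1 + ν.real (Set.Iio x1) * (θ - 1)) ^ (n - 2))) := by
    intro x y
    split_ifs with h
    · simp
    · rw [M_A3 ν h]; ring
  simp only [e1, e2, hdiag, Finset.sum_const, Finset.card_univ, Fintype.card_fin, nsmul_eq_mul,
    Fintype.card_unit]
  push_cast
  ring

theorem low_arith {n : ℕ} (hn : 2 ≤ n) {q p N Δ W T R K : ℝ} (hq : 0 < q) (hpq : p = 1 - q)
    (hN : N = n * q ^ (n - 1)) (hΔ : 0 ≤ Δ) (hW : 0 ≤ W) (hT : 0 ≤ T) :
    4 / N ^ 2 * (n * q ^ (n - 1) + n * (n - 1) * q ^ (2 * n - 3)) -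
      8 / N * (n * q ^ (n - 1)) + 4 +
      2 / N * (n * (n - 1) * (T * (q ^ (n - 2) * Δ * W))) +
      2 / N * (n * (K * R ^ (n - 1))) ≤
      4 / N + 4 * p / q + 2 * (n * Δ / q) * (T * W) + 2 * (K * (R / q) ^ (n - 1)) := by
  have hn0 : (0 : ℝ) < n := by positivity
  have hN0 : 0 < N := by rw [hN]; positivity
  have e1 : q ^ (n - 1) = q ^ (n - 2) * q := by
    rw [← pow_succ]; congr 1; omega
  have e2 : q ^ (2 * n - 3) * q = q ^ (n - 1) * q ^ (n - 1) := by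
    rw [← pow_succ, ← pow_add]; congr 1; omega
  have a1 : 4 / N ^ 2 * (n * q ^ (n - 1) + n * (n - 1) * q ^ (2 * n - 3)) ≤ 4 / N + 4 / q := by
    have h1 : (n : ℝ) * (n - 1) * q ^ (2 * n - 3) ≤ N ^ 2 / q := by
      rw [le_div_iff₀ hq, hN]
      have : (n : ℝ) * (n - 1) * q ^ (2 * n - 3) * q =
          n * (n - 1) * (q ^ (n - 1) * q ^ (n - 1)) := by
        rw [mul_assoc _ _ q, e2]
      rw [this]
      have h2 : 0 < q ^ (n - 1) := by positivity
      have h3 : (n * q ^ (n - 1)) ^ 2 = n * n * (q ^ (n - 1) * q ^ (n - 1)) := by ring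
      rw [h3]
      refine mul_le_mul_of_nonneg_right ?_ (by positivity)
      refine mul_le_mul_of_nonneg_left (by linarith) hn0.le
    have h2 : (n : ℝ) * q ^ (n - 1) + n * (n - 1) * q ^ (2 * n - 3) ≤ N + N ^ 2 / q := by
      rw [← hN]; linarith
    refine (mul_le_mul_of_nonneg_left h2 (by positivity)).trans (le_of_eq ?_)
    field_simp
  have a2 : 8 / N * (n * q ^ (n - 1)) = 8 := by
    rw [← hN]; field_simp
  have a3 : 4 * p / q = 4 / q - 4 := by
    rw [hpq]; field_simp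
  have a4 : 2 / N * (n * (n - 1) * (T * (q ^ (n - 2) * Δ * W))) ≤
      2 * (n * Δ / q) * (T * W) := by
    have h1 : 2 / N * (n * (n - 1) * (T * (q ^ (n - 2) * Δ * W))) =
        2 * ((n - 1) * Δ / q) * (T * W) := by
      rw [hN, e1]
      field_simp
    rw [h1]
    refine mul_le_mul_of_nonneg_right ?_ (by positivity)
    refine mul_le_mul_of_nonneg_left ?_ (by norm_num)
    refine div_le_div_of_nonneg_right ?_ hq.le
    refine mul_le_mul_of_nonneg_right (by linarith) hΔ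
  have a5 : 2 / N * (n * (K * R ^ (n - 1))) = 2 * (K * (R / q) ^ (n - 1)) := by
    rw [hN, div_pow]
    field_simp
  rw [a2, a3, a5]
  linarith

theorem low_bound {n k : ℕ} (hn : 2 ≤ n) {θ x1 x2 : ℝ} (hx : x1 ≤ x2) (hθ0 : 0 < θ)
    (hθ1 : θ ≤ 1) (hp1 : ν.real (Set.Iio x1) < 1) :
    (Measure.pi fun _ : Sym2 (Fin n) => ν).real {ω | (mutualGraph k ω).Connected} ≤
      4 / (n * (1 - ν.real (Set.Iio x1)) ^ (n - 1)) +
      4 * ν.real (Set.Iio x1) / (1 - ν.real (Set.Iio x1)) +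
      2 * (n * (ν.real (Set.Iio x2) - ν.real (Set.Iio x1)) / (1 - ν.real (Set.Iio x1))) *
        ((θ ^ k)⁻¹ * (1 + ν.real (Set.Iio x1) * (θ - 1)) ^ (n - 2)) +
      2 * (2 ^ k * ((1 - (ν.real (Set.Iio x1) + ν.real (Set.Iio x2)) / 2) /
        (1 - ν.real (Set.Iio x1))) ^ (n - 1)) := by
  have hp0 := p_nonneg ν x1
  have hq : 0 < 1 - ν.real (Set.Iio x1) := by linarith
  have hn0 : (0 : ℝ) < n := by positivity
  obtain ⟨N, hN⟩ : ∃ N : ℝ, N = n * (1 - ν.real (Set.Iio x1)) ^ (n - 1) := ⟨_, rfl⟩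
  have hN0 : 0 < N := by rw [hN]; positivity
  have hb : ∀ ω : Sym2 (Fin n) → ℝ, 0 ≤ ∑ i : Fin n,
      (∑ l, (if i = l then 0 else (θ ^ k)⁻¹) * F x1 x2 (A3 θ i l) ω +
        2 ^ k * F x1 x2 (A4 i) ω) := by
    intro ω
    refine Finset.sum_nonneg fun i _ => add_nonneg (Finset.sum_nonneg fun l _ => ?_) ?_
    · refine mul_nonneg ?_ (F_nonneg _ _ _ (A3_nn hθ0.le i l) ω)
      split_ifs
      · exact le_refl _
      · positivity
    · exact mul_nonneg (by positivity) (F_nonneg _ _ _ (A4_nn i) ω)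
  have h := markov ν hx (univ : Finset (Ix n)) (co n k θ N) (Aa n θ)
    {ω | (mutualGraph k ω).Connected} ?_ ?_
  · rw [G_mean ν hn] at h
    refine h.trans ?_
    have hx' : ν.real (Set.Iio x1) ≤ ν.real (Set.Iio x2) :=
      measureReal_mono (Set.Iio_subset_Iio hx)
    have hW : 0 ≤ (1 + ν.real (Set.Iio x1) * (θ - 1)) ^ (n - 2) := by
      refine pow_nonneg ?_ _
      nlinarith
    rw [← hN]
    have := low_arith hn hq (p := ν.real (Set.Iio x1)) (by ring) hN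
      (Δ := ν.real (Set.Iio x2) - ν.real (Set.Iio x1)) (by linarith) hW
      (T := (θ ^ k)⁻¹) (by positivity) (K := 2 ^ k)
      (R := 1 - (ν.real (Set.Iio x1) + ν.real (Set.Iio x2)) / 2)
    rw [← hN] at this
    exact this
  · intro ω
    rw [G_eq hN0]
    have := hb ω
    positivity
  · intro ω hω
    rw [G_eq hN0]
    obtain ⟨Y, hY⟩ : ∃ Y : ℝ, Y = ∑ i : Fin n, (0 : ℝ) ^ cnt (st i) x1 ω := ⟨_, rfl⟩
    obtain ⟨D, hD⟩ : ∃ D : ℝ, D = ∑ i : Fin n,
      (∑ l, (if i = l then 0 else (θ ^ k)⁻¹) * F x1 x2 (A3 θ i l) ω +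
        2 ^ k * F x1 x2 (A4 i) ω) := ⟨_, rfl⟩
    have hYD : Y ≤ D := by
      rw [hY, hD]
      refine Finset.sum_le_sum fun i _ => ?_
      obtain ⟨j, hj⟩ := exists_adj_of_connected hn hω i
      exact det_vertex hx hθ0 hθ1 ω i j hj
    rw [← hY, ← hD]
    have hD0 : 0 ≤ D := by rw [hD]; exact hb ω
    rcases le_or_gt Y (N / 2) with h1 | h1
    · have h2 : 1 ≤ 4 * (Y - N) ^ 2 / N ^ 2 := by
        rw [le_div_iff₀ (by positivity)]
        nlinarith
      have h3 : 0 ≤ 2 / N * D := by positivity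
      linarith
    · have h2 : 1 ≤ 2 / N * D := by
        rw [div_mul_eq_mul_div, le_div_iff₀ hN0]
        linarith
      have h3 : 0 ≤ 4 * (Y - N) ^ 2 / N ^ 2 := by positivity
      linarith

end Pool.Agent.R982.Mut
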