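import Mathlib
import Pool.Agent.R982.MutF

/-!
# Limits for the mutual preference graph
-/

open Finset MeasureTheory Filter Topology

namespace Pool.Agent.R982.Mut

theorem mutual_mono {n : ℕ} {k k' : ℕ} (h : k ≤ k') (ω : Sym2 (Fin n) → ℝ) :
    mutualGraph k ω ≤ mutualGraph k' ω := by
  intro i j hij
  exact ⟨hij.1, hij.2.1.trans_le h, hij.2.2.trans_le h⟩

theorem conn_mono {n : ℕ} {k k' : ℕ} (h : k ≤ k') (μ : Measure (Sym2 (Fin n) → ℝ))
    [IsFiniteMeasure μ] : μ.real {ω | (mutualGraph k ω).Connected} ≤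
      μ.real {ω | (mutualGraph k' ω).Connected} := by
  refine measureReal_mono ?_
  intro ω hω
  exact SimpleGraph.Connected.mono (mutual_mono h ω) hω

/-- a probability measure on the line having all quantiles -/
def HasQuantiles (ν : Measure ℝ) : Prop :=
  ∀ p : ℝ, 0 < p → p < 1 → ∃ x, ν.real (Set.Iio x) = p

theorem tendsto_log_nat : Tendsto (fun n : ℕ => Real.log n) atTop atTop :=
  Real.tendsto_log_atTop.comp tendsto_natCast_atTop_atTop

theorem tendsto_log_div_nat : Tendsto (fun n : ℕ => Real.log n / n) atTop (𝓝 0) :=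
  (Real.isLittleO_log_id_atTop.tendsto_div_nhds_zero).comp tendsto_natCast_atTop_atTop

theorem tendsto_exp_neg_mul {a : ℝ} (ha : 0 < a) :
    Tendsto (fun k : ℕ => Real.exp (-(a * k))) atTop (𝓝 0) := by
  refine Real.tendsto_exp_neg_atTop_nhds_zero.comp ?_
  exact (tendsto_natCast_atTop_atTop).const_mul_atTop ha

theorem tendsto_pow_exp (m : ℕ) :
    Tendsto (fun k : ℕ => (k : ℝ) ^ m * Real.exp (-(k : ℝ))) atTop (𝓝 0) :=
  (Real.tendsto_pow_mul_exp_neg_atTop_nhds_zero m).comp tendsto_natCast_atTop_atTop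

theorem tendsto_mul_exp {a : ℝ} (ha : 0 < a) :
    Tendsto (fun k : ℕ => (k : ℝ) * Real.exp (-(a * k))) atTop (𝓝 0) := by
  have h1 : Tendsto (fun k : ℕ => a * (k : ℝ)) atTop atTop :=
    (tendsto_natCast_atTop_atTop).const_mul_atTop ha
  have h2 := ((Real.tendsto_pow_mul_exp_neg_atTop_nhds_zero 1).comp h1).const_mul a⁻¹
  rw [mul_zero] at h2
  refine h2.congr fun k => ?_
  simp only [Function.comp, pow_one]
  rw [← mul_assoc, ← mul_assoc, inv_mul_cancel₀ ha.ne', one_mul]

/-- **upper half**: above the threshold the graph is connected with high probability -/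
theorem upper (ν : ℕ → Measure ℝ)
    (hν : ∀ᶠ n in atTop, IsProbabilityMeasure (ν n) ∧ HasQuantiles (ν n)) (k : ℕ → ℕ) {c : ℝ}
    (hc : 1 < c) (hk : ∀ᶠ n : ℕ in atTop, c * Real.log n ≤ k n) :
    Tendsto (fun n : ℕ => (Measure.pi fun _ : Sym2 (Fin n) => ν n).real
      {ω | (mutualGraph (k n) ω).Connected}) atTop (𝓝 1) := by
  obtain ⟨ε, hε⟩ : ∃ ε : ℝ, ε = (1 - c⁻¹) / 4 := ⟨_, rfl⟩
  have hc0 : 0 < c := by linarith
  have hci : c⁻¹ < 1 := inv_lt_one_of_one_lt₀ hc
  have hci0 : 0 < c⁻¹ := inv_pos.mpr hc0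
  have hε0 : 0 < ε := by rw [hε]; linarith
  have hε1 : ε < 1 / 4 := by rw [hε]; linarith
  have hε4 : 1 - 4 * ε = c⁻¹ := by rw [hε]; ring
  obtain ⟨C, β, m, K0, hC, hβ, hK0, H⟩ := fail_bound hε0 hε1
  obtain ⟨κ, hκ⟩ : ∃ κ : ℕ → ℕ, κ = fun n : ℕ => ⌈c * Real.log n⌉₊ := ⟨_, rfl⟩
  have hκr : ∀ n : ℕ, c * Real.log n ≤ κ n := fun n => by rw [hκ]; exact Nat.le_ceil _
  have hκt : Tendsto κ atTop atTop := by
    have h1 : Tendsto (fun n : ℕ => c * Real.log n) atTop atTop :=
      tendsto_log_nat.const_mul_atTop hc0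
    rw [hκ]
    exact tendsto_nat_ceil_atTop.comp h1
  have hE : Tendsto (fun k : ℕ => C * Real.exp (-(ε * k)) + C * ((k : ℝ) ^ m *
      Real.exp (-(k : ℝ))) + Real.exp (-(k : ℝ)) + Real.exp (-(k : ℝ)) +
      C * Real.exp (-(β * k))) atTop (𝓝 0) := by
    have h1 := (tendsto_exp_neg_mul hε0).const_mul C
    have h2 := (tendsto_pow_exp m).const_mul C
    have h3 := tendsto_exp_neg_mul one_pos
    simp only [one_mul] at h3
    have h4 := (tendsto_exp_neg_mul hβ).const_mul C
    have h5 := (((h1.add h2).add h3).add h3).add h4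
    simpa using h5
  have hE' := hE.comp hκt
  have hE'' := hE'.const_sub 1
  rw [sub_zero] at hE''
  refine tendsto_of_tendsto_of_tendsto_of_le_of_le' hE'' tendsto_const_nhds ?_ ?_
  · have hle : ∀ᶠ n : ℕ in atTop, κ n ≤ n := by
      have h1 := tendsto_log_div_nat.const_mul c
      rw [mul_zero] at h1
      have h2 := h1.eventually_lt_const (show (0 : ℝ) < 1 / 2 by norm_num)
      filter_upwards [h2, eventually_ge_atTop 2] with n hn hn2
      have hn0 : (0 : ℝ) < n := by positivity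
      have h3 : c * Real.log n < n / 2 := by
        have : c * (Real.log n / n) * n = c * Real.log n := by field_simp
        nlinarith
      have hlog : 0 ≤ Real.log n := Real.log_natCast_nonneg n
      have h4 : (κ n : ℝ) < c * Real.log n + 1 := by
        rw [hκ]; exact Nat.ceil_lt_add_one (by positivity)
      have h5 : (2 : ℝ) ≤ n := by exact_mod_cast hn2
      have h6 : (κ n : ℝ) ≤ n := by linarith
      exact_mod_cast h6
    filter_upwards [hν, hk, hκt.eventually_ge_atTop K0, hle] with n hn hkn hK hle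
    obtain ⟨hprob, hq⟩ := hn
    have h1 : κ n ≤ k n := by
      rw [hκ]; exact Nat.ceil_le.mpr hkn
    have h2 := conn_mono h1 (Measure.pi fun _ : Sym2 (Fin n) => ν n)
    have h3 := H (ν n) hq n (κ n) hK hle (by
      rw [hε4, inv_mul_eq_div, le_div_iff₀ hc0, mul_comm]; exact hκr n)
    have h4 : (1 : ℝ) ≤ (Measure.pi fun _ : Sym2 (Fin n) => ν n).real
        {ω | (mutualGraph (κ n) ω).Connected} +
        (Measure.pi fun _ : Sym2 (Fin n) => ν n).real
        {ω | ¬ (mutualGraph (κ n) ω).Connected} := by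
      have h5 : (Measure.pi fun _ : Sym2 (Fin n) => ν n).real Set.univ = 1 := probReal_univ
      rw [← h5]
      refine le_trans (measureReal_mono ?_) (measureReal_union_le _ _)
      intro ω _
      by_cases h : (mutualGraph (κ n) ω).Connected
      · exact Or.inl h
      · exact Or.inr h
    simp only [Function.comp]
    linarith
  · filter_upwards [hν] with n hn
    have := hn.1
    exact measureReal_le_one

theorem low_explicit (ν : Measure ℝ) [IsProbabilityMeasure ν] (hq : HasQuantiles ν)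
    {a r δ : ℝ} (ha0 : 0 < a) (hr : r < 1) (hδ0 : 0 < δ) (hδ : (1 + δ) * a = r)
    {n k : ℕ} (hn : 2 ≤ n) (hk1 : 1 ≤ k) (hka : (k : ℝ) ≤ a * Real.log n)
    (hp1 : (1 + δ) * k / n ≤ (1 - r) / 4) (hp2 : 4 * (k : ℝ) / n ≤ (1 - r) / 4) :
    (Measure.pi fun _ : Sym2 (Fin n) => ν).real {ω | (mutualGraph k ω).Connected} ≤
      4 * Real.exp (-((1 - r) / (1 + r) * Real.log n)) + 8 * ((1 + δ) * k / n) +
      16 * Real.exp (2 * δ) * (k * Real.exp (-((δ - Real.log (1 + δ)) * k))) +
      2 * Real.exp 2 * Real.exp (-(k : ℝ)) := by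
  have hr0 : 0 < r := by rw [← hδ]; positivity
  have hn2 : (2 : ℝ) ≤ n := by exact_mod_cast hn
  have hn0 : (0 : ℝ) < n := by linarith
  have hk0 : (1 : ℝ) ≤ k := by exact_mod_cast hk1
  obtain ⟨p, hp⟩ : ∃ p : ℝ, p = (1 + δ) * k / n := ⟨_, rfl⟩
  obtain ⟨s, hs⟩ : ∃ s : ℝ, s = 4 * (k : ℝ) / n := ⟨_, rfl⟩
  rw [← hp] at hp1
  rw [← hs] at hp2
  have hp0 : 0 < p := by rw [hp]; positivity
  have hs0 : 0 < s := by rw [hs]; positivity
  have hpn : p * n = (1 + δ) * k := by rw [hp]; field_simp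
  have hsn : s * n = 4 * k := by rw [hs]; field_simp
  obtain ⟨x1, hx1⟩ := hq p hp0 (by linarith)
  obtain ⟨x2, hx2⟩ := hq (p + s) (by linarith) (by linarith)
  have hx : x1 ≤ x2 := by
    by_contra hcon
    push Not at hcon
    have : ν.real (Set.Iio x2) ≤ ν.real (Set.Iio x1) :=
      measureReal_mono (Set.Iio_subset_Iio hcon.le)
    rw [hx1, hx2] at this
    linarith
  have hθ0 : 0 < (1 + δ)⁻¹ := by positivity
  have hθ1 : (1 + δ)⁻¹ ≤ 1 := inv_le_one_of_one_le₀ (by linarith)
  have h := low_bound (k := k) ν hn hx hθ0 hθ1 (by rw [hx1]; linarith)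
  rw [hx1, hx2] at h
  refine h.trans ?_
  have hq0 : (3 + r) / 4 ≤ 1 - p := by linarith
  have hqpos : 0 < 1 - p := by linarith
  have hkn : (k : ℝ) ≤ n := by
    have h1 : Real.log n ≤ n := (Real.log_le_sub_one_of_pos hn0).trans (by linarith)
    have h2 : a ≤ 1 := by nlinarith
    have h3 : 0 ≤ Real.log n := Real.log_natCast_nonneg n
    nlinarith
  -- term 1
  have t1 : 4 / (n * (1 - p) ^ (n - 1)) ≤
      4 * Real.exp (-((1 - r) / (1 + r) * Real.log n)) := by
    have e1 : Real.exp ((1 - r) / (1 + r) * Real.log n) ≤ n * (1 - p) ^ (n - 1) := by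
      have f1 : (1 - p) ^ n ≤ (1 - p) ^ (n - 1) :=
        pow_le_pow_of_le_one hqpos.le (by linarith) (by omega)
      have f2 : Real.exp (Real.log n) = n := Real.exp_log hn0
      have f3 : 1 - (1 - p)⁻¹ ≤ Real.log (1 - p) := Real.one_sub_inv_le_log_of_pos hqpos
      have f4 : Real.exp (n * Real.log (1 - p)) = (1 - p) ^ n := by
        rw [Real.exp_nat_mul, Real.exp_log hqpos]
      have f5 : -(p * n * (1 - p)⁻¹) ≤ n * Real.log (1 - p) := by
        have : (n : ℝ) * (1 - (1 - p)⁻¹) = -(p * n * (1 - p)⁻¹) := by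
          field_simp; ring
        rw [← this]
        exact mul_le_mul_of_nonneg_left f3 hn0.le
      have f6 : p * n ≤ r * Real.log n := by
        rw [hpn]
        have := mul_le_mul_of_nonneg_left hka (by positivity : 0 ≤ 1 + δ)
        rw [← mul_assoc, hδ] at this
        exact this
      have f7 : (1 - p)⁻¹ ≤ 2 / (1 + r) := by
        rw [inv_le_comm₀ hqpos (by positivity), inv_div]
        linarith
      have hlog : 0 ≤ Real.log n := Real.log_natCast_nonneg n
      have f8 : p * n * (1 - p)⁻¹ ≤ r * Real.log n * (2 / (1 + r)) :=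
        mul_le_mul f6 f7 (by positivity) (by positivity)
      have f9 : (1 - r) / (1 + r) * Real.log n ≤ Real.log n + n * Real.log (1 - p) := by
        have : (1 - r) / (1 + r) * Real.log n = Real.log n - r * Real.log n * (2 / (1 + r)) := by
          field_simp; ring
        rw [this]; linarith
      calc Real.exp ((1 - r) / (1 + r) * Real.log n)
          ≤ Real.exp (Real.log n + n * Real.log (1 - p)) := Real.exp_le_exp.mpr f9
        _ = n * (1 - p) ^ n := by rw [Real.exp_add, f2, f4]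
        _ ≤ _ := mul_le_mul_of_nonneg_left f1 hn0.le
    rw [Real.exp_neg, div_eq_mul_inv]
    refine mul_le_mul_of_nonneg_left ?_ (by norm_num)
    exact inv_anti₀ (Real.exp_pos _) e1
  -- term 2
  have t2 : 4 * p / (1 - p) ≤ 8 * ((1 + δ) * k / n) := by
    rw [← hp, div_le_iff₀ hqpos]
    nlinarith
  -- term 3
  have t3 : 2 * (n * (p + s - p) / (1 - p)) *
        (((1 + δ)⁻¹ ^ k)⁻¹ * (1 + p * ((1 + δ)⁻¹ - 1)) ^ (n - 2)) ≤
      16 * Real.exp (2 * δ) * (k * Real.exp (-((δ - Real.log (1 + δ)) * k))) := by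
    have g1 : n * (p + s - p) / (1 - p) ≤ 8 * k := by
      rw [div_le_iff₀ hqpos]
      have : (n : ℝ) * (p + s - p) = 4 * k := by rw [← hsn]; ring
      rw [this]
      nlinarith
    have g2 : ((1 + δ)⁻¹ ^ k)⁻¹ = Real.exp (Real.log (1 + δ) * k) := by
      rw [inv_pow, inv_inv, mul_comm, Real.exp_nat_mul, Real.exp_log (by positivity)]
    have g3 : p * ((1 + δ)⁻¹ - 1) = -(δ * (k / n)) := by
      rw [hp]; field_simp; ring
    have hkn1 : (k : ℝ) / n ≤ 1 := by rw [div_le_one hn0]; exact hkn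
    have g5 : p * (1 + δ)⁻¹ = k / n := by rw [hp]; field_simp
    have g4 : (1 + p * ((1 + δ)⁻¹ - 1)) ^ (n - 2) ≤ Real.exp (2 * δ - δ * k) := by
      have g6 : 0 ≤ 1 + p * ((1 + δ)⁻¹ - 1) := by
        have : 0 ≤ p * (1 + δ)⁻¹ := by positivity
        nlinarith
      refine (one_add_pow_le g6 _).trans ?_
      refine Real.exp_le_exp.mpr ?_
      rw [g3, Nat.cast_sub hn]
      push_cast
      have : -(δ * (k / n)) * ((n : ℝ) - 2) = 2 * δ * (k / n) - δ * k := by field_simp; ring
      rw [this]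
      nlinarith
    have g7 : ((1 + δ)⁻¹ ^ k)⁻¹ * (1 + p * ((1 + δ)⁻¹ - 1)) ^ (n - 2) ≤
        Real.exp (2 * δ) * Real.exp (-((δ - Real.log (1 + δ)) * k)) := by
      rw [g2]
      refine (mul_le_mul_of_nonneg_left g4 (Real.exp_pos _).le).trans (le_of_eq ?_)
      rw [← Real.exp_add, ← Real.exp_add]
      congr 1; ring
    have g8 : 0 ≤ ((1 + δ)⁻¹ ^ k)⁻¹ * (1 + p * ((1 + δ)⁻¹ - 1)) ^ (n - 2) := by
      have g6 : 0 ≤ 1 + p * ((1 + δ)⁻¹ - 1) := by
        have : 0 ≤ p * (1 + δ)⁻¹ := by positivity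
        nlinarith
      positivity
    calc 2 * (n * (p + s - p) / (1 - p)) *
        (((1 + δ)⁻¹ ^ k)⁻¹ * (1 + p * ((1 + δ)⁻¹ - 1)) ^ (n - 2))
        ≤ (2 * (8 * k)) * (Real.exp (2 * δ) * Real.exp (-((δ - Real.log (1 + δ)) * k))) :=
          mul_le_mul (by linarith) g7 g8 (by positivity)
      _ = _ := by ring
  -- term 4
  have t4 : 2 * (2 ^ k * ((1 - (p + (p + s)) / 2) / (1 - p)) ^ (n - 1)) ≤
      2 * Real.exp 2 * Real.exp (-(k : ℝ)) := by
    have g1 : (1 - (p + (p + s)) / 2) / (1 - p) ≤ 1 + -(s / 2) := by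
      rw [div_le_iff₀ hqpos]
      nlinarith
    have g2 : 0 ≤ (1 - (p + (p + s)) / 2) / (1 - p) := by
      refine div_nonneg ?_ hqpos.le
      linarith
    have g3 : ((1 - (p + (p + s)) / 2) / (1 - p)) ^ (n - 1) ≤ Real.exp (2 - 2 * k) := by
      refine (pow_le_pow_left₀ g2 g1 _).trans ?_
      refine (one_add_pow_le (by linarith) _).trans ?_
      refine Real.exp_le_exp.mpr ?_
      rw [Nat.cast_sub (by omega)]
      push_cast
      have : -(s / 2) * ((n : ℝ) - 1) = s / 2 - 2 * k := by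
        have : -(s / 2) * ((n : ℝ) - 1) = s / 2 - (s * n) / 2 := by ring
        rw [this, hsn]; ring
      rw [this]
      linarith
    have g4 : (2 : ℝ) ^ k ≤ Real.exp k := by
      have h2e : (2 : ℝ) ≤ Real.exp 1 := by
        have := Real.add_one_le_exp (1 : ℝ); linarith
      calc (2 : ℝ) ^ k ≤ (Real.exp 1) ^ k := pow_le_pow_left₀ (by norm_num) h2e k
        _ = Real.exp k := by rw [← Real.exp_nat_mul]; congr 1; ring
    calc 2 * (2 ^ k * ((1 - (p + (p + s)) / 2) / (1 - p)) ^ (n - 1))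
        ≤ 2 * (Real.exp k * Real.exp (2 - 2 * k)) := by
          refine mul_le_mul_of_nonneg_left ?_ (by norm_num)
          exact mul_le_mul g4 g3 (by positivity) (by positivity)
      _ = _ := by
          rw [← Real.exp_add, mul_assoc, ← Real.exp_add]
          congr 2; ring
  linarith

/-- **lower half**: below the threshold the graph is disconnected with high probability -/
theorem lower (ν : ℕ → Measure ℝ)
    (hν : ∀ᶠ n in atTop, IsProbabilityMeasure (ν n) ∧ HasQuantiles (ν n)) (k : ℕ → ℕ) {c : ℝ}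
    (hc : c < 1) (hk : ∀ᶠ n : ℕ in atTop, (k n : ℝ) ≤ c * Real.log n) :
    Tendsto (fun n : ℕ => (Measure.pi fun _ : Sym2 (Fin n) => ν n).real
      {ω | (mutualGraph (k n) ω).Connected}) atTop (𝓝 0) := by
  obtain ⟨a, ha, hac⟩ : ∃ a : ℝ, a = max c (1 / 2) ∧ c ≤ a := ⟨_, rfl, le_max_left _ _⟩
  have ha1 : a < 1 := by rw [ha]; exact max_lt hc (by norm_num)
  have ha0 : 0 < a := by
    rw [ha]; exact lt_of_lt_of_le (by norm_num) (le_max_right _ _)
  obtain ⟨r, hr⟩ : ∃ r : ℝ, r = (1 + a) / 2 := ⟨_, rfl⟩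
  have hr1 : r < 1 := by rw [hr]; linarith
  have har : a < r := by rw [hr]; linarith
  have hr0 : 0 < r := by linarith
  obtain ⟨δ, hδ⟩ : ∃ δ : ℝ, δ = r / a - 1 := ⟨_, rfl⟩
  have hδ0 : 0 < δ := by
    rw [hδ, sub_pos, lt_div_iff₀ ha0]; linarith
  have hδa : (1 + δ) * a = r := by rw [hδ]; field_simp; ring
  have hγ : 0 < δ - Real.log (1 + δ) := by
    have := Real.log_lt_sub_one_of_pos (show 0 < 1 + δ by linarith) (by linarith)
    linarith
  obtain ⟨κ, hκ⟩ : ∃ κ : ℕ → ℕ, κ = fun n : ℕ => ⌊a * Real.log n⌋₊ := ⟨_, rfl⟩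
  have hκr : ∀ n : ℕ, (κ n : ℝ) ≤ a * Real.log n := fun n => by
    rw [hκ]
    exact Nat.floor_le (mul_nonneg ha0.le (Real.log_natCast_nonneg n))
  have hκt : Tendsto κ atTop atTop := by
    have h1 : Tendsto (fun n : ℕ => a * Real.log n) atTop atTop :=
      tendsto_log_nat.const_mul_atTop ha0
    rw [hκ]
    exact tendsto_nat_floor_atTop.comp h1
  have hκn : Tendsto (fun n : ℕ => (κ n : ℝ) / n) atTop (𝓝 0) := by
    have h1 := tendsto_log_div_nat.const_mul a
    rw [mul_zero] at h1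
    refine tendsto_of_tendsto_of_tendsto_of_le_of_le tendsto_const_nhds h1 ?_ ?_
    · intro n; positivity
    · intro n
      show (κ n : ℝ) / n ≤ a * (Real.log n / n)
      rw [← mul_div_assoc]
      exact div_le_div_of_nonneg_right (hκr n) (Nat.cast_nonneg n)
  have e1 : Tendsto (fun n : ℕ => (1 + δ) * κ n / n) atTop (𝓝 0) := by
    have := hκn.const_mul (1 + δ)
    rw [mul_zero] at this
    refine this.congr fun n => ?_
    ring
  have e2 : Tendsto (fun n : ℕ => 4 * (κ n : ℝ) / n) atTop (𝓝 0) := by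
    have := hκn.const_mul 4
    rw [mul_zero] at this
    refine this.congr fun n => ?_
    ring
  have hlogr : Tendsto (fun n : ℕ => Real.exp (-((1 - r) / (1 + r) * Real.log n))) atTop
      (𝓝 0) := by
    refine Real.tendsto_exp_neg_atTop_nhds_zero.comp ?_
    exact tendsto_log_nat.const_mul_atTop (by
      exact div_pos (by linarith) (by linarith))
  have hE : Tendsto (fun n : ℕ => 4 * Real.exp (-((1 - r) / (1 + r) * Real.log n)) +
      8 * ((1 + δ) * κ n / n) +
      16 * Real.exp (2 * δ) * (κ n * Real.exp (-((δ - Real.log (1 + δ)) * κ n))) +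
      2 * Real.exp 2 * Real.exp (-(κ n : ℝ))) atTop (𝓝 0) := by
    have h1 := hlogr.const_mul 4
    have h2 := e1.const_mul 8
    have h3 := ((tendsto_mul_exp hγ).comp hκt).const_mul (16 * Real.exp (2 * δ))
    have h4' := tendsto_exp_neg_mul one_pos
    simp only [one_mul] at h4'
    have h4 := (h4'.comp hκt).const_mul (2 * Real.exp 2)
    have h5 := ((h1.add h2).add h3).add h4
    simpa using h5
  refine tendsto_of_tendsto_of_tendsto_of_le_of_le' tendsto_const_nhds hE ?_ ?_
  · exact Eventually.of_forall fun n => measureReal_nonneg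
  · have hr4 : 0 < (1 - r) / 4 := by linarith
    filter_upwards [hν, hk, hκt.eventually_ge_atTop 1, e1.eventually_le_const hr4,
      e2.eventually_le_const hr4, eventually_ge_atTop 2] with n hn hkn hκ1 h1 h2 hn2
    obtain ⟨hprob, hq⟩ := hn
    have hlog : 0 ≤ Real.log n := Real.log_natCast_nonneg n
    have h3 : k n ≤ κ n := by
      rw [hκ]
      refine Nat.le_floor (hkn.trans ?_)
      exact mul_le_mul_of_nonneg_right hac hlog
    refine (conn_mono h3 (Measure.pi fun _ : Sym2 (Fin n) => ν n)).trans ?_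
    exact low_explicit (ν n) hq ha0 hr1 hδ0 hδa hn2 hκ1 (hκr n) h1 h2

end Pool.Agent.R982.Mut
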