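import Mathlib
import Pool.Agent.R982.MutG

/-!
# Exponential costs and measurability
-/

open Finset MeasureTheory Filter Topology

namespace Pool.Agent.R982.Mut

theorem hasQuantiles_exp {r : ℝ} (hr : 0 < r) :
    HasQuantiles (ProbabilityTheory.expMeasure r) := by
  have : IsProbabilityMeasure (ProbabilityTheory.expMeasure r) :=
    ProbabilityTheory.isProbabilityMeasure_expMeasure hr
  intro p hp0 hp1
  refine ⟨-Real.log (1 - p) / r, ?_⟩
  have h1 : (ProbabilityTheory.expMeasure r).real (Set.Iio (-Real.log (1 - p) / r)) =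
      (ProbabilityTheory.expMeasure r).real (Set.Iic (-Real.log (1 - p) / r)) := by
    refine measureReal_congr ?_
    have h : ProbabilityTheory.expMeasure r ≪ volume := by
      unfold ProbabilityTheory.expMeasure ProbabilityTheory.gammaMeasure
      exact withDensity_absolutelyContinuous _ _
    exact h.ae_eq Iio_ae_eq_Iic
  rw [h1, ← ProbabilityTheory.cdf_eq_real, ProbabilityTheory.cdf_expMeasure_eq hr]
  have h2 : Real.log (1 - p) < 0 := Real.log_neg (by linarith) (by linarith)
  rw [if_pos (div_nonneg (by linarith) hr.le)]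
  have h3 : -(r * (-Real.log (1 - p) / r)) = Real.log (1 - p) := by field_simp
  rw [h3, Real.exp_log (by linarith)]
  ring

theorem meas_cheaper {n : ℕ} (i j : Fin n) :
    Measurable (fun ω : Sym2 (Fin n) → ℝ => cheaper ω i j) := by
  have h : (fun ω : Sym2 (Fin n) → ℝ => cheaper ω i j) =
      fun ω => ∑ l : Fin n, if l ≠ i ∧ ω s(i, l) < ω s(i, j) then 1 else 0 := by
    funext ω
    unfold cheaper
    rw [Finset.card_filter]
  rw [h]
  refine Finset.measurable_sum _ fun l _ => ?_
  refine Measurable.ite ?_ measurable_const measurable_const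
  by_cases hl : l = i
  · simp [hl]
  · have : {a : Sym2 (Fin n) → ℝ | l ≠ i ∧ a s(i, l) < a s(i, j)} =
        {a | a s(i, l) < a s(i, j)} := by
      ext a; simp [hl]
    rw [this]
    exact measurableSet_lt (measurable_pi_apply _) (measurable_pi_apply _)

theorem meas_adj {n : ℕ} (k : ℕ) (i j : Fin n) :
    MeasurableSet {ω : Sym2 (Fin n) → ℝ | (mutualGraph k ω).Adj i j} := by
  have h : {ω : Sym2 (Fin n) → ℝ | (mutualGraph k ω).Adj i j} =
      {_ω | i ≠ j} ∩ ({ω | cheaper ω i j < k} ∩ {ω | cheaper ω j i < k}) := by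
    ext ω; rfl
  rw [h]
  exact (MeasurableSet.const _).inter ((measurableSet_lt (meas_cheaper i j)
    measurable_const).inter (measurableSet_lt (meas_cheaper j i) measurable_const))

theorem meas_conn (n k : ℕ) :
    MeasurableSet {ω : Sym2 (Fin n) → ℝ | (mutualGraph k ω).Connected} := by
  have h1 : ∀ G : SimpleGraph (Fin n), MeasurableSet
      {ω : Sym2 (Fin n) → ℝ | mutualGraph k ω = G} := by
    intro G
    have h : {ω : Sym2 (Fin n) → ℝ | mutualGraph k ω = G} =
        ⋂ i, ⋂ j, {ω | (mutualGraph k ω).Adj i j ↔ G.Adj i j} := by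
      ext ω
      simp only [Set.mem_iInter, Set.mem_ofPred_eq]
      constructor
      · intro h i j; rw [h]
      · intro h; ext i j; exact h i j
    rw [h]
    refine MeasurableSet.iInter fun i => MeasurableSet.iInter fun j => ?_
    by_cases hG : G.Adj i j
    · have : {ω : Sym2 (Fin n) → ℝ | (mutualGraph k ω).Adj i j ↔ G.Adj i j} =
          {ω | (mutualGraph k ω).Adj i j} := by
        ext ω; simp [hG]
      rw [this]; exact meas_adj k i j
    · have : {ω : Sym2 (Fin n) → ℝ | (mutualGraph k ω).Adj i j ↔ G.Adj i j} =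
          {ω | (mutualGraph k ω).Adj i j}ᶜ := by
        ext ω; simp [hG]
      rw [this]; exact (meas_adj k i j).compl
  have h2 : {ω : Sym2 (Fin n) → ℝ | (mutualGraph k ω).Connected} =
      ⋃ G ∈ {G : SimpleGraph (Fin n) | G.Connected}, {ω | mutualGraph k ω = G} := by
    ext ω
    simp
  rw [h2]
  exact MeasurableSet.biUnion (Set.to_countable _) fun G _ => h1 G

end Pool.Agent.R982.Mut
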